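import Pool.Agent.MP_2a5a28_nt.H63.Main

/-! Definitions and row statements for the bound `log max(|x|^3, y^2) ≪ rad(x^3 - y^2)^(3/4+ε)`. -/

set_option autoImplicit false

namespace Pool.Agent.MP_2a5a28_nt.H15Z

open Finset NumberField Module
open H63 (Sx St Dis nm)

/-- No prime `q` has `q^2 ∣ x` and `q^3 ∣ y`. -/
def Prim (x y : ℤ) : Prop := ∀ q : ℕ, q.Prime → ¬((q : ℤ) ^ 2 ∣ x ∧ (q : ℤ) ^ 3 ∣ y)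

/-- Admissible square divisors of `x^3 - y^2`. -/
def Sq (x y : ℤ) (a : ℕ) : Prop := 1 ≤ a ∧ (a : ℤ) ^ 2 ∣ x ^ 3 - y ^ 2 ∧ ∃ a0 a1 : ℕ, a = a0 * a1 ∧
  IsCoprime (a0 : ℤ) x ∧ (a1 : ℤ) ∣ x ∧ (a1 : ℤ) ^ 2 ∣ y

/-- Places: complex embeddings (each counted once) and finite places. -/
abbrev Pl (L : Type) [Field L] [NumberField L] : Type := (L →+* ℂ) ⊕ FinitePlace L

section

variable {L : Type} [Field L] [NumberField L]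

noncomputable def av : Pl L → AbsoluteValue L ℝ
  | .inl φ => NumberField.place φ
  | .inr w => w.1

noncomputable def lg (v : Pl L) (x : L) : ℝ := Real.log (av v x)

def ar : Pl L → ℝ
  | .inl _ => 1
  | .inr _ => 0

def Full (V : Finset (Pl L)) : Prop := ∀ φ : L →+* ℂ, Sum.inl φ ∈ V

def Un (V : Finset (Pl L)) (x : L) : Prop := x ≠ 0 ∧ ∀ v, v ∉ V → av v x = 1

noncomputable def cost (ψ a : L) (τ : ℝ) : ℝ := ∑ᶠ v : Pl L, max (lg v a - τ * lg v ψ) 0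

noncomputable def ht (ψ : L) : ℝ := ∑ᶠ v : Pl L, max (lg v ψ) 0

/-- Norm of the prime ideal of a finite place. -/
noncomputable def nq (w : FinitePlace L) : ℝ := (Ideal.absNorm w.maximalIdeal.asIdeal : ℝ)

/-- `y` approximates `δ ^ (i / N)` from above. -/
def Ap (δ : L) (N i ρ : ℕ) (r : ℝ) (y : L) : Prop :=
  y ≠ 0 ∧ IsIntegral ℤ ((ρ : L) * y ^ N / δ ^ i) ∧
    ∀ φ : L →+* ℂ, ‖φ y‖ ≤ r * ‖φ δ‖ ^ ((i : ℝ) / N)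

/-- Two-sided approximation. -/
def Ap2 (δ : L) (N i ρ : ℕ) (r : ℝ) (y : L) : Prop := Ap δ N i ρ r y ∧ Ap δ⁻¹ N i ρ r y⁻¹

/-- A colouring with at most `K` colours; equal colours force congruences on `H`. -/
def Col (K : ℝ) (Adm : L → Prop) (H : Finset (Pl L)) (g : Pl L → ℝ) : Prop :=
  ∃ col : L → ℕ, (∀ a, Adm a → (col a : ℝ) + 1 ≤ K) ∧
    ∀ a a', Adm a → Adm a' → col a = col a' → ∀ v ∈ H, av v (a / a' - 1) ≤ Real.exp (-g v)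

/-- `ψ` is close to `1` on `H`. -/
structure Hv (δ : ℝ) (ψ : L) (H : Finset (Pl L)) (g : Pl L → ℝ) (T : ℕ) : Prop where
  pos : ∀ v ∈ H, 0 < g v ∧ ar v ≤ g v
  near : ∀ v ∈ H, av v (ψ - 1) ≤ Real.exp (-(T * g v))
  big : δ * ht ψ ≤ T * ∑ v ∈ H, g v

def Sw (t1 t2 : L) (τ : L ≃ₐ[ℚ] L) : Prop := τ t1 = t2 ∧ τ t2 = t1

def Eqv (t1 t2 y1 y2 : L) : Prop := ∀ τ : L ≃ₐ[ℚ] L, Sw t1 t2 τ → τ y1 = y2 ∧ τ y2 = y1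

/-- Degree of the field generated by `t`. -/
noncomputable def dg (t : L) : ℕ := finrank ℚ (IntermediateField.adjoin ℚ {t})

noncomputable def de (x : ℤ) (t : L) : L := t ^ 2 - (x : L)

noncomputable def ps (x : ℤ) (t1 t2 : L) : L := -de x t1 / de x t2

/-- `L` is the splitting field of `X^3 - 3xX + 2y`, with roots `t1, t2, t3`, `t1` conjugate to `t2`. -/
structure Cub0 (x y : ℤ) (t1 t2 t3 : L) : Prop where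
  prim : Prim x y
  ne : x ^ 3 - y ^ 2 ≠ 0
  gal : IsGalois ℚ L
  s1 : t1 + t2 + t3 = 0
  s2 : t1 * t2 + t1 * t3 + t2 * t3 = -3 * (x : L)
  s3 : t1 * t2 * t3 = -2 * (y : L)
  gen : ∀ g : L ≃ₐ[ℚ] L, g t1 = t1 → g t2 = t2 → g = 1
  conj : ∃ g : L ≃ₐ[ℚ] L, g t1 = t2

/-- The same with the degree bounds. -/
structure Cub (x y : ℤ) (t1 t2 t3 : L) : Prop extends Cub0 x y t1 t2 t3 where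
  d6 : finrank ℚ L ≤ 6
  n2 : 2 ≤ dg t1
  n3 : dg t1 ≤ 3
  dich : ((∃ τ, Sw t1 t2 τ) ∧ finrank ℚ L ≤ 2 * dg t1) ∨
    ((¬∃ τ, Sw t1 t2 τ) ∧ finrank ℚ L ≤ dg t1)

end

noncomputable def Bq (q : ℕ) : ℕ := 100 * ⌈Real.log q⌉₊

noncomputable def rho (Q : Finset ℕ) (N : ℕ) : ℕ := ∏ q ∈ Q, q ^ (N / Bq q)

noncomputable def Kc (Q : Finset ℕ) : ℝ := ∏ q ∈ Q, (Bq q : ℝ) ^ 3

/-- The primes of `6 (x^3 - y^2)`. -/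
def Qs (x y : ℤ) : Finset ℕ := (6 * (x ^ 3 - y ^ 2)).natAbs.primeFactors

noncomputable def Rad (x y : ℤ) : ℝ := ∏ q ∈ Qs x y, (q : ℝ)

/-- The conductor up to a bounded factor. -/
noncomputable def NN (x y : ℤ) : ℝ := Rad x y * ∏ q ∈ (Int.gcd x y).primeFactors, (q : ℝ)

noncomputable def DD (x y : ℤ) (a : ℕ) : ℝ := 432 * |((x ^ 3 - y ^ 2 : ℤ) : ℝ)| / (a : ℝ) ^ 2

/-- Quotients of two-sided approximants. -/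
def Adm {L : Type} [Field L] [NumberField L] (x y : ℤ) (t1 t2 a : L) : Prop :=
  ∃ (N i : ℕ) (y1 y2 : L), 1 ≤ N ∧ i ≤ N ∧
    Ap2 (de x t1) N i (rho (Qs x y) N) (Real.exp 1) y1 ∧
    Ap2 (de x t2) N i (rho (Qs x y) N) (Real.exp 1) y2 ∧ Eqv t1 t2 y1 y2 ∧ a = y1 / y2

/-- As `H63.Out`, with the sum of all coefficients bounded. -/
def OutN {K : Type} [Field K] (ψ : K) (c : ℝ) : Prop :=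
  ∃ R : Polynomial ℤ, R ≠ 0 ∧ ∃ k : ℕ, 1 ≤ k ∧
    (Polynomial.X - Polynomial.C ψ) ^ k ∣ R.map (Int.castRingHom K) ∧
    ∑ i ∈ R.support, |((R.coeff i : ℤ) : ℝ)| ≤ Real.exp (c * k)

/-- Lattice points of the box. -/
def Bx (e m : ℕ) : Finset (Fin e → ℕ) := Fintype.piFinset fun _ => range (m + 1)

/-! ### Places -/

def PF_s : Prop := ∀ (L : Type) [Field L] [NumberField L],
  (∀ V : Finset (Pl L), Full V → ∀ x : L, x ≠ 0 → (∀ v, v ∉ V → av v x ≤ 1) →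
    0 ≤ ∑ v ∈ V, lg v x) ∧
  (∀ V : Finset (Pl L), Full V → ∀ x : L, Un V x → ∑ v ∈ V, lg v x = 0) ∧
  (∀ V : Finset (Pl L), Full V → ∑ v ∈ V, ar v = finrank ℚ L) ∧
  (∀ (X : Finset L) (H : Finset (Pl L)), (∀ x ∈ X, x ≠ 0) →
    ∃ V : Finset (Pl L), Full V ∧ H ⊆ V ∧ ∀ x ∈ X, Un V x) ∧
  (∀ V : Finset (Pl L), ∀ ψ a : L, ∀ τ : ℝ, Un V ψ → Un V a →
    cost ψ a τ = ∑ v ∈ V, max (lg v a - τ * lg v ψ) 0) ∧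
  (∀ V : Finset (Pl L), ∀ ψ : L, Un V ψ → ht ψ = ∑ v ∈ V, max (lg v ψ) 0)

def SUM_s : Prop := ∀ (L : Type) [Field L] [NumberField L] (v : Pl L) (ι : Type) (E : Finset ι)
  (c : ι → ℤ) (x : ι → L) (B X : ℝ), 0 ≤ X → ∑ t ∈ E, |(c t : ℝ)| ≤ Real.exp B →
  (∀ t ∈ E, av v (x t) ≤ X) → av v (∑ t ∈ E, (c t : L) * x t) ≤ Real.exp (B * ar v) * X

def VAL_s : Prop := ∀ (L : Type) [Field L] [NumberField L] (w : FinitePlace L),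
  2 ≤ nq w ∧ (∀ x : L, x ≠ 0 → ∃ k : ℤ, w x = nq w ^ k) ∧
  (∀ x : L, IsIntegral ℤ x → w x ≤ 1) ∧
  (∀ n : ℤ, w (n : L) < 1 → n ≠ 0 → ∃ p : ℕ, p.Prime ∧ (p : ℤ) ∣ n ∧ w (p : L) < 1) ∧
  (∀ p : ℕ, p.Prime → w (p : L) < 1 → (p : ℝ) ≤ nq w ∧ nq w ≤ (p : ℝ) ^ finrank ℚ L ∧
    ((p : ℝ) ^ finrank ℚ L)⁻¹ ≤ w (p : L) ∧ ∀ n : ℤ, w (n : L) < 1 → (p : ℤ) ∣ n)

def VAL2_s : Prop := ∀ (L : Type) [Field L] [NumberField L] (p : ℕ), p.Prime →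
  ∀ S : Finset (FinitePlace L), (∀ w ∈ S, w (p : L) < 1) →
    ∑ w ∈ S, Real.log (nq w) ≤ finrank ℚ L * Real.log p ∧ S.card ≤ finrank ℚ L

/-! ### Thue-Siegel core -/

def CNT_s : Prop := ∀ σ : ℝ, 0 < σ → ∀ Lc e1 : ℕ, ∃ e : ℕ, e1 ≤ e ∧ ∀ m D : ℕ, 1 ≤ m →
  (D : ℝ) ≤ (1 / 2 - σ) * (e * m) →
  2 * (e + 1) * Lc * ((Bx e m).filter fun i => ∑ j, i j ≤ D).card ≤ (m + 1) ^ e

def SIEG_s : Prop := ∀ e m D Lc : ℕ, 1 ≤ e → 1 ≤ m → 1 ≤ Lc →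
  2 * (e + 1) * Lc * ((Bx e m).filter fun i => ∑ j, i j ≤ D).card ≤ (m + 1) ^ e →
  ∀ x : (Fin e → ℕ) → ℝ, (∀ t, 0 ≤ x t ∧ x t ≤ 1) →
  ∃ E ⊆ Sx e (e * m), ∃ (T' : ℕ) (M : (Fin e → ℕ) → ℤ) (lo : ℝ), (∃ t ∈ E, M t ≠ 0) ∧
    (∀ t ∈ E, (∀ j, t j ≤ m) ∧ ∑ j, t j ≤ T' ∧ T' ≤ ∑ j, t j + m ∧
      lo ≤ x t ∧ x t ≤ lo + 1 / Lc) ∧
    ∑ t ∈ E, |(M t : ℝ)| ≤ Real.exp (5 * (e * m : ℕ)) ∧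
    ∀ i ∈ Sx e D, ∑ t ∈ E, M t * ∏ j, ((t j).choose (i j) : ℤ) = 0

/-- The local estimate at one place. -/
def LocAt {L : Type} [Field L] [NumberField L] (v : Pl L) : Prop :=
  ∀ (e T D r : ℕ) (E : Finset (Fin e → ℕ)) (M : (Fin e → ℕ) → ℤ) (s : (Fin e → ℕ) → ℕ)
    (ψ : L) (η : Fin e → L) (g : ℝ) (i : Fin e → ℕ), 1 ≤ e → e ≤ T → E ⊆ Sx e T →
    (∀ t ∈ E, s t ≤ T + 1) → ∑ t ∈ E, |(M t : ℝ)| ≤ Real.exp (5 * T) →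
    (∀ i ∈ Sx e D, ∑ t ∈ E, M t * ∏ j, ((t j).choose (i j) : ℤ) = 0) →
    r + ∑ j, i j ≤ D + 1 → r ≤ T → 0 < g → ar v ≤ g →
    av v (ψ - 1) ≤ Real.exp (-(T * g)) → (∀ j, av v (η j - 1) ≤ Real.exp (-g)) →
    av v (∑ t ∈ E, ((M t * ∏ j, ((t j).choose (i j) : ℤ) : ℤ) : L) * (ψ ^ s t * ∏ j, η j ^ t j)) ≤
        Real.exp (12 * T * ar v - r * g) ∧
      ∀ t ∈ E, Real.exp (-(3 * T * ar v)) ≤ av v (ψ ^ s t * ∏ j, η j ^ t j)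

def LOCA_s : Prop := ∀ (L : Type) [Field L] [NumberField L] (φ : L →+* ℂ), LocAt (Sum.inl φ : Pl L)

def LOCN_s : Prop := ∀ (L : Type) [Field L] [NumberField L] (w : FinitePlace L),
  LocAt (Sum.inr w : Pl L)

def ZEDN_s : Prop := ∀ (k : ℕ) (ε γ : ℝ), 0 < ε → 0 ≤ γ → ∃ A : ℕ, ∃ C : ℝ, 1 ≤ A ∧ 0 ≤ C ∧
  ∀ (K : Type) [Field K] [CharZero K] (pt : Fin (k + 1) → K) (ω : Fin (k + 1) → ℝ) (m lam μ : ℕ)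
    (wd : ℝ) (P : MvPolynomial (Fin (k + 1)) ℤ), St k pt ω m lam μ γ wd P →
    (∀ j, j ≠ Fin.last k → pt j ≠ 0) → 0 ≤ wd → Dis k ω A wd → 1 ≤ m → 6 ≤ μ → μ ≤ lam →
    ε * lam ≤ μ → OutN (pt (Fin.last k)) (C * m)

def HT_s : Prop := ∀ (L : Type) [Field L] [NumberField L] (ψ : L) (c : ℝ), ψ ≠ 0 → OutN ψ c →
  ht ψ ≤ finrank ℚ L * c

/-- Height of `ψ - 1`, both directions. -/
def HT1_s : Prop := ∀ (L : Type) [Field L] [NumberField L] (ψ : L), ψ ≠ 0 → ψ ≠ 1 →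
  (∀ H : Finset (Pl L), ∑ v ∈ H, -lg v (ψ - 1) ≤ ht ψ + finrank ℚ L) ∧
  ∃ H : Finset (Pl L), (∀ v ∈ H, av v (ψ - 1) < 1) ∧
    ht ψ - finrank ℚ L ≤ ∑ v ∈ H, -lg v (ψ - 1)

/-- Liouville step: the auxiliary sums vanish. -/
def LIOU_s : Prop := ∀ (L : Type) [Field L] [NumberField L], finrank ℚ L ≤ 6 →
  ∀ (e m D r T' : ℕ) (E : Finset (Fin e → ℕ)) (M : (Fin e → ℕ) → ℤ) (s : (Fin e → ℕ) → ℕ)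
    (ψ a0 : L) (a : Fin e → L) (τ0 lo len κ : ℝ) (τ : Fin e → ℝ) (H : Finset (Pl L))
    (g : Pl L → ℝ) (i : Fin e → ℕ), 1 ≤ e → 1 ≤ m → E ⊆ Sx e (e * m) → ψ ≠ 0 → a0 ≠ 0 →
    (∀ j, a j ≠ 0) → 0 ≤ len →
    (∀ t ∈ E, (∀ j, t j ≤ m) ∧ ∑ j, t j ≤ T' ∧ T' ≤ ∑ j, t j + m ∧ s t ≤ e * m + 1 ∧
      lo ≤ s t - ∑ j, t j * τ j ∧ s t - ∑ j, t j * τ j ≤ lo + len) →
    ∑ t ∈ E, |(M t : ℝ)| ≤ Real.exp (5 * (e * m : ℕ)) →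
    (∀ i ∈ Sx e D, ∑ t ∈ E, M t * ∏ j, ((t j).choose (i j) : ℤ) = 0) →
    r + ∑ j, i j ≤ D + 1 → r ≤ e * m →
    cost ψ a0 τ0 ≤ κ → (∀ j, cost ψ (a j) (τ0 - τ j) ≤ κ) →
    (∀ v ∈ H, 0 < g v ∧ ar v ≤ g v ∧ av v (ψ - 1) ≤ Real.exp (-((e * m : ℕ) * g v)) ∧
      ∀ j, av v (a j / a0 - 1) ≤ Real.exp (-g v)) →
    len * ht ψ + (e + 1) * m * κ + 90 * (e * m) < r * ∑ v ∈ H, g v →
    ∑ t ∈ E, ((M t * ∏ j, ((t j).choose (i j) : ℤ) : ℤ) : L) *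
      (ψ ^ s t * ∏ j, (a j / a0) ^ t j) = 0

def CORE_s : Prop := ∀ σ δ : ℝ, 0 < σ → σ ≤ 1 / 16 → 0 < δ → ∃ e A : ℕ, ∃ C : ℝ,
  1 ≤ e ∧ 1 ≤ A ∧ 1 ≤ C ∧ ∀ (L : Type) [Field L] [NumberField L], finrank ℚ L ≤ 6 →
  ∀ (ψ a0 : L) (a : Fin e → L) (τ0 κ : ℝ) (τ : Fin e → ℝ) (m : ℕ) (H : Finset (Pl L))
    (g : Pl L → ℝ), ψ ≠ 0 → ψ ≠ 1 → a0 ≠ 0 → (∀ j, a j ≠ 0) → (∀ j, 0 ≤ τ j ∧ τ j ≤ 1) →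
    C ≤ m → (∀ (s : ℤ) (t : Fin e → ℤ), t ≠ 0 → (∀ j, |t j| ≤ A) →
      (A : ℝ) / (e * m : ℕ) < |s - ∑ j, t j * τ j|) →
    cost ψ a0 τ0 ≤ κ → (∀ j, cost ψ (a j) (τ0 - τ j) ≤ κ) → Hv δ ψ H g (e * m) →
    (∀ v ∈ H, ∀ j, av v (a j / a0 - 1) ≤ Real.exp (-g v)) → C ≤ ∑ v ∈ H, g v →
    κ ≤ (1 / 2 - 6 * σ) * ∑ v ∈ H, g v → False

def KILL_s : Prop := ∀ σ δ : ℝ, 0 < σ → σ ≤ 1 / 16 → 0 < δ → ∃ C : ℝ, 1 ≤ C ∧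
  ∀ (L : Type) [Field L] [NumberField L], finrank ℚ L ≤ 6 →
  ∀ (ψ : L) (H : Finset (Pl L)) (g : Pl L → ℝ) (T : ℕ), ψ ≠ 0 → ψ ≠ 1 → Hv δ ψ H g T →
    C ≤ ∑ v ∈ H, g v → C ≤ T → ∃ N c I : ℕ, 1 ≤ N ∧ 1 ≤ c ∧ 1 ≤ I ∧ c * I ≤ N ∧ T ≤ C * I ∧
      ∀ P : Finset (ℕ × L), (∀ p ∈ P, c ∣ p.1 ∧ p.1 < c * I ∧ p.2 ≠ 0 ∧
        cost ψ p.2 ((p.1 : ℝ) / N) ≤ (1 / 2 - 6 * σ) * ∑ v ∈ H, g v) →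
      (∀ p ∈ P, ∀ q ∈ P, p.1 = q.1 → p = q) →
      (∀ p ∈ P, ∀ q ∈ P, ∀ v ∈ H, av v (p.2 / q.2 - 1) ≤ Real.exp (-g v)) → (P.card : ℝ) ≤ C

/-! ### Approximants -/

def COST_s : Prop := ∀ (L : Type) [Field L] [NumberField L] (δ1 δ2 y1 y2 : L) (N i ρ : ℕ) (r : ℝ),
  δ1 ≠ 0 → δ2 ≠ 0 → 1 ≤ N → 1 ≤ ρ → 1 ≤ r → Ap δ1 N i ρ r y1 → Ap δ2 N i ρ r y2 →
  cost (-δ1 / δ2) (y1 / y2) ((i : ℝ) / N) ≤ finrank ℚ L * (Real.log r + Real.log ρ / N)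

def RHO_s : Prop := ∀ (Q : Finset ℕ) (N : ℕ), (∀ q ∈ Q, q.Prime) → 1 ≤ N →
  1 ≤ rho Q N ∧ Real.log (rho Q N) / N ≤ Q.card / 100 ∧
  ∀ p : ℕ, p.Prime → ∃ k n : ℕ, rho Q N = p ^ k * n ∧ ¬p ∣ n ∧ 100 * k ≤ N

def IDL_s : Prop := ∀ (F : Type) [Field F] [NumberField F], finrank ℚ F ≤ 3 →
  ∀ (δ : 𝓞 F) (n0 N : ℕ) (Q J : Finset ℕ), n0 ≠ 0 → δ ∣ (n0 : 𝓞 F) → n0.primeFactors ⊆ Q →
    (∀ q ∈ Q, q.Prime) → 1 ≤ N → ∃ J' ⊆ J, (J.card : ℝ) ≤ Kc Q * J'.card ∧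
      ∃ A : ℕ → Ideal (𝓞 F), (∀ i, A i ≠ ⊥) ∧ ∀ i ∈ J', ∀ i' ∈ J', i' ≤ i →
        ∃ b : Ideal (𝓞 F), A i = A i' * b ∧
          Ideal.span {δ} ^ (i - i') ∣ Ideal.span {(rho Q N : 𝓞 F)} * b ^ N ∧
          b ^ N ∣ Ideal.span {(rho Q N : 𝓞 F)} * Ideal.span {δ} ^ (i - i')

def MINK_s : Prop := ∀ (F : Type) [Field F] [NumberField F] (δ : 𝓞 F) (N j ρ : ℕ)
  (b : Ideal (𝓞 F)) (r : ℝ), δ ≠ 0 → 1 ≤ N → 1 ≤ ρ → b ≠ ⊥ → 0 < r →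
  b ^ N ∣ Ideal.span {(ρ : 𝓞 F)} * Ideal.span {δ} ^ j →
  Real.exp (finrank ℚ F * (Real.log ρ / N)) * √|(NumberField.discr F : ℝ)| < r ^ finrank ℚ F →
  ∃ y ∈ b, y ≠ 0 ∧ ∀ φ : F →+* ℂ, ‖φ (y : F)‖ ≤ r * ‖φ (δ : F)‖ ^ ((j : ℝ) / N)

def ICNT_s : Prop := ∀ ε : ℝ, 0 < ε → ∃ C : ℝ, 1 ≤ C ∧ ∀ (F : Type) [Field F] [NumberField F],
  finrank ℚ F ≤ 3 → ∀ (X : ℝ) (S : Finset (Ideal (𝓞 F))), 1 ≤ X →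
    (∀ I ∈ S, I ≠ ⊥ ∧ (Ideal.absNorm I : ℝ) ≤ X) → (S.card : ℝ) ≤ C * X ^ (1 + ε)

def UNM_s : Prop := ∀ (F : Type) [Field F] [NumberField F], finrank ℚ F ≤ 3 →
  ∀ (δ : 𝓞 F) (n0 N : ℕ) (Q J : Finset ℕ) (r : ℝ), n0 ≠ 0 → δ ∣ (n0 : 𝓞 F) →
    n0.primeFactors ⊆ Q → (∀ q ∈ Q, q.Prime) → 1 ≤ N → 0 < r →
    Real.exp Q.card * √|(NumberField.discr F : ℝ)| ≤ r ^ finrank ℚ F → Q.Nonempty →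
    ∃ J' ⊆ J, (J.card : ℝ) ≤ Kc Q * J'.card ∧ ∀ i ∈ J', ∀ i' ∈ J', i' ≤ i →
      ∃ y : F, Ap (δ : F) N (i - i') (rho Q N) r y

def MAT_s : Prop := ∀ ε : ℝ, 0 < ε → ∃ C : ℝ, 1 ≤ C ∧ ∀ (F : Type) [Field F] [NumberField F],
  finrank ℚ F ≤ 3 → ∀ (δ : 𝓞 F) (n0 N : ℕ) (Q J : Finset ℕ) (X : ℝ), n0 ≠ 0 → δ ∣ (n0 : 𝓞 F) →
    n0.primeFactors ⊆ Q → (∀ q ∈ Q, q.Prime) → 1 ≤ N → Q.Nonempty →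
    Real.exp (2 * Q.card) * √|(NumberField.discr F : ℝ)| ≤ X →
    ∃ J' ⊆ J, (J.card : ℝ) ≤ C * X ^ (1 + ε) * Kc Q * J'.card ∧ ∀ i ∈ J', ∀ i' ∈ J', i' ≤ i →
      ∃ y : F, Ap2 (δ : F) N (i - i') (rho Q N) (Real.exp 1) y

def DiscAt (n : ℕ) : Prop := ∀ (L : Type) [Field L] [NumberField L] (x y : ℤ) (t1 t2 t3 : L),
  Cub x y t1 t2 t3 → dg t1 = n → ∀ a : ℕ, Sq x y a →
  |(NumberField.discr (IntermediateField.adjoin ℚ {t1}) : ℝ)| ≤ DD x y a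

def DISC2_s : Prop := DiscAt 2

def DISC3_s : Prop := DiscAt 3

/-- Elementary consequences of `Cub0`. -/
def ALG_s : Prop := ∀ (L : Type) [Field L] [NumberField L] (x y : ℤ) (t1 t2 t3 : L),
  Cub0 x y t1 t2 t3 →
  (IsIntegral ℤ t1 ∧ IsIntegral ℤ t2 ∧ IsIntegral ℤ t3) ∧ (t1 ≠ t2 ∧ t1 ≠ t3 ∧ t2 ≠ t3) ∧
  ((t1 - t2) * (t1 - t3) * (t2 - t3)) ^ 2 = 108 * ((x ^ 3 - y ^ 2 : ℤ) : L) ∧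
  (de x t1 ≠ 0 ∧ de x t2 ≠ 0) ∧ ps x t1 t2 = (t1 - t3) / (t2 - t3) ∧
  ps x t1 t2 - 1 = (t1 - t2) / (t2 - t3) ∧ (ps x t1 t2 ≠ 0 ∧ ps x t1 t2 ≠ 1) ∧
  t1 ^ 3 - 3 * (x : L) * t1 + 2 * (y : L) = 0 ∧
  (∀ g : L ≃ₐ[ℚ] L, g t3 = t3 → g = 1 ∨ Sw t1 t2 g) ∧
  (∀ g : L ≃ₐ[ℚ] L, Sw t1 t2 g → g t3 = t3) ∧
  (∀ g : L ≃ₐ[ℚ] L, (g t1 = t1 ∨ g t1 = t2 ∨ g t1 = t3) ∧ (g t2 = t1 ∨ g t2 = t2 ∨ g t2 = t3) ∧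
    (g t3 = t1 ∨ g t3 = t2 ∨ g t3 = t3)) ∧
  (∀ (w : FinitePlace L) (p : ℕ), p.Prime → 5 ≤ p → w (p : L) < 1 →
    ¬((p : ℤ) ∣ x ∧ (p : ℤ) ∣ y) → w (t1 - t2) < 1 → w (t1 - t3) = 1 ∧ w (t2 - t3) = 1) ∧
  (∀ w : FinitePlace L, w (ps x t1 t2 - 1) < 1 → w (ps x t1 t2) = 1 ∧ w (t1 - t2) < 1 ∧
    ∃ q ∈ Qs x y, w (q : L) < 1) ∧
  (2 ∈ Qs x y ∧ (∀ q ∈ Qs x y, q.Prime) ∧ 2 ≤ Rad x y ∧ Rad x y ≤ NN x y)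

def HTL_s : Prop := ∀ (L : Type) [Field L] [NumberField L] (x y : ℤ) (t1 t2 t3 : L),
  Cub x y t1 t2 t3 → Real.log (max (|(x : ℝ)| ^ 3) ((y : ℝ) ^ 2)) ≤
    6 * ht (ps x t1 t2) + 25 + 6 * Real.log (Int.gcd x y)

/-- Arithmetic of primitive pairs. -/
def GCD_s : Prop := ∀ x y : ℤ, Prim x y → x ^ 3 - y ^ 2 ≠ 0 →
  (1 ≤ Int.gcd x y ∧ Real.log (Int.gcd x y) ≤ 2 * Real.log (Rad x y)) ∧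
  ∀ p : ℕ, p.Prime → (p : ℤ) ∣ x → (p : ℤ) ∣ y →
    (¬(p : ℤ) ^ 3 ∣ x ^ 3 - y ^ 2 ∨ ((p : ℤ) ^ 2 ∣ y ∧ ¬(p : ℤ) ^ 5 ∣ x ^ 3 - y ^ 2))

/-- Primes of the gcd carry little weight. -/
def EXC_s : Prop := ∀ (L : Type) [Field L] [NumberField L] (x y : ℤ) (t1 t2 t3 : L),
  Cub x y t1 t2 t3 → ∀ (p : ℕ) (w : FinitePlace L), p.Prime → 5 ≤ p → w (p : L) < 1 →
  (p : ℤ) ∣ x → (p : ℤ) ∣ y → -lg (Sum.inr w) (ps x t1 t2 - 1) ≤ 12 * Real.log p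

def FAMU_s : Prop := ∀ (L : Type) [Field L] [NumberField L] (x y : ℤ) (t1 t2 t3 : L),
  Cub x y t1 t2 t3 → ∀ a : ℕ, Sq x y a → ∀ (N c I : ℕ) (r : ℝ),
  1 ≤ N → 1 ≤ c → 0 < r → Real.exp (Qs x y).card * √(DD x y a) ≤ r ^ dg t1 →
  ∃ J : Finset ℕ, (I : ℝ) ≤ Kc (Qs x y) * J.card ∧ ∀ i ∈ J, c ∣ i ∧ i < c * I ∧ ∃ y1 y2 : L,
    Ap (de x t1) N i (rho (Qs x y) N) r y1 ∧ Ap (de x t2) N i (rho (Qs x y) N) r y2 ∧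
    Eqv t1 t2 y1 y2

def FAMM_s : Prop := ∀ ε : ℝ, 0 < ε → ∃ C : ℝ, 1 ≤ C ∧
  ∀ (L : Type) [Field L] [NumberField L] (x y : ℤ) (t1 t2 t3 : L),
  Cub x y t1 t2 t3 → ∀ a : ℕ, Sq x y a → ∀ N c I : ℕ, 1 ≤ N → 1 ≤ c →
  ∃ J : Finset ℕ, (I : ℝ) ≤ C * (Real.exp (2 * (Qs x y).card) * √(DD x y a)) ^ (1 + ε) *
      Kc (Qs x y) * J.card ∧ ∀ i ∈ J, c ∣ i ∧ i < c * I ∧ ∃ y1 y2 : L,
    Ap2 (de x t1) N i (rho (Qs x y) N) (Real.exp 1) y1 ∧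
    Ap2 (de x t2) N i (rho (Qs x y) N) (Real.exp 1) y2 ∧ Eqv t1 t2 y1 y2

/-! ### Colours -/

def GAL_s : Prop := ∀ (L : Type) [Field L] [NumberField L] (g : L ≃ₐ[ℚ] L) (w : FinitePlace L),
  (∃ w' : FinitePlace L, nq w' = nq w ∧ ∀ x : L, w' (g x) = w x) ∧
  ((∀ x : L, IsIntegral ℤ x → w x < 1 → w (g x) < 1) → ∀ x : L, w (g x) = w x) ∧
  (∀ x : L, w x ≤ 1 → ∀ k : ℕ, ∃ x0 : L, IsIntegral ℤ x0 ∧ w (x - x0) ≤ (nq w ^ k)⁻¹)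

def FROB_s : Prop := ∀ (L : Type) [Field L] [NumberField L], IsGalois ℚ L →
  ∀ (w : FinitePlace L) (p : ℕ), p.Prime → w (p : L) < 1 → ∃ g : L ≃ₐ[ℚ] L,
    (∀ x : L, w (g x) = w x) ∧ ∀ x : L, w x ≤ 1 → w (g x - x ^ p) < 1

def INER_s : Prop := ∀ (L : Type) [Field L] [NumberField L], IsGalois ℚ L →
  ∀ (w : FinitePlace L) (p : ℕ), p.Prime → w (p : L) < 1 →
    (∀ g : L ≃ₐ[ℚ] L, (∀ x : L, w x ≤ 1 → w (g x - x) < 1) → g = 1) → w (p : L) = (nq w)⁻¹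

def RES_s : Prop := ∀ (L : Type) [Field L] [NumberField L] (w : FinitePlace L) (p : ℕ)
  (g : L ≃ₐ[ℚ] L), p.Prime → w (p : L) < 1 → (∀ x : L, w (g x) = w x) →
    (∀ x : L, w x ≤ 1 → w (g x - x) < 1) ∨ (p : ℝ) ^ 2 ≤ nq w

def ROOT_s : Prop := ∀ (L : Type) [Field L] [NumberField L] (w : FinitePlace L) (k : ℕ), 1 ≤ k →
  ∃ col : L → ℕ, (∀ a : L, w a = 1 → w (a ^ k - 1) < 1 → col a < k) ∧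
    ∀ a a' : L, w a = 1 → w (a ^ k - 1) < 1 → w a' = 1 → w (a' ^ k - 1) < 1 → col a = col a' →
      w (a / a' - 1) ≤ (nq w)⁻¹

def COLN_s : Prop := ∀ (L : Type) [Field L] [NumberField L] (S : Finset (FinitePlace L))
  (j : FinitePlace L → ℕ), ∃ col : L → ℕ, (∀ a : L, (col a : ℝ) + 1 ≤ ∏ w ∈ S, nq w ^ j w) ∧
    ∀ a a' : L, (∀ w ∈ S, w a = 1) → (∀ w ∈ S, w a' = 1) → col a = col a' →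
      ∀ w ∈ S, w (a / a' - 1) ≤ (nq w ^ j w)⁻¹

def COLA_s : Prop := ∀ G : ℝ, 0 ≤ G → ∃ col : ℂ → ℕ,
  (∀ u : ℂ, ‖u‖ ≤ Real.exp 3 → (col u : ℝ) + 1 ≤ Real.exp (2 * G + 20)) ∧
    ∀ u u' : ℂ, ‖u‖ ≤ Real.exp 3 → ‖u'‖ ≤ Real.exp 3 → Real.exp (-3) ≤ ‖u'‖ → col u = col u' →
      ‖u / u' - 1‖ ≤ Real.exp (-G)

/-- Local sizes of matched quotients. -/
def ADM_s : Prop := ∀ (L : Type) [Field L] [NumberField L] (x y : ℤ) (t1 t2 t3 a : L),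
  Cub x y t1 t2 t3 → Adm x y t1 t2 a → a ≠ 0 ∧
  (∀ w : FinitePlace L, w (ps x t1 t2) = 1 → w a = 1) ∧
  (∀ φ : L →+* ℂ, ‖φ (ps x t1 t2 - 1)‖ ≤ 1 / 2 →
    Real.exp (-3) ≤ ‖φ a‖ ∧ ‖φ a‖ ≤ Real.exp 3) ∧
  ∀ τ : L ≃ₐ[ℚ] L, Sw t1 t2 τ → τ a = a⁻¹

def UNIT_s : Prop := ∀ (L : Type) [Field L] [NumberField L] (w : FinitePlace L) (ψ a : L) (τ : ℝ),
  ψ ≠ 0 → a ≠ 0 → w ψ = 1 → cost ψ a τ < Real.log (nq w) → w a = 1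

/-- Units at `w` inverted by every automorphism that swaps `t1` and `t2`. -/
def Adw {L : Type} [Field L] [NumberField L] (t1 t2 : L) (w : FinitePlace L) (a : L) : Prop :=
  w a = 1 ∧ ∀ τ : L ≃ₐ[ℚ] L, Sw t1 t2 τ → τ a = a⁻¹

/-- The inertia group at `w` is trivial. -/
def Tri {L : Type} [Field L] [NumberField L] (w : FinitePlace L) : Prop :=
  ∀ g : L ≃ₐ[ℚ] L, (∀ x : L, w x ≤ 1 → w (g x - x) < 1) → g = 1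

/-- A large ramified prime: two colours. -/
def BR_s : Prop := ∀ (L : Type) [Field L] [NumberField L] (x y : ℤ) (t1 t2 t3 : L),
  Cub x y t1 t2 t3 → ∀ (p : ℕ) (w : FinitePlace L), p.Prime → 5 ≤ p → w (p : L) < 1 →
  ¬((p : ℤ) ∣ x ∧ (p : ℤ) ∣ y) → w (ps x t1 t2 - 1) < 1 → ¬Tri w →
  Col 2 (Adw t1 t2 w) {Sum.inr w} (fun _ => Real.log (nq w))

/-- A large unramified prime: even valuation. -/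
def BE_s : Prop := ∀ (L : Type) [Field L] [NumberField L] (x y : ℤ) (t1 t2 t3 : L),
  Cub x y t1 t2 t3 → ∀ (p : ℕ) (w : FinitePlace L) (T : ℕ), p.Prime → 5 ≤ p → w (p : L) < 1 →
  ¬((p : ℤ) ∣ x ∧ (p : ℤ) ∣ y) → 1 ≤ T → w (ps x t1 t2 - 1) = (nq w ^ T)⁻¹ → Tri w →
  ∃ n : ℤ, x ^ 3 - y ^ 2 = (p : ℤ) ^ (2 * T) * n ∧ ¬(p : ℤ) ∣ n

/-- A large unramified prime: at most `p + 1` colours on one or two places. -/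
def BU_s : Prop := ∀ (L : Type) [Field L] [NumberField L] (x y : ℤ) (t1 t2 t3 : L),
  Cub x y t1 t2 t3 → ∀ (p : ℕ) (w : FinitePlace L), p.Prime → 5 ≤ p → w (p : L) < 1 →
  ¬((p : ℤ) ∣ x ∧ (p : ℤ) ∣ y) → w (ps x t1 t2 - 1) < 1 → Tri w → ∃ H : Finset (Pl L),
    Sum.inr w ∈ H ∧ H.card ≤ 2 ∧ finrank ℚ L * Real.log p ≤ dg t1 * (H.card * Real.log (nq w)) ∧
    (∀ v ∈ H, ar v = 0 ∧ av v (ps x t1 t2 - 1) = w (ps x t1 t2 - 1)) ∧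
    Col (p + 1) (Adw t1 t2 w) H (fun _ => Real.log (nq w))

def ANC_s : Prop := ∀ R B : ℕ, ∃ U : Finset (ℕ × ℕ), R * B ≤ 4 * U.card ∧
  (∀ u ∈ U, 1 ≤ u.1 ∧ u.1 ≤ R ∧ 1 ≤ u.2 ∧ u.2 ≤ B) ∧
  ∀ u ∈ U, ∀ u' ∈ U, u.1 * u'.2 = u'.1 * u.2 → u = u'

def SEL_s : Prop := ∀ (ι : Type) (S : Finset ι) (l : ι → ℝ) (v : ι → ℕ) (T : ℕ) (G Λ : ℝ),
  1 ≤ T → 0 < G → (∀ w ∈ S, 0 < l w ∧ l w ≤ Λ) →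
  T * (G + ∑ w ∈ S, l w) ≤ ∑ w ∈ S, v w * l w →
  ∃ j : ι → ℕ, (∀ w ∈ S, T * j w ≤ v w) ∧ G ≤ ∑ w ∈ S, j w * l w ∧ ∑ w ∈ S, j w * l w ≤ G + Λ

def FEW_s : Prop := ∀ ε c : ℝ, 0 < ε → 0 ≤ c → ∃ C : ℝ, 1 ≤ C ∧ ∀ Q : Finset ℕ,
  (∀ q ∈ Q, q.Prime) → Real.exp (c * Q.card) * Kc Q ≤ C * (∏ q ∈ Q, (q : ℝ)) ^ ε ∧ 1 ≤ Kc Q

def SQF_s : Prop := ∀ x y : ℤ, Prim x y → x ^ 3 - y ^ 2 ≠ 0 → ∃ a : ℕ, Sq x y a ∧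
  432 ≤ DD x y a ∧ DD x y a ≤ 432 * NN x y ∧ ∀ (p T : ℕ) (n : ℤ), p.Prime → 1 ≤ T →
    ¬((p : ℤ) ∣ x ∧ (p : ℤ) ∣ y) → x ^ 3 - y ^ 2 = (p : ℤ) ^ (2 * T) * n → ¬(p : ℤ) ∣ n →
    DD x y a * p ≤ 432 * NN x y ∧ ∃ b : ℤ, x ^ 3 - y ^ 2 = (a : ℤ) ^ 2 * b ∧ ¬(p : ℤ) ∣ b

/-! ### Bounds for `T` -/

/-- Matched family, any colouring. -/
def GM_s : Prop := ∀ δ ε : ℝ, 0 < δ → 0 < ε → ∃ C : ℝ, 1 ≤ C ∧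
  ∀ (L : Type) [Field L] [NumberField L] (x y : ℤ) (t1 t2 t3 : L), Cub x y t1 t2 t3 →
  ∀ a : ℕ, Sq x y a →
  ∀ (H : Finset (Pl L)) (g : Pl L → ℝ) (T : ℕ) (K : ℝ), Hv δ (ps x t1 t2) H g T →
    C + (Qs x y).card ≤ ∑ v ∈ H, g v → 1 ≤ K → Col K (Adm x y t1 t2) H g →
    (T : ℝ) ≤ C * K * (DD x y a) ^ (1 / 2 + ε) * Rad x y ^ ε

/-- Data at a large unramified prime. -/
structure Unr {L : Type} [Field L] [NumberField L] (δ : ℝ) (x y : ℤ) (t1 t2 : L) (p : ℕ)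
    (w : FinitePlace L) (H : Finset (Pl L)) (T : ℕ) : Prop where
  pr : p.Prime
  ab : w (p : L) < 1
  un : w (ps x t1 t2) = 1
  mem : Sum.inr w ∈ H
  two : H.card ≤ 2
  deg : finrank ℚ L * Real.log p ≤ dg t1 * (H.card * Real.log (nq w))
  hv : Hv δ (ps x t1 t2) H (fun _ => Real.log (nq w)) T
  col : Col (p + 1) (Adw t1 t2 w) H (fun _ => Real.log (nq w))

/-- Regime (B). -/
def GB_s : Prop := ∀ δ σ ε : ℝ, 0 < δ → 0 < σ → σ ≤ 1 / 16 → 0 < ε → ∃ C : ℝ, 1 ≤ C ∧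
  ∀ (L : Type) [Field L] [NumberField L] (x y : ℤ) (t1 t2 t3 : L), Cub x y t1 t2 t3 →
  ∀ a : ℕ, Sq x y a →
  ∀ (p : ℕ) (w : FinitePlace L) (H : Finset (Pl L)) (T : ℕ), Unr δ x y t1 t2 p w H T →
    C ≤ Real.log p → 2 * (Qs x y).card + Real.log (DD x y a) / 2 ≤ (1 / 2 - 6 * σ) * Real.log p →
    (T : ℝ) ≤ C * p * Rad x y ^ ε

/-- Regime (C). -/
def GC_s : Prop := ∀ δ σ ε : ℝ, 0 < δ → 0 < σ → σ ≤ 1 / 100 → 0 < ε → ∃ C : ℝ, 1 ≤ C ∧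
  ∀ (L : Type) [Field L] [NumberField L] (x y : ℤ) (t1 t2 t3 : L), Cub x y t1 t2 t3 →
  ∀ a : ℕ, Sq x y a → ∀ b : ℤ, x ^ 3 - y ^ 2 = (a : ℤ) ^ 2 * b →
  ∀ (p : ℕ) (w : FinitePlace L) (H : Finset (Pl L)) (T : ℕ), Unr δ x y t1 t2 p w H T →
    ¬(p : ℤ) ∣ b → C + (Qs x y).card ≤ σ * Real.log p →
    Real.log (DD x y a) / 2 ≤ (1 / 6 - 4 * σ) * Real.log p →
    (T : ℝ) ≤ C * (p : ℝ) ^ (2 / 3 + 6 * σ) * (DD x y a) ^ (1 + ε) * Rad x y ^ ε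

/-- The final bound for the height of `ψ`. -/
def Bd (ε C : ℝ) {L : Type} [Field L] [NumberField L] (x y : ℤ) (t1 t2 : L) : Prop :=
  ht (ps x t1 t2) ≤ C * NN x y ^ (3 / 4 + ε)

def CA_s : Prop := ∀ δ ε : ℝ, 0 < δ → 0 < ε → ∃ C : ℝ, 0 ≤ C ∧
  ∀ (L : Type) [Field L] [NumberField L] (x y : ℤ) (t1 t2 t3 : L), Cub x y t1 t2 t3 →
  ∀ φ : L →+* ℂ, δ * ht (ps x t1 t2) ≤ -lg (Sum.inl φ) (ps x t1 t2 - 1) → Bd ε C x y t1 t2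

def CS_s : Prop := ∀ δ ε : ℝ, 0 < δ → 0 < ε → ∃ η : ℝ, 0 < η ∧ ∀ c0 : ℝ, 0 ≤ c0 → ∃ C : ℝ, 0 ≤ C ∧
  ∀ (L : Type) [Field L] [NumberField L] (x y : ℤ) (t1 t2 t3 : L), Cub x y t1 t2 t3 →
  ∀ S : Finset (FinitePlace L), (∀ w ∈ S, w (ps x t1 t2 - 1) < 1 ∧ ∃ q ∈ Qs x y, w (q : L) < 1 ∧
      Real.log q ≤ c0 + c0 * (Qs x y).card + η * Real.log (Rad x y)) →
    δ * ht (ps x t1 t2) ≤ ∑ w ∈ S, -lg (Sum.inr w) (ps x t1 t2 - 1) → Bd ε C x y t1 t2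

def CP_s : Prop := ∀ δ ε : ℝ, 0 < δ → 0 < ε → ∃ c0 : ℝ, 0 ≤ c0 ∧ ∃ C : ℝ, 0 ≤ C ∧
  ∀ (L : Type) [Field L] [NumberField L] (x y : ℤ) (t1 t2 t3 : L), Cub x y t1 t2 t3 →
  ∀ (p : ℕ) (w : FinitePlace L), p ∈ Qs x y → w (p : L) < 1 →
    c0 + c0 * (Qs x y).card ≤ Real.log p → w (ps x t1 t2 - 1) < 1 →
    δ * ht (ps x t1 t2) ≤ -lg (Sum.inr w) (ps x t1 t2 - 1) → Bd ε C x y t1 t2

def MAIN_s : Prop := ∀ ε : ℝ, 0 < ε → ∃ C : ℝ, 0 ≤ C ∧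
  ∀ (L : Type) [Field L] [NumberField L] (x y : ℤ) (t1 t2 t3 : L), Cub x y t1 t2 t3 →
    Bd ε C x y t1 t2

def STR_s : Prop := ∀ x y : ℤ, Prim x y → x ^ 3 - y ^ 2 ≠ 0 →
  (∃ t1 t2 t3 : ℤ, t1 + t2 + t3 = 0 ∧ t1 * t2 + t1 * t3 + t2 * t3 = -3 * x ∧
    t1 * t2 * t3 = -2 * y) ∨
  ∃ (L : Type) (_ : Field L) (_ : NumberField L) (t1 t2 t3 : L), Cub0 x y t1 t2 t3

def DEG_s : Prop := ∀ (L : Type) [Field L] [NumberField L] (x y : ℤ) (t1 t2 t3 : L),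
  Cub0 x y t1 t2 t3 → Cub x y t1 t2 t3

def RAT_s : Prop := ∀ ε : ℝ, 0 < ε → ∃ C : ℝ, 0 ≤ C ∧ ∀ x y t1 t2 t3 : ℤ, Prim x y →
  x ^ 3 - y ^ 2 ≠ 0 → t1 + t2 + t3 = 0 → t1 * t2 + t1 * t3 + t2 * t3 = -3 * x →
  t1 * t2 * t3 = -2 * y → Real.log (max (|(x : ℝ)| ^ 3) ((y : ℝ) ^ 2)) ≤ C * Rad x y ^ ε

def TOP_s : Prop := ∀ ε : ℝ, 0 < ε → ∃ C : ℝ, ∀ x y : ℤ, x ^ 3 ≠ y ^ 2 →
  (∀ q : ℕ, q.Prime → ¬((q : ℤ) ^ 2 ∣ x ∧ (q : ℤ) ^ 3 ∣ y)) →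
  Real.log (max (|(x : ℝ)| ^ 3) ((y : ℝ) ^ 2)) ≤
    C * ((∏ p ∈ (x ^ 3 - y ^ 2).natAbs.primeFactors, (p : ℝ)) *
      ∏ p ∈ (Int.gcd x y).primeFactors, (p : ℝ)) ^ (3 / 4 + ε)

end Pool.Agent.MP_2a5a28_nt.H15Z
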