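import Pool.Agent.MP_2a5a28_nt.H15Z.Defs

set_option autoImplicit false

namespace Pool.Agent.MP_2a5a28_nt.H15Z

open Finset NumberField Module
open H63 (Sx St Dis nm)

theorem pf_arch {L : Type} [Field L] [NumberField L] (x : L) (hx : x ≠ 0) :
    ∑ φ : L →+* ℂ, Real.log ‖φ x‖ = Real.log (((|Algebra.norm ℚ x| : ℚ)) : ℝ) := by
  have h1 : (algebraMap ℚ ℂ) (Algebra.norm ℚ x) = ∏ σ : L →ₐ[ℚ] ℂ, σ x :=
    Algebra.norm_eq_prod_embeddings ℚ ℂ x
  have h2 : ∏ σ : L →ₐ[ℚ] ℂ, σ x = ∏ φ : L →+* ℂ, φ x :=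
    (Fintype.prod_equiv (RingHom.equivRatAlgHom L ℂ) (fun φ => φ x) (fun σ => σ x)
      (fun _ => rfl)).symm
  have h3 : (((|Algebra.norm ℚ x| : ℚ)) : ℝ) = ∏ φ : L →+* ℂ, ‖φ x‖ := by
    rw [← norm_prod, ← h2, ← h1, Rat.cast_abs]
    simp
  rw [h3, Real.log_prod]
  intro φ _
  simpa using hx

theorem pf_zero {L : Type} [Field L] [NumberField L] (V : Finset (Pl L)) (hV : Full V) (x : L)
    (hx : Un V x) : ∑ v ∈ V, lg v x = 0 := by
  classical
  rw [Finset.sum_sum_eq_sum_toLeft_add_sum_toRight]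
  have hl : V.toLeft = univ := by
    ext φ
    simpa using hV φ
  have h1 : ∑ φ ∈ V.toLeft, lg (Sum.inl φ : Pl L) x = Real.log (((|Algebra.norm ℚ x| : ℚ)) : ℝ) := by
    rw [hl, ← pf_arch x hx.1]
    rfl
  have h2 : ∏ᶠ w : FinitePlace L, w x = ∏ w ∈ V.toRight, w x := by
    apply finprod_eq_prod_of_mulSupport_subset
    intro w hw
    by_contra hn
    apply hw
    exact hx.2 (Sum.inr w) (by simpa using hn)
  have h3 : ∑ w ∈ V.toRight, lg (Sum.inr w : Pl L) x =
      Real.log (∏ w ∈ V.toRight, w x) := by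
    rw [Real.log_prod]
    · rfl
    · intro w _
      exact (w.1.pos hx.1).ne'
  rw [h1, h3, ← h2, FinitePlace.prod_eq_inv_abs_norm hx.1, Rat.cast_inv, Real.log_inv]
  ring

theorem pf_ex {L : Type} [Field L] [NumberField L] (X : Finset L) (H : Finset (Pl L))
    (hX : ∀ x ∈ X, x ≠ 0) : ∃ V : Finset (Pl L), Full V ∧ H ⊆ V ∧ ∀ x ∈ X, Un V x := by
  classical
  have hf : ∀ x ∈ X, (Function.mulSupport fun w : FinitePlace L => w x).Finite :=
    fun x hx => FinitePlace.hasFiniteMulSupport (hX x hx)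
  have hS : (⋃ x ∈ (X : Set L), Function.mulSupport fun w : FinitePlace L => w x).Finite :=
    X.finite_toSet.biUnion hf
  refine ⟨H ∪ (univ : Finset (L →+* ℂ)).disjSum hS.toFinset, ?_, subset_union_left, ?_⟩
  · intro φ
    simp
  · intro x hx
    refine ⟨hX x hx, ?_⟩
    intro v hv
    rcases v with φ | w
    · exact absurd (by simp) hv
    · by_contra hn
      apply hv
      refine mem_union_right _ ?_
      rw [Finset.inr_mem_disjSum, Set.Finite.mem_toFinset]
      exact Set.mem_biUnion (mem_coe.2 hx) hn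

theorem pf_row : PF_s := by
  intro L _ _
  classical
  refine ⟨?_, fun V hV x hx => pf_zero V hV x hx, ?_, fun X H hX => pf_ex X H hX, ?_, ?_⟩
  · intro V hV x hx hle
    obtain ⟨W, hW, hVW, hU⟩ := pf_ex {x} V (by simpa using hx)
    have h0 := pf_zero W hW x (hU x (by simp))
    rw [← Finset.sum_sdiff hVW] at h0
    have h1 : ∑ v ∈ W \ V, lg v x ≤ 0 := by
      apply Finset.sum_nonpos
      intro v hv
      exact Real.log_nonpos ((av v).nonneg x) (hle v (Finset.mem_sdiff.1 hv).2)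
    linarith
  · intro V hV
    rw [Finset.sum_sum_eq_sum_toLeft_add_sum_toRight]
    have hl : V.toLeft = univ := by
      ext φ
      simpa using hV φ
    rw [hl]
    simp [ar, NumberField.Embeddings.card]
  · intro V ψ a τ hψ ha
    apply finsum_eq_sum_of_support_subset
    intro v hv
    by_contra hn
    apply hv
    have hn' : v ∉ V := by simpa using hn
    simp [lg, hψ.2 v hn', ha.2 v hn']
  · intro V ψ hψ
    apply finsum_eq_sum_of_support_subset
    intro v hv
    by_contra hn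
    apply hv
    have hn' : v ∉ V := by simpa using hn
    simp [lg, hψ.2 v hn']

theorem sum_na {L : Type} [Field L] [NumberField L] (w : FinitePlace L) {ι : Type} (E : Finset ι)
    (f : ι → L) {X : ℝ} (hX : 0 ≤ X) (h : ∀ t ∈ E, w (f t) ≤ X) : w (∑ t ∈ E, f t) ≤ X := by
  classical
  induction E using Finset.induction_on with
  | empty => simpa using hX
  | insert a s ha ih =>
    rw [sum_insert ha]
    exact (w.add_le _ _).trans (max_le (h a (mem_insert_self _ _))
      (ih fun t ht => h t (mem_insert_of_mem ht)))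

theorem sum_int {L : Type} [Field L] [NumberField L] (w : FinitePlace L) (n : ℤ) :
    w (n : L) ≤ 1 := by
  rw [← w.norm_embedding_eq, FinitePlace.norm_embedding]
  exact HeightOneSpectrum.adicAbv_intCast_le_one _ _ n

theorem sum_row : SUM_s := by
  intro L _ _ v ι E c x B X hX hB hx
  rcases v with φ | w
  · simp only [ar, mul_one]
    refine ((av (Sum.inl φ : Pl L)).sum_le _ _).trans ?_
    refine le_trans (sum_le_sum fun t ht => (?_ : _ ≤ |(c t : ℝ)| * X)) ?_
    · rw [map_mul]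
      refine mul_le_mul (le_of_eq ?_) (hx t ht) (apply_nonneg _ _) (abs_nonneg _)
      simp [av, NumberField.place_apply]
    · rw [← sum_mul]
      exact mul_le_mul_of_nonneg_right hB hX
  · simp only [ar, mul_zero, Real.exp_zero, one_mul]
    refine sum_na w E _ hX fun t ht => ?_
    rw [map_mul]
    exact (mul_le_mul (sum_int w _) (hx t ht) (apply_nonneg _ _) zero_le_one).trans (one_mul X).le

theorem val_lt {L : Type} [Field L] [NumberField L] (w : FinitePlace L) (a : 𝓞 L) :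
    w (a : L) < 1 ↔ a ∈ w.maximalIdeal.asIdeal := by
  rw [← FinitePlace.norm_embedding_eq]
  exact FinitePlace.norm_lt_one_iff_mem L w.maximalIdeal a

theorem val_two {L : Type} [Field L] [NumberField L] (w : FinitePlace L) : 2 ≤ nq w := by
  have := NumberField.HeightOneSpectrum.one_lt_absNorm w.maximalIdeal
  unfold nq
  exact_mod_cast this

theorem val_dvd {L : Type} [Field L] [NumberField L] (w : FinitePlace L) (p : ℕ) (hp : p.Prime)
    (h : w (p : L) < 1) (n : ℤ) (hn : w (n : L) < 1) : (p : ℤ) ∣ n := by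
  by_contra hd
  obtain ⟨u, v, huv⟩ := (Nat.prime_iff_prime_int.1 hp).irreducible.coprime_iff_not_dvd.2 hd
  have h1 : ((p : 𝓞 L) : L) = (p : L) := map_natCast (algebraMap (𝓞 L) L) p
  have h2 : ((n : 𝓞 L) : L) = (n : L) := map_intCast (algebraMap (𝓞 L) L) n
  rw [← h1, val_lt] at h
  rw [← h2, val_lt] at hn
  apply w.maximalIdeal.isPrime.ne_top
  rw [Ideal.eq_top_iff_one]
  have e : (1 : 𝓞 L) = (u : 𝓞 L) * (p : 𝓞 L) + (v : 𝓞 L) * (n : 𝓞 L) := by
    exact_mod_cast congrArg (Int.cast : ℤ → 𝓞 L) huv.symm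
  rw [e]
  exact Ideal.add_mem _ (Ideal.mul_mem_left _ _ h) (Ideal.mul_mem_left _ _ hn)

theorem val_le {L : Type} [Field L] [NumberField L] (w : FinitePlace L) (p : ℕ) (hp : p.Prime)
    (h : w (p : L) < 1) : (p : ℝ) ≤ nq w := by
  have h1 := Ideal.absNorm_mem w.maximalIdeal.asIdeal
  rw [← val_lt] at h1
  have h2 : (((Ideal.absNorm w.maximalIdeal.asIdeal : ℕ) : 𝓞 L) : L) =
      (((Ideal.absNorm w.maximalIdeal.asIdeal : ℕ) : ℤ) : L) := by
    rw [Int.cast_natCast]
    exact map_natCast (algebraMap (𝓞 L) L) _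
  rw [h2] at h1
  have h3 := Int.natCast_dvd_natCast.1 (val_dvd w p hp h _ h1)
  have h4 := NumberField.HeightOneSpectrum.one_lt_absNorm w.maximalIdeal
  unfold nq
  exact_mod_cast Nat.le_of_dvd (by omega) h3

theorem val_int {L : Type} [Field L] [NumberField L] (w : FinitePlace L) (a : 𝓞 L)
    (ha : a ≠ 0) :
    w (a : L) = (nq w ^ multiplicity w.maximalIdeal.asIdeal (Ideal.span {a}))⁻¹ :=
  eq_inv_of_mul_eq_one_left (FinitePlace.apply_mul_absNorm_pow_eq_one w ha)

theorem val_row : VAL_s := by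
  intro L _ _ w
  have h2 := val_two w
  have h0 : nq w ≠ 0 := by linarith
  refine ⟨h2, fun x hx => ?_, fun x hx => ?_, fun n hn n0 => ?_, fun p hp h => ?_⟩
  · obtain ⟨a, b, hb, rfl⟩ := IsFractionRing.div_surjective (A := 𝓞 L) x
    have b0 : b ≠ 0 := nonZeroDivisors.ne_zero hb
    have a0 : a ≠ 0 := by
      rintro rfl
      simp at hx
    refine ⟨(multiplicity w.maximalIdeal.asIdeal (Ideal.span {b}) : ℤ) -
      (multiplicity w.maximalIdeal.asIdeal (Ideal.span {a}) : ℤ), ?_⟩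
    rw [map_div₀, zpow_sub₀ h0, zpow_natCast, zpow_natCast]
    show w (a : L) / w (b : L) = _
    rw [val_int w a a0, val_int w b b0, inv_div_inv]
  · rw [← FinitePlace.norm_embedding_eq]
    exact FinitePlace.norm_le_one L w.maximalIdeal (⟨x, hx⟩ : 𝓞 L)
  · have key : ∀ m : ℕ, m ≠ 0 → w (m : L) < 1 → ∃ p : ℕ, p.Prime ∧ p ∣ m ∧ w (p : L) < 1 := by
      intro m
      induction m using induction_on_primes with
      | zero => exact fun h => absurd rfl h
      | one => intro _ h; simp at h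
      | prime_mul p a hp ih =>
        intro hm h
        by_cases h1 : w (p : L) < 1
        · exact ⟨p, hp, dvd_mul_right _ _, h1⟩
        · rw [Nat.cast_mul, map_mul] at h
          have h3 : 0 ≤ w (a : L) := apply_nonneg w _
          obtain ⟨q, hq, hd, hw⟩ := ih (right_ne_zero_of_mul hm) (by nlinarith [not_lt.1 h1])
          exact ⟨q, hq, hd.mul_left _, hw⟩
    have e : w ((n.natAbs : ℕ) : L) = w (n : L) := by
      rcases Int.natAbs_eq n with h | h
      · conv_rhs => rw [h, Int.cast_natCast]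
      · conv_rhs => rw [h, Int.cast_neg, Int.cast_natCast, map_neg_eq_map]
    obtain ⟨p, hp, hd, hw⟩ := key n.natAbs (Int.natAbs_ne_zero.2 n0) (e ▸ hn)
    exact ⟨p, hp, Int.natCast_dvd.2 hd, hw⟩
  · have p0 : (p : 𝓞 L) ≠ 0 := Nat.cast_ne_zero.2 hp.ne_zero
    have h1 : ((p : 𝓞 L) : L) = (p : L) := map_natCast (algebraMap (𝓞 L) L) p
    have h3 := val_int w p p0
    rw [h1] at h3
    have h4 := map_dvd Ideal.absNorm
      (pow_multiplicity_dvd w.maximalIdeal.asIdeal (Ideal.span {(p : 𝓞 L)}))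
    rw [map_pow, Ideal.absNorm_span_natCast, RingOfIntegers.rank] at h4
    have h5 : nq w ^ multiplicity w.maximalIdeal.asIdeal (Ideal.span {(p : 𝓞 L)}) ≤
        (p : ℝ) ^ finrank ℚ L := by
      unfold nq
      exact_mod_cast Nat.le_of_dvd (pow_pos hp.pos _) h4
    have h6 : multiplicity w.maximalIdeal.asIdeal (Ideal.span {(p : 𝓞 L)}) ≠ 0 := by
      intro h6
      rw [h3, h6] at h
      simp at h
    refine ⟨val_le w p hp h, (le_self_pow₀ (by linarith) h6).trans h5, ?_, val_dvd w p hp h⟩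
    rw [h3]
    exact inv_anti₀ (pow_pos (by linarith) _) h5

theorem val2_lt {L : Type} [Field L] [NumberField L] (w : FinitePlace L) (a : 𝓞 L) :
    w (a : L) < 1 ↔ a ∈ w.maximalIdeal.asIdeal := by
  rw [← FinitePlace.norm_embedding_eq]
  exact FinitePlace.norm_lt_one_iff_mem L w.maximalIdeal a

theorem val2_two {L : Type} [Field L] [NumberField L] (w : FinitePlace L) : 2 ≤ nq w := by
  have := NumberField.HeightOneSpectrum.one_lt_absNorm w.maximalIdeal
  unfold nq
  exact_mod_cast this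

theorem val2_dvd {L : Type} [Field L] [NumberField L] (w : FinitePlace L) (p : ℕ) (hp : p.Prime)
    (h : w (p : L) < 1) (n : ℤ) (hn : w (n : L) < 1) : (p : ℤ) ∣ n := by
  by_contra hd
  obtain ⟨u, v, huv⟩ := (Nat.prime_iff_prime_int.1 hp).irreducible.coprime_iff_not_dvd.2 hd
  have h1 : ((p : 𝓞 L) : L) = (p : L) := map_natCast (algebraMap (𝓞 L) L) p
  have h2 : ((n : 𝓞 L) : L) = (n : L) := map_intCast (algebraMap (𝓞 L) L) n
  rw [← h1, val2_lt] at h
  rw [← h2, val2_lt] at hn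
  apply w.maximalIdeal.isPrime.ne_top
  rw [Ideal.eq_top_iff_one]
  have e : (1 : 𝓞 L) = (u : 𝓞 L) * (p : 𝓞 L) + (v : 𝓞 L) * (n : 𝓞 L) := by
    exact_mod_cast congrArg (Int.cast : ℤ → 𝓞 L) huv.symm
  rw [e]
  exact Ideal.add_mem _ (Ideal.mul_mem_left _ _ h) (Ideal.mul_mem_left _ _ hn)

theorem val2_le {L : Type} [Field L] [NumberField L] (w : FinitePlace L) (p : ℕ) (hp : p.Prime)
    (h : w (p : L) < 1) : (p : ℝ) ≤ nq w := by
  have h1 := Ideal.absNorm_mem w.maximalIdeal.asIdeal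
  rw [← val2_lt] at h1
  have h2 : (((Ideal.absNorm w.maximalIdeal.asIdeal : ℕ) : 𝓞 L) : L) =
      (((Ideal.absNorm w.maximalIdeal.asIdeal : ℕ) : ℤ) : L) := by
    rw [Int.cast_natCast]
    exact map_natCast (algebraMap (𝓞 L) L) _
  rw [h2] at h1
  have h3 := Int.natCast_dvd_natCast.1 (val2_dvd w p hp h _ h1)
  have h4 := NumberField.HeightOneSpectrum.one_lt_absNorm w.maximalIdeal
  unfold nq
  exact_mod_cast Nat.le_of_dvd (by omega) h3

theorem val2_row : VAL2_s := by
  intro L _ _ p hp S hS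
  have h1 : ((p : 𝓞 L) : L) = (p : L) := map_natCast (algebraMap (𝓞 L) L) p
  have hd : ∏ w ∈ S, w.maximalIdeal.asIdeal ∣ Ideal.span {(p : 𝓞 L)} := by
    refine Finset.prod_dvd_of_coprime (fun w _ w' _ hne => ?_) fun w hw => ?_
    · exact IsDedekindDomain.HeightOneSpectrum.isCoprime_of_ne _ _
        (fun e => hne (FinitePlace.maximalIdeal_injective e))
    · rw [Ideal.dvd_span_singleton, ← val2_lt, h1]
      exact hS w hw
  have h4 := map_dvd Ideal.absNorm hd
  rw [map_prod, Ideal.absNorm_span_natCast, RingOfIntegers.rank] at h4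
  have h5 : ∏ w ∈ S, nq w ≤ (p : ℝ) ^ finrank ℚ L := by
    unfold nq
    exact_mod_cast Nat.le_of_dvd (pow_pos hp.pos _) h4
  have hpos : ∀ w ∈ S, 0 < nq w := fun w _ => by linarith [val2_two w]
  have h6 : ∑ w ∈ S, Real.log (nq w) ≤ finrank ℚ L * Real.log p := by
    rw [← Real.log_prod fun w hw => (hpos w hw).ne', ← Real.log_pow]
    exact Real.log_le_log (Finset.prod_pos hpos) h5
  refine ⟨h6, ?_⟩
  have p1 : (1 : ℝ) < p := by exact_mod_cast hp.one_lt
  have h7 : (S.card : ℝ) * Real.log p ≤ ∑ w ∈ S, Real.log (nq w) := by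
    rw [← nsmul_eq_mul, ← Finset.sum_const]
    exact Finset.sum_le_sum fun w hw => Real.log_le_log (by linarith) (val2_le w p hp (hS w hw))
  exact_mod_cast le_of_mul_le_mul_right (h7.trans h6) (Real.log_pos p1)

open Polynomial in
/-- Archimedean half: Mahler measure. -/
theorem ht_arch {K : Type*} [Field K] {ψ : K} {R : ℤ[X]} {k : ℕ}
    (h : (X - C ψ) ^ k ∣ R.map (Int.castRingHom K)) (φ : K →+* ℂ) :
    |((R.leadingCoeff : ℤ) : ℝ)| * max 1 ‖φ ψ‖ ^ k ≤ ∑ i ∈ R.support, |((R.coeff i : ℤ) : ℝ)| := by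
  obtain ⟨Q, hQ⟩ := h
  have e : R.map (Int.castRingHom ℂ) = (X - C (φ ψ)) ^ k * Q.map φ := by
    have := congrArg (Polynomial.map φ) hQ
    rw [Polynomial.map_map, Polynomial.map_mul, Polynomial.map_pow, Polynomial.map_sub,
      Polynomial.map_X, Polynomial.map_C] at this
    rw [← this]
    exact congrArg (fun f => Polynomial.map f R) (RingHom.ext_int _ _)
  have hp : ∀ n : ℕ, ((X - C (φ ψ) : ℂ[X]) ^ n).mahlerMeasure = max 1 ‖φ ψ‖ ^ n := by
    intro n
    induction n with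
    | zero => simp
    | succ n ih => rw [pow_succ, mahlerMeasure_mul, ih, mahlerMeasure_X_sub_C, pow_succ]
  have hl : ‖(Q.map φ).leadingCoeff‖ = |((R.leadingCoeff : ℤ) : ℝ)| := by
    have h1 := congrArg Polynomial.leadingCoeff e
    rw [leadingCoeff_mul, leadingCoeff_pow, leadingCoeff_X_sub_C, one_pow, one_mul,
      leadingCoeff_map_of_injective (RingHom.injective_int _)] at h1
    rw [← h1]
    simp
  have h2 := mahlerMeasure_le_sum_norm_coeff (R.map (Int.castRingHom ℂ))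
  rw [e, mahlerMeasure_mul, hp, ← e, Polynomial.sum_def,
    support_map_of_injective _ (RingHom.injective_int _)] at h2
  have h3 := leadingCoeff_le_mahlerMeasure (Q.map φ)
  rw [hl] at h3
  refine le_trans ?_ (h2.trans (le_of_eq (Finset.sum_congr rfl fun i _ => by simp)))
  rw [mul_comm]
  exact mul_le_mul_of_nonneg_left h3 (by positivity)

open Polynomial in
/-- Non-archimedean half: Gauss norm. -/
theorem ht_fin {K : Type*} [Field K] {ψ : K} {R : ℤ[X]} {k : ℕ}
    (h : (X - C ψ) ^ k ∣ R.map (Int.castRingHom K)) (v : AbsoluteValue K ℝ)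
    (hv : IsNonarchimedean v) [CharZero K] :
    v ((R.leadingCoeff : ℤ) : K) * max 1 (v ψ) ^ k ≤ 1 := by
  obtain ⟨Q, hQ⟩ := h
  have h1 : (R.map (Int.castRingHom K)).gaussNorm v 1 ≤ 1 := by
    obtain ⟨i, hi⟩ := (R.map (Int.castRingHom K)).exists_eq_gaussNorm v 1
    rw [hi, one_pow, mul_one, coeff_map]
    exact hv.apply_intCast_le_one
  have h2 : max 1 (v ψ) ≤ (X - C ψ : K[X]).gaussNorm v 1 := by
    have a := le_gaussNorm v (X - C ψ : K[X]) zero_le_one 1
    have b := le_gaussNorm v (X - C ψ : K[X]) zero_le_one 0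
    simp only [coeff_sub, coeff_X_one, coeff_C_succ, sub_zero, map_one, one_pow, mul_one,
      coeff_X_zero, coeff_C_zero, zero_sub, map_neg_eq_map, pow_zero] at a b
    exact max_le a b
  have hp : ∀ n : ℕ, max 1 (v ψ) ^ n ≤ ((X - C ψ : K[X]) ^ n).gaussNorm v 1 := by
    intro n
    induction n with
    | zero =>
      have a := le_gaussNorm v (1 : K[X]) zero_le_one 0
      simpa using a
    | succ n ih =>
      rw [pow_succ, pow_succ, gaussNorm_mul hv one_pos]
      exact mul_le_mul ih h2 (by positivity) (gaussNorm_nonneg _ _ zero_le_one)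
  have hl : Q.leadingCoeff = ((R.leadingCoeff : ℤ) : K) := by
    have h1 := congrArg Polynomial.leadingCoeff hQ
    rw [leadingCoeff_mul, leadingCoeff_pow, leadingCoeff_X_sub_C, one_pow, one_mul,
      leadingCoeff_map_of_injective (RingHom.injective_int _)] at h1
    rw [← h1]
    simp
  have h3 := le_gaussNorm v Q zero_le_one Q.natDegree
  rw [one_pow, mul_one, coeff_natDegree, hl] at h3
  rw [hQ, gaussNorm_mul hv one_pos] at h1
  refine le_trans ?_ h1
  rw [mul_comm]
  exact mul_le_mul (hp k) h3 (v.nonneg _) (gaussNorm_nonneg _ _ zero_le_one)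

theorem ht_row (hPF : PF_s) (hVAL : VAL_s) : HT_s := by
  classical
  intro L _ _ ψ c hψ h
  obtain ⟨R, hR, k, hk, hd, hn⟩ := h
  obtain ⟨-, p2, p3, p4, -, p6⟩ := hPF L
  have hl : R.leadingCoeff ≠ 0 := Polynomial.leadingCoeff_ne_zero.2 hR
  have ha : ((R.leadingCoeff : ℤ) : L) ≠ 0 := Int.cast_ne_zero.2 hl
  obtain ⟨V, hV, -, hU⟩ := p4 {ψ, ((R.leadingCoeff : ℤ) : L)} ∅ (fun x hx => by
    rcases mem_insert.1 hx with rfl | hx
    · exact hψ
    · rw [mem_singleton.1 hx]
      exact ha)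
  have h1 := p2 V hV _ (hU _ (mem_insert_of_mem (mem_singleton_self _)))
  have h2 : ∀ v ∈ V, lg v ((R.leadingCoeff : ℤ) : L) + k * max (lg v ψ) 0 ≤ ar v * (c * k) := by
    intro v _
    have h3 : av v ((R.leadingCoeff : ℤ) : L) * max 1 (av v ψ) ^ k ≤
        Real.exp (ar v * (c * k)) := by
      cases v with
      | inl φ =>
        have h4 := (ht_arch hd φ).trans hn
        simpa only [av, ar, place_apply, map_intCast, Complex.norm_intCast, one_mul] using h4
      | inr w =>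
        simpa only [av, ar, zero_mul, Real.exp_zero] using ht_fin hd w.1 (FinitePlace.add_le w)
    have h5 : 0 < av v ((R.leadingCoeff : ℤ) : L) := (av v).pos ha
    have h6 : 0 < av v ψ := (av v).pos hψ
    have h7 : Real.log (max 1 (av v ψ)) = max (lg v ψ) 0 := by
      rcases le_total 1 (av v ψ) with h | h
      · rw [max_eq_right h, lg, max_eq_left (Real.log_nonneg h)]
      · rw [max_eq_left h, lg, max_eq_right (Real.log_nonpos h6.le h), Real.log_one]
    have h8 := Real.log_le_log (by positivity) h3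
    rwa [Real.log_mul h5.ne' (by positivity), Real.log_pow, Real.log_exp, h7] at h8
  have h9 := sum_le_sum h2
  rw [sum_add_distrib, h1, zero_add, ← mul_sum, ← sum_mul, p3 V hV,
    ← p6 V ψ (hU _ (mem_insert_self _ _))] at h9
  have hk' : (0 : ℝ) < k := by exact_mod_cast hk
  refine le_of_mul_le_mul_left (h9.trans (le_of_eq ?_)) hk'
  ring

theorem ht1_loc {L : Type} [Field L] [NumberField L] (v : Pl L) (x y : L) (hy : av v y = 1)
    (h0 : x + y ≠ 0) : max (lg v (x + y)) 0 ≤ max (lg v x) 0 + ar v := by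
  have hp : 0 < av v (x + y) := (av v).pos h0
  have hx : av v x ≤ Real.exp (max (lg v x) 0) := by
    rcases eq_or_lt_of_le ((av v).nonneg x) with h | h
    · rw [← h]; exact (Real.exp_pos _).le
    · calc av v x = Real.exp (lg v x) := (Real.exp_log h).symm
        _ ≤ _ := Real.exp_le_exp.2 (le_max_left _ _)
  have h1 : 1 ≤ Real.exp (max (lg v x) 0) := Real.one_le_exp (le_max_right _ _)
  have hm : (0 : ℝ) ≤ max (lg v x) 0 := le_max_right _ _
  have key : av v (x + y) ≤ Real.exp (max (lg v x) 0 + ar v) ∧ 0 ≤ ar v := by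
    rcases v with φ | w
    · refine ⟨?_, by simp [ar]⟩
      have h2 := (av (Sum.inl φ : Pl L)).add_le x y
      have h3 : (2 : ℝ) ≤ Real.exp 1 := by
        have := Real.add_one_le_exp (1 : ℝ)
        linarith
      rw [Real.exp_add, hy] at *
      have h4 : ar (Sum.inl φ : Pl L) = 1 := rfl
      rw [h4]
      nlinarith
    · refine ⟨?_, by simp [ar]⟩
      have h2 : av (Sum.inr w : Pl L) (x + y) ≤
          max (av (Sum.inr w : Pl L) x) (av (Sum.inr w : Pl L) y) := FinitePlace.add_le w x y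
      have h4 : ar (Sum.inr w : Pl L) = 0 := rfl
      rw [h4, add_zero]
      rw [hy] at h2
      exact h2.trans (max_le hx h1)
  refine max_le ?_ (by linarith [key.2])
  exact (Real.log_le_iff_le_exp hp).2 key.1

theorem ht1_neg {ι : Type} (V : Finset ι) (f : ι → ℝ) (h : ∑ v ∈ V, f v = 0) :
    ∑ v ∈ V, max (-f v) 0 = ∑ v ∈ V, max (f v) 0 := by
  have h1 : ∀ v ∈ V, max (-f v) 0 = max (f v) 0 - f v := by
    intro v _
    rcases le_total (f v) 0 with h | h
    · rw [max_eq_left (by linarith), max_eq_right h]; ring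
    · rw [max_eq_right (by linarith), max_eq_left h]; ring
  rw [Finset.sum_congr rfl h1, Finset.sum_sub_distrib, h, sub_zero]

theorem ht1_row (hPF : PF_s) : HT1_s := by
  intro L _ _ ψ h0 h1
  classical
  obtain ⟨-, hZ, hA, hE, -, hH⟩ := hPF L
  have h1' : ψ - 1 ≠ 0 := sub_ne_zero.2 h1
  have hX : ∀ x ∈ ({ψ, ψ - 1} : Finset L), x ≠ 0 := by
    intro x hx
    rcases Finset.mem_insert.1 hx with rfl | hx
    · exact h0
    · rw [Finset.mem_singleton.1 hx]; exact h1'
  constructor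
  · intro H
    obtain ⟨V, hV, hHV, hU⟩ := hE {ψ, ψ - 1} H hX
    have hz := hZ V hV (ψ - 1) (hU _ (by simp))
    rw [hH V ψ (hU _ (by simp)), ← hA V hV, ← Finset.sum_add_distrib]
    calc ∑ v ∈ H, -lg v (ψ - 1) ≤ ∑ v ∈ H, max (-lg v (ψ - 1)) 0 :=
          Finset.sum_le_sum fun v _ => le_max_left _ _
      _ ≤ ∑ v ∈ V, max (-lg v (ψ - 1)) 0 :=
          Finset.sum_le_sum_of_subset_of_nonneg hHV fun v _ _ => le_max_right _ _
      _ = ∑ v ∈ V, max (lg v (ψ - 1)) 0 := ht1_neg V _ hz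
      _ ≤ _ := by
          refine Finset.sum_le_sum fun v _ => ?_
          have := ht1_loc v ψ (-1) (by simp) (by rw [← sub_eq_add_neg]; exact h1')
          rwa [← sub_eq_add_neg] at this
  · obtain ⟨V, hV, -, hU⟩ := hE {ψ, ψ - 1} ∅ hX
    have hz := hZ V hV (ψ - 1) (hU _ (by simp))
    refine ⟨V.filter fun v => av v (ψ - 1) < 1, fun v hv => (Finset.mem_filter.1 hv).2, ?_⟩
    have h2 : ∑ v ∈ V.filter (fun v => av v (ψ - 1) < 1), -lg v (ψ - 1) =
        ∑ v ∈ V, max (-lg v (ψ - 1)) 0 := by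
      rw [Finset.sum_filter]
      refine Finset.sum_congr rfl fun v _ => ?_
      split_ifs with h
      · have : lg v (ψ - 1) ≤ 0 := Real.log_nonpos ((av v).nonneg _) h.le
        rw [max_eq_left (by linarith)]
      · have : 0 ≤ lg v (ψ - 1) := Real.log_nonneg (not_lt.1 h)
        rw [max_eq_right (by linarith)]
    rw [h2, ht1_neg V _ hz, hH V ψ (hU _ (by simp)), ← hA V hV, sub_le_iff_le_add,
      ← Finset.sum_add_distrib]
    refine Finset.sum_le_sum fun v _ => ?_
    have := ht1_loc v (ψ - 1) 1 (by simp) (by rw [sub_add_cancel]; exact h0)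
    rwa [sub_add_cancel] at this

theorem cost_loc (hVAL : VAL_s) {L : Type} [Field L] [NumberField L] (δ y : L) (N i ρ : ℕ) (r : ℝ)
    (hδ : δ ≠ 0) (hN : 1 ≤ N) (hρ : 1 ≤ ρ) (hr : 1 ≤ r) (h : Ap δ N i ρ r y) (v : Pl L) :
    lg v y - (i : ℝ) / N * lg v δ ≤
      (Real.log r + Real.log ρ / N) * ar v - lg v (ρ : L) / N := by
  obtain ⟨hy, hI, hA⟩ := h
  have hN' : (0 : ℝ) < N := by exact_mod_cast hN
  have hρ0 : (ρ : L) ≠ 0 := by
    have : ρ ≠ 0 := by omega
    exact_mod_cast this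
  rcases v with φ | w
  · have e1 : lg (Sum.inl φ : Pl L) y = Real.log ‖φ y‖ := rfl
    have e2 : lg (Sum.inl φ : Pl L) δ = Real.log ‖φ δ‖ := rfl
    have e3 : lg (Sum.inl φ : Pl L) (ρ : L) = Real.log ρ := by
      have : lg (Sum.inl φ : Pl L) (ρ : L) = Real.log ‖φ (ρ : L)‖ := rfl
      rw [this]; simp
    have e4 : ar (Sum.inl φ : Pl L) = 1 := rfl
    have py : 0 < ‖φ y‖ := by simpa using hy
    have pd : 0 < ‖φ δ‖ := by simpa using hδ
    have h1 := Real.log_le_log py (hA φ)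
    rw [Real.log_mul (by linarith) (Real.rpow_pos_of_pos pd _).ne', Real.log_rpow pd] at h1
    rw [e1, e2, e3, e4]
    linarith
  · have h1 : av (Sum.inr w : Pl L) ((ρ : L) * y ^ N / δ ^ i) ≤ 1 := (hVAL L w).2.2.1 _ hI
    have e4 : ar (Sum.inr w : Pl L) = 0 := rfl
    have py := (av (Sum.inr w : Pl L)).pos hy
    have pd := (av (Sum.inr w : Pl L)).pos hδ
    have pr := (av (Sum.inr w : Pl L)).pos hρ0
    have h2 := Real.log_nonpos ((av (Sum.inr w : Pl L)).nonneg _) h1
    rw [map_div₀, map_mul, map_pow, map_pow, Real.log_div (by positivity) (by positivity),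
      Real.log_mul (by positivity) (by positivity), Real.log_pow, Real.log_pow] at h2
    rw [e4, mul_zero, zero_sub]
    unfold lg
    have h3 : Real.log (av (Sum.inr w : Pl L) y) - (i : ℝ) / N * Real.log (av (Sum.inr w : Pl L) δ) +
        Real.log (av (Sum.inr w : Pl L) (ρ : L)) / N =
        (Real.log (av (Sum.inr w : Pl L) (ρ : L)) + N * Real.log (av (Sum.inr w : Pl L) y) -
          i * Real.log (av (Sum.inr w : Pl L) δ)) / N := by
      field_simp
      ring
    have h4 := div_nonpos_of_nonpos_of_nonneg h2 hN'.le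
    linarith

theorem cost_row (hPF : PF_s) (hVAL : VAL_s) : COST_s := by
  intro L _ _ δ1 δ2 y1 y2 N i ρ r h1 h2 hN hρ hr A1 A2
  classical
  obtain ⟨-, hZ, hA, hE, hC, -⟩ := hPF L
  have hρ0 : (ρ : L) ≠ 0 := by
    have : ρ ≠ 0 := by omega
    exact_mod_cast this
  have hy1 := A1.1
  have hy2 := A2.1
  have hX : ∀ x ∈ ({-δ1 / δ2, y1 / y2, δ2, y2, (ρ : L)} : Finset L), x ≠ 0 := by
    intro x hx
    simp only [Finset.mem_insert, Finset.mem_singleton] at hx
    rcases hx with rfl | rfl | rfl | rfl | rfl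
    · exact div_ne_zero (neg_ne_zero.2 h1) h2
    · exact div_ne_zero hy1 hy2
    · exact h2
    · exact hy2
    · exact hρ0
  obtain ⟨V, hV, -, hU⟩ := hE _ ∅ hX
  rw [hC V _ _ _ (hU _ (by simp)) (hU _ (by simp))]
  have z1 := hZ V hV δ2 (hU _ (by simp))
  have z2 := hZ V hV y2 (hU _ (by simp))
  have z3 := hZ V hV (ρ : L) (hU _ (by simp))
  have hb : ∀ v ∈ V, max (lg v (y1 / y2) - (i : ℝ) / N * lg v (-δ1 / δ2)) 0 ≤
      (Real.log r + Real.log ρ / N) * ar v - (1 / (N : ℝ)) * lg v (ρ : L) - lg v y2 +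
        (i : ℝ) / N * lg v δ2 := by
    intro v _
    have b1 := cost_loc hVAL δ1 y1 N i ρ r h1 hN hρ hr A1 v
    have b2 := cost_loc hVAL δ2 y2 N i ρ r h2 hN hρ hr A2 v
    have e1 : lg v (y1 / y2) = lg v y1 - lg v y2 := by
      unfold lg
      rw [map_div₀, Real.log_div ((av v).pos hy1).ne' ((av v).pos hy2).ne']
    have e2 : lg v (-δ1 / δ2) = lg v δ1 - lg v δ2 := by
      unfold lg
      rw [map_div₀, AbsoluteValue.map_neg, Real.log_div ((av v).pos h1).ne' ((av v).pos h2).ne']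
    have e3 : (1 / (N : ℝ)) * lg v (ρ : L) = lg v (ρ : L) / N := by ring
    rw [e1, e2, e3]
    refine max_le ?_ ?_
    · linarith
    · linarith
  refine (Finset.sum_le_sum hb).trans (le_of_eq ?_)
  rw [Finset.sum_add_distrib, Finset.sum_sub_distrib, Finset.sum_sub_distrib, ← Finset.mul_sum,
    ← Finset.mul_sum, ← Finset.mul_sum, z1, z2, z3, hA V hV]
  ring

theorem unit_neg {ι : Type} (V : Finset ι) (f : ι → ℝ) (h : ∑ v ∈ V, f v = 0) :
    ∑ v ∈ V, max (-f v) 0 = ∑ v ∈ V, max (f v) 0 := by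
  have h1 : ∀ v ∈ V, max (-f v) 0 = max (f v) 0 - f v := by
    intro v _
    rcases le_total (f v) 0 with h | h
    · rw [max_eq_left (by linarith), max_eq_right h]; ring
    · rw [max_eq_right (by linarith), max_eq_left h]; ring
  rw [Finset.sum_congr rfl h1, Finset.sum_sub_distrib, h, sub_zero]

theorem unit_row (hPF : PF_s) (hVAL : VAL_s) : UNIT_s := by
  intro L _ _ w ψ a τ hψ ha hw hc
  classical
  obtain ⟨-, hZ, -, hE, hC, -⟩ := hPF L
  obtain ⟨h2, hk, -⟩ := hVAL L w
  obtain ⟨k, hk⟩ := hk a ha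
  have hX : ∀ x ∈ ({ψ, a} : Finset L), x ≠ 0 := by
    intro x hx
    rcases Finset.mem_insert.1 hx with rfl | hx
    · exact hψ
    · rw [Finset.mem_singleton.1 hx]; exact ha
  obtain ⟨V, hV, hHV, hU⟩ := hE {ψ, a} {Sum.inr w} hX
  have hwV : (Sum.inr w : Pl L) ∈ V := hHV (by simp)
  have hz : ∑ v ∈ V, (lg v a - τ * lg v ψ) = 0 := by
    rw [Finset.sum_sub_distrib, ← Finset.mul_sum, hZ V hV a (hU _ (by simp)),
      hZ V hV ψ (hU _ (by simp))]
    ring
  rw [hC V ψ a τ (hU _ (by simp)) (hU _ (by simp))] at hc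
  have hl : 0 < Real.log (nq w) := Real.log_pos (by linarith)
  have hv : lg (Sum.inr w : Pl L) a - τ * lg (Sum.inr w : Pl L) ψ = k * Real.log (nq w) := by
    have e1 : lg (Sum.inr w : Pl L) a = Real.log (w a) := rfl
    have e2 : lg (Sum.inr w : Pl L) ψ = Real.log (w ψ) := rfl
    rw [e1, e2, hw, hk, Real.log_zpow]
    simp
  have hp : max (lg (Sum.inr w : Pl L) a - τ * lg (Sum.inr w : Pl L) ψ) 0 ≤
      ∑ v ∈ V, max (lg v a - τ * lg v ψ) 0 :=
    Finset.single_le_sum (f := fun v => max (lg v a - τ * lg v ψ) 0)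
      (fun v _ => le_max_right _ _) hwV
  have hn : max (-(lg (Sum.inr w : Pl L) a - τ * lg (Sum.inr w : Pl L) ψ)) 0 ≤
      ∑ v ∈ V, max (-(lg v a - τ * lg v ψ)) 0 :=
    Finset.single_le_sum (f := fun v => max (-(lg v a - τ * lg v ψ)) 0)
      (fun v _ => le_max_right _ _) hwV
  rw [unit_neg V _ hz] at hn
  rw [hv] at hp hn
  have hp' := (le_max_left _ _).trans hp
  have hn' := (le_max_left _ _).trans hn
  have k1 : (k : ℝ) < 1 := by nlinarith
  have k2 : (-1 : ℝ) < k := by nlinarith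
  have k3 : k < 1 := by exact_mod_cast k1
  have k4 : -1 < k := by exact_mod_cast k2
  have k0 : k = 0 := by omega
  rw [hk, k0, zpow_zero]

theorem gal_lt {L : Type} [Field L] [NumberField L] (w : FinitePlace L) (a : 𝓞 L) :
    w (a : L) < 1 ↔ a ∈ w.maximalIdeal.asIdeal := by
  rw [← FinitePlace.norm_embedding_eq]
  exact FinitePlace.norm_lt_one_iff_mem L w.maximalIdeal a

theorem gal_int {L : Type} [Field L] [NumberField L] (w : FinitePlace L) (a : 𝓞 L)
    (ha : a ≠ 0) :
    w (a : L) = (nq w ^ multiplicity w.maximalIdeal.asIdeal (Ideal.span {a}))⁻¹ :=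
  eq_inv_of_mul_eq_one_left (FinitePlace.apply_mul_absNorm_pow_eq_one w ha)

theorem gal_ex {L : Type} [Field L] [NumberField L] (g : L ≃ₐ[ℚ] L) (w : FinitePlace L) :
    ∃ w' : FinitePlace L, w'.maximalIdeal.asIdeal =
      w.maximalIdeal.asIdeal.map (RingOfIntegers.mapRingEquiv (g : L ≃+* L)) ∧
      nq w' = nq w ∧ ∀ x : L, w' (g x) = w x := by
  let σ : 𝓞 L ≃+* 𝓞 L := RingOfIntegers.mapRingEquiv (g : L ≃+* L)
  have hσ : ∀ a : 𝓞 L, ((σ a : 𝓞 L) : L) = g (a : L) := fun _ => rfl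
  have := w.maximalIdeal.isPrime
  let v : IsDedekindDomain.HeightOneSpectrum (𝓞 L) :=
    ⟨w.maximalIdeal.asIdeal.map σ, Ideal.map_isPrime_of_equiv σ, fun h =>
      w.maximalIdeal.ne_bot ((Ideal.map_eq_bot_iff_of_injective σ.injective).1 h)⟩
  have hv : (FinitePlace.mk v).maximalIdeal.asIdeal = w.maximalIdeal.asIdeal.map σ := by
    rw [FinitePlace.maximalIdeal_mk]
  have hn : nq (FinitePlace.mk v) = nq w := by
    unfold nq
    rw [hv, Ideal.absNorm_apply, Ideal.absNorm_apply, Submodule.cardQuot_apply,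
      Submodule.cardQuot_apply]
    exact congrArg _ (Nat.card_congr (Ideal.quotientEquiv _ _ σ rfl).toEquiv.symm)
  have hi : ∀ a : 𝓞 L, FinitePlace.mk v (g (a : L)) = w (a : L) := by
    intro a
    by_cases a0 : a = 0
    · simp [a0]
    rw [← hσ, gal_int w a a0, gal_int _ (σ a) ((map_ne_zero_iff σ σ.injective).2 a0), hn, hv]
    have e : multiplicity (w.maximalIdeal.asIdeal.map σ) (Ideal.span {σ a}) =
        multiplicity w.maximalIdeal.asIdeal (Ideal.span {a}) := by
      apply multiplicity_eq_of_emultiplicity_eq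
      rw [emultiplicity_eq_emultiplicity_iff]
      intro n
      rw [Ideal.dvd_span_singleton, Ideal.dvd_span_singleton, ← Ideal.map_pow]
      exact Ideal.apply_mem_of_equiv_iff
    rw [e]
  refine ⟨FinitePlace.mk v, hv, hn, fun x => ?_⟩
  obtain ⟨a, b, -, rfl⟩ := IsFractionRing.div_surjective (A := 𝓞 L) x
  rw [map_div₀, map_div₀, map_div₀]
  exact congrArg₂ _ (hi a) (hi b)

theorem gal_row (hVAL : VAL_s) : GAL_s := by
  intro L _ _ g w
  obtain ⟨w', h1, h2, h3⟩ := gal_ex g w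
  refine ⟨⟨w', h2, h3⟩, fun h => ?_, fun x hx k => ?_⟩
  · have hle : w'.maximalIdeal.asIdeal ≤ w.maximalIdeal.asIdeal := by
      rw [h1, Ideal.map_le_iff_le_comap]
      intro a ha
      rw [Ideal.mem_comap, ← gal_lt]
      exact h a a.isIntegral_coe ((gal_lt w a).2 ha)
    have e : w' = w := FinitePlace.maximalIdeal_injective
      (IsDedekindDomain.HeightOneSpectrum.ext
        (w'.maximalIdeal.isMaximal.eq_of_le w.maximalIdeal.isPrime.ne_top hle))
    rwa [e] at h3
  · have one := NumberField.HeightOneSpectrum.one_lt_absNorm_nnreal w.maximalIdeal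
    have hw : ∀ y : L, w y = WithZeroMulInt.toNNReal
        (NumberField.HeightOneSpectrum.absNorm_ne_zero w.maximalIdeal)
        (w.maximalIdeal.valuation L y) := fun y => by
      rw [← FinitePlace.norm_embedding_eq, FinitePlace.norm_embedding']
    have hx' : w.maximalIdeal.valuation L x ≤ 1 := by
      rw [← WithZeroMulInt.toNNReal_le_one_iff one]
      rw [hw] at hx
      exact_mod_cast hx
    obtain ⟨a, ha⟩ := w.maximalIdeal.exists_valuation_sub_lt_of_integer hx'
      (Units.mk0 (WithZero.exp (-(k : ℤ))) WithZero.exp_ne_zero)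
    refine ⟨a, a.isIntegral_coe, ?_⟩
    rw [← map_neg_eq_map, neg_sub, hw]
    have h4 := (WithZeroMulInt.toNNReal_strictMono one ha).le
    rw [Units.val_mk0, WithZeroMulInt.toNNReal_neg_apply _ WithZero.exp_ne_zero] at h4
    have h5 : (WithZero.unzero (WithZero.exp_ne_zero (a := -(k : ℤ)))).toAdd = -(k : ℤ) := rfl
    rw [h5, zpow_neg, zpow_natCast] at h4
    unfold nq
    exact_mod_cast h4

theorem frob_mem {L : Type} [Field L] [NumberField L] (w : FinitePlace L) (x : 𝓞 L) :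
    w (x : L) < 1 ↔ x ∈ w.maximalIdeal.asIdeal := by
  rw [← FinitePlace.norm_embedding_eq]
  exact FinitePlace.norm_lt_one_iff_mem _ _ x

theorem frob_add {L : Type} [Field L] [NumberField L] (w : FinitePlace L) {a b : L} (ha : w a < 1)
    (hb : w b < 1) : w (a + b) < 1 := (w.add_le a b).trans_lt (max_lt ha hb)

theorem frob_neg {L : Type} [Field L] [NumberField L] (w : FinitePlace L) (a b : L) :
    w (a - b) = w (b - a) := by
  rw [← neg_sub, map_neg_eq_map]

theorem frob_pow {L : Type} [Field L] [NumberField L] (w : FinitePlace L) {a b : L} (ha : w a ≤ 1)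
    (hb : w b ≤ 1) (h : w (a - b) < 1) (n : ℕ) : w (a ^ n - b ^ n) < 1 := by
  induction n with
  | zero => simp
  | succ n ih =>
    have e : a ^ (n + 1) - b ^ (n + 1) = a * (a ^ n - b ^ n) + (a - b) * b ^ n := by ring
    rw [e]
    refine frob_add w ?_ ?_
    · rw [map_mul]
      exact (mul_le_of_le_one_left (apply_nonneg w _) ha).trans_lt ih
    · rw [map_mul, map_pow]
      exact (mul_le_of_le_one_right (apply_nonneg w _)
        (pow_le_one₀ (apply_nonneg w _) hb)).trans_lt h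

theorem frob_app (hVAL : VAL_s) (hGAL : GAL_s) {L : Type} [Field L] [NumberField L]
    (w : FinitePlace L) {x : L} (hx : w x ≤ 1) : ∃ x0 : 𝓞 L, w (x - x0) < 1 := by
  obtain ⟨x0, h0, h1⟩ := (hGAL L 1 w).2.2 x hx 1
  refine ⟨⟨x0, h0⟩, h1.trans_lt ?_⟩
  rw [pow_one]
  exact inv_lt_one_of_one_lt₀ (by linarith [(hVAL L w).1])

theorem frob_row (hVAL : VAL_s) (hGAL : GAL_s) : FROB_s := by
  intro L _ _ hG w p hp hw
  have hpr := w.maximalIdeal.isPrime
  have hfin : Finite (𝓞 L ⧸ w.maximalIdeal.asIdeal) :=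
    Ideal.finiteQuotientOfFreeOfNeBot _ w.maximalIdeal.ne_bot
  obtain ⟨g, hg⟩ := IsArithFrobAt.exists_of_isInvariant ℤ (L ≃ₐ[ℚ] L) w.maximalIdeal.asIdeal
  have hmem : (p : 𝓞 L) ∈ w.maximalIdeal.asIdeal := (frob_mem w _).1 (by simpa using hw)
  have hu : w.maximalIdeal.asIdeal.under ℤ = Ideal.span {(p : ℤ)} := by
    have hm : (Ideal.span {(p : ℤ)}).IsMaximal :=
      PrincipalIdealRing.isMaximal_of_irreducible (Nat.prime_iff_prime_int.1 hp).irreducible
    refine (hm.eq_of_le (Ideal.IsPrime.under ℤ _).ne_top ?_).symm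
    rw [Ideal.span_singleton_le_iff_mem, Ideal.mem_comap]
    simpa using hmem
  have hc : Nat.card (ℤ ⧸ w.maximalIdeal.asIdeal.under ℤ) = p := by
    rw [hu, Nat.card_congr (Int.quotientSpanNatEquivZMod p).toEquiv, Nat.card_zmod]
  have hI : ∀ x : 𝓞 L, w (g x - (x : L) ^ p) < 1 := by
    intro x
    have h1 := hg x
    rw [hc] at h1
    exact (frob_mem w _).2 h1
  have hfix : ∀ x : L, w (g x) = w x := by
    refine (hGAL L g w).2.1 fun x hx h1 => ?_
    have e : g x = (g x - x ^ p) + x ^ p := by ring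
    rw [e]
    refine frob_add w (hI ⟨x, hx⟩) ?_
    rw [map_pow]
    exact pow_lt_one₀ (apply_nonneg w _) h1 hp.ne_zero
  refine ⟨g, hfix, fun x hx => ?_⟩
  obtain ⟨x0, h0⟩ := frob_app hVAL hGAL w hx
  have e : g x - x ^ p = g (x - x0) + ((g x0 - (x0 : L) ^ p) + ((x0 : L) ^ p - x ^ p)) := by
    rw [map_sub]
    ring
  rw [e]
  refine frob_add w (by rwa [hfix]) (frob_add w (hI x0) (frob_pow w ?_ hx ?_ p))
  · exact (hVAL L w).2.2.1 _ x0.2
  · rwa [frob_neg]

theorem iner_lt {L : Type} [Field L] [NumberField L] (w : FinitePlace L) (a : 𝓞 L) :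
    w (a : L) < 1 ↔ a ∈ w.maximalIdeal.asIdeal := by
  rw [← FinitePlace.norm_embedding_eq]
  exact FinitePlace.norm_lt_one_iff_mem L w.maximalIdeal a

theorem iner_int {L : Type} [Field L] [NumberField L] (w : FinitePlace L) (a : 𝓞 L)
    (ha : a ≠ 0) :
    w (a : L) = (nq w ^ multiplicity w.maximalIdeal.asIdeal (Ideal.span {a}))⁻¹ :=
  eq_inv_of_mul_eq_one_left (FinitePlace.apply_mul_absNorm_pow_eq_one w ha)

theorem iner_row (hVAL : VAL_s) (hGAL : GAL_s) : INER_s := by
  intro L _ _ hG w p hp h hin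
  obtain ⟨h2, -, -, -, h5⟩ := hVAL L w
  obtain ⟨-, -, -, hd⟩ := h5 p hp h
  have p0 : (p : 𝓞 L) ≠ 0 := Nat.cast_ne_zero.2 hp.ne_zero
  have h1 : ((p : 𝓞 L) : L) = (p : L) := map_natCast (algebraMap (𝓞 L) L) p
  have hP := w.maximalIdeal.isPrime
  have hp' : (Ideal.span {(p : ℤ)}).IsPrime :=
    (Ideal.span_singleton_prime (by exact_mod_cast hp.ne_zero)).2 (Nat.prime_iff_prime_int.1 hp)
  have hlo : w.maximalIdeal.asIdeal.LiesOver (Ideal.span {(p : ℤ)}) := ⟨by
    ext n
    have e : ((n : 𝓞 L) : L) = (n : L) := map_intCast (algebraMap (𝓞 L) L) n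
    rw [Ideal.mem_span_singleton, Ideal.under_def, Ideal.mem_comap, eq_intCast]
    constructor
    · rintro ⟨c, rfl⟩
      rw [Int.cast_mul, Int.cast_natCast]
      exact Ideal.mul_mem_right _ _ ((iner_lt w p).1 (h1 ▸ h))
    · intro hn
      exact hd n (e ▸ (iner_lt w n).2 hn)⟩
  have hbot : w.maximalIdeal.asIdeal.inertia (L ≃ₐ[ℚ] L) = ⊥ := by
    rw [Subgroup.eq_bot_iff_forall]
    intro g hg
    have hg' : ∀ a : 𝓞 L, w (g (a : L) - a) < 1 := fun a => (iner_lt w (g • a - a)).2 (hg a)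
    obtain ⟨-, g2, g3⟩ := hGAL L g w
    have g4 := g2 fun x hx hlt => by
      have e : g x = (g x - x) + x := by ring
      rw [e]
      exact (w.add_le _ _).trans_lt (max_lt (hg' ⟨x, hx⟩) hlt)
    refine hin g fun x hx => ?_
    obtain ⟨x0, hx0, hle⟩ := g3 x hx 1
    have hlt : w (x - x0) < 1 := hle.trans_lt (inv_lt_one_of_one_lt₀ (by rw [pow_one]; linarith))
    have e : g x - x = (g (x - x0) + (g x0 - x0)) + -(x - x0) := by
      rw [map_sub]
      ring
    rw [e]
    refine (w.add_le _ _).trans_lt (max_lt ((w.add_le _ _).trans_lt (max_lt ?_ (hg' ⟨x0, hx0⟩))) ?_)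
    · rwa [g4]
    · rwa [map_neg_eq_map]
  have hm : (Ideal.span {(p : ℤ)}).map (algebraMap ℤ (𝓞 L)) = Ideal.span {(p : 𝓞 L)} := by
    rw [Ideal.map_span, Set.image_singleton, map_natCast]
  have hc := Ideal.card_inertia_eq_ramificationIdxIn (G := L ≃ₐ[ℚ] L) (Ideal.span {(p : ℤ)})
    w.maximalIdeal.asIdeal
  rw [hbot, Subgroup.card_bot, Ideal.ramificationIdxIn_eq_ramificationIdx _ w.maximalIdeal.asIdeal
    (L ≃ₐ[ℚ] L), Ideal.IsDedekindDomain.ramificationIdx_eq_multiplicity (Ideal.span {(p : ℤ)}) _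
    (by rw [hm]; exact mt Ideal.span_singleton_eq_bot.1 p0), hm] at hc
  rw [← h1, iner_int w p p0, ← hc, pow_one]

theorem res_mem {L : Type} [Field L] [NumberField L] (w : FinitePlace L) (x : 𝓞 L) :
    w (x : L) < 1 ↔ x ∈ w.maximalIdeal.asIdeal := by
  rw [← FinitePlace.norm_embedding_eq]
  exact FinitePlace.norm_lt_one_iff_mem _ _ x

theorem res_add {L : Type} [Field L] [NumberField L] (w : FinitePlace L) {a b : L} (ha : w a < 1)
    (hb : w b < 1) : w (a + b) < 1 := (w.add_le a b).trans_lt (max_lt ha hb)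

theorem res_neg {L : Type} [Field L] [NumberField L] (w : FinitePlace L) (a b : L) :
    w (a - b) = w (b - a) := by
  rw [← neg_sub, map_neg_eq_map]

theorem res_app (hVAL : VAL_s) (hGAL : GAL_s) {L : Type} [Field L] [NumberField L]
    (w : FinitePlace L) {x : L} (hx : w x ≤ 1) : ∃ x0 : 𝓞 L, w (x - x0) < 1 := by
  obtain ⟨x0, h0, h1⟩ := (hGAL L 1 w).2.2 x hx 1
  refine ⟨⟨x0, h0⟩, h1.trans_lt ?_⟩
  rw [pow_one]
  exact inv_lt_one_of_one_lt₀ (by linarith [(hVAL L w).1])

theorem res_row (hVAL : VAL_s) (hGAL : GAL_s) : RES_s := by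
  intro L _ _ w p g hp hw hg
  by_cases hlt : (p : ℝ) ^ 2 ≤ nq w
  · exact Or.inr hlt
  left
  have hmem : (p : 𝓞 L) ∈ w.maximalIdeal.asIdeal := (res_mem w _).1 (by simpa using hw)
  have hd : Ideal.absNorm w.maximalIdeal.asIdeal ∣ p ^ finrank ℤ (𝓞 L) := by
    rw [← Ideal.absNorm_span_natCast]
    exact Ideal.absNorm_dvd_absNorm_of_le ((Ideal.span_singleton_le_iff_mem _).2 hmem)
  obtain ⟨k, -, hk⟩ := (Nat.dvd_prime_pow hp).1 hd
  have h2 := (hVAL L w).1
  have hn : Ideal.absNorm w.maximalIdeal.asIdeal = p := by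
    unfold nq at h2 hlt
    rw [hk] at h2 hlt ⊢
    have a1 : 2 ≤ p ^ k := by exact_mod_cast h2
    have a2 : p ^ k < p ^ 2 := by exact_mod_cast not_le.1 hlt
    have a3 : k < 2 := (Nat.pow_lt_pow_iff_right hp.one_lt).1 a2
    interval_cases k
    · simp at a1
    · simp
  have hfin : Finite (𝓞 L ⧸ w.maximalIdeal.asIdeal) :=
    Ideal.finiteQuotientOfFreeOfNeBot _ w.maximalIdeal.ne_bot
  have hb : Function.Bijective fun i : Fin p =>
      Ideal.Quotient.mk w.maximalIdeal.asIdeal ((i : ℕ) : 𝓞 L) := by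
    refine (Nat.bijective_iff_injective_and_card _).2 ⟨fun i j hij => ?_, ?_⟩
    · have h1 := (res_mem w _).2 (Ideal.Quotient.eq.1 hij)
      have h3 := ((hVAL L w).2.2.2.2 p hp hw).2.2.2 (((i : ℕ) : ℤ) - ((j : ℕ) : ℤ))
        (by simpa using h1)
      have h4 := Int.eq_zero_of_abs_lt_dvd h3 (by
        have := i.2
        have := j.2
        rw [abs_lt]
        constructor <;> omega)
      exact Fin.ext (by omega)
    · rw [Nat.card_eq_fintype_card, Fintype.card_fin, ← hn, Ideal.absNorm_apply,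
        Submodule.cardQuot_apply]
  intro x hx
  obtain ⟨x0, h0⟩ := res_app hVAL hGAL w hx
  obtain ⟨i, hi⟩ := hb.2 (Ideal.Quotient.mk _ x0)
  have h1 := (res_mem w _).2 (Ideal.Quotient.eq.1 hi.symm)
  have h3 : w (x - ((i : ℕ) : L)) < 1 := by
    have e : x - ((i : ℕ) : L) = (x - x0) + ((x0 : L) - ((i : ℕ) : L)) := by ring
    rw [e]
    exact res_add w h0 (by simpa using h1)
  have e : g x - x = g (x - ((i : ℕ) : L)) + (((i : ℕ) : L) - x) := by
    rw [map_sub, map_natCast]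
    ring
  rw [e]
  exact res_add w (by rwa [hg]) (by rwa [res_neg])

theorem root_mem {L : Type} [Field L] [NumberField L] (w : FinitePlace L) (x : 𝓞 L) :
    w (x : L) < 1 ↔ x ∈ w.maximalIdeal.asIdeal := by
  rw [← FinitePlace.norm_embedding_eq]
  exact FinitePlace.norm_lt_one_iff_mem _ _ x

theorem root_add {L : Type} [Field L] [NumberField L] (w : FinitePlace L) {a b : L} (ha : w a < 1)
    (hb : w b < 1) : w (a + b) < 1 := (w.add_le a b).trans_lt (max_lt ha hb)

theorem root_neg {L : Type} [Field L] [NumberField L] (w : FinitePlace L) (a b : L) :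
    w (a - b) = w (b - a) := by
  rw [← neg_sub, map_neg_eq_map]

theorem root_pow {L : Type} [Field L] [NumberField L] (w : FinitePlace L) {a b : L} (ha : w a ≤ 1)
    (hb : w b ≤ 1) (h : w (a - b) < 1) (n : ℕ) : w (a ^ n - b ^ n) < 1 := by
  induction n with
  | zero => simp
  | succ n ih =>
    have e : a ^ (n + 1) - b ^ (n + 1) = a * (a ^ n - b ^ n) + (a - b) * b ^ n := by ring
    rw [e]
    refine root_add w ?_ ?_
    · rw [map_mul]
      exact (mul_le_of_le_one_left (apply_nonneg w _) ha).trans_lt ih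
    · rw [map_mul, map_pow]
      exact (mul_le_of_le_one_right (apply_nonneg w _)
        (pow_le_one₀ (apply_nonneg w _) hb)).trans_lt h

theorem root_app (hVAL : VAL_s) (hGAL : GAL_s) {L : Type} [Field L] [NumberField L]
    (w : FinitePlace L) {x : L} (hx : w x ≤ 1) : ∃ x0 : 𝓞 L, w (x - x0) < 1 := by
  obtain ⟨x0, h0, h1⟩ := (hGAL L 1 w).2.2 x hx 1
  refine ⟨⟨x0, h0⟩, h1.trans_lt ?_⟩
  rw [pow_one]
  exact inv_lt_one_of_one_lt₀ (by linarith [(hVAL L w).1])

theorem root_disc (hVAL : VAL_s) {L : Type} [Field L] [NumberField L] (w : FinitePlace L) {x : L}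
    (hx : w x < 1) : w x ≤ (nq w)⁻¹ := by
  have h2 := (hVAL L w).1
  by_cases h0 : x = 0
  · rw [h0, map_zero]
    positivity
  obtain ⟨k, hk⟩ := (hVAL L w).2.1 x h0
  rw [hk] at hx ⊢
  have hk' : k < 0 := (zpow_lt_one_iff_right₀ (by linarith)).1 hx
  rw [← zpow_neg_one]
  exact zpow_le_zpow_right₀ (by linarith) (by omega)

theorem root_row (hVAL : VAL_s) (hGAL : GAL_s) : ROOT_s := by
  classical
  intro L _ _ w k hk
  have hpr := w.maximalIdeal.isPrime
  have hex : ∀ a : L, ∃ x0 : 𝓞 L, w a ≤ 1 → w (a - x0) < 1 := fun a => by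
    by_cases h : w a ≤ 1
    · obtain ⟨x0, h0⟩ := root_app hVAL hGAL w h
      exact ⟨x0, fun _ => h0⟩
    · exact ⟨0, fun h' => absurd h' h⟩
  choose r hr using hex
  let S : Finset (𝓞 L ⧸ w.maximalIdeal.asIdeal) := (Polynomial.nthRoots k 1).toFinset
  have hS : S.card ≤ k := (Multiset.toFinset_card_le _).trans (Polynomial.card_nthRoots k 1)
  have hmem : ∀ a : L, w a = 1 → w (a ^ k - 1) < 1 → Ideal.Quotient.mk _ (r a) ∈ S := by
    intro a ha h1
    rw [Multiset.mem_toFinset, Polynomial.mem_nthRoots hk, ← map_pow,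
      ← map_one (Ideal.Quotient.mk _), Ideal.Quotient.eq, ← root_mem]
    have e : ((r a ^ k - 1 : 𝓞 L) : L) = ((r a : L) ^ k - a ^ k) + (a ^ k - 1) := by
      push_cast
      ring
    rw [e]
    refine root_add w (root_pow w ((hVAL L w).2.2.1 _ (r a).2) ha.le ?_ k) h1
    rw [root_neg]
    exact hr a ha.le
  refine ⟨fun a => if h : Ideal.Quotient.mk _ (r a) ∈ S then (S.equivFin ⟨_, h⟩ : ℕ) else 0,
    fun a ha h1 => ?_, fun a a' ha h1 ha' h1' hc => ?_⟩
  · simp only [dif_pos (hmem a ha h1)]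
    exact (Fin.is_lt _).trans_le hS
  · simp only [dif_pos (hmem a ha h1), dif_pos (hmem a' ha' h1')] at hc
    have h2 := congrArg Subtype.val (S.equivFin.injective (Fin.ext hc))
    have h3 := (root_mem w _).2 (Ideal.Quotient.eq.1 h2)
    have h0 : a' ≠ 0 := fun h => by simp [h] at ha'
    refine root_disc hVAL w ?_
    have e : a / a' - 1 = ((a - r a) + (((r a - r a' : 𝓞 L) : L) + ((r a' : L) - a'))) / a' := by
      push_cast
      field_simp
      ring
    rw [e, map_div₀, ha', div_one]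
    refine root_add w (hr a ha.le) (root_add w h3 ?_)
    rw [root_neg]
    exact hr a' ha'.le

theorem coln_mem {L : Type} [Field L] [NumberField L] (w : FinitePlace L) (x : 𝓞 L) :
    w (x : L) < 1 ↔ x ∈ w.maximalIdeal.asIdeal := by
  rw [← FinitePlace.norm_embedding_eq]
  exact FinitePlace.norm_lt_one_iff_mem _ _ x

theorem coln_neg {L : Type} [Field L] [NumberField L] (w : FinitePlace L) (a b : L) :
    w (a - b) = w (b - a) := by
  rw [← neg_sub, map_neg_eq_map]

theorem coln_disc (hVAL : VAL_s) {L : Type} [Field L] [NumberField L] (w : FinitePlace L) {x : L}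
    (hx : w x < 1) : w x ≤ (nq w)⁻¹ := by
  have h2 := (hVAL L w).1
  by_cases h0 : x = 0
  · rw [h0, map_zero]
    positivity
  obtain ⟨k, hk⟩ := (hVAL L w).2.1 x h0
  rw [hk] at hx ⊢
  have hk' : k < 0 := (zpow_lt_one_iff_right₀ (by linarith)).1 hx
  rw [← zpow_neg_one]
  exact zpow_le_zpow_right₀ (by linarith) (by omega)

theorem coln_pow (hVAL : VAL_s) {L : Type} [Field L] [NumberField L] (w : FinitePlace L) (n : ℕ) :
    ∀ x ∈ w.maximalIdeal.asIdeal ^ n, w (x : L) ≤ (nq w ^ n)⁻¹ := by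
  induction n with
  | zero =>
    intro x _
    rw [pow_zero, inv_one]
    exact (hVAL L w).2.2.1 _ x.2
  | succ n ih =>
    intro x hx
    rw [pow_succ] at hx
    refine Submodule.mul_induction_on hx (fun a ha b hb => ?_) (fun a b ha hb => ?_)
    · have e : ((a * b : 𝓞 L) : L) = (a : L) * b := by push_cast; rfl
      rw [e, map_mul, pow_succ, mul_inv]
      exact mul_le_mul (ih a ha) (coln_disc hVAL w ((coln_mem w b).2 hb)) (apply_nonneg w _)
        ((apply_nonneg w _).trans (ih a ha))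
    · have e : ((a + b : 𝓞 L) : L) = (a : L) + b := by push_cast; rfl
      rw [e]
      exact (w.add_le _ _).trans (max_le ha hb)

theorem coln_row (hVAL : VAL_s) (hGAL : GAL_s) : COLN_s := by
  classical
  intro L _ _ S j
  have hex : ∀ (w : FinitePlace L) (a : L), ∃ x0 : 𝓞 L, w a ≤ 1 →
      w (a - x0) ≤ (nq w ^ j w)⁻¹ := fun w a => by
    by_cases h : w a ≤ 1
    · obtain ⟨x0, h0, h1⟩ := (hGAL L 1 w).2.2 a h (j w)
      exact ⟨⟨x0, h0⟩, fun _ => h1⟩
    · exact ⟨0, fun h' => absurd h' h⟩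
  choose r hr using hex
  have hfin : ∀ w : FinitePlace L, Finite (𝓞 L ⧸ w.maximalIdeal.asIdeal ^ j w) := fun w =>
    Ideal.finiteQuotientOfFreeOfNeBot _ (pow_ne_zero _ w.maximalIdeal.ne_bot)
  let T : Type := ∀ w : S, 𝓞 L ⧸ w.1.maximalIdeal.asIdeal ^ j w.1
  have hT : Finite T := Pi.finite
  have hc : (Nat.card T : ℝ) = ∏ w ∈ S, nq w ^ j w := by
    rw [Nat.card_pi, Nat.cast_prod, ← Finset.prod_coe_sort S]
    refine Finset.prod_congr rfl fun w _ => ?_
    rw [← Submodule.cardQuot_apply, ← Ideal.absNorm_apply, map_pow, Nat.cast_pow, nq]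
  let f : L → T := fun a w => Ideal.Quotient.mk _ (r w.1 a)
  refine ⟨fun a => (Finite.equivFin T (f a) : ℕ), fun a => ?_, fun a a' ha ha' h w hw => ?_⟩
  · rw [← hc]
    exact_mod_cast (Finite.equivFin T (f a)).is_lt
  · have h2 := congrFun ((Finite.equivFin T).injective (Fin.ext h)) ⟨w, hw⟩
    have h3 := coln_pow hVAL w (j w) _ (Ideal.Quotient.eq.1 h2)
    have h0 : a' ≠ 0 := fun h => by simpa [h] using ha' w hw
    have e : a / a' - 1 =
        ((a - r w a) + (((r w a - r w a' : 𝓞 L) : L) + ((r w a' : L) - a'))) / a' := by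
      push_cast
      field_simp
      ring
    rw [e, map_div₀, ha' w hw, div_one]
    refine (w.add_le _ _).trans (max_le (hr w a (ha w hw).le)
      ((w.add_le _ _).trans (max_le h3 ?_)))
    rw [coln_neg]
    exact hr w a' (ha' w hw).le

theorem cola_fl {M E a b : ℝ} (hM : 0 < M) (ha : |a| ≤ E) (hb : |b| ≤ E)
    (h : ⌊M * (a + E)⌋₊ = ⌊M * (b + E)⌋₊) : M * |a - b| ≤ 1 := by
  have a0 : 0 ≤ M * (a + E) := mul_nonneg hM.le (by linarith [(abs_le.mp ha).1])
  have b0 : 0 ≤ M * (b + E) := mul_nonneg hM.le (by linarith [(abs_le.mp hb).1])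
  have h1 := Nat.floor_le a0
  have h2 := Nat.floor_le b0
  have h3 := Nat.lt_floor_add_one (M * (a + E))
  have h4 := Nat.lt_floor_add_one (M * (b + E))
  rw [h] at h1 h3
  rw [← abs_of_pos hM, ← abs_mul, abs_le]
  constructor <;> nlinarith

theorem cola_row : COLA_s := by
  intro G hG
  obtain ⟨M, hM⟩ : ∃ M : ℝ, M = 2 * Real.exp (G + 3) := ⟨_, rfl⟩
  obtain ⟨E, hE⟩ : ∃ E : ℝ, E = Real.exp 3 := ⟨_, rfl⟩
  have M0 : 0 < M := by rw [hM]; positivity
  have E0 : 0 < E := by rw [hE]; positivity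
  obtain ⟨K, hK⟩ : ∃ K : ℕ, K = ⌊M * (E + E)⌋₊ + 1 := ⟨_, rfl⟩
  have lt : ∀ a : ℝ, |a| ≤ E → ⌊M * (a + E)⌋₊ < K := fun a ha => by
    rw [hK]
    exact Nat.lt_succ_of_le (Nat.floor_le_floor
      (mul_le_mul_of_nonneg_left (by linarith [(abs_le.mp ha).2]) M0.le))
  have hKe : (K : ℝ) ≤ Real.exp (G + 10) := by
    have h1 : (K : ℝ) ≤ M * (E + E) + 1 := by
      rw [hK]
      push_cast
      linarith [Nat.floor_le (show 0 ≤ M * (E + E) by positivity)]
    have h2 : M * (E + E) = 4 * Real.exp (G + 6) := by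
      rw [hM, hE, show G + 6 = G + 3 + 3 by ring, Real.exp_add (G + 3)]
      ring
    have h3 : Real.exp (G + 10) = Real.exp 4 * Real.exp (G + 6) := by
      rw [← Real.exp_add]
      ring_nf
    have h4 : (5 : ℝ) ≤ Real.exp 4 := by linarith [Real.add_one_le_exp (4 : ℝ)]
    have h5 : 1 ≤ Real.exp (G + 6) := Real.one_le_exp (by linarith)
    nlinarith
  rw [← hE]
  refine ⟨fun u => ⌊M * (u.re + E)⌋₊ * K + ⌊M * (u.im + E)⌋₊, fun u hu => ?_,
    fun u u' hu hu' hl h => ?_⟩
  · have h1 := lt _ ((Complex.abs_re_le_norm u).trans hu)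
    have h2 := lt _ ((Complex.abs_im_le_norm u).trans hu)
    have h3 : ⌊M * (u.re + E)⌋₊ * K + ⌊M * (u.im + E)⌋₊ + 1 ≤ K * K := by
      have := Nat.mul_le_mul_right K (Nat.succ_le_of_lt h1)
      rw [Nat.succ_mul] at this
      omega
    have h4 : Real.exp (2 * G + 20) = Real.exp (G + 10) * Real.exp (G + 10) := by
      rw [← Real.exp_add]
      ring_nf
    rw [h4]
    refine le_trans ?_ (mul_le_mul hKe hKe (Nat.cast_nonneg _) (Real.exp_pos _).le)
    exact_mod_cast h3
  · have r1 := (Complex.abs_re_le_norm u).trans hu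
    have r2 := (Complex.abs_re_le_norm u').trans hu'
    have i1 := (Complex.abs_im_le_norm u).trans hu
    have i2 := (Complex.abs_im_le_norm u').trans hu'
    have h1 := lt _ i1
    have h2 := lt _ i2
    have K0 : 0 < K := by omega
    have h3 : ⌊M * (u.im + E)⌋₊ = ⌊M * (u'.im + E)⌋₊ := by
      have := congrArg (· % K) h
      simpa only [Nat.mul_add_mod_self_right, Nat.mod_eq_of_lt h1, Nat.mod_eq_of_lt h2] using this
    have h4 : ⌊M * (u.re + E)⌋₊ = ⌊M * (u'.re + E)⌋₊ := by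
      simp only [h3, Nat.add_right_cancel_iff] at h
      exact Nat.eq_of_mul_eq_mul_right K0 h
    have h5 := cola_fl M0 r1 r2 h4
    have h6 := cola_fl M0 i1 i2 h3
    have h7 : ‖u - u'‖ ≤ |u.re - u'.re| + |u.im - u'.im| := Complex.norm_le_abs_re_add_abs_im _
    have h8 : 0 < ‖u'‖ := (Real.exp_pos _).trans_le hl
    have h9 : Real.exp (G + 3) * (Real.exp (-G) * Real.exp (-3)) = 1 := by
      rw [← Real.exp_add, ← Real.exp_add, ← Real.exp_zero]
      ring_nf
    have h10 : ‖u - u'‖ ≤ Real.exp (-G) * Real.exp (-3) := by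
      refine le_of_mul_le_mul_left ?_ (Real.exp_pos (G + 3))
      rw [h9]
      have := mul_le_mul_of_nonneg_left h7 M0.le
      rw [mul_add] at this
      have h11 : M * ‖u - u'‖ ≤ 2 := by linarith
      rw [hM] at h11
      linarith
    rw [div_sub_one (norm_pos_iff.mp h8), norm_div, div_le_iff₀ h8]
    exact h10.trans (mul_le_mul_of_nonneg_left hl (Real.exp_pos _).le)

end Pool.Agent.MP_2a5a28_nt.H15Z
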