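import Pool.Agent.MP_2a5a28_nt.H15Z.Defs

set_option autoImplicit false

namespace Pool.Agent.MP_2a5a28_nt.H15Z

open Finset NumberField Module
open H63 (Sx St Dis nm)

theorem cnt_one (a : ℝ) (m : ℕ) (hm : 1 ≤ m) :
    ∑ k ∈ range (m + 1), Real.exp (a * (1 / 2 - k / m)) ≤ (m + 1) * Real.exp (a ^ 2 / 8) := by
  have m0 : (0 : ℝ) < m := by exact_mod_cast hm
  have h1 : ∑ k ∈ range (m + 1), Real.exp (a * (1 / 2 - k / m)) =
      ∑ k ∈ range (m + 1), Real.exp (-(a * (1 / 2 - k / m))) := by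
    rw [← sum_range_reflect]
    refine sum_congr rfl fun k hk => ?_
    rw [Nat.add_sub_cancel, Nat.cast_sub (Nat.lt_succ_iff.1 (mem_range.1 hk)), sub_div,
      div_self m0.ne']
    exact congrArg Real.exp (by ring)
  have h2 : ∑ k ∈ range (m + 1), (Real.exp (a * (1 / 2 - k / m)) +
      Real.exp (-(a * (1 / 2 - k / m)))) ≤ (range (m + 1)).card • (2 * Real.exp (a ^ 2 / 8)) := by
    refine sum_le_card_nsmul _ _ _ fun k hk => ?_
    have k1 : (k : ℝ) / m ≤ 1 :=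
      (div_le_one m0).2 (by exact_mod_cast Nat.lt_succ_iff.1 (mem_range.1 hk))
    have k0 : (0 : ℝ) ≤ k / m := by positivity
    have h3 := Real.cosh_le_exp_half_sq (a * (1 / 2 - k / m))
    have h4 : (1 / 2 - (k : ℝ) / m) ^ 2 ≤ 1 / 4 := by nlinarith only [k0, k1]
    have h5 : Real.exp ((a * (1 / 2 - k / m)) ^ 2 / 2) ≤ Real.exp (a ^ 2 / 8) :=
      Real.exp_le_exp.2 (by rw [mul_pow]; nlinarith only [h4, sq_nonneg a])
    rw [Real.cosh_eq] at h3
    linarith only [h3, h5]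
  rw [sum_add_distrib, ← h1, card_range, nsmul_eq_mul, Nat.cast_add, Nat.cast_one] at h2
  linarith only [h2]

theorem cnt_box (σ : ℝ) (hσ : 0 < σ) (e m D : ℕ) (hm : 1 ≤ m)
    (hD : (D : ℝ) ≤ (1 / 2 - σ) * (e * m)) :
    (((Bx e m).filter fun i => ∑ j, i j ≤ D).card : ℝ) * Real.exp (2 * σ ^ 2 * e) ≤
      (m + 1) ^ e := by
  have m0 : (0 : ℝ) < m := by exact_mod_cast hm
  have h1 : (((Bx e m).filter fun i => ∑ j, i j ≤ D).card : ℝ) * Real.exp (4 * σ ^ 2 * e) ≤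
      ∑ i ∈ Bx e m, ∏ j, Real.exp (4 * σ * (1 / 2 - (i j : ℝ) / m)) := by
    refine le_trans ?_ (sum_le_sum_of_subset_of_nonneg
      (filter_subset (fun i => ∑ j, i j ≤ D) _) fun _ _ _ => by positivity)
    rw [← nsmul_eq_mul]
    refine card_nsmul_le_sum _ _ _ fun i hi => ?_
    rw [← Real.exp_sum, ← mul_sum, sum_sub_distrib, sum_const, ← sum_div, ← Nat.cast_sum,
      card_univ, Fintype.card_fin, nsmul_eq_mul]
    have h2 : ((∑ j, i j : ℕ) : ℝ) / m ≤ (1 / 2 - σ) * e := by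
      rw [div_le_iff₀ m0, mul_assoc]
      exact (Nat.cast_le.2 (mem_filter.1 hi).2).trans hD
    exact Real.exp_le_exp.2 (by nlinarith only [h2, hσ])
  have h3 : ∑ i ∈ Bx e m, ∏ j, Real.exp (4 * σ * (1 / 2 - (i j : ℝ) / m)) ≤
      ((m + 1) * Real.exp ((4 * σ) ^ 2 / 8)) ^ e := by
    rw [Bx, ← prod_univ_sum (fun _ : Fin e => range (m + 1))
      (fun _ k => Real.exp (4 * σ * (1 / 2 - (k : ℝ) / m))), prod_const, card_univ,
      Fintype.card_fin]
    exact pow_le_pow_left₀ (by positivity) (cnt_one _ m hm) e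
  have h4 : Real.exp (4 * σ ^ 2 * e) = Real.exp (2 * σ ^ 2 * e) * Real.exp ((4 * σ) ^ 2 / 8) ^ e := by
    rw [← Real.exp_nat_mul, ← Real.exp_add]
    exact congrArg Real.exp (by ring)
  rw [h4, ← mul_assoc] at h1
  rw [mul_pow] at h3
  exact le_of_mul_le_mul_right (h1.trans h3) (by positivity)

theorem cnt_row : CNT_s := by
  intro σ hσ L e1
  obtain ⟨n, hn⟩ := exists_nat_ge (2 * L / σ ^ 4)
  refine ⟨n + e1 + 1, by omega, fun m D hm hD => ?_⟩
  have h1 := cnt_box σ hσ _ m D hm hD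
  obtain ⟨e, he⟩ : ∃ e, e = n + e1 + 1 := ⟨_, rfl⟩
  rw [← he] at h1 ⊢
  have e0 : (1 : ℝ) ≤ e := by exact_mod_cast (by omega : 1 ≤ e)
  have e2 : (n : ℝ) ≤ e := by exact_mod_cast (by omega : n ≤ e)
  have h2 : 2 * (L : ℝ) ≤ e * σ ^ 4 := (div_le_iff₀ (by positivity)).1 (hn.trans e2)
  have h3 := Real.quadratic_le_exp_of_nonneg (x := 2 * σ ^ 2 * e) (by positivity)
  have h4 : (0 : ℝ) ≤ 2 * σ ^ 2 * e := by positivity
  have L0 : (0 : ℝ) ≤ L := Nat.cast_nonneg L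
  have h5 : 2 * ((e : ℝ) + 1) * L ≤ Real.exp (2 * σ ^ 2 * e) := by
    have h6 := mul_le_mul_of_nonneg_left h2 (by linarith only [e0] : (0 : ℝ) ≤ e)
    have h7 := mul_le_mul_of_nonneg_left e0 L0
    nlinarith only [h3, h4, h6, h7]
  rw [← Nat.cast_le (α := ℝ)]
  push_cast
  refine le_trans ?_ h1
  rw [mul_comm]
  exact mul_le_mul_of_nonneg_left h5 (Nat.cast_nonneg _)

theorem sieg_mem {e m : ℕ} {t : Fin e → ℕ} : t ∈ Bx e m ↔ ∀ j, t j ≤ m := by
  simp only [Bx, Fintype.mem_piFinset, mem_range, Nat.lt_succ_iff]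

theorem sieg_card (e m : ℕ) : (Bx e m).card = (m + 1) ^ e := by
  rw [Bx, Fintype.card_piFinset, prod_const, card_range, card_univ, Fintype.card_fin]

theorem sieg_le {e m : ℕ} {t : Fin e → ℕ} (ht : t ∈ Bx e m) : ∑ j, t j ≤ e * m := by
  refine (sum_le_card_nsmul _ _ m fun j _ => sieg_mem.1 ht j).trans (le_of_eq ?_)
  rw [card_univ, Fintype.card_fin, smul_eq_mul]

theorem sieg_row : SIEG_s := by
  intro e m D L he hm hL hc x hx
  classical
  obtain ⟨Z, hZ⟩ : ∃ Z, Z = (Bx e m).filter fun i => ∑ j, i j ≤ D := ⟨_, rfl⟩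
  rw [← hZ] at hc
  obtain ⟨c, -, hcE⟩ := exists_le_card_fiber_of_mul_le_card_of_maps_to (s := Bx e m)
    (t := range (e + 1) ×ˢ range L) (f := fun t => ((∑ j, t j) / m, min ⌊L * x t⌋₊ (L - 1)))
    (n := 2 * Z.card)
    (fun t ht => mem_product.2 ⟨mem_range.2 (Nat.lt_succ_of_le
      (Nat.div_le_of_le_mul ((sieg_le ht).trans (le_of_eq (mul_comm _ _))))),
      mem_range.2 (by omega)⟩)
    ⟨(0, 0), mem_product.2 ⟨mem_range.2 (by omega), mem_range.2 hL⟩⟩
    (by rw [card_product, card_range, card_range, sieg_card]; linarith only [hc])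
  obtain ⟨E, hE⟩ : ∃ E, E = (Bx e m).filter
      fun t => ((∑ j, t j) / m, min ⌊L * x t⌋₊ (L - 1)) = c := ⟨_, rfl⟩
  rw [← hE] at hcE
  have hsub : E ⊆ Bx e m := hE ▸ filter_subset _ _
  have two : ∀ k : ℕ, (2 : ℝ) ^ k ≤ Real.exp k := fun k => by
    rw [← Real.exp_one_pow]
    exact pow_le_pow_left₀ (by norm_num) (by linarith only [Real.add_one_le_exp 1]) k
  have hcard : (E.card : ℝ) ≤ 2 ^ (e * m) := by
    have h1 := card_le_card hsub
    rw [sieg_card] at h1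
    have h2 : (m + 1) ^ e ≤ 2 ^ (e * m) := by
      rw [mul_comm, pow_mul]
      exact Nat.pow_le_pow_left Nat.lt_two_pow_self e
    exact_mod_cast h1.trans h2
  obtain ⟨v, v0, v1, v2⟩ := H63.sieg_int (α := Z) (β := E)
    (Matrix.of fun i t => ∏ j, ((t.1 j).choose (i.1 j) : ℤ)) (2 ^ (e * m))
    (one_le_pow₀ (by norm_num))
    (fun i t => by
      have h1 : ∏ j, (t.1 j).choose (i.1 j) ≤ 2 ^ (e * m) :=
        (prod_le_prod' fun j _ => Nat.choose_le_two_pow _ _).trans (by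
          rw [prod_pow_eq_pow_sum]
          exact Nat.pow_le_pow_right (by norm_num) (sieg_le (hsub t.2)))
      rw [Matrix.of_apply, abs_of_nonneg (by positivity)]
      exact_mod_cast h1)
    (by
      rw [Fintype.card_coe, card_pos, hZ]
      exact ⟨0, mem_filter.2 ⟨sieg_mem.2 fun _ => Nat.zero_le _,
        by simp only [Pi.zero_apply, sum_const_zero, zero_le]⟩⟩)
    (by rw [Fintype.card_coe, Fintype.card_coe]; exact hcE)
  rw [Fintype.card_coe] at v2
  obtain ⟨M, hM⟩ : ∃ M : (Fin e → ℕ) → ℤ, ∀ t : E, M t = v t :=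
    ⟨fun t => if h : t ∈ E then v ⟨t, h⟩ else 0, fun t => dif_pos t.2⟩
  refine ⟨E, fun t ht => H63.mem_Sx.2 (sieg_le (hsub ht)), (c.1 + 1) * m, M, (c.2 : ℝ) / L, ?_,
    fun t ht => ?_, ?_, fun i hi => ?_⟩
  · obtain ⟨t, ht⟩ := Function.ne_iff.1 v0
    exact ⟨t, t.2, by rw [hM]; exact ht⟩
  · have h0 := sieg_mem.1 (hsub ht)
    rw [hE] at ht
    rw [← (mem_filter.1 ht).2]
    have h1 := Nat.div_add_mod' (∑ j, t j) m
    have h2 := Nat.mod_lt (∑ j, t j) hm
    refine ⟨h0, ?_, ?_, H63.sieg_cell L hL (hx t).1 (hx t).2⟩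
    · dsimp only
      rw [add_mul, one_mul]
      omega
    · dsimp only
      rw [add_mul, one_mul]
      omega
  · refine (sum_le_card_nsmul E _ (2 ^ (e * m) * 2 ^ (e * m)) fun t ht => ?_).trans ?_
    · rw [hM ⟨t, ht⟩]
      exact (v2 _).trans (mul_le_mul_of_nonneg_right hcard (by positivity))
    · rw [nsmul_eq_mul]
      refine (mul_le_mul_of_nonneg_right hcard (by positivity)).trans ?_
      have h1 := two (5 * (e * m))
      rw [← pow_add, ← pow_add]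
      refine (pow_le_pow_right₀ (by norm_num) (by omega)).trans (h1.trans (le_of_eq ?_))
      rw [Nat.cast_mul, Nat.cast_ofNat]
  · by_cases hb : i ∈ Bx e m
    · have h1 := congrFun v1 ⟨i, hZ ▸ mem_filter.2 ⟨hb, H63.mem_Sx.1 hi⟩⟩
      rw [← sum_coe_sort E]
      refine (sum_congr rfl fun t _ => ?_).trans h1
      rw [hM, mul_comm]
      rfl
    · rw [sieg_mem, not_forall] at hb
      obtain ⟨j, hj⟩ := hb
      refine sum_eq_zero fun t ht => mul_eq_zero_of_right _ (prod_eq_zero (mem_univ j) ?_)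
      rw [Nat.choose_eq_zero_of_lt ((sieg_mem.1 (hsub ht) j).trans_lt (not_le.1 hj)), Nat.cast_zero]

theorem loca_two (k : ℕ) : (2 : ℝ) ^ k ≤ Real.exp k := by
  rw [← Real.exp_one_pow]
  exact pow_le_pow_left₀ (by norm_num) (by linarith only [Real.add_one_le_exp 1]) k

theorem loca_pow (z : ℂ) (h : ‖z - 1‖ ≤ 1) (s : ℕ) : ‖z ^ s - 1‖ ≤ ‖z - 1‖ * 2 ^ s := by
  have hz : ‖z‖ ≤ 2 := by
    have h1 := norm_add_le (z - 1) 1
    rw [sub_add_cancel, norm_one] at h1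
    linarith only [h, h1]
  induction s with
  | zero => simp
  | succ s ih =>
    have h1 : z ^ (s + 1) - 1 = z ^ s * (z - 1) + (z ^ s - 1) := by ring
    have h2 : ‖z ^ s * (z - 1)‖ ≤ 2 ^ s * ‖z - 1‖ := by
      rw [norm_mul, norm_pow]
      exact mul_le_mul_of_nonneg_right (pow_le_pow_left₀ (norm_nonneg _) hz s) (norm_nonneg _)
    rw [h1, pow_succ]
    linarith only [norm_add_le (z ^ s * (z - 1)) (z ^ s - 1), h2, ih]

theorem loca_near (z : ℂ) (g : ℝ) (hg : 1 ≤ g) (h : ‖z - 1‖ ≤ Real.exp (-g)) :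
    ‖z - 1‖ ≤ 1 ∧ ‖z‖ ≤ 2 ∧ Real.exp (-1) ≤ ‖z‖ := by
  have h1 : Real.exp (-g) ≤ Real.exp (-1) := Real.exp_le_exp.2 (by linarith only [hg])
  have h2 : Real.exp (-1) ≤ 1 / 2 := by
    rw [Real.exp_neg, one_div]
    exact inv_anti₀ (by norm_num) (by linarith only [Real.add_one_le_exp 1])
  have h3 := norm_add_le (z - 1) 1
  have h4 := norm_sub_le z (z - 1)
  rw [sub_add_cancel, norm_one] at h3
  rw [sub_sub_cancel, norm_one] at h4
  exact ⟨by linarith only [h, h1, h2], by linarith only [h, h1, h2, h3],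
    by linarith only [h, h1, h2, h4]⟩

theorem loca_ch {e : ℕ} (t i : Fin e → ℕ) (T : ℕ) (ht : ∑ j, t j ≤ T) :
    ∏ j, ((t j).choose (i j) : ℝ) ≤ 2 ^ T := by
  have h1 : ∏ j, (t j).choose (i j) ≤ 2 ^ T :=
    (prod_le_prod' fun j _ => Nat.choose_le_two_pow _ _).trans (by
      rw [prod_pow_eq_pow_sum]
      exact Nat.pow_le_pow_right (by norm_num) ht)
  exact_mod_cast h1

theorem loca_van {e : ℕ} (η : Fin e → ℂ) (q : ℝ) (q0 : 0 ≤ q) (q1 : q ≤ 1)
    (hη : ∀ j, ‖η j - 1‖ ≤ q) (h2 : ∀ j, ‖η j‖ ≤ 2) (T : ℕ)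
    (E : Finset (Fin e → ℕ)) (hE : E ⊆ Sx e T) (M : (Fin e → ℕ) → ℤ) (D : ℕ)
    (hM : ∀ i ∈ Sx e D, ∑ t ∈ E, M t * ∏ j, ((t j).choose (i j) : ℤ) = 0) (i : Fin e → ℕ) (r : ℕ)
    (hr : r + ∑ j, i j ≤ D + 1) :
    ‖∑ t ∈ E, ((M t * ∏ j, ((t j).choose (i j) : ℤ) : ℤ) : ℂ) * ∏ j, η j ^ t j‖ ≤
      ∑ t ∈ E, |(M t : ℝ)| * (q ^ r * (2 ^ T * 2 ^ T)) := by
  classical
  have hN : ∀ t ∈ E, ∀ j, t j ≤ T := fun t ht j =>
    (single_le_sum (fun i _ => Nat.zero_le (t i)) (mem_univ j)).trans (H63.mem_Sx.1 (hE ht))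
  obtain ⟨c, hc⟩ : ∃ c : (Fin e → ℕ) → ℂ, ∀ m, c m = if ∑ j, m j ≤ D then 0 else
      ∏ j, η j ^ i j * ((m j).choose (i j) : ℂ) * (η j - 1) ^ (m j - i j) := ⟨_, fun _ => rfl⟩
  have h1 : ∑ t ∈ E, ((M t * ∏ j, ((t j).choose (i j) : ℤ) : ℤ) : ℂ) * ∏ j, η j ^ t j =
      ∑ t ∈ E, (M t : ℂ) * ∑ m ∈ Fintype.piFinset fun _ : Fin e => range (T + 1),
        c m * ∏ j, ((t j).choose (m j) : ℂ) := by
    have h3 : ∀ t ∈ E, ((M t * ∏ j, ((t j).choose (i j) : ℤ) : ℤ) : ℂ) * ∏ j, η j ^ t j =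
        ∑ m ∈ Fintype.piFinset fun _ : Fin e => range (T + 1),
          (∏ j, η j ^ i j * ((m j).choose (i j) : ℂ) * (η j - 1) ^ (m j - i j)) *
            ((M t * ∏ j, ((t j).choose (m j) : ℤ) : ℤ) : ℂ) := by
      intro t ht
      push_cast
      rw [mul_assoc, ← prod_mul_distrib,
        prod_congr rfl fun j _ => H63.van_exp (η j) T _ _ (hN t ht j), prod_univ_sum, mul_sum]
      refine sum_congr rfl fun m _ => ?_
      rw [prod_mul_distrib]
      ring
    rw [sum_congr rfl h3, sum_comm]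
    simp only [mul_sum]
    rw [sum_comm (s := E)]
    refine sum_congr rfl fun m _ => ?_
    rw [hc]
    split_ifs with hm
    · rw [← mul_sum, ← Int.cast_sum, hM m (H63.mem_Sx.2 hm)]
      simp only [Int.cast_zero, mul_zero, zero_mul, sum_const_zero]
    · refine sum_congr rfl fun t _ => ?_
      push_cast
      ring
  rw [h1]
  refine (norm_sum_le _ _).trans (sum_le_sum fun t ht => ?_)
  rw [norm_mul, Complex.norm_intCast]
  refine mul_le_mul_of_nonneg_left ((norm_sum_le _ _).trans ?_) (abs_nonneg _)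
  have h4 : ∀ m : Fin e → ℕ, ‖c m * ∏ j, ((t j).choose (m j) : ℂ)‖ ≤ q ^ r *
      ∏ j, (2 : ℝ) ^ i j * ((m j).choose (i j) : ℝ) * (2 - 1) ^ (m j - i j) *
        ((t j).choose (m j) : ℝ) := by
    intro m
    rw [hc]
    split_ifs with hm
    · rw [zero_mul, norm_zero]
      positivity
    · have h5 : ∑ j, m j ≤ ∑ j, (m j - i j) + ∑ j, i j := by
        rw [← sum_add_distrib]
        exact sum_le_sum fun j _ => by omega
      have h6 : ∏ j, q ^ (m j - i j) ≤ q ^ r := by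
        rw [prod_pow_eq_pow_sum]
        exact pow_le_pow_of_le_one q0 q1 (by omega)
      refine le_trans ?_ (mul_le_mul_of_nonneg_right h6 (by positivity))
      rw [← prod_mul_distrib, ← prod_mul_distrib, norm_prod]
      refine prod_le_prod (fun _ _ => norm_nonneg _) fun j _ => ?_
      rw [norm_mul, norm_mul, norm_mul, norm_pow, norm_pow, Complex.norm_natCast,
        Complex.norm_natCast, show (2 : ℝ) - 1 = 1 by norm_num, one_pow, mul_one]
      have h7 := pow_le_pow_left₀ (norm_nonneg _) (h2 j) (i j)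
      have h8 := pow_le_pow_left₀ (norm_nonneg _) (hη j) (m j - i j)
      calc _ ≤ 2 ^ i j * ((m j).choose (i j) : ℝ) * q ^ (m j - i j) *
            ((t j).choose (m j) : ℝ) := by gcongr
        _ = _ := by ring
  refine (sum_le_sum fun m _ => h4 m).trans ?_
  rw [← mul_sum, ← prod_univ_sum (fun _ : Fin e => range (T + 1)) (fun j k => (2 : ℝ) ^ i j *
    (k.choose (i j) : ℝ) * (2 - 1) ^ (k - i j) * ((t j).choose k : ℝ)),
    ← prod_congr rfl fun j _ => H63.van_exp (2 : ℝ) T _ _ (hN t ht j), prod_mul_distrib,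
    prod_pow_eq_pow_sum]
  have h9 := H63.mem_Sx.1 (hE ht)
  exact mul_le_mul_of_nonneg_left (mul_le_mul (loca_ch t i T h9)
    (pow_le_pow_right₀ (by norm_num) h9) (by positivity) (by positivity)) (by positivity)

theorem loca_row : LOCA_s := by
  intro L _ _ φ e T D r E M s ψ η g i he hT hE hs hM hV hr hrT g0 g1 hψ hη
  simp only [av, ar, NumberField.place_apply, map_sum, map_mul, map_pow, map_prod, map_sub,
    map_one, map_intCast, mul_one] at g1 hψ hη ⊢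
  have T1 : (1 : ℝ) ≤ T := by exact_mod_cast he.trans hT
  have rT : (r : ℝ) ≤ T := by exact_mod_cast hrT
  have n1 := loca_near _ _ (by nlinarith only [T1, g1]) hψ
  have n2 := fun j => loca_near _ _ g1 (hη j)
  refine ⟨?_, fun t ht => ?_⟩
  · have h1 := loca_van (fun j => φ (η j)) (Real.exp (-g)) (by positivity)
      (Real.exp_le_one_iff.2 (by linarith only [g0])) hη (fun j => (n2 j).2.1) T E hE M D hV i r hr
    have h2 : ‖∑ t ∈ E, ((M t * ∏ j, ((t j).choose (i j) : ℤ) : ℤ) : ℂ) *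
        ((φ ψ ^ s t - 1) * ∏ j, φ (η j) ^ t j)‖ ≤
        ∑ t ∈ E, |(M t : ℝ)| * (2 ^ T * (Real.exp (-(T * g)) * 2 ^ (T + 1) * 2 ^ T)) := by
      refine (norm_sum_le _ _).trans (sum_le_sum fun t ht => ?_)
      have h3 := H63.mem_Sx.1 (hE ht)
      have h4 : ‖((∏ j, ((t j).choose (i j) : ℤ) : ℤ) : ℂ)‖ ≤ 2 ^ T := by
        rw [Complex.norm_intCast, abs_of_nonneg (by positivity)]
        exact_mod_cast loca_ch t i T h3
      have h5 : ‖φ ψ ^ s t - 1‖ ≤ Real.exp (-(T * g)) * 2 ^ (T + 1) :=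
        (loca_pow _ n1.1 _).trans (mul_le_mul hψ (pow_le_pow_right₀ (by norm_num) (hs t ht))
          (by positivity) (by positivity))
      have h6 : ‖∏ j, φ (η j) ^ t j‖ ≤ 2 ^ T := by
        rw [norm_prod]
        refine (prod_le_prod (fun _ _ => norm_nonneg _) fun j _ => (norm_pow _ _).le.trans
          (pow_le_pow_left₀ (norm_nonneg _) (n2 j).2.1 _)).trans ?_
        rw [prod_pow_eq_pow_sum]
        exact pow_le_pow_right₀ (by norm_num) h3
      rw [Int.cast_mul, mul_assoc, norm_mul, norm_mul, norm_mul, Complex.norm_intCast (M t)]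
      gcongr
    have h3 : ∑ t ∈ E, ((M t * ∏ j, ((t j).choose (i j) : ℤ) : ℤ) : ℂ) *
        (φ ψ ^ s t * ∏ j, φ (η j) ^ t j) =
        ∑ t ∈ E, ((M t * ∏ j, ((t j).choose (i j) : ℤ) : ℤ) : ℂ) * ∏ j, φ (η j) ^ t j +
        ∑ t ∈ E, ((M t * ∏ j, ((t j).choose (i j) : ℤ) : ℤ) : ℂ) *
          ((φ ψ ^ s t - 1) * ∏ j, φ (η j) ^ t j) := by
      rw [← sum_add_distrib]
      exact sum_congr rfl fun t _ => by ring
    rw [← sum_mul] at h1 h2
    have a1 : Real.exp (-g) ^ r = Real.exp (-(r * g)) := by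
      rw [← Real.exp_nat_mul, mul_neg]
    have a2 : Real.exp (-(T * g)) ≤ Real.exp (-(r * g)) :=
      Real.exp_le_exp.2 (by nlinarith only [rT, g0])
    have a3 : (2 : ℝ) ^ T * 2 ^ T + 2 ^ T * 2 ^ (T + 1) * 2 ^ T ≤ Real.exp (7 * T) := by
      have b1 := loca_two (7 * T)
      have b2 : (2 : ℝ) ^ (2 * T) ≤ 2 ^ (3 * T + 1) := pow_le_pow_right₀ (by norm_num) (by omega)
      have b3 : (2 : ℝ) ^ (3 * T + 1 + 1) ≤ 2 ^ (7 * T) :=
        pow_le_pow_right₀ (by norm_num) (by omega)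
      rw [Nat.cast_mul, Nat.cast_ofNat] at b1
      rw [pow_succ] at b3
      rw [← pow_add, ← pow_add, ← pow_add, ← two_mul, show T + (T + 1) + T = 3 * T + 1 by ring]
      linarith only [b1, b2, b3]
    have a4 : Real.exp (12 * T - r * g) =
        Real.exp (5 * T) * (Real.exp (-(r * g)) * Real.exp (7 * T)) := by
      rw [← Real.exp_add, ← Real.exp_add]
      exact congrArg Real.exp (by ring)
    rw [h3, a4]
    refine ((norm_add_le _ _).trans (add_le_add h1 h2)).trans ?_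
    rw [← mul_add, a1]
    refine mul_le_mul hM ?_ (by positivity) (by positivity)
    refine le_trans ?_ (mul_le_mul_of_nonneg_left a3 (by positivity))
    have a5 := mul_le_mul_of_nonneg_right a2
      (by positivity : (0 : ℝ) ≤ 2 ^ T * 2 ^ (T + 1) * 2 ^ T)
    linarith only [a5]
  · have h1 : ∏ j, Real.exp (-1) ^ t j ≤ ∏ j, ‖φ (η j)‖ ^ t j :=
      prod_le_prod (fun _ _ => by positivity) fun j _ =>
        pow_le_pow_left₀ (by positivity) (n2 j).2.2 _
    refine le_trans ?_ (mul_le_mul (pow_le_pow_left₀ (by positivity) n1.2.2 (s t)) h1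
      (by positivity) (by positivity))
    rw [prod_pow_eq_pow_sum, ← pow_add, ← Real.exp_nat_mul]
    have h2 : ((s t + ∑ j, t j : ℕ) : ℝ) ≤ ((3 * T : ℕ) : ℝ) := by
      have h3 := H63.mem_Sx.1 (hE ht)
      have h4 := hs t ht
      exact Nat.cast_le.2 (by omega)
    rw [Nat.cast_mul, Nat.cast_ofNat] at h2
    exact Real.exp_le_exp.2 (by linarith only [h2])

theorem locn_na {L : Type} [Field L] [NumberField L] (w : FinitePlace L) {ι : Type} (E : Finset ι)
    (f : ι → L) {X : ℝ} (hX : 0 ≤ X) (h : ∀ t ∈ E, w (f t) ≤ X) : w (∑ t ∈ E, f t) ≤ X := by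
  classical
  induction E using Finset.induction_on with
  | empty => simpa using hX
  | insert a s ha ih =>
    rw [sum_insert ha]
    exact (w.add_le _ _).trans (max_le (h a (mem_insert_self _ _))
      (ih fun t ht => h t (mem_insert_of_mem ht)))

theorem locn_int {L : Type} [Field L] [NumberField L] (w : FinitePlace L) (n : ℤ) :
    w (n : L) ≤ 1 := by
  rw [← w.norm_embedding_eq, FinitePlace.norm_embedding]
  exact HeightOneSpectrum.adicAbv_intCast_le_one _ _ n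

theorem locn_one {L : Type} [Field L] [NumberField L] (w : FinitePlace L) {x : L}
    (h : w (x - 1) < 1) : w x = 1 := by
  refine le_antisymm ?_ ?_
  · have := w.add_le (x - 1) 1
    rw [sub_add_cancel, map_one] at this
    exact this.trans (max_le h.le le_rfl)
  · have := w.add_le x (-(x - 1))
    rw [map_neg_eq_map, show x + -(x - 1) = 1 by ring, map_one] at this
    exact (le_max_iff.1 this).resolve_right (not_le.2 h)

theorem locn_pow {L : Type} [Field L] [NumberField L] (w : FinitePlace L) {x : L} (h : w x = 1)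
    (s : ℕ) : w (x ^ s - 1) ≤ w (x - 1) := by
  induction s with
  | zero => simp
  | succ s ih =>
    rw [show x ^ (s + 1) - 1 = x * (x ^ s - 1) + (x - 1) by ring]
    refine (w.add_le _ _).trans (max_le ?_ le_rfl)
    rwa [map_mul, h, one_mul]

theorem locn_row : LOCN_s := by
  intro L _ _ w e T D r E M s ψ η g i he heT hE hs hn hM hr hrT hg _ hψ hη
  change w (ψ - 1) ≤ _ at hψ
  change ∀ j, w (η j - 1) ≤ _ at hη
  change w _ ≤ _ ∧ ∀ t ∈ E, _ ≤ w _
  simp only [ar, mul_zero, zero_sub, neg_zero, Real.exp_zero]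
  have hT : (1 : ℝ) ≤ T := by exact_mod_cast he.trans heT
  have hrT' : (r : ℝ) ≤ T := by exact_mod_cast hrT
  have hg1 : Real.exp (-g) < 1 := Real.exp_lt_one_iff.2 (by linarith only [hg])
  have hψ1 : w ψ = 1 := locn_one w (hψ.trans_lt (Real.exp_lt_one_iff.2 (by nlinarith only [hT, hg])))
  have hη1 : ∀ j, w (η j) = 1 := fun j => locn_one w ((hη j).trans_lt hg1)
  have hp : ∀ t : Fin e → ℕ, w (∏ j, η j ^ t j) = 1 := fun t => by
    rw [map_prod]
    exact prod_eq_one fun j _ => by rw [map_pow, hη1, one_pow]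
  refine ⟨?_, fun t _ => by rw [map_mul, map_pow, hψ1, hp, one_pow, mul_one]⟩
  have h0 : ∑ t ∈ E, ((M t * ∏ j, ((t j).choose (i j) : ℤ) : ℤ) : L) * (ψ ^ s t * ∏ j, η j ^ t j) =
      ∑ t ∈ E, ((M t * ∏ j, ((t j).choose (i j) : ℤ) : ℤ) : L) * ∏ j, η j ^ t j +
      ∑ t ∈ E, ((M t * ∏ j, ((t j).choose (i j) : ℤ) : ℤ) : L) *
        ((ψ ^ s t - 1) * ∏ j, η j ^ t j) := by
    rw [← sum_add_distrib]
    exact sum_congr rfl fun t _ => by ring
  rw [h0]
  refine (w.add_le _ _).trans (max_le ?_ (locn_na w E _ (Real.exp_pos _).le fun t _ => ?_))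
  · have hN : ∀ t ∈ E, ∀ j, t j ≤ T := fun t ht j =>
      (single_le_sum (f := t) (fun _ _ => Nat.zero_le _) (mem_univ j)).trans (H63.mem_Sx.1 (hE ht))
    have h1 : ∀ t ∈ E, ((M t * ∏ j, ((t j).choose (i j) : ℤ) : ℤ) : L) * ∏ j, η j ^ t j =
        ∑ m ∈ Fintype.piFinset fun _ : Fin e => range (T + 1),
          (((∏ j, ((m j).choose (i j) : ℤ) : ℤ) : L) * ∏ j, η j ^ i j) *
            (∏ j, (η j - 1) ^ (m j - i j)) *
            ((M t * ∏ j, ((t j).choose (m j) : ℤ) : ℤ) : L) := by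
      intro t ht
      push_cast
      rw [mul_assoc, ← prod_mul_distrib,
        prod_congr rfl fun j _ => H63.van_exp (η j) T _ _ (hN t ht j), prod_univ_sum, mul_sum]
      refine sum_congr rfl fun m _ => ?_
      rw [prod_mul_distrib, prod_mul_distrib, prod_mul_distrib]
      ring
    rw [sum_congr rfl h1, sum_comm]
    refine locn_na w _ _ (Real.exp_pos _).le fun m _ => ?_
    rw [← mul_sum, ← Int.cast_sum]
    by_cases hm : ∑ j, m j ≤ D
    · rw [hM m (H63.mem_Sx.2 hm), Int.cast_zero, mul_zero, map_zero]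
      exact (Real.exp_pos _).le
    · have h2 : ∑ j, m j ≤ ∑ j, (m j - i j) + ∑ j, i j := by
        rw [← sum_add_distrib]
        exact sum_le_sum fun j _ => by omega
      have h3 : w (∏ j, (η j - 1) ^ (m j - i j)) ≤ Real.exp (-(r * g)) := by
        rw [map_prod]
        calc ∏ j, w ((η j - 1) ^ (m j - i j)) ≤ ∏ j, Real.exp (-g) ^ (m j - i j) :=
              prod_le_prod (fun j _ => apply_nonneg _ _) fun j _ => by
                rw [map_pow]
                exact pow_le_pow_left₀ (apply_nonneg _ _) (hη j) _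
          _ = Real.exp (-g) ^ ∑ j, (m j - i j) := prod_pow_eq_pow_sum _ _ _
          _ ≤ Real.exp (-g) ^ r :=
              pow_le_pow_of_le_one (Real.exp_pos _).le hg1.le (by omega)
          _ = _ := by rw [← Real.exp_nat_mul, mul_neg]
      rw [map_mul, map_mul, map_mul, hp, mul_one]
      refine (mul_le_of_le_one_right (mul_nonneg (apply_nonneg _ _) (apply_nonneg _ _))
        (locn_int w _)).trans ?_
      exact (mul_le_of_le_one_left (apply_nonneg _ _) (locn_int w _)).trans h3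
  · rw [map_mul, map_mul, hp, mul_one]
    refine (mul_le_of_le_one_left (apply_nonneg _ _) (locn_int w _)).trans ?_
    exact (locn_pow w hψ1 _).trans (hψ.trans (Real.exp_le_exp.2 (by nlinarith only [hrT', hg])))

theorem zedn_nm (P : MvPolynomial (Fin 1) ℤ) :
    ∑ i ∈ (MvPolynomial.uniqueAlgEquiv ℤ (Fin 1) P).support,
      |(((MvPolynomial.uniqueAlgEquiv ℤ (Fin 1) P).coeff i : ℤ) : ℝ)| ≤ nm P := by
  classical
  have hinj : Function.Injective
      (fun i : ℕ => (Finsupp.single (default : Fin 1) i : Fin 1 →₀ ℕ)) :=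
    Finsupp.single_injective _
  simp only [MvPolynomial.coeff_uniqueAlgEquiv]
  rw [← Finset.sum_image (f := fun d => |((P.coeff d : ℤ) : ℝ)|)
    (g := fun i : ℕ => (Finsupp.single (default : Fin 1) i : Fin 1 →₀ ℕ))
    (fun a _ b _ h => hinj h)]
  refine Finset.sum_le_sum_of_subset_of_nonneg (fun d hd => ?_) (fun _ _ _ => abs_nonneg _)
  obtain ⟨i, hi, rfl⟩ := Finset.mem_image.1 hd
  rw [Polynomial.mem_support_iff, MvPolynomial.coeff_uniqueAlgEquiv] at hi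
  exact MvPolynomial.mem_support_iff.2 hi

theorem zedn_last {K : Type} [Field K] [CharZero K] {pt : Fin 1 → K} {ω : Fin 1 → ℝ}
    {m lam μ : ℕ} {γ wd ε : ℝ}
    {P : MvPolynomial (Fin 1) ℤ} (h : St 0 pt ω m lam μ γ wd P) (hm : 1 ≤ m) (hμ : 1 ≤ μ)
    (hγ : 0 ≤ γ) (hε : 0 < ε) (hl : ε * lam ≤ μ) : OutN (pt 0) (γ / ε * m) := by
  have hR : MvPolynomial.uniqueAlgEquiv ℤ (Fin 1) P ≠ 0 := (map_ne_zero_iff _
    (MvPolynomial.uniqueAlgEquiv ℤ (Fin 1)).injective).mpr h.ne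
  have h1 : μ ≤ m * ((μ - 1) / m + 1) := by
    have := Nat.lt_mul_div_succ (μ - 1) hm
    omega
  refine ⟨_, hR, (μ - 1) / m + 1, Nat.le_add_left _ _, ?_, ?_⟩
  · have h2 : ((MvPolynomial.uniqueAlgEquiv ℤ (Fin 1) P).map (Int.castRingHom K)).comp
        (Polynomial.X + Polynomial.C (pt 0)) = MvPolynomial.uniqueAlgEquiv K (Fin 1) (H63.tr pt P) := by
      clear h hR
      induction P using MvPolynomial.induction_on with
      | C a => simp [H63.tr]
      | add p q hp hq => simp only [map_add, Polynomial.map_add, Polynomial.add_comp, hp, hq]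
      | mul_X p j hp =>
        simp only [map_mul, Polynomial.map_mul, Polynomial.mul_comp, hp]
        simp [H63.tr, Subsingleton.elim j 0]
    rw [Polynomial.X_sub_C_pow_dvd_iff, h2, Polynomial.X_pow_dvd_iff]
    intro i hi
    rw [MvPolynomial.coeff_uniqueAlgEquiv]
    by_contra h3
    have h4 := h.ord _ (MvPolynomial.mem_support_iff.mpr h3)
    have h5 : μ ≤ i * m := by
      simp only [H63.wt, H63.ow, Fin.sum_univ_succ, Fin.sum_univ_zero, add_zero] at h4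
      simp only [Nat.reduceAdd, Fin.default_eq_zero, Fin.isValue, Finsupp.single_eq_same,
        Fin.last_zero, ↓ reduceIte] at h4
      exact_mod_cast h4
    have h6 := Nat.div_mul_le_self (μ - 1) m
    have h7 := Nat.mul_le_mul_right m (Nat.lt_succ_iff.mp hi)
    omega
  · refine (zedn_nm P).trans (h.nrm.trans ?_)
    have h3 : (μ : ℝ) ≤ m * (((μ - 1) / m + 1 : ℕ) : ℝ) := by exact_mod_cast h1
    rw [Real.exp_le_exp, mul_assoc, div_mul_eq_mul_div, mul_div_assoc]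
    refine mul_le_mul_of_nonneg_left ?_ hγ
    rw [le_div_iff₀ hε]
    linarith only [hl, h3]

theorem zedn_row : ZEDN_s := by
  intro k ε γ hε hγ
  induction k generalizing ε γ with
  | zero =>
    refine ⟨1, γ / ε, le_rfl, by positivity, ?_⟩
    intro K _ _ pt ω m lam μ wd P h _ _ _ hm h6 _ hl
    exact zedn_last h hm (by omega) hγ hε hl
  | succ k ih =>
    obtain ⟨A', C, hA', hC, ih⟩ := ih (ε ^ 2 / 18) (γ + 4) (by positivity) (by positivity)
    refine ⟨max A' ⌈2 / ε⌉₊, C, le_max_of_le_left hA', hC, ?_⟩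
    intro K _ _ pt ω m lam μ wd P h hp hwd hD hm h6 hμ hl
    have hν : (μ : ℝ) ≤ 2 * (((μ / 2 : ℕ) : ℝ) + 1) := by
      have : μ ≤ 2 * (μ / 2 + 1) := by omega
      exact_mod_cast this
    have hν3 : (μ : ℝ) ≤ 3 * ((μ / 2 : ℕ) : ℝ) := by
      have : μ ≤ 3 * (μ / 2) := by omega
      exact_mod_cast this
    have hA2 : 2 / ε ≤ ((max A' ⌈2 / ε⌉₊ : ℕ) : ℝ) :=
      (Nat.le_ceil _).trans (by exact_mod_cast le_max_right _ _)
    have hA : (lam : ℝ) ≤ ((max A' ⌈2 / ε⌉₊ : ℕ) : ℝ) * (((μ / 2 : ℕ) : ℝ) + 1) := by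
      have h1 : (lam : ℝ) ≤ 2 / ε * (((μ / 2 : ℕ) : ℝ) + 1) := by
        rw [div_mul_eq_mul_div, le_div_iff₀ hε]
        linarith only [hl, hν]
      exact h1.trans (mul_le_mul_of_nonneg_right hA2 (by positivity))
    have h0 : (0 : Fin (k + 2)) ≠ Fin.last (k + 1) := by
      rw [← Fin.succ_last]
      exact (Fin.succ_ne_zero _).symm
    obtain ⟨P', hP'⟩ := H63.step h (hp 0 h0) hwd hγ hD (by omega) hμ hA
    have h3 : 3 ≤ μ / 2 := by omega
    have hle : μ / 2 ≤ lam := by omega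
    have res := ih K (Fin.tail pt) (Fin.tail ω) m (2 * lam ^ 2) ((μ / 2) ^ 2) wd P' hP'
      (fun j hj => hp j.succ (by
        rw [← Fin.succ_last]
        exact fun e => hj (Fin.succ_injective _ e)))
      hwd (H63.zed_dis hD (by exact_mod_cast le_max_left _ _) (by positivity) hwd) hm
      (by nlinarith only [h3]) (by nlinarith only [h3, hle]) (by
        push_cast
        have h1 : ε * lam ≤ 3 * ((μ / 2 : ℕ) : ℝ) := hl.trans hν3
        have h2 : 0 ≤ ε * lam := by positivity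
        have h4 := mul_self_le_mul_self h2 h1
        linarith only [h4])
    simpa [Fin.tail, Fin.succ_last] using res

theorem liou_real {e m T' s : ℕ} {t : Fin e → ℕ} {p l0 τ0 lo len : ℝ} {l τ : Fin e → ℝ}
    (h1 : ∀ j, t j ≤ m) (h2 : ∑ j, t j ≤ T') (h3 : T' ≤ ∑ j, t j + m)
    (h4 : lo ≤ s - ∑ j, t j * τ j) (h5 : s - ∑ j, t j * τ j ≤ lo + len) :
    T' * l0 + (s * p + ∑ j, t j * (l j - l0)) ≤ (T' * τ0 + lo) * p + len * max p 0 +
      m * (max (l0 - τ0 * p) 0 + ∑ j, max (l j - (τ0 - τ j) * p) 0) := by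
  have e1 : ∑ j, (t j : ℝ) * (l j - l0) = ∑ j, (t j : ℝ) * (l j - (τ0 - τ j) * p) -
      (∑ j, (t j : ℝ)) * (l0 - τ0 * p) - (∑ j, (t j : ℝ) * τ j) * p := by
    rw [sum_mul, sum_mul, ← sum_sub_distrib, ← sum_sub_distrib]
    exact sum_congr rfl fun j _ => by ring
  have e2 : ∑ j, (t j : ℝ) * (l j - (τ0 - τ j) * p) ≤
      m * ∑ j, max (l j - (τ0 - τ j) * p) 0 := by
    rw [mul_sum]
    refine sum_le_sum fun j _ => ?_
    exact (mul_le_mul_of_nonneg_left (le_max_left _ 0) (Nat.cast_nonneg _)).trans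
      (mul_le_mul_of_nonneg_right (by exact_mod_cast h1 j) (le_max_right _ _))
  have h2' : ∑ j, (t j : ℝ) ≤ T' := by exact_mod_cast h2
  have h3' : (T' : ℝ) ≤ ∑ j, (t j : ℝ) + m := by exact_mod_cast h3
  have e3 : (T' - ∑ j, (t j : ℝ)) * (l0 - τ0 * p) ≤ m * max (l0 - τ0 * p) 0 :=
    (mul_le_mul_of_nonneg_left (le_max_left _ 0) (by linarith only [h2'])).trans
      (mul_le_mul_of_nonneg_right (by linarith only [h3']) (le_max_right _ _))
  have e4 : (s - ∑ j, t j * τ j - lo) * p ≤ len * max p 0 :=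
    (mul_le_mul_of_nonneg_left (le_max_left _ 0) (by linarith only [h4])).trans
      (mul_le_mul_of_nonneg_right (by linarith only [h5]) (le_max_right _ _))
  rw [e1]
  nlinarith only [e2, e3, e4]

theorem liou_lg {L : Type} [Field L] [NumberField L] (v : Pl L) {e : ℕ} {ψ a0 : L} {a : Fin e → L}
    (hψ : ψ ≠ 0) (ha0 : a0 ≠ 0) (ha : ∀ j, a j ≠ 0) (s : ℕ) (t : Fin e → ℕ) :
    lg v (ψ ^ s * ∏ j, (a j / a0) ^ t j) = s * lg v ψ + ∑ j, t j * (lg v (a j) - lg v a0) := by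
  have h0 : ∀ x : L, x ≠ 0 → av v x ≠ 0 := fun x hx => ((av v).pos hx).ne'
  unfold lg
  rw [map_mul, map_pow, map_prod, Real.log_mul (pow_ne_zero _ (h0 _ hψ))
    (prod_ne_zero_iff.2 fun j _ => h0 _ (pow_ne_zero _ (div_ne_zero (ha j) ha0))), Real.log_pow,
    Real.log_prod fun j _ => h0 _ (pow_ne_zero _ (div_ne_zero (ha j) ha0))]
  congr 1
  refine sum_congr rfl fun j _ => ?_
  rw [map_pow, Real.log_pow, map_div₀, Real.log_div (h0 _ (ha j)) (h0 _ ha0)]

theorem liou_row (hPF : PF_s) (hSUM : SUM_s) (hLOCA : LOCA_s) (hLOCN : LOCN_s) : LIOU_s := by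
  classical
  intro L _ _ hd e m D r T' E M s ψ a0 a τ0 lo len κ τ H g i he hm hE hψ ha0 ha _ hEt hn hM hr
    hrT hc0 hc hH hbig
  by_contra hS
  obtain ⟨t0, ht0, -⟩ := exists_ne_zero_of_sum_ne_zero hS
  obtain ⟨S, hSd⟩ : ∃ S : L, S = ∑ t ∈ E, ((M t * ∏ j, ((t j).choose (i j) : ℤ) : ℤ) : L) *
      (ψ ^ s t * ∏ j, (a j / a0) ^ t j) := ⟨_, rfl⟩
  rw [← hSd] at hS
  obtain ⟨-, p2, p3, p4, p5, p6⟩ := hPF L
  obtain ⟨V, hV, hHV, hU⟩ := p4 (insert S (insert ψ (insert a0 (univ.image a)))) H (by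
    intro x hx
    simp only [mem_insert, mem_image, mem_univ, true_and] at hx
    rcases hx with rfl | rfl | rfl | ⟨j, rfl⟩
    exacts [hS, hψ, ha0, ha j])
  have uS : Un V S := hU _ (by simp)
  have uψ : Un V ψ := hU _ (by simp)
  have u0 : Un V a0 := hU _ (by simp)
  have uj : ∀ j, Un V (a j) := fun j => hU _ (by simp)
  obtain ⟨B, hB⟩ : ∃ B : Pl L → ℝ, ∀ v, B v = (T' * τ0 + lo) * lg v ψ + len * max (lg v ψ) 0 +
      m * (max (lg v a0 - τ0 * lg v ψ) 0 + ∑ j, max (lg v (a j) - (τ0 - τ j) * lg v ψ) 0) :=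
    ⟨_, fun _ => rfl⟩
  have hχ : ∀ v, ∀ t ∈ E, T' * lg v a0 + lg v (ψ ^ s t * ∏ j, (a j / a0) ^ t j) ≤ B v := by
    intro v t ht
    obtain ⟨h1, h2, h3, -, h4, h5⟩ := hEt t ht
    rw [liou_lg v hψ ha0 ha, hB]
    exact liou_real h1 h2 h3 h4 h5
  have hne : ∀ t, ψ ^ s t * ∏ j, (a j / a0) ^ t j ≠ 0 := fun t =>
    mul_ne_zero (pow_ne_zero _ hψ)
      (prod_ne_zero_iff.2 fun j _ => pow_ne_zero _ (div_ne_zero (ha j) ha0))
  have har : ∀ v : Pl L, 0 ≤ ar v := fun v => by rcases v with _ | _ <;> simp [ar]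
  have hT0 : (0 : ℝ) ≤ (e * m : ℕ) := Nat.cast_nonneg _
  have hloc : ∀ v, T' * lg v a0 + lg v S ≤
      B v + 15 * (e * m : ℕ) * ar v - if v ∈ H then r * g v else 0 := by
    intro v
    split_ifs with hv
    · obtain ⟨g0, g1, g2, g3⟩ := hH v hv
      have hl : LocAt v := by
        rcases v with φ | w
        exacts [hLOCA L φ, hLOCN L w]
      obtain ⟨k1, k2⟩ := hl e (e * m) D r E M s ψ (fun j => a j / a0) (g v) i he
        (Nat.le_mul_of_pos_right _ hm) hE (fun t ht => (hEt t ht).2.2.2.1) hn hM hr hrT g0 g1 g2 g3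
      rw [← hSd] at k1
      have k3 : lg v S ≤ _ := (Real.log_le_iff_le_exp ((av v).pos hS)).2 k1
      have k4 : _ ≤ lg v _ := (Real.le_log_iff_exp_le ((av v).pos (hne t0))).2 (k2 t0 ht0)
      linarith only [k3, k4, hχ v t0 ht0]
    · have k1 := hSUM L v _ E (fun t => M t * ∏ j, ((t j).choose (i j) : ℤ))
        (fun t => ψ ^ s t * ∏ j, (a j / a0) ^ t j) (6 * (e * m : ℕ))
        (Real.exp (B v - T' * lg v a0)) (Real.exp_pos _).le (by
          calc ∑ t ∈ E, |((M t * ∏ j, ((t j).choose (i j) : ℤ) : ℤ) : ℝ)|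
              ≤ ∑ t ∈ E, |(M t : ℝ)| * Real.exp (e * m : ℕ) := by
                refine Finset.sum_le_sum fun t ht => ?_
                rw [Int.cast_mul, Int.cast_prod, abs_mul]
                simp only [Int.cast_natCast]
                rw [abs_of_nonneg (a := ∏ j, ((t j).choose (i j) : ℝ)) (by positivity)]
                exact mul_le_mul_of_nonneg_left (H63.phi_choose (hE ht) i) (abs_nonneg _)
            _ ≤ Real.exp (5 * (e * m : ℕ)) * Real.exp (e * m : ℕ) := by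
                rw [← Finset.sum_mul]
                exact mul_le_mul_of_nonneg_right hn (Real.exp_pos _).le
            _ = _ := by rw [← Real.exp_add]; congr 1; ring) (fun t ht =>
          (Real.log_le_iff_le_exp ((av v).pos (hne t))).1
            (show lg v _ ≤ _ by linarith only [hχ v t ht]))
      rw [← hSd, ← Real.exp_add] at k1
      have k3 : lg v S ≤ _ := (Real.log_le_iff_le_exp ((av v).pos hS)).2 k1
      nlinarith only [k3, mul_nonneg hT0 (har v)]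
  have hsum := sum_le_sum fun v (_ : v ∈ V) => hloc v
  rw [sum_add_distrib, ← mul_sum, p2 V hV _ uS, p2 V hV _ u0, sum_sub_distrib, sum_add_distrib,
    ← mul_sum, p3 V hV, sum_ite_mem, inter_eq_right.2 hHV, ← mul_sum] at hsum
  have hBs : ∑ v ∈ V, B v = len * ht ψ +
      m * (cost ψ a0 τ0 + ∑ j, cost ψ (a j) (τ0 - τ j)) := by
    simp only [hB]
    rw [sum_add_distrib, sum_add_distrib, ← mul_sum, ← mul_sum, ← mul_sum, p2 V hV _ uψ,
      ← p6 V ψ uψ, sum_add_distrib, ← p5 V ψ a0 τ0 uψ u0, sum_comm,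
      sum_congr rfl fun j _ => (p5 V ψ (a j) (τ0 - τ j) uψ (uj j)).symm, mul_zero, zero_add]
  have hcs : ∑ j, cost ψ (a j) (τ0 - τ j) ≤ e * κ := by
    refine (sum_le_card_nsmul _ _ κ fun j _ => hc j).trans (le_of_eq ?_)
    simp
  have hd' : (finrank ℚ L : ℝ) ≤ 6 := by exact_mod_cast hd
  have h6 := mul_le_mul_of_nonneg_left hd' hT0
  have h7 := mul_le_mul_of_nonneg_left (add_le_add hc0 hcs) (Nat.cast_nonneg (α := ℝ) m)
  rw [hBs] at hsum
  push_cast at hsum h6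
  nlinarith only [hsum, h6, h7, hbig]

theorem core_num {σ δ G h κ e m Lc r : ℝ} (hσ : 0 < σ) (hσ1 : σ ≤ 1 / 16) (hδ : 0 < δ)
    (hG : 0 < G) (hm : 0 < m) (he : 1 ≤ 2 * σ * e) (hL : 1 ≤ Lc * (σ * δ))
    (hh : δ * h ≤ e * m * G) (hκ : κ ≤ (1 / 2 - 6 * σ) * G) (h90 : 90 ≤ σ * G)
    (hr : (1 / 2 - 2 * σ) * (e * m) ≤ r) :
    1 / Lc * h + (e + 1) * m * κ + 90 * (e * m) < r * G := by
  have he0 : 0 < e := by
    by_contra h0
    have := mul_nonpos_of_nonneg_of_nonpos (by positivity : 0 ≤ 2 * σ) (not_lt.1 h0)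
    linarith only [this, he]
  have hL0 : 0 < Lc := by
    by_contra h0
    have := mul_nonpos_of_nonpos_of_nonneg (not_lt.1 h0) (mul_pos hσ hδ).le
    linarith only [this, hL]
  have hT : 0 < e * m * G := by positivity
  have h1 : 1 / Lc * h ≤ σ * (e * m * G) := by
    rw [one_div, inv_mul_le_iff₀ hL0]
    refine le_of_mul_le_mul_left (hh.trans ?_) hδ
    nlinarith only [hL, hT]
  have h2 : (e + 1) * m * κ ≤ (e + 1) * m * ((1 / 2 - 6 * σ) * G) :=
    mul_le_mul_of_nonneg_left hκ (by positivity)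
  have h3 : m * G ≤ 2 * σ * e * (m * G) := le_mul_of_one_le_left (by positivity) he
  have h4 : 0 ≤ σ * (m * G) := by positivity
  have h5 : 90 * (e * m) ≤ σ * G * (e * m) := mul_le_mul_of_nonneg_right h90 (by positivity)
  have h6 := mul_le_mul_of_nonneg_right hr hG.le
  have h7 : 0 < σ * (e * m * G) := by positivity
  nlinarith only [h1, h2, h3, h4, h5, h6, h7]

theorem core_row (hCNT : CNT_s) (hSIEG : SIEG_s) (hZEDN : ZEDN_s) (hHT : HT_s) (hHT1 : HT1_s) (hLIOU : LIOU_s) (hPF : PF_s) : CORE_s := by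
  intro σ δ hσ hσ1 hδ
  obtain ⟨Lc, hLc⟩ : ∃ Lc : ℕ, 1 / (σ * δ) ≤ Lc := ⟨_, Nat.le_ceil _⟩
  have hLc' : 1 ≤ (Lc : ℝ) * (σ * δ) := (div_le_iff₀ (by positivity)).1 hLc
  have hL1 : 1 ≤ Lc := by
    rcases Nat.eq_zero_or_pos Lc with rfl | h
    · norm_num at hLc'
    · exact h
  obtain ⟨e, he, hcnt⟩ := hCNT σ hσ Lc (⌈1 / (2 * σ)⌉₊ + 1)
  have he1 : 1 ≤ e := by omega
  have he2 : 1 ≤ 2 * σ * e := by
    have h1 : 1 / (2 * σ) ≤ e := (Nat.le_ceil _).trans (by exact_mod_cast (by omega))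
    rwa [div_le_iff₀' (by positivity)] at h1
  obtain ⟨A, C, hA, hC, hz⟩ := hZEDN e (σ / 2) 5 (by positivity) (by norm_num)
  have h90 : 0 ≤ 90 / σ := by positivity
  refine ⟨e, A, 6 * C + 90 / σ + 7, he1, hA, by linarith only [hC, h90], ?_⟩
  intro L _ _ hd ψ a0 a τ0 κ τ m H g hψ0 hψ1 ha0 ha hτ hm hdis hc0 hc hH hη hG hκ
  obtain ⟨G, hGe⟩ : ∃ G, G = ∑ v ∈ H, g v := ⟨_, rfl⟩
  have hbig := hH.big
  rw [← hGe] at hG hκ hbig
  have hm1 : (1 : ℝ) ≤ m := by linarith only [hC, h90, hm]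
  have hm1' : 1 ≤ m := by exact_mod_cast hm1
  have he1' : (1 : ℝ) ≤ e := by exact_mod_cast he1
  obtain ⟨T, hT⟩ : ∃ T : ℕ, T = e * m := ⟨_, rfl⟩
  have hTr : (T : ℝ) = e * m := by rw [hT, Nat.cast_mul]
  have hmT : (m : ℝ) ≤ T := by rw [hTr]; exact le_mul_of_one_le_left (by positivity) he1'
  have hT1 : 1 ≤ T := by exact_mod_cast hm1.trans hmT
  have hT0 : (0 : ℝ) < T := by exact_mod_cast hT1
  have hσT : 90 ≤ σ * T := by
    have : 90 / σ ≤ T := by linarith only [hC, hm, hmT]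
    rwa [div_le_iff₀' hσ] at this
  have hσG : 90 ≤ σ * G := by
    have : 90 / σ ≤ G := by linarith only [hC, hG]
    rwa [div_le_iff₀' hσ] at this
  have hG0 : 0 < G := by linarith only [hC, hG, h90]
  obtain ⟨μ, hμ⟩ : ∃ μ : ℕ, μ = ⌊σ * T⌋₊ := ⟨_, rfl⟩
  have hμ1 : (μ : ℝ) ≤ σ * T := hμ ▸ Nat.floor_le (by positivity)
  have hμ2 : σ * T < μ + 1 := hμ ▸ Nat.lt_floor_add_one _
  have hμ6 : 6 ≤ μ := hμ ▸ Nat.le_floor (by push_cast; linarith only [hσT])
  obtain ⟨D, hD⟩ : ∃ D : ℕ, D = ⌊(1 / 2 - σ) * T⌋₊ := ⟨_, rfl⟩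
  have hσ2 : 0 ≤ 1 / 2 - σ := by linarith only [hσ1]
  have hD1 : (D : ℝ) ≤ (1 / 2 - σ) * T := hD ▸ Nat.floor_le (by positivity)
  have hD2 : (1 / 2 - σ) * T < D + 1 := hD ▸ Nat.lt_floor_add_one _
  have hσT2 : σ * T ≤ 1 / 16 * T := mul_le_mul_of_nonneg_right hσ1 hT0.le
  have hμD : μ ≤ D + 1 := by
    have : (μ : ℝ) ≤ D + 1 := by linarith only [hμ1, hD2, hσT2, hT0]
    exact_mod_cast this
  have hDT : D + 1 ≤ T := by
    have : (D : ℝ) + 1 ≤ T := by linarith only [hD1, hσT]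
    exact_mod_cast this
  let s : (Fin e → ℕ) → ℕ := fun t => ⌊∑ j, (t j : ℝ) * τ j⌋₊ + 1
  have hs0 : ∀ t : Fin e → ℕ, 0 ≤ ∑ j, (t j : ℝ) * τ j := fun t =>
    sum_nonneg fun j _ => mul_nonneg (by positivity) (hτ j).1
  obtain ⟨E, hE, T', M, lo, hM0, hx, hn, hM⟩ := hSIEG e m D Lc he1 hm1' hL1
    (hcnt m D hm1' (by rw [← hTr]; exact hD1))
    (fun t => (s t : ℝ) - ∑ j, (t j : ℝ) * τ j) (fun t => by
      have h1 := Nat.floor_le (hs0 t)
      have h2 := Nat.lt_floor_add_one (∑ j, (t j : ℝ) * τ j)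
      simp only [s]
      push_cast
      constructor <;> linarith only [h2, h1])
  have hsT : ∀ t ∈ E, s t ≤ e * m + 1 := fun t ht => by
    refine Nat.add_le_add_right (Nat.floor_le_of_le ?_) 1
    have h1 : ((∑ j, t j : ℕ) : ℝ) ≤ (e * m : ℕ) := by exact_mod_cast H63.mem_Sx.1 (hE ht)
    refine le_trans ?_ h1
    rw [Nat.cast_sum]
    exact sum_le_sum fun j _ => mul_le_of_le_one_right (Nat.cast_nonneg _) (hτ j).2
  have hL1' : (1 : ℝ) ≤ Lc := by exact_mod_cast hL1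
  have hη0 : ∀ j, a j / a0 ≠ 0 := fun j => div_ne_zero (ha j) ha0
  have hv : ∀ i : Fin e → ℕ, ∑ j, i j < μ →
      ∑ t ∈ E, ((M t * ∏ j, ((t j).choose (i j) : ℤ) : ℤ) : L) *
        (ψ ^ s t * ∏ j, (a j / a0) ^ t j) = 0 := fun i hi => by
    refine hLIOU L hd e m D (D + 1 - μ) T' E M s ψ a0 a τ0 lo (1 / Lc) κ τ H g i he1 hm1' hE hψ0
      ha0 ha (by positivity) (fun t ht => ⟨(hx t ht).1, (hx t ht).2.1, (hx t ht).2.2.1, hsT t ht,
        (hx t ht).2.2.2.1, (hx t ht).2.2.2.2⟩) hn hM (by omega) (by omega) hc0 hc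
      (fun v hv => ⟨(hH.pos v hv).1, (hH.pos v hv).2, hH.near v hv, hη v hv⟩) ?_
    rw [← hGe]
    refine core_num hσ hσ1 hδ hG0 (by linarith only [hm1]) he2 hLc' (by exact_mod_cast hbig) hκ
      hσG ?_
    rw [Nat.cast_sub hμD, ← hTr]
    push_cast
    linarith only [hD2, hμ1]
  rw [← hT] at hE hn hdis
  obtain ⟨P, hP⟩ := H63.aux_st (m := μ) E hE M hM0 hn s τ lo hT1
    (fun t ht => ⟨(hx t ht).2.2.2.1, (hx t ht).2.2.2.2.trans (by
      have : 1 / (Lc : ℝ) ≤ 1 := by rw [div_le_one (by linarith only [hL1'])]; exact hL1'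
      linarith only [this])⟩) ψ (fun j => a j / a0) hη0 hv
  have hψ' : (Fin.snoc (fun j => a j / a0) ψ : Fin (e + 1) → L) (Fin.last e) = ψ :=
    Fin.snoc_last _ _
  have hout := hz L _ _ μ T μ (1 / T) P hP (fun j hj => by
      obtain ⟨j, rfl⟩ := Fin.exists_castSucc_eq.2 hj
      rw [Fin.snoc_castSucc]
      exact hη0 j) (by positivity) (fun t ht hA => by
      have := hdis (t (Fin.last e)) (fun j => t j.castSucc) (by
        obtain ⟨j, hj, h0⟩ := ht
        obtain ⟨j, rfl⟩ := Fin.exists_castSucc_eq.2 hj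
        exact fun h => h0 (congrFun h j)) (fun j => by
        exact_mod_cast hA j.castSucc (Fin.castSucc_ne_last j))
      rw [mul_one_div, Fin.sum_univ_castSucc]
      simp only [Fin.snoc_castSucc, Fin.snoc_last, mul_neg, Finset.sum_neg_distrib, mul_one]
      rwa [neg_add_eq_sub]) (by omega) hμ6 (by omega) (by linarith only [hσT, hμ2])
  rw [hψ'] at hout
  have h1 := hHT L ψ _ hψ0 hout
  have h2 := (hHT1 L ψ hψ0 hψ1).1 H
  have h3 : (T : ℝ) * G ≤ ∑ v ∈ H, -lg v (ψ - 1) := by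
    rw [hGe, mul_sum]
    refine sum_le_sum fun v hv => ?_
    have h4 := hH.near v hv
    rw [← hT] at h4
    have h5 := (Real.log_le_iff_le_exp ((av v).pos (sub_ne_zero.2 hψ1))).2 h4
    rw [lg]
    linarith only [h5]
  have hd' : (finrank ℚ L : ℝ) ≤ 6 := by exact_mod_cast hd
  have hμT : (μ : ℝ) ≤ T := by exact_mod_cast (show μ ≤ T by omega)
  have h6 : (finrank ℚ L : ℝ) * (C * μ) ≤ 6 * (C * T) := by gcongr
  have h7 : (T : ℝ) * (6 * C + 7) ≤ T * G :=
    mul_le_mul_of_nonneg_left (by linarith only [hG, h90]) hT0.le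
  have h8 : (1 : ℝ) ≤ T := by exact_mod_cast hT1
  linarith only [h1, h2, h3, hd', h6, h7, h8]

theorem kill_row (hCORE : CORE_s) : KILL_s := by
  classical
  intro σ δ hσ hσ1 hδ
  obtain ⟨e, A, C0, he, hA, hC0, H0⟩ := hCORE σ (δ / 2) hσ hσ1 (by positivity)
  obtain ⟨cc, hcc⟩ : ∃ cc : ℕ, cc = 4 * e * A ^ 2 := ⟨_, rfl⟩
  obtain ⟨J, hJ⟩ : ∃ J : ℕ, J = (2 * A + 1) ^ e := ⟨_, rfl⟩
  have hcA : 4 * A ≤ cc := by
    rw [hcc]; linarith only [Nat.mul_le_mul he (Nat.mul_le_mul_left A hA)]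
  have hc0 : 0 < cc := by omega
  have he1 : (1 : ℝ) ≤ e := by exact_mod_cast he
  have hJ0 : (0 : ℝ) ≤ J := Nat.cast_nonneg _
  have hcc0 : (0 : ℝ) ≤ cc := Nat.cast_nonneg _
  have heC : C0 ≤ e * C0 := le_mul_of_one_le_left (by linarith only [hC0]) he1
  refine ⟨e * (C0 + 2) + 4 * cc + J, by linarith only [heC, hC0, he1, hJ0, hcc0], ?_⟩
  intro L _ _ hd ψ H g T hψ hψ1 hv hG hT
  obtain ⟨m, hm⟩ : ∃ m : ℕ, m = T / e := ⟨_, rfl⟩
  have hm1 : e * m ≤ T := hm ▸ Nat.mul_div_le T e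
  have hm2 : T < e * (m + 1) := hm ▸ Nat.lt_mul_div_succ T he
  have hm2' : (T : ℝ) < e * (m + 1) := by exact_mod_cast hm2
  have hCm : C0 ≤ m := by
    have : (e : ℝ) * C0 ≤ e * m := by linarith only [hm2', hT, he1, hJ0, hcc0]
    exact le_of_mul_le_mul_left this (by linarith only [he1])
  have hT1 : 2 * e + 4 * cc ≤ T := by
    have : (2 : ℝ) * e + 4 * cc ≤ T := by linarith only [hT, heC, hC0, hJ0]
    exact_mod_cast this
  obtain ⟨N, hN⟩ : ∃ N : ℕ, N = e * m := ⟨_, rfl⟩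
  have hN1 : N ≤ T := hN ▸ hm1
  have hN2 : T < N + e := by rw [hN]; linarith only [hm2]
  obtain ⟨I, hI⟩ : ∃ I : ℕ, I = N / cc := ⟨_, rfl⟩
  have hI1 : cc * I ≤ N := hI ▸ Nat.mul_div_le N cc
  have hI0 : 0 < I := hI ▸ Nat.div_pos (by omega) hc0
  have hI2 : N ≤ 2 * cc * I := by
    have h1 : N < cc * (I + 1) := hI ▸ Nat.lt_mul_div_succ N hc0
    nlinarith only [h1, hI0]
  have hI3 : 2 * A * I ≤ N := (Nat.mul_le_mul_right I (by omega)).trans hI1
  have hI0' : (0 : ℝ) ≤ I := Nat.cast_nonneg _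
  refine ⟨N, 2 * A, I, by omega, by omega, hI0, hI3, ?_, ?_⟩
  · have h1 : T ≤ 4 * cc * I := by nlinarith only [hI2, hN2, hT1]
    have h2 : (T : ℝ) ≤ 4 * cc * I := by exact_mod_cast h1
    exact h2.trans (mul_le_mul_of_nonneg_right (by linarith only [heC, hC0, he1, hJ0]) hI0')
  intro P hP hinj hcol
  by_contra hlt
  have hJP : J < P.card := by
    have : (J : ℝ) < P.card := by linarith only [not_le.1 hlt, heC, hC0, he1, hcc0]
    exact_mod_cast this
  obtain ⟨p0, hp0, hmax⟩ := exists_max_image P Prod.fst (card_pos.1 (by omega))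
  have hA0 : 0 < 2 * A := by omega
  have hk : ∀ p ∈ P, ∃ k : ℤ, 0 ≤ k ∧ k ≤ I ∧ (p0.1 : ℤ) - p.1 = k * (2 * A : ℕ) := fun p hp => by
    obtain ⟨⟨i, hi⟩, hi2, -⟩ := hP p hp
    obtain ⟨⟨i0, hi0⟩, hi3, -⟩ := hP p0 hp0
    have h1 := hmax p hp
    rw [hi, hi0] at h1
    rw [hi0] at hi3
    have h2 : i ≤ i0 := Nat.le_of_mul_le_mul_left h1 hA0
    have h3 : i0 < I := Nat.lt_of_mul_lt_mul_left hi3
    exact ⟨i0 - i, by omega, by omega, by rw [hi, hi0]; push_cast; ring⟩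
  choose! k hk0 hkI hk using hk
  have hinj' : Set.InjOn k P := fun p hp q hq h => hinj p hp q hq (by
    have h1 := hk p hp
    have h2 := hk q hq
    rw [h] at h1
    omega)
  obtain ⟨κ, hκ, hdis⟩ := H63.dss e A (P.image k)
    (by rw [card_image_of_injOn hinj', ← hJ]; exact hJP)
  choose p hp hpk using fun j => mem_image.1 (hκ j)
  have hA1 : (1 : ℝ) ≤ A := by exact_mod_cast hA
  have hAN : (4 : ℝ) * A ≤ N := by exact_mod_cast (show 4 * A ≤ N by omega)
  have hN0 : (0 : ℝ) < N := by linarith only [hA1, hAN]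
  have hτ : ∀ j, (p0.1 : ℝ) / N - κ j * (2 * A / N) = (p j).1 / N := fun j => by
    have h1 : ((p0.1 : ℝ) - (p j).1) = κ j * (2 * A) := by
      rw [← hpk j]
      exact_mod_cast hk _ (hp j)
    field_simp
    linarith only [h1]
  have hG0 : 0 ≤ ∑ v ∈ H, g v := sum_nonneg fun v h => (hv.pos v h).1.le
  have hNT : (N : ℝ) ≤ T := by exact_mod_cast hN1
  have hTN : (T : ℝ) ≤ 2 * N := by exact_mod_cast (show T ≤ 2 * N by omega)
  refine H0 L hd ψ p0.2 (fun j => (p j).2) (p0.1 / N) ((1 / 2 - 6 * σ) * ∑ v ∈ H, g v)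
    (fun j => κ j * (2 * A / N)) m H g hψ hψ1 (hP _ hp0).2.2.1 (fun j => (hP _ (hp j)).2.2.1)
    (fun j => ?_) hCm (fun s t ht hb => ?_) (hP _ hp0).2.2.2
    (fun j => by rw [hτ j]; exact (hP _ (hp j)).2.2.2) (hN ▸ ⟨hv.pos, fun v h => ?_, ?_⟩)
    (fun v h j => hcol _ (hp j) _ hp0 v h) (by linarith only [hG, heC, he1, hJ0, hcc0]) le_rfl
  · have h1 : (0 : ℝ) ≤ κ j := by exact_mod_cast hpk j ▸ hk0 _ (hp j)
    have h2 : (κ j : ℝ) ≤ I := by exact_mod_cast hpk j ▸ hkI _ (hp j)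
    have h3 : (2 : ℝ) * A * I ≤ N := by exact_mod_cast hI3
    refine ⟨by positivity, ?_⟩
    rw [← mul_div_assoc, div_le_one hN0]
    nlinarith only [h2, h3, hA1]
  · have e1 : ∑ j, (t j : ℝ) * (κ j * (2 * A / N)) = ((∑ j, κ j * t j : ℤ) : ℝ) * (2 * A / N) := by
      rw [Int.cast_sum, sum_mul]
      exact sum_congr rfl fun j _ => by push_cast; ring
    have e2 : |∑ j, κ j * t j| ≤ e * (I * A) := (abs_sum_le_sum_abs _ _).trans (by
      refine (sum_le_card_nsmul _ _ ((I : ℤ) * A) fun j _ => ?_).trans (by simp)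
      rw [abs_mul, ← hpk j, abs_of_nonneg (hk0 _ (hp j))]
      exact mul_le_mul (hkI _ (hp j)) (hb j) (abs_nonneg _) (Nat.cast_nonneg _))
    rw [e1, ← hN]
    refine H63.kill_num (c := e * (I * A)) hA1 (by linarith only [hA1, hAN])
      (by exact_mod_cast Int.one_le_abs (hdis t ht hb)) (by exact_mod_cast e2) ?_ ?_
    · have : ((4 * e * A ^ 2 * I : ℕ) : ℝ) ≤ N := by exact_mod_cast hcc ▸ hI1
      push_cast at this
      linarith only [this]
    · exact (eq_or_ne s 0).imp (fun e => by simp [e]) fun e => by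
        exact_mod_cast Int.one_le_abs e
  · exact (hv.near v h).trans (Real.exp_le_exp.2 (by nlinarith only [hNT, (hv.pos v h).1]))
  · nlinarith only [hv.big, hTN, hG0]

theorem anc_sum (n : ℕ) : ∑ d ∈ Ioc 1 n, ((d : ℝ) ^ 2)⁻¹ ≤ 3 / 4 := by
  have h1 : Ioc 1 n ⊆ insert 2 (Ioc 2 (n + 2)) := fun d hd => by
    simp only [mem_insert, mem_Ioc] at hd ⊢
    omega
  refine (sum_le_sum_of_subset_of_nonneg h1 fun _ _ _ => by positivity).trans ?_
  rw [sum_insert (by simp)]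
  have h2 := sum_Ioc_inv_sq_le_sub (α := ℝ) (k := 2) (n := n + 2) (by norm_num) (by omega)
  have h3 : (0 : ℝ) ≤ ((n + 2 : ℕ) : ℝ)⁻¹ := by positivity
  have h4 : (((2 : ℕ) : ℝ) ^ 2)⁻¹ = 1 / 4 := by norm_num
  have h5 : ((2 : ℕ) : ℝ)⁻¹ = 1 / 2 := by norm_num
  linarith only [h2, h3, h4, h5]

theorem anc_row : ANC_s := by
  intro R B
  refine ⟨(Ioc 0 R ×ˢ Ioc 0 B).filter fun u => Nat.Coprime u.1 u.2, ?_, fun u hu => ?_,
    fun u hu u' hu' h => ?_⟩
  · have h1 := card_filter_add_card_filter_not (s := Ioc 0 R ×ˢ Ioc 0 B)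
      (fun u => Nat.Coprime u.1 u.2)
    rw [card_product, Nat.card_Ioc, Nat.card_Ioc, Nat.sub_zero, Nat.sub_zero] at h1
    have h2 : ((Ioc 0 R ×ˢ Ioc 0 B).filter fun u => ¬Nat.Coprime u.1 u.2) ⊆
        (Ioc 1 R).biUnion fun d => (Ioc 0 (R / d) ×ˢ Ioc 0 (B / d)).image
          fun u => (d * u.1, d * u.2) := fun u hu => by
      simp only [mem_filter, mem_product, mem_Ioc] at hu
      obtain ⟨⟨⟨a0, a1⟩, b0, b1⟩, hc⟩ := hu
      have g0 : 0 < Nat.gcd u.1 u.2 := Nat.gcd_pos_of_pos_left _ a0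
      have g1 : Nat.gcd u.1 u.2 ≠ 1 := hc
      have g2 := Nat.gcd_dvd_left u.1 u.2
      have g3 := Nat.gcd_dvd_right u.1 u.2
      refine mem_biUnion.2 ⟨Nat.gcd u.1 u.2, mem_Ioc.2 ⟨by omega, (Nat.le_of_dvd a0 g2).trans a1⟩,
        mem_image.2 ⟨(u.1 / Nat.gcd u.1 u.2, u.2 / Nat.gcd u.1 u.2), mem_product.2
          ⟨mem_Ioc.2 ⟨Nat.div_pos (Nat.le_of_dvd a0 g2) g0, Nat.div_le_div_right a1⟩,
            mem_Ioc.2 ⟨Nat.div_pos (Nat.le_of_dvd b0 g3) g0, Nat.div_le_div_right b1⟩⟩, ?_⟩⟩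
      simp only [Nat.mul_div_cancel' g2, Nat.mul_div_cancel' g3]
    have h3 := (card_le_card h2).trans card_biUnion_le
    have h4 : ((∑ d ∈ Ioc 1 R, ((Ioc 0 (R / d) ×ˢ Ioc 0 (B / d)).image
        fun u => (d * u.1, d * u.2)).card : ℕ) : ℝ) ≤ R * B * (3 / 4) := by
      refine le_trans ?_ (mul_le_mul_of_nonneg_left (anc_sum R) (by positivity))
      rw [Nat.cast_sum, mul_sum]
      refine sum_le_sum fun d _ => ?_
      refine (Nat.cast_le.2 card_image_le).trans ?_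
      rw [card_product, Nat.card_Ioc, Nat.card_Ioc, Nat.sub_zero, Nat.sub_zero, Nat.cast_mul]
      refine (mul_le_mul Nat.cast_div_le Nat.cast_div_le (by positivity) (by positivity)).trans
        (le_of_eq ?_)
      rw [div_mul_div_comm, sq, div_eq_mul_inv]
    have h5 := (Nat.cast_le (α := ℝ)).2 h3
    have h6 := congrArg (Nat.cast : ℕ → ℝ) h1
    rw [← Nat.cast_le (α := ℝ)]
    rw [Nat.cast_add, Nat.cast_mul] at h6
    rw [Nat.cast_mul, Nat.cast_mul, Nat.cast_ofNat]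
    linarith only [h4, h5, h6]
  · simp only [mem_filter, mem_product, mem_Ioc] at hu
    omega
  · have c1 : Nat.Coprime u.1 u.2 := (mem_filter.1 hu).2
    have c2 : Nat.Coprime u'.1 u'.2 := (mem_filter.1 hu').2
    refine Prod.ext (Nat.dvd_antisymm (c1.dvd_of_dvd_mul_right ⟨_, h.symm⟩)
      (c2.dvd_of_dvd_mul_right ⟨_, h⟩)) (Nat.dvd_antisymm
      (c1.symm.dvd_of_dvd_mul_left ⟨u'.1, by rw [h, mul_comm]⟩)
      (c2.symm.dvd_of_dvd_mul_left ⟨u.1, by rw [← h, mul_comm]⟩))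

theorem sel_row : SEL_s := by
  classical
  intro ι S l v T G Λ hT hG hl h
  have key : ∀ (n : ℕ) (j : ι → ℕ), ∑ w ∈ S, j w = n → (∀ w ∈ S, T * j w ≤ v w) →
      G ≤ ∑ w ∈ S, j w * l w → ∃ j : ι → ℕ, (∀ w ∈ S, T * j w ≤ v w) ∧
        G ≤ ∑ w ∈ S, j w * l w ∧ ∑ w ∈ S, j w * l w ≤ G + Λ := by
    intro n
    induction n using Nat.strong_induction_on with
    | _ n ih =>
      intro j hn h1 h2
      by_cases h3 : ∑ w ∈ S, j w * l w ≤ G + Λ
      · exact ⟨j, h1, h2, h3⟩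
      obtain ⟨w, hw, hj⟩ : ∃ w ∈ S, j w ≠ 0 := by
        by_contra hc
        push Not at hc
        rw [Finset.sum_eq_zero fun w hw => by rw [hc w hw]; simp] at h2
        linarith
      have e1 : ∀ u, j u = Function.update j w (j w - 1) u + (if u = w then 1 else 0) := by
        intro u
        by_cases hu : u = w
        · subst hu
          simp
          omega
        · simp [hu]
      generalize Function.update j w (j w - 1) = j' at e1
      have e2 : ∑ u ∈ S, j u = ∑ u ∈ S, j' u + 1 := by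
        simp only [e1, Finset.sum_add_distrib, Finset.sum_ite_eq', hw, if_true]
      have e3 : ∑ u ∈ S, j u * l u = ∑ u ∈ S, j' u * l u + l w := by
        simp only [e1, Nat.cast_add, Nat.cast_ite, Nat.cast_one, Nat.cast_zero, add_mul, ite_mul,
          one_mul, zero_mul, Finset.sum_add_distrib, Finset.sum_ite_eq', hw, if_true]
      refine ih (∑ u ∈ S, j' u) (by omega) j' rfl (fun u hu => ?_) ?_
      · exact (Nat.mul_le_mul_left T (by have := e1 u; omega)).trans (h1 u hu)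
      · have := (hl w hw).2
        linarith
  refine key _ (fun w => v w / T) rfl (fun w _ => Nat.mul_div_le _ _) ?_
  have T0 : (0 : ℝ) < T := by exact_mod_cast hT
  refine le_of_mul_le_mul_left ?_ T0
  have h4 : ∑ w ∈ S, v w * l w ≤ T * ∑ w ∈ S, ((v w / T : ℕ) : ℝ) * l w + T * ∑ w ∈ S, l w := by
    rw [Finset.mul_sum, Finset.mul_sum, ← Finset.sum_add_distrib]
    refine Finset.sum_le_sum fun w hw => ?_
    have h5 : (v w : ℝ) ≤ T * (((v w / T : ℕ) : ℝ) + 1) := by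
      exact_mod_cast (Nat.lt_mul_div_succ (v w) hT).le
    nlinarith [(hl w hw).1]
  linarith

theorem few_ev (ε c : ℝ) (hε : 0 < ε) :
    ∃ q0 : ℕ, ∀ q : ℕ, q0 ≤ q → Real.exp c * (Bq q : ℝ) ^ 3 ≤ (q : ℝ) ^ ε := by
  have h1 := (isLittleO_log_rpow_atTop (r := ε / 3) (by positivity)).bound
    (c := 1 / (300 * Real.exp (c / 3))) (by positivity)
  obtain ⟨a, ha⟩ := Filter.eventually_atTop.1 h1
  refine ⟨max ⌈a⌉₊ 2, fun q hq => ?_⟩
  have hq2 : (2 : ℝ) ≤ q := by exact_mod_cast le_trans (le_max_right _ _) hq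
  have hqa : a ≤ q := le_trans (Nat.le_ceil a) (by exact_mod_cast le_trans (le_max_left _ _) hq)
  have hl : (1 / 2 : ℝ) ≤ Real.log q := by
    have h2 := Real.log_two_gt_d9
    have h3 := Real.log_le_log (by norm_num) hq2
    linarith
  have h4 := ha q hqa
  rw [Real.norm_of_nonneg (by linarith), Real.norm_of_nonneg (by positivity)] at h4
  have h5 : (Bq q : ℝ) ≤ 300 * Real.log q := by
    have := Nat.ceil_lt_add_one (show 0 ≤ Real.log q by linarith)
    unfold Bq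
    push_cast
    linarith
  have he := Real.exp_pos (c / 3)
  have h6 : Real.exp (c / 3) * (Bq q : ℝ) ≤ (q : ℝ) ^ (ε / 3) := by
    calc Real.exp (c / 3) * (Bq q : ℝ) ≤ Real.exp (c / 3) * (300 * Real.log q) := by gcongr
      _ ≤ Real.exp (c / 3) * (300 * (1 / (300 * Real.exp (c / 3)) * (q : ℝ) ^ (ε / 3))) := by
          gcongr
      _ = (q : ℝ) ^ (ε / 3) := by field_simp
  have h7 := pow_le_pow_left₀ (by positivity) h6 3
  rw [mul_pow, ← Real.exp_nat_mul, ← Real.rpow_natCast ((q : ℝ) ^ (ε / 3)),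
    ← Real.rpow_mul (by linarith)] at h7
  have e1 : ((3 : ℕ) : ℝ) * (c / 3) = c := by push_cast; ring
  have e2 : ε / 3 * ((3 : ℕ) : ℝ) = ε := by push_cast; ring
  rwa [e1, e2] at h7

theorem few_row : FEW_s := by
  intro ε c hε hc
  obtain ⟨q0, hq0⟩ := few_ev ε c hε
  have hM : (1 : ℝ) ≤ Real.exp c * (100 * (q0 : ℝ) + 1) ^ 3 :=
    one_le_mul_of_one_le_of_one_le (Real.one_le_exp hc)
      (one_le_pow₀ (by have := Nat.cast_nonneg (α := ℝ) q0; linarith))
  set M := Real.exp c * (100 * (q0 : ℝ) + 1) ^ 3 with hMd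
  refine ⟨M ^ q0, one_le_pow₀ hM, fun Q hQ => ⟨?_, ?_⟩⟩
  · have h1 : Real.exp (c * Q.card) * Kc Q = ∏ q ∈ Q, (Real.exp c * (Bq q : ℝ) ^ 3) := by
      rw [prod_mul_distrib, prod_const, ← Real.exp_nat_mul, mul_comm c]
      rfl
    have h2 : ∀ q ∈ Q, Real.exp c * (Bq q : ℝ) ^ 3 ≤ (if q < q0 then M else 1) * (q : ℝ) ^ ε := by
      intro q hq
      have hq1 : (1 : ℝ) ≤ q := by exact_mod_cast (hQ q hq).one_le
      split_ifs with h
      · have h3 : (Bq q : ℝ) ≤ 100 * (q0 : ℝ) + 1 := by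
          have h4 : ⌈Real.log q⌉₊ ≤ q0 := by
            rw [Nat.ceil_le]
            have := Real.log_le_sub_one_of_pos (show (0 : ℝ) < q by linarith)
            have h5 : (q : ℝ) ≤ q0 := by exact_mod_cast h.le
            linarith
          have h6 : ((⌈Real.log q⌉₊ : ℕ) : ℝ) ≤ q0 := by exact_mod_cast h4
          unfold Bq
          push_cast
          linarith
        calc Real.exp c * (Bq q : ℝ) ^ 3 ≤ M := by rw [hMd]; gcongr
          _ ≤ M * (q : ℝ) ^ ε :=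
            le_mul_of_one_le_right (by linarith) (Real.one_le_rpow hq1 hε.le)
      · rw [one_mul]
        exact hq0 q (not_lt.1 h)
    have h7 : ∏ q ∈ Q, (if q < q0 then M else 1) ≤ M ^ q0 := by
      rw [← prod_filter, prod_const]
      refine pow_le_pow_right₀ hM ?_
      calc (Q.filter fun q => q < q0).card ≤ (range q0).card :=
            card_le_card fun q hq => mem_range.2 (mem_filter.1 hq).2
        _ = q0 := card_range q0
    rw [h1]
    calc ∏ q ∈ Q, (Real.exp c * (Bq q : ℝ) ^ 3)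
        ≤ ∏ q ∈ Q, ((if q < q0 then M else 1) * (q : ℝ) ^ ε) :=
          prod_le_prod (fun q _ => by positivity) h2
      _ = (∏ q ∈ Q, (if q < q0 then M else 1)) * (∏ q ∈ Q, (q : ℝ)) ^ ε := by
          rw [prod_mul_distrib, Real.finsetProd_rpow _ _ (fun q _ => Nat.cast_nonneg q)]
      _ ≤ M ^ q0 * (∏ q ∈ Q, (q : ℝ)) ^ ε := by
          refine mul_le_mul_of_nonneg_right h7 (Real.rpow_nonneg ?_ _)
          exact prod_nonneg fun q _ => Nat.cast_nonneg q
  · unfold Kc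
    calc (1 : ℝ) = ∏ _q ∈ Q, (1 : ℝ) := prod_const_one.symm
      _ ≤ ∏ q ∈ Q, (Bq q : ℝ) ^ 3 := by
        refine prod_le_prod (fun _ _ => zero_le_one) fun q hq => one_le_pow₀ ?_
        have h1 : 0 < Real.log q := Real.log_pos (by exact_mod_cast (hQ q hq).one_lt)
        have h2 : 1 ≤ ⌈Real.log q⌉₊ := Nat.ceil_pos.2 h1
        have h3 : 1 ≤ Bq q := by unfold Bq; omega
        exact_mod_cast h3

end Pool.Agent.MP_2a5a28_nt.H15Z
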