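import Pool.Agent.MP_2a5a28_nt.H15Z.Defs

set_option autoImplicit false

namespace Pool.Agent.MP_2a5a28_nt.H15Z

open Finset NumberField Module
open H63 (Sx St Dis nm)

theorem rho_bq {q : ℕ} (hq : q.Prime) : 100 ≤ Bq q ∧ 100 * Real.log q ≤ Bq q := by
  have h1 : 0 < Real.log q := Real.log_pos (by exact_mod_cast hq.one_lt)
  have h2 : 1 ≤ ⌈Real.log q⌉₊ := Nat.ceil_pos.2 h1
  have h3 := Nat.le_ceil (Real.log q)
  unfold Bq
  refine ⟨by omega, ?_⟩
  push_cast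
  linarith

theorem rho_row : RHO_s := by
  classical
  intro Q N hQ hN
  have hN' : (0 : ℝ) < N := by exact_mod_cast hN
  refine ⟨Finset.prod_pos fun q hq => pow_pos (hQ q hq).pos _, ?_, fun p hp => ?_⟩
  · rw [div_le_iff₀ hN', rho, Nat.cast_prod, Real.log_prod fun q hq => by
      exact_mod_cast pow_ne_zero _ (hQ q hq).ne_zero]
    refine (sum_le_card_nsmul _ _ ((N : ℝ) / 100) fun q hq => ?_).trans (le_of_eq ?_)
    · obtain ⟨-, h2⟩ := rho_bq (hQ q hq)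
      have h3 : ((N / Bq q : ℕ) : ℝ) * Bq q ≤ N := by exact_mod_cast Nat.div_mul_le_self N (Bq q)
      have h4 : (0 : ℝ) ≤ (N / Bq q : ℕ) := Nat.cast_nonneg _
      rw [Nat.cast_pow, Real.log_pow]
      nlinarith
    · rw [nsmul_eq_mul]
      ring
  · have nd : ∀ S : Finset ℕ, S ⊆ Q → p ∉ S → ¬p ∣ ∏ q ∈ S, q ^ (N / Bq q) := fun S hS hpS h => by
      obtain ⟨q, hq, h⟩ := (Nat.Prime.prime hp).exists_mem_finset_dvd h
      have := (Nat.prime_dvd_prime_iff_eq hp (hQ q (hS hq))).1 (hp.dvd_of_dvd_pow h)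
      exact hpS (this ▸ hq)
    by_cases h : p ∈ Q
    · refine ⟨N / Bq p, ∏ q ∈ Q.erase p, q ^ (N / Bq q), ?_,
        nd _ (erase_subset _ _) (notMem_erase _ _), ?_⟩
      · rw [rho, mul_prod_erase Q (fun q => q ^ (N / Bq q)) h]
      · exact (Nat.mul_le_mul_right _ (rho_bq hp).1).trans (Nat.mul_div_le _ _)
    · exact ⟨0, rho Q N, by simp, nd Q Subset.rfl h, by omega⟩

theorem idl_dvd {R : Type} [CommRing R] (S : Finset (Ideal R)) (hS : ∀ P ∈ S, P.IsMaximal)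
    (k : Ideal R → ℕ) (Z : Ideal R) (h : ∀ P ∈ S, P ^ k P ∣ Z) : ∏ P ∈ S, P ^ k P ∣ Z := by
  refine Finset.prod_dvd_of_coprime (fun P hP P' hP' ne => ?_) h
  have := hS P hP
  have := hS P' hP'
  exact (Ideal.isCoprime_of_isMaximal ne).pow

theorem idl_card (F : Type) [Field F] [NumberField F] (hF : finrank ℚ F ≤ 3) (q : ℕ)
    (hq : q.Prime) (S : Finset (Ideal (𝓞 F)))
    (hS : ∀ P ∈ S, P.IsMaximal ∧ (q : 𝓞 F) ∈ P) : S.card ≤ 3 := by
  have n1 : Ideal.absNorm (Ideal.span {(q : 𝓞 F)}) = q ^ finrank ℚ F := by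
    rw [Ideal.absNorm_span_natCast, RingOfIntegers.rank]
  have d1 : ∀ P ∈ S, P ∣ Ideal.span {(q : 𝓞 F)} := fun P hP =>
    Ideal.dvd_iff_le.2 ((Ideal.span_singleton_le_iff_mem _).2 (hS P hP).2)
  have d2 := idl_dvd S (fun P hP => (hS P hP).1) (fun _ => 1) _ fun P hP => by
    rw [pow_one]; exact d1 P hP
  simp only [pow_one] at d2
  have d3 := map_dvd Ideal.absNorm d2
  rw [n1, map_prod] at d3
  have d4 : ∏ _P ∈ S, q ∣ ∏ P ∈ S, Ideal.absNorm P := by
    refine prod_dvd_prod_of_dvd _ _ fun P hP => ?_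
    have e := map_dvd Ideal.absNorm (d1 P hP)
    rw [n1] at e
    obtain ⟨j, -, hj⟩ := (Nat.dvd_prime_pow hq).1 e
    rcases j with _ | j
    · exact absurd (Ideal.absNorm_eq_one_iff.1 (by simpa using hj)) (hS P hP).1.ne_top
    · rw [hj]; exact dvd_pow_self _ j.succ_ne_zero
  rw [prod_const] at d4
  exact ((Nat.pow_dvd_pow_iff_le_right hq.one_lt).1 (d4.trans d3)).trans hF

theorem idl_num (N B v i i' : ℕ) (hN : 1 ≤ N) (hB : 1 ≤ B) (h : i' ≤ i)
    (hc : B * (i * v % N) / N = B * (i' * v % N) / N) :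
    i * v / N = i' * v / N + (i * v / N - i' * v / N) ∧
      v * (i - i') ≤ N / B + (i * v / N - i' * v / N) * N ∧
      (i * v / N - i' * v / N) * N ≤ N / B + v * (i - i') := by
  have m : i' * v / N ≤ i * v / N := Nat.div_le_div_right (Nat.mul_le_mul_right _ h)
  obtain ⟨j, rfl⟩ := Nat.exists_eq_add_of_le h
  obtain ⟨e, he⟩ := Nat.exists_eq_add_of_le m
  have a1 := Nat.div_add_mod ((i' + j) * v) N
  have a2 := Nat.div_add_mod (i' * v) N
  rw [he] at a1 ⊢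
  simp only [Nat.add_sub_cancel_left, true_and]
  generalize (i' + j) * v % N = r at a1 hc
  generalize i' * v % N = r' at a2 hc
  generalize i' * v / N = a at a1 a2
  have b1 := Nat.div_add_mod (B * r) N
  have b2 := Nat.div_add_mod (B * r') N
  have b3 := Nat.mod_lt (B * r) hN
  have b4 := Nat.mod_lt (B * r') hN
  rw [hc] at b1
  have k : ∀ x y : ℕ, B * x < B * y + N → x ≤ N / B + y := fun x y hxy => by
    have : x - y ≤ N / B := (Nat.le_div_iff_mul_le hB).2 (by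
      rw [Nat.sub_mul, mul_comm x, mul_comm y]; omega)
    omega
  have k1 := k r r' (by omega)
  have k2 := k r' r (by omega)
  have e1 : (i' + j) * v = i' * v + v * j := by ring
  have e2 : N * (a + e) = N * a + e * N := by ring
  omega

theorem idl_row (hRHO : RHO_s) : IDL_s := by
  classical
  intro F _ _ hF δ n0 N Q J hn hδ hnQ hQ hN
  have _ := hRHO
  have δ0 : δ ≠ 0 := by
    rintro rfl
    exact hn (by exact_mod_cast zero_dvd_iff.1 hδ)
  have D0 : Ideal.span {δ} ≠ ⊥ := by simpa using δ0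
  set M := UniqueFactorizationMonoid.normalizedFactors (Ideal.span {δ}) with hM
  set S := M.toFinset with hS
  have hD : Ideal.span {δ} = ∏ P ∈ S, P ^ M.count P := by
    rw [hS, ← Finset.prod_multiset_count, hM, Ideal.prod_normalizedFactors_eq_self D0]
  have hmax : ∀ P ∈ S, P.IsMaximal := fun P hP => by
    have h := UniqueFactorizationMonoid.prime_of_normalized_factor P (Multiset.mem_toFinset.1 hP)
    exact (Ideal.isPrime_of_prime h).isMaximal h.ne_zero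
  have hq : ∀ P : Ideal (𝓞 F), ∃ q : ℕ, P ∈ S → q ∈ Q ∧ (q : 𝓞 F) ∈ P := fun P => by
    by_cases hP : P ∈ S
    swap
    · exact ⟨0, fun h => absurd h hP⟩
    have h1 : δ ∈ P := (Ideal.span_singleton_le_iff_mem _).1 (Ideal.le_of_dvd
      (UniqueFactorizationMonoid.dvd_of_mem_normalizedFactors (Multiset.mem_toFinset.1 hP)))
    have h2 : (n0 : 𝓞 F) ∈ P := by
      obtain ⟨c, hc⟩ := hδ
      rw [hc]; exact Ideal.mul_mem_right _ _ h1
    have hp := (hmax P hP).isPrime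
    rw [← Nat.prod_factorization_pow_eq_self hn, Finsupp.prod, Nat.cast_prod,
      Ideal.IsPrime.prod_mem_iff] at h2
    obtain ⟨q, q1, q2⟩ := h2
    rw [Nat.cast_pow] at q2
    exact ⟨q, fun _ => ⟨hnQ (by simpa using q1), hp.mem_of_pow_mem _ q2⟩⟩
  choose q hq using hq
  have hB : ∀ x ∈ Q, 1 ≤ Bq x := fun x hx => by
    have h2 : 1 ≤ ⌈Real.log x⌉₊ :=
      Nat.ceil_pos.2 (Real.log_pos (by exact_mod_cast (hQ x hx).one_lt))
    unfold Bq
    omega
  let col : ℕ → S → ℕ := fun i P => Bq (q P) * (i * M.count P.1 % N) / N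
  let C : Finset (S → ℕ) := Fintype.piFinset fun P => range (Bq (q P))
  have hcol : ∀ i ∈ J, col i ∈ C := fun i _ => Fintype.mem_piFinset.2 fun P => mem_range.2 (by
    have := hB _ (hq P P.2).1
    exact Nat.div_lt_of_lt_mul (by
      rw [mul_comm N]
      exact Nat.mul_lt_mul_of_pos_left (Nat.mod_lt _ hN) this))
  have hC : (C.card : ℝ) ≤ Kc Q := by
    have e : C.card = ∏ P ∈ S, Bq (q P) := by
      rw [Fintype.card_piFinset]
      simp only [card_range]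
      exact prod_coe_sort S fun P => Bq (q P)
    rw [e, ← prod_fiberwise_of_maps_to (fun P hP => (hq P hP).1) fun P => Bq (q P), Kc]
    push_cast
    refine prod_le_prod (fun x _ => by positivity) fun x hx => ?_
    rw [prod_congr rfl fun P hP => by rw [(mem_filter.1 hP).2], prod_const]
    refine pow_le_pow_right₀ (by exact_mod_cast hB x hx) (idl_card F hF x (hQ x hx) _ fun P hP => ?_)
    obtain ⟨h1, h2⟩ := mem_filter.1 hP
    exact ⟨hmax P h1, h2 ▸ (hq P h1).2⟩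
  have hCne : C.Nonempty := Fintype.piFinset_nonempty.2 fun P =>
    nonempty_range_iff.2 (by have := hB _ (hq P P.2).1; omega)
  obtain ⟨c, -, hc⟩ := exists_max_image C (fun c => (J.filter fun i => col i = c).card) hCne
  have hJ := card_le_mul_card_image_of_maps_to hcol _ hc
  have hρ : ∏ P ∈ S, P ^ (N / Bq (q P)) ∣ Ideal.span {(rho Q N : 𝓞 F)} := by
    refine idl_dvd S hmax _ _ fun P hP => Ideal.dvd_iff_le.2
      ((Ideal.span_singleton_le_iff_mem _).2 ?_)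
    obtain ⟨n, hn⟩ : q P ^ (N / Bq (q P)) ∣ rho Q N :=
      dvd_prod_of_mem (fun x => x ^ (N / Bq x)) (hq P hP).1
    rw [hn]
    push_cast
    exact Ideal.mul_mem_right _ _ (Ideal.pow_mem_pow (hq P hP).2 _)
  refine ⟨J.filter fun i => col i = c, filter_subset _ _, ?_,
    fun i => ∏ P ∈ S, P ^ (i * M.count P / N), fun i => ?_, fun i hi i' hi' hle => ?_⟩
  · have h1 : (J.card : ℝ) ≤ ((J.filter fun i => col i = c).card : ℝ) * C.card := by
      exact_mod_cast hJ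
    rw [mul_comm]
    exact h1.trans (mul_le_mul_of_nonneg_left hC (Nat.cast_nonneg _))
  · exact prod_ne_zero_iff.2 fun P hP => pow_ne_zero _
      (UniqueFactorizationMonoid.prime_of_normalized_factor P (Multiset.mem_toFinset.1 hP)).ne_zero
  · have e : col i = col i' := (mem_filter.1 hi).2.trans (mem_filter.1 hi').2.symm
    have num := fun P (hP : P ∈ S) =>
      idl_num N (Bq (q P)) (M.count P) i i' hN (hB _ (hq P hP).1) hle (congrFun e ⟨P, hP⟩)
    refine ⟨∏ P ∈ S, P ^ (i * M.count P / N - i' * M.count P / N), ?_, ?_, ?_⟩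
    · rw [← prod_mul_distrib]
      exact prod_congr rfl fun P hP => by rw [← pow_add, ← (num P hP).1]
    · refine dvd_trans ?_ (mul_dvd_mul_right hρ _)
      rw [hD, ← prod_pow, ← prod_pow, ← prod_mul_distrib]
      refine prod_dvd_prod_of_dvd _ _ fun P hP => ?_
      rw [← pow_mul, ← pow_mul, ← pow_add]
      exact pow_dvd_pow _ (num P hP).2.1
    · refine dvd_trans ?_ (mul_dvd_mul_right hρ _)
      rw [hD, ← prod_pow, ← prod_pow, ← prod_mul_distrib]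
      refine prod_dvd_prod_of_dvd _ _ fun P hP => ?_
      rw [← pow_mul, ← pow_mul, ← pow_add]
      exact pow_dvd_pow _ (num P hP).2.2

theorem mink_prod (F : Type) [Field F] [NumberField F] (δ : 𝓞 F) :
    ∏ w : InfinitePlace F, (w (δ : F)) ^ w.mult = (Ideal.absNorm (Ideal.span {δ}) : ℝ) := by
  rw [InfinitePlace.prod_eq_abs_norm, Ideal.absNorm_span_singleton, ← Algebra.coe_norm_int]
  rw [Nat.cast_natAbs]
  push_cast
  rfl

theorem mink_norm (F : Type) [Field F] [NumberField F] (δ : 𝓞 F) (N j ρ : ℕ)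
    (b : Ideal (𝓞 F)) (hδ : δ ≠ 0) (hN : 1 ≤ N) (hρ : 1 ≤ ρ)
    (hb : b ^ N ∣ Ideal.span {(ρ : 𝓞 F)} * Ideal.span {δ} ^ j) :
    (Ideal.absNorm b : ℝ) ≤ Real.exp (finrank ℚ F * (Real.log ρ / N)) *
      (Ideal.absNorm (Ideal.span {δ}) : ℝ) ^ ((j : ℝ) / N) := by
  have h1 := map_dvd Ideal.absNorm hb
  rw [map_pow, map_mul, map_pow, Ideal.absNorm_span_natCast, RingOfIntegers.rank] at h1
  have hD : Ideal.absNorm (Ideal.span {δ}) ≠ 0 := by
    rw [Ne, Ideal.absNorm_eq_zero_iff, Ideal.span_singleton_eq_bot]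
    exact hδ
  set D := Ideal.absNorm (Ideal.span {δ}) with hDd
  have h2 := Nat.le_of_dvd (by positivity) h1
  have h3 : (Ideal.absNorm b : ℝ) ^ N ≤ (ρ : ℝ) ^ finrank ℚ F * (D : ℝ) ^ j := by
    exact_mod_cast h2
  have hN0 : (N : ℝ) ≠ 0 := by positivity
  have hρ0 : (0 : ℝ) < ρ := by exact_mod_cast hρ
  refine le_of_pow_le_pow_left₀ (n := N) (by omega) (by positivity) (h3.trans (le_of_eq ?_))
  rw [mul_pow, ← Real.exp_nat_mul, ← Real.rpow_natCast ((D : ℝ) ^ ((j : ℝ) / N)),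
    ← Real.rpow_mul (by positivity), div_mul_cancel₀ _ hN0, Real.rpow_natCast]
  congr 1
  rw [show (N : ℝ) * (finrank ℚ F * (Real.log ρ / N)) = (finrank ℚ F : ℕ) * Real.log ρ by
    field_simp, Real.exp_nat_mul, Real.exp_log hρ0]

theorem mink_row : MINK_s := by
  intro F _ _ δ N j ρ b r hδ hN hρ hb0 hr hb hlt
  classical
  have hI : (b : FractionalIdeal (nonZeroDivisors (𝓞 F)) F) ≠ 0 :=
    FractionalIdeal.coeIdeal_ne_zero.2 hb0
  let f : InfinitePlace F → NNReal := fun w =>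
    ⟨r * (w (δ : F)) ^ ((j : ℝ) / N), by have := apply_nonneg w (δ : F); positivity⟩
  have hf : ∀ w, (f w : ℝ) = r * (w (δ : F)) ^ ((j : ℝ) / N) := fun w => rfl
  have hD : (0 : ℝ) < Ideal.absNorm (Ideal.span {δ}) := by
    have : Ideal.absNorm (Ideal.span {δ}) ≠ 0 := by
      rw [Ne, Ideal.absNorm_eq_zero_iff, Ideal.span_singleton_eq_bot]
      exact hδ
    positivity
  have hprod : ∏ w : InfinitePlace F, (f w : ℝ) ^ w.mult =
      r ^ finrank ℚ F * (Ideal.absNorm (Ideal.span {δ}) : ℝ) ^ ((j : ℝ) / N) := by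
    simp_rw [hf, mul_pow]
    rw [prod_mul_distrib, prod_pow_eq_pow_sum, InfinitePlace.sum_mult_eq, ← mink_prod F δ,
      ← Real.finsetProd_rpow _ _ (fun w _ => pow_nonneg (apply_nonneg w _) _)]
    congr 1
    refine prod_congr rfl fun w _ => ?_
    rw [← Real.rpow_natCast, ← Real.rpow_natCast, ← Real.rpow_mul (apply_nonneg w _),
      ← Real.rpow_mul (apply_nonneg w _), mul_comm]
  have hn := mink_norm F δ N j ρ b hδ hN hρ hb
  have h : mixedEmbedding.minkowskiBound F (Units.mk0 _ hI) <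
      MeasureTheory.volume (mixedEmbedding.convexBodyLT F f) := by
    rw [mixedEmbedding.convexBodyLT_volume, ← ENNReal.toReal_lt_toReal
      (mixedEmbedding.minkowskiBound_lt_top F _).ne
      (ENNReal.mul_ne_top ENNReal.coe_ne_top ENNReal.coe_ne_top),
      mixedEmbedding.minkowskiBound,
      mixedEmbedding.volume_fundamentalDomain_fractionalIdealLatticeBasis,
      mixedEmbedding.volume_fundamentalDomain_latticeBasis, mixedEmbedding.finrank]
    simp only [ENNReal.toReal_mul, ENNReal.toReal_pow, ENNReal.coe_toReal, NNReal.coe_prod,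
      NNReal.coe_pow, NNReal.coe_mul, hprod, Units.val_mk0, FractionalIdeal.coeIdeal_absNorm,
      ENNReal.toReal_inv, ENNReal.toReal_ofNat, NNReal.coe_ofNat, NNReal.coe_real_pi,
      Real.coe_sqrt, coe_nnnorm, Rat.cast_natCast]
    rw [ENNReal.toReal_ofReal (by positivity), Int.norm_eq_abs]
    have hrk := InfinitePlace.card_add_two_mul_card_eq_rank F
    set r1 := InfinitePlace.nrRealPlaces F
    set r2 := InfinitePlace.nrComplexPlaces F
    set A := (Ideal.absNorm (Ideal.span {δ}) : ℝ) ^ ((j : ℝ) / N) with hA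
    have hA0 : 0 < A := by positivity
    set E := Real.exp (finrank ℚ F * (Real.log ρ / N))
    set s := √|(NumberField.discr F : ℝ)|
    have hs : 0 ≤ s := Real.sqrt_nonneg _
    have h2 : (2 : ℝ)⁻¹ ^ r2 * 2 ^ finrank ℚ F = 2 ^ r1 * 2 ^ r2 := by
      rw [← hrk, two_mul, pow_add, pow_add, inv_pow]
      field_simp
    have hpi : (2 : ℝ) ^ r2 ≤ Real.pi ^ r2 := pow_le_pow_left₀ (by norm_num) Real.two_le_pi _
    calc (Ideal.absNorm b : ℝ) * ((2 : ℝ)⁻¹ ^ r2 * s) * 2 ^ finrank ℚ F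
        = (2 ^ r1 * 2 ^ r2) * (Ideal.absNorm b * s) := by rw [← h2]; ring
      _ ≤ (2 ^ r1 * 2 ^ r2) * (E * A * s) := by gcongr
      _ = (2 ^ r1 * 2 ^ r2) * (E * s * A) := by ring
      _ < (2 ^ r1 * 2 ^ r2) * (r ^ finrank ℚ F * A) := by gcongr
      _ ≤ 2 ^ r1 * Real.pi ^ r2 * (r ^ finrank ℚ F * A) := by gcongr
  obtain ⟨a, ha, ha0, haw⟩ := mixedEmbedding.exists_ne_zero_mem_ideal_lt F _ h
  rw [Units.val_mk0, FractionalIdeal.mem_coeIdeal] at ha
  obtain ⟨y, hy, rfl⟩ := ha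
  refine ⟨y, hy, fun h0 => ha0 (by rw [h0, map_zero]), fun φ => ?_⟩
  have := (haw (InfinitePlace.mk φ)).le
  rw [hf, InfinitePlace.apply, InfinitePlace.apply] at this
  exact this

theorem icnt_lab (F : Type) [Field F] [NumberField F] (hF : finrank ℚ F ≤ 3) :
    ∃ q c : Ideal (𝓞 F) → ℕ, ∀ P : Ideal (𝓞 F), Prime P →
      (q P).Prime ∧ q P ≤ Ideal.absNorm P ∧ c P < 3 ∧
        ∀ P' : Ideal (𝓞 F), Prime P' → q P = q P' → c P' = c P → P = P' := by
  classical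
  let m : ℕ → List (Ideal (𝓞 F)) := fun p =>
    (UniqueFactorizationMonoid.normalizedFactors (Ideal.span {(p : 𝓞 F)})).toList
  have key : ∀ P : Ideal (𝓞 F), Prime P → (Ideal.absNorm P).minFac.Prime ∧
      (Ideal.absNorm P).minFac ≤ Ideal.absNorm P ∧ ((Ideal.absNorm P).minFac : 𝓞 F) ∈ P ∧
      ∀ p : ℕ, p.Prime → (p : 𝓞 F) ∈ P → p ≤ Ideal.absNorm P := by
    intro P hP
    have hmax : P.IsMaximal := (Ideal.isPrime_of_prime hP).isMaximal hP.ne_zero
    obtain ⟨p, n, hn, hpP, hp, h⟩ := Ideal.exists_prime_and_absNorm_eq_pow P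
    rw [h, hp.pow_minFac hn.ne']
    refine ⟨hp, Nat.le_self_pow hn.ne' _, hpP, fun p' hp' hp'P => ?_⟩
    by_cases hpp : p' = p
    · rw [hpp]; exact Nat.le_self_pow hn.ne' _
    · exfalso
      have hc : IsCoprime (p' : 𝓞 F) (p : 𝓞 F) :=
        Nat.Coprime.cast ((Nat.coprime_primes hp' hp).2 hpp)
      obtain ⟨u, v, huv⟩ := hc
      exact hmax.ne_top ((Ideal.eq_top_iff_one _).2
        (huv ▸ P.add_mem (P.mul_mem_left _ hp'P) (P.mul_mem_left _ hpP)))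
  have hne : ∀ p : ℕ, p.Prime → Ideal.span {(p : 𝓞 F)} ≠ ⊥ := fun p hp => by
    rw [Ne, Ideal.span_singleton_eq_bot]
    exact_mod_cast hp.ne_zero
  have hmem : ∀ P : Ideal (𝓞 F), Prime P → P ∈ m (Ideal.absNorm P).minFac := by
    intro P hP
    obtain ⟨h1, -, h3, -⟩ := key P hP
    rw [Multiset.mem_toList, Ideal.mem_normalizedFactors_iff (hne _ h1)]
    exact ⟨Ideal.isPrime_of_prime hP, (Ideal.span_singleton_le_iff_mem _).2 h3⟩
  have hlen : ∀ p : ℕ, p.Prime → (m p).length ≤ 3 := by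
    intro p hp
    rw [Multiset.length_toList]
    have h1 := Multiset.pow_card_le_prod (a := p)
      (s := (UniqueFactorizationMonoid.normalizedFactors (Ideal.span {(p : 𝓞 F)})).map
        Ideal.absNorm) (fun x hx => by
        obtain ⟨P, hP, rfl⟩ := Multiset.mem_map.1 hx
        have h2 := (Ideal.mem_normalizedFactors_iff (hne _ hp)).1 hP
        exact (key P (UniqueFactorizationMonoid.prime_of_normalized_factor P hP)).2.2.2 p hp
          ((Ideal.span_singleton_le_iff_mem _).1 h2.2))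
    rw [Multiset.card_map, ← map_multiset_prod, Ideal.prod_normalizedFactors_eq_self (hne _ hp),
      Ideal.absNorm_span_natCast, RingOfIntegers.rank] at h1
    exact ((Nat.pow_le_pow_iff_right hp.one_lt).1 h1).trans hF
  refine ⟨fun P => (Ideal.absNorm P).minFac, fun P => (m (Ideal.absNorm P).minFac).idxOf P,
    fun P hP => ⟨(key P hP).1, (key P hP).2.1, ?_, fun P' hP' h1 h2 => ?_⟩⟩
  · exact (List.idxOf_lt_length_of_mem (hmem P hP)).trans_le (hlen _ (key P hP).1)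
  · simp only at h1 h2
    rw [← h1] at h2
    exact (List.idxOf_inj (hmem P hP)).1 h2.symm

theorem icnt_code (F : Type) [Field F] [NumberField F] (hF : finrank ℚ F ≤ 3) :
    ∃ a : Ideal (𝓞 F) → ℕ → ℕ, (∀ I i, 1 ≤ a I i) ∧
      (∀ I, I ≠ ⊥ → a I 0 * a I 1 * a I 2 ≤ Ideal.absNorm I) ∧
      ∀ I J, I ≠ ⊥ → J ≠ ⊥ → (∀ i < 3, a I i = a J i) → I = J := by
  classical
  obtain ⟨q, c, h⟩ := icnt_lab F hF
  have hp : ∀ (I : Ideal (𝓞 F)) (i : ℕ), ∀ x ∈ ((UniqueFactorizationMonoid.normalizedFactors I).filter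
      (fun P => c P = i)).map q, x.Prime := by
    intro I i x hx
    obtain ⟨P, hP, rfl⟩ := Multiset.mem_map.1 hx
    exact (h P (UniqueFactorizationMonoid.prime_of_normalized_factor P
      (Multiset.mem_of_mem_filter hP))).1
  refine ⟨fun I i => (((UniqueFactorizationMonoid.normalizedFactors I).filter
    (fun P => c P = i)).map q).prod, fun I i => ?_, fun I hI => ?_, fun I J hI hJ hIJ => ?_⟩
  · exact Multiset.one_le_prod_of_one_le fun x hx => (hp I i x hx).one_le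
  · have gen : ∀ M : Multiset (Ideal (𝓞 F)), (∀ P ∈ M, Prime P) →
        ((M.filter (fun P => c P = 0)).map q).prod * ((M.filter (fun P => c P = 1)).map q).prod *
          ((M.filter (fun P => c P = 2)).map q).prod ≤ Ideal.absNorm M.prod := by
      intro M
      induction M using Multiset.induction_on with
      | empty => intro _; simp
      | cons P M ih =>
        intro hM
        have h1 := ih fun x hx => hM x (Multiset.mem_cons_of_mem hx)
        obtain ⟨-, h2, h3, -⟩ := h P (hM P (Multiset.mem_cons_self _ _))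
        have h4 := Nat.mul_le_mul h2 h1
        rw [Multiset.prod_cons, map_mul]
        refine le_trans (le_of_eq ?_) h4
        have h5 : c P = 0 ∨ c P = 1 ∨ c P = 2 := by omega
        rcases h5 with h5 | h5 | h5 <;> simp [h5] <;> ring
    have := gen _ (UniqueFactorizationMonoid.prime_of_normalized_factor (a := I))
    rwa [Ideal.prod_normalizedFactors_eq_self hI] at this
  · have hc : ∀ (K : Ideal (𝓞 F)) (P : Ideal (𝓞 F)), Prime P →
        (UniqueFactorizationMonoid.normalizedFactors K).count P =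
        (((UniqueFactorizationMonoid.normalizedFactors K).filter
          (fun P' => c P' = c P)).map q).count (q P) := by
      intro K P hP
      rw [Multiset.count_map, Multiset.filter_filter, Multiset.count_eq_card_filter_eq]
      congr 1
      refine Multiset.filter_congr fun P' hP' => ⟨?_, fun h' => ?_⟩
      · rintro rfl
        exact ⟨rfl, rfl⟩
      · exact (h P hP).2.2.2 P' (UniqueFactorizationMonoid.prime_of_normalized_factor P' hP')
          h'.1 h'.2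
    rw [← Ideal.prod_normalizedFactors_eq_self hI, ← Ideal.prod_normalizedFactors_eq_self hJ]
    congr 1
    ext P
    by_cases hP : Prime P
    · rw [hc I P hP, hc J P hP]
      congr 1
      have h1 := congrArg UniqueFactorizationMonoid.normalizedFactors (hIJ _ (h P hP).2.2.1)
      simp only at h1
      rwa [UniqueFactorizationMonoid.normalizedFactors_prod_of_prime
        (fun x hx => (hp I _ x hx).prime), UniqueFactorizationMonoid.normalizedFactors_prod_of_prime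
        (fun x hx => (hp J _ x hx).prime)] at h1
    · rw [Multiset.count_eq_zero.2
        (fun h' => hP (UniqueFactorizationMonoid.prime_of_normalized_factor P h')),
        Multiset.count_eq_zero.2
        (fun h' => hP (UniqueFactorizationMonoid.prime_of_normalized_factor P h'))]

theorem icnt_row : ICNT_s := by
  intro ε hε
  have hs : Summable (fun n : ℕ => ((n : ℝ) ^ (1 + ε))⁻¹) :=
    Real.summable_nat_rpow_inv.2 (by linarith)
  set Z := ∑' n : ℕ, ((n : ℝ) ^ (1 + ε))⁻¹ with hZ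
  refine ⟨max 1 (Z ^ 3), le_max_left _ _, fun F _ _ hF X S hX hS => ?_⟩
  classical
  obtain ⟨a, h1, h2, h3⟩ := icnt_code F hF
  let g : ℕ → ℝ := fun n => ((n : ℝ) ^ (1 + ε))⁻¹
  have hg : ∀ n, 0 ≤ g n := fun n => by positivity
  let e : Ideal (𝓞 F) → ℕ × ℕ × ℕ := fun I => (a I 0, a I 1, a I 2)
  let G : ℕ × ℕ × ℕ → ℝ := fun t => g t.1 * (g t.2.1 * g t.2.2)
  have hinj : Set.InjOn e S := by
    intro I hI J hJ hIJ
    simp only [e, Prod.mk.injEq] at hIJ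
    refine h3 I J (hS I hI).1 (hS J hJ).1 fun i hi => ?_
    have : i = 0 ∨ i = 1 ∨ i = 2 := by omega
    rcases this with rfl | rfl | rfl
    exacts [hIJ.1, hIJ.2.1, hIJ.2.2]
  have hle : ∀ I ∈ S, (a I 0 : ℝ) * a I 1 * a I 2 ≤ X := fun I hI =>
    le_trans (by exact_mod_cast h2 I (hS I hI).1) (hS I hI).2
  have hone : ∀ I ∈ S, (1 : ℝ) ≤ X ^ (1 + ε) * G (e I) := by
    intro I hI
    have a0 : (0 : ℝ) < a I 0 := by exact_mod_cast h1 I 0
    have a1 : (0 : ℝ) < a I 1 := by exact_mod_cast h1 I 1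
    have a2 : (0 : ℝ) < a I 2 := by exact_mod_cast h1 I 2
    have h4 := Real.rpow_le_rpow (by positivity) (hle I hI) (show 0 ≤ 1 + ε by linarith)
    rw [Real.mul_rpow (by positivity) a2.le, Real.mul_rpow a0.le a1.le] at h4
    simp only [G, e, g]
    rw [← mul_inv, ← mul_inv, ← div_eq_mul_inv, one_le_div (by positivity), ← mul_assoc]
    exact h4
  set R := range (⌊X⌋₊ + 1) with hR
  have hsub : S.image e ⊆ R ×ˢ (R ×ˢ R) := by
    intro t ht
    obtain ⟨I, hI, rfl⟩ := mem_image.1 ht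
    have h4 : a I 0 * a I 1 * a I 2 ≤ ⌊X⌋₊ := Nat.le_floor (by exact_mod_cast hle I hI)
    have a0 := h1 I 0
    have a1 := h1 I 1
    have a2 := h1 I 2
    have b0 : a I 0 ≤ a I 0 * a I 1 * a I 2 := by
      rw [mul_assoc]; exact Nat.le_mul_of_pos_right _ (by positivity)
    have b1 : a I 1 ≤ a I 0 * a I 1 * a I 2 := by
      rw [mul_right_comm]; exact Nat.le_mul_of_pos_left _ (by positivity)
    have b2 : a I 2 ≤ a I 0 * a I 1 * a I 2 := Nat.le_mul_of_pos_left _ (by positivity)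
    simp only [e, hR, mem_product, mem_range]
    omega
  have hRZ : ∑ n ∈ R, g n ≤ Z := hs.sum_le_tsum R fun n _ => hg n
  have hR0 : 0 ≤ ∑ n ∈ R, g n := sum_nonneg fun n _ => hg n
  have hX0 : 0 ≤ X ^ (1 + ε) := by positivity
  calc (S.card : ℝ) = ∑ I ∈ S, (1 : ℝ) := by simp
    _ ≤ ∑ I ∈ S, X ^ (1 + ε) * G (e I) := sum_le_sum hone
    _ = X ^ (1 + ε) * ∑ t ∈ S.image e, G t := by rw [← mul_sum, sum_image hinj]
    _ ≤ X ^ (1 + ε) * ∑ t ∈ R ×ˢ (R ×ˢ R), G t := by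
        refine mul_le_mul_of_nonneg_left (sum_le_sum_of_subset_of_nonneg hsub fun t _ _ => ?_) hX0
        exact mul_nonneg (hg _) (mul_nonneg (hg _) (hg _))
    _ = X ^ (1 + ε) * (∑ n ∈ R, g n) ^ 3 := by
        congr 1
        rw [sum_product]
        simp only [G]
        simp_rw [← mul_sum, sum_product, ← mul_sum, ← sum_mul]
        ring
    _ ≤ X ^ (1 + ε) * Z ^ 3 := by gcongr
    _ ≤ max 1 (Z ^ 3) * X ^ (1 + ε) := by
        rw [mul_comm]
        gcongr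
        exact le_max_right _ _

theorem unm_row (hRHO : RHO_s) (hIDL : IDL_s) (hMINK : MINK_s) : UNM_s := by
  intro F _ _ hF δ n0 N Q J r hn hδ hnQ hQ hN hr hD hne
  obtain ⟨J', hJ, hc, A, hA, H⟩ := hIDL F hF δ n0 N Q J hn hδ hnQ hQ hN
  obtain ⟨r1, r2, -⟩ := hRHO Q N hQ hN
  refine ⟨J', hJ, hc, fun i hi i' hi' hle => ?_⟩
  obtain ⟨b, hb, h1, h2⟩ := H i hi i' hi' hle
  have δ0 : δ ≠ 0 := by
    rintro rfl
    exact hn (by exact_mod_cast zero_dvd_iff.1 hδ)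
  have b0 : b ≠ ⊥ := by
    rintro rfl
    exact hA i (by rw [hb, Ideal.mul_bot])
  have hs : 0 < √|(NumberField.discr F : ℝ)| := Real.sqrt_pos.2 (abs_pos.2 (by
    exact_mod_cast NumberField.discr_ne_zero F))
  have hlt : Real.exp (finrank ℚ F * (Real.log (rho Q N) / N)) < Real.exp Q.card := by
    rw [Real.exp_lt_exp]
    have c1 : (1 : ℝ) ≤ Q.card := by exact_mod_cast hne.card_pos
    have c2 : (finrank ℚ F : ℝ) ≤ 3 := by exact_mod_cast hF
    have c3 : (0 : ℝ) ≤ finrank ℚ F := Nat.cast_nonneg _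
    nlinarith
  obtain ⟨y, hy, y0, hφ⟩ := hMINK F δ N (i - i') (rho Q N) b r δ0 hN r1 b0 hr h2
    ((mul_lt_mul_of_pos_right hlt hs).trans_le hD)
  refine ⟨y, by exact_mod_cast y0, ?_, hφ⟩
  have m : (rho Q N : 𝓞 F) * y ^ N ∈ Ideal.span {δ} ^ (i - i') :=
    Ideal.le_of_dvd h1 (Ideal.mul_mem_mul (Ideal.mem_span_singleton_self _)
      (Ideal.pow_mem_pow hy N))
  rw [Ideal.span_singleton_pow, Ideal.mem_span_singleton] at m
  obtain ⟨c, hc⟩ := m
  have e : ((rho Q N : ℕ) : F) * (y : F) ^ N / (δ : F) ^ (i - i') = (c : F) := by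
    have δ1 : (δ : F) ≠ 0 := by exact_mod_cast δ0
    rw [div_eq_iff (pow_ne_zero _ δ1), mul_comm (c : F)]
    exact_mod_cast congrArg (fun z : 𝓞 F => (z : F)) hc
  rw [e]
  exact c.isIntegral_coe

theorem mat_pig {β : Type} [DecidableEq β] (J : Finset ℕ) (f : ℕ → β) :
    ∃ J' ⊆ J, J.card ≤ (J.image f).card * J'.card ∧ ∀ i ∈ J', ∀ i' ∈ J', f i = f i' := by
  rcases J.eq_empty_or_nonempty with rfl | hJ
  · exact ⟨∅, Finset.Subset.refl _, by simp, by simp⟩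
  obtain ⟨a, -, ha⟩ := Finset.exists_max_image (J.image f)
    (fun a => (J.filter fun x => f x = a).card) (hJ.image f)
  refine ⟨J.filter fun x => f x = a, Finset.filter_subset _ _, ?_, fun i hi i' hi' => ?_⟩
  · rw [mul_comm]
    exact Finset.card_le_mul_card_image J _ ha
  · rw [(Finset.mem_filter.mp hi).2, (Finset.mem_filter.mp hi').2]

theorem mat_prod {F : Type} [Field F] [NumberField F] (y : 𝓞 F) :
    ∏ φ : F →+* ℂ, ‖φ (y : F)‖ = (Ideal.absNorm (Ideal.span {y}) : ℝ) := by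
  have h1 := congrArg (‖·‖) (Algebra.norm_eq_prod_embeddings ℚ ℂ (y : F))
  simp only [norm_prod] at h1
  rw [Fintype.prod_equiv (RingHom.equivRatAlgHom F ℂ) (fun f => ‖f (y : F)‖)
    (fun φ => ‖φ (y : F)‖) fun _ => by simp [RingHom.equivRatAlgHom_apply], ← h1,
    Ideal.absNorm_span_singleton, ← Algebra.coe_norm_int]
  simp

theorem mat_ne {F : Type} [Field F] [NumberField F] {y : 𝓞 F} (hy : y ≠ 0) (φ : F →+* ℂ) :
    0 < ‖φ (y : F)‖ :=
  norm_pos_iff.mpr ((map_ne_zero φ).mpr (RingOfIntegers.coe_ne_zero_iff.mpr hy))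

theorem mat_log {F : Type} [Field F] [NumberField F] {y : 𝓞 F} (hy : y ≠ 0) :
    ∑ φ : F →+* ℂ, Real.log ‖φ (y : F)‖ = Real.log (Ideal.absNorm (Ideal.span {y}) : ℝ) := by
  rw [← mat_prod, Real.log_prod fun φ _ => (mat_ne hy φ).ne']

theorem mat_one (hMINK : MINK_s) {F : Type} [Field F] [NumberField F] {δ : 𝓞 F} {N j ρ : ℕ}
    {b : Ideal (𝓞 F)} {R X : ℝ} (hδ : δ ≠ 0) (hN : 1 ≤ N) (hρ : 1 ≤ ρ) (hb : b ≠ ⊥)
    (h1 : Ideal.span {δ} ^ j ∣ Ideal.span {(ρ : 𝓞 F)} * b ^ N)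
    (h2 : b ^ N ∣ Ideal.span {(ρ : 𝓞 F)} * Ideal.span {δ} ^ j)
    (h3 : Real.exp (finrank ℚ F * (Real.log ρ / N)) * √|(NumberField.discr F : ℝ)| <
      Real.exp R ^ finrank ℚ F) (X0 : 0 < X)
    (h4 : finrank ℚ F * R + finrank ℚ F * (Real.log ρ / N) ≤ Real.log X) :
    ∃ (y : 𝓞 F) (c : Ideal (𝓞 F)), y ≠ 0 ∧ Ideal.span {y} = b * c ∧ c ≠ ⊥ ∧
      (Ideal.absNorm c : ℝ) ≤ X ∧ ∀ φ : F →+* ℂ,
        0 ≤ R - (Real.log ‖φ (y : F)‖ - (j : ℝ) / N * Real.log ‖φ (δ : F)‖) ∧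
        R - (Real.log ‖φ (y : F)‖ - (j : ℝ) / N * Real.log ‖φ (δ : F)‖) ≤ Real.log X := by
  obtain ⟨y, y1, y0, hy⟩ := hMINK F δ N j ρ b (Real.exp R) hδ hN hρ hb (Real.exp_pos R) h2 h3
  obtain ⟨c, hc⟩ := Ideal.dvd_span_singleton.mpr y1
  have c0 : c ≠ ⊥ := by
    rintro rfl
    rw [Ideal.mul_bot, Ideal.span_singleton_eq_bot] at hc
    exact y0 hc
  have pos : ∀ I : Ideal (𝓞 F), I ≠ ⊥ → (1 : ℝ) ≤ Ideal.absNorm I := fun I hI => by
    exact_mod_cast Nat.one_le_iff_ne_zero.mpr fun h => hI (Ideal.absNorm_eq_zero_iff.mp h)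
  have ρ0 : (0 : ℝ) < ρ := by exact_mod_cast hρ
  have N0 : (0 : ℝ) < N := by exact_mod_cast hN
  have pb := pos b hb
  have pc := pos c c0
  have pd := pos (Ideal.span {δ}) (by rwa [Ne, Ideal.span_singleton_eq_bot])
  have m0 : ∀ φ : F →+* ℂ,
      0 ≤ R - (Real.log ‖φ (y : F)‖ - (j : ℝ) / N * Real.log ‖φ (δ : F)‖) := by
    intro φ
    have := Real.log_le_log (mat_ne y0 φ) (hy φ)
    rw [Real.log_mul (Real.exp_pos R).ne' (Real.rpow_pos_of_pos (mat_ne hδ φ) _).ne',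
      Real.log_exp, Real.log_rpow (mat_ne hδ φ)] at this
    linarith
  have nρ : (Ideal.absNorm (Ideal.span {(ρ : 𝓞 F)}) : ℝ) = (ρ : ℝ) ^ finrank ℚ F := by
    rw [← mat_prod]
    simp [NumberField.Embeddings.card]
  have e1 : (Ideal.absNorm (Ideal.span {δ}) : ℝ) ^ j ≤
      (ρ : ℝ) ^ finrank ℚ F * (Ideal.absNorm b : ℝ) ^ N := by
    have d1 := map_dvd Ideal.absNorm h1
    rw [map_pow, map_mul, map_pow] at d1
    have d2 : (0 : ℝ) < ((Ideal.absNorm (Ideal.span {(ρ : 𝓞 F)}) * Ideal.absNorm b ^ N : ℕ) : ℝ) := by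
      push_cast
      rw [nρ]
      positivity
    rw [← nρ]
    exact_mod_cast Nat.le_of_dvd (by exact_mod_cast d2) d1
  have e2 := Real.log_le_log (by positivity) e1
  rw [Real.log_mul (by positivity) (by positivity), Real.log_pow, Real.log_pow,
    Real.log_pow] at e2
  have e3 : (j : ℝ) / N * Real.log (Ideal.absNorm (Ideal.span {δ}) : ℝ) ≤
      finrank ℚ F * (Real.log ρ / N) + Real.log (Ideal.absNorm b : ℝ) := by
    rw [div_mul_eq_mul_div, div_le_iff₀ N0, add_mul, mul_assoc, div_mul_cancel₀ _ N0.ne']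
    linarith
  have e4 : ∑ φ : F →+* ℂ, (R - (Real.log ‖φ (y : F)‖ - (j : ℝ) / N * Real.log ‖φ (δ : F)‖)) =
      finrank ℚ F * R - (Real.log (Ideal.absNorm b : ℝ) + Real.log (Ideal.absNorm c : ℝ) -
        (j : ℝ) / N * Real.log (Ideal.absNorm (Ideal.span {δ}) : ℝ)) := by
    rw [Finset.sum_sub_distrib, Finset.sum_sub_distrib, ← Finset.mul_sum, mat_log y0, mat_log hδ,
      hc, map_mul, Nat.cast_mul, Real.log_mul (by positivity) (by positivity), Finset.sum_const,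
      Finset.card_univ, NumberField.Embeddings.card, nsmul_eq_mul]
  have e5 := Finset.sum_nonneg fun φ (_ : φ ∈ Finset.univ) => m0 φ
  have e6 := Real.log_nonneg pc
  refine ⟨y, c, y0, hc, c0, ?_, fun φ => ⟨m0 φ, ?_⟩⟩
  · rw [← Real.log_le_log_iff (by positivity) X0]
    linarith
  · have := Finset.single_le_sum (fun φ (_ : φ ∈ Finset.univ) => m0 φ) (Finset.mem_univ φ)
    linarith

theorem mat_ap {F : Type} [Field F] [NumberField F] {δ z : 𝓞 F} {N j ρ : ℕ} (hδ : δ ≠ 0)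
    (hz : z ≠ 0) (h1 : δ ^ j ∣ (ρ : 𝓞 F) * z ^ N) (h2 : z ^ N ∣ (ρ : 𝓞 F) * δ ^ j)
    (h3 : ∀ φ : F →+* ℂ, |Real.log ‖φ (z : F)‖ - (j : ℝ) / N * Real.log ‖φ (δ : F)‖| ≤ 1) :
    Ap2 (δ : F) N j ρ (Real.exp 1) (z : F) := by
  have d0 : (δ : F) ≠ 0 := RingOfIntegers.coe_ne_zero_iff.mpr hδ
  have z0 : (z : F) ≠ 0 := RingOfIntegers.coe_ne_zero_iff.mpr hz
  obtain ⟨u, hu⟩ := h1
  obtain ⟨w, hw⟩ := h2
  have hu' : (ρ : F) * (z : F) ^ N / (δ : F) ^ j = (u : F) := by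
    rw [div_eq_iff (pow_ne_zero _ d0), mul_comm (u : F)]
    simpa using congrArg (algebraMap (𝓞 F) F) hu
  have hw' : (ρ : F) * (z : F)⁻¹ ^ N / (δ : F)⁻¹ ^ j = (w : F) := by
    have : (ρ : F) * (δ : F) ^ j = (z : F) ^ N * (w : F) := by
      simpa using congrArg (algebraMap (𝓞 F) F) hw
    rw [inv_pow, inv_pow, div_inv_eq_mul, mul_right_comm, this, mul_right_comm,
      mul_inv_cancel₀ (pow_ne_zero _ z0), one_mul]
  refine ⟨⟨z0, hu' ▸ u.isIntegral_coe, fun φ => ?_⟩,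
    inv_ne_zero z0, hw' ▸ w.isIntegral_coe, fun φ => ?_⟩
  · rw [Real.rpow_def_of_pos (mat_ne hδ φ), ← Real.exp_add, ← Real.exp_log (mat_ne hz φ),
      Real.exp_le_exp]
    linarith [(abs_le.mp (h3 φ)).2]
  · rw [map_inv₀, map_inv₀, norm_inv, norm_inv, Real.rpow_def_of_pos (inv_pos.mpr (mat_ne hδ φ)),
      ← Real.exp_add, ← Real.exp_log (inv_pos.mpr (mat_ne hz φ)), Real.exp_le_exp, Real.log_inv,
      Real.log_inv]
    linarith [(abs_le.mp (h3 φ)).1]

theorem mat_num {ε X : ℝ} (hε : 0 < ε) (hX : 1 ≤ X) {n : ℕ} (hn : n ≤ 3) :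
    (((⌊Real.log X⌋₊ + 1) ^ n : ℕ) : ℝ) ≤ (6 / ε + 1) ^ 3 * X ^ (ε / 2) := by
  have h1 : Real.log X ≤ X ^ (ε / 6) / (ε / 6) :=
    Real.log_le_rpow_div (by linarith) (by positivity)
  have h2 : 1 ≤ X ^ (ε / 6) := Real.one_le_rpow hX (by positivity)
  have h3 := Nat.floor_le (Real.log_nonneg hX)
  have h4 : ((⌊Real.log X⌋₊ + 1 : ℕ) : ℝ) ≤ (6 / ε + 1) * X ^ (ε / 6) := by
    have : X ^ (ε / 6) / (ε / 6) = 6 / ε * X ^ (ε / 6) := by field_simp
    push_cast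
    linarith
  have h5 : X ^ (ε / 2) = (X ^ (ε / 6)) ^ 3 := by
    rw [← Real.rpow_natCast, ← Real.rpow_mul (by linarith)]
    push_cast
    ring_nf
  rw [h5, ← mul_pow]
  refine le_trans ?_ (pow_le_pow_left₀ (Nat.cast_nonneg _) h4 3)
  exact_mod_cast Nat.pow_le_pow_right (Nat.succ_pos _) hn

theorem mat_row (hRHO : RHO_s) (hIDL : IDL_s) (hMINK : MINK_s) (hICNT : ICNT_s) : MAT_s := by
  classical
  intro ε hε
  obtain ⟨C, C1, hC⟩ := hICNT (ε / 2) (by positivity)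
  have c1 : 1 ≤ (6 / ε + 1) ^ 3 := one_le_pow₀ (le_add_of_nonneg_left (by positivity))
  refine ⟨C * (6 / ε + 1) ^ 3, one_le_mul_of_one_le_of_one_le C1 c1, ?_⟩
  intro F _ _ hn δ n0 N Q J X n00 hd hQ hp hN Qne hX
  have hδ : δ ≠ 0 := by
    rintro rfl
    exact n00 (by exact_mod_cast zero_dvd_iff.mp hd)
  obtain ⟨J1, s1, k1, A, A0, hA⟩ := hIDL F hn δ n0 N Q J n00 hd hQ hp hN
  obtain ⟨ρ1, ρ2, -⟩ := hRHO Q N hp hN
  rcases J1.eq_empty_or_nonempty with rfl | J1ne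
  · exact ⟨∅, s1, by simpa using k1, by simp⟩
  have q1 : (1 : ℝ) ≤ Q.card := by exact_mod_cast Qne.card_pos
  have D1 : (1 : ℝ) ≤ √|(NumberField.discr F : ℝ)| := by
    rw [Real.one_le_sqrt]
    exact_mod_cast Int.one_le_abs (NumberField.discr_ne_zero F)
  have n0' : (0 : ℝ) < finrank ℚ F := by exact_mod_cast Module.finrank_pos
  have n3 : (finrank ℚ F : ℝ) ≤ 3 := by exact_mod_cast hn
  have X1 : 1 ≤ X :=
    (one_le_mul_of_one_le_of_one_le (Real.one_le_exp (by linarith)) D1).trans hX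
  have lX : 2 * Q.card + Real.log √|(NumberField.discr F : ℝ)| ≤ Real.log X := by
    have := Real.log_le_log (by positivity) hX
    rwa [Real.log_mul (by positivity) (by positivity), Real.log_exp] at this
  obtain ⟨R, hR⟩ : ∃ R : ℝ, finrank ℚ F * R =
      Q.card + Real.log √|(NumberField.discr F : ℝ)| := ⟨_, mul_div_cancel₀ _ n0'.ne'⟩
  have l0 : 0 ≤ Real.log (rho Q N) / N :=
    div_nonneg (Real.log_nonneg (by exact_mod_cast ρ1)) (Nat.cast_nonneg _)
  have l1 : finrank ℚ F * (Real.log (rho Q N) / N) < Q.card := by nlinarith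
  have h3 : Real.exp (finrank ℚ F * (Real.log (rho Q N) / N)) * √|(NumberField.discr F : ℝ)| <
      Real.exp R ^ finrank ℚ F := by
    rw [← Real.exp_nat_mul, hR, Real.exp_add, Real.exp_log (by positivity)]
    exact mul_lt_mul_of_pos_right (Real.exp_lt_exp.mpr l1) (by positivity)
  obtain ⟨i0, i01, i0le⟩ := Finset.exists_min_image J1 id J1ne
  have ex : ∀ i : ℕ, ∃ (y : 𝓞 F) (b c : Ideal (𝓞 F)), i ∈ J1 → A i = A i0 * b ∧ y ≠ 0 ∧
      Ideal.span {y} = b * c ∧ c ≠ ⊥ ∧ (Ideal.absNorm c : ℝ) ≤ X ∧ ∀ φ : F →+* ℂ,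
        0 ≤ R - (Real.log ‖φ (y : F)‖ - ((i - i0 : ℕ) : ℝ) / N * Real.log ‖φ (δ : F)‖) ∧
        R - (Real.log ‖φ (y : F)‖ - ((i - i0 : ℕ) : ℝ) / N * Real.log ‖φ (δ : F)‖) ≤
          Real.log X := by
    intro i
    by_cases hi : i ∈ J1
    · obtain ⟨b, b1, b2, b3⟩ := hA i hi i0 i01 (i0le i hi)
      have b0 : b ≠ ⊥ := by
        rintro rfl
        exact A0 i (by rw [b1, Ideal.mul_bot])
      obtain ⟨y, c, hy⟩ := mat_one hMINK hδ hN ρ1 b0 b2 b3 h3 (by linarith : 0 < X) (by linarith)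
      exact ⟨y, b, c, fun _ => ⟨b1, hy⟩⟩
    · exact ⟨0, ⊥, ⊥, fun h => absurd h hi⟩
  choose y b c hy using ex
  obtain ⟨J2, s2, k2, p2⟩ := mat_pig J1 c
  obtain ⟨J3, s3, k3, p3⟩ := mat_pig J2 fun i (φ : F →+* ℂ) =>
    ⌊R - (Real.log ‖φ (y i : F)‖ - ((i - i0 : ℕ) : ℝ) / N * Real.log ‖φ (δ : F)‖)⌋₊
  have k4 : ((J1.image c).card : ℝ) ≤ C * X ^ (1 + ε / 2) := by
    refine hC F hn X _ X1 fun I hI => ?_
    obtain ⟨i, hi, rfl⟩ := Finset.mem_image.mp hI
    exact ⟨(hy i hi).2.2.2.1, (hy i hi).2.2.2.2.1⟩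
  have k5 : (J2.image fun i (φ : F →+* ℂ) =>
      ⌊R - (Real.log ‖φ (y i : F)‖ - ((i - i0 : ℕ) : ℝ) / N * Real.log ‖φ (δ : F)‖)⌋₊).card ≤
      (⌊Real.log X⌋₊ + 1) ^ finrank ℚ F := by
    refine (Finset.card_le_card (t := Fintype.piFinset fun _ : F →+* ℂ =>
      Finset.range (⌊Real.log X⌋₊ + 1)) fun f hf => ?_).trans (le_of_eq ?_)
    · obtain ⟨i, hi, rfl⟩ := Finset.mem_image.mp hf
      exact Fintype.mem_piFinset.mpr fun φ => Finset.mem_range.mpr
        (Nat.lt_succ_of_le (Nat.floor_le_floor ((hy i (s2 hi)).2.2.2.2.2 φ).2))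
    · rw [Fintype.card_piFinset, Finset.prod_const, Finset.card_range, Finset.card_univ,
        NumberField.Embeddings.card]
  refine ⟨J3, (s3.trans s2).trans s1, ?_, fun i hi i' hi' hle => ?_⟩
  · have K0 : 0 ≤ Kc Q := Finset.prod_nonneg fun q _ => by positivity
    have k6 : (J2.card : ℝ) ≤ (6 / ε + 1) ^ 3 * X ^ (ε / 2) * J3.card := by
      refine le_trans ?_ (mul_le_mul_of_nonneg_right (mat_num hε X1 hn) (Nat.cast_nonneg _))
      exact_mod_cast k3.trans (Nat.mul_le_mul_right _ k5)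
    have k7 : (J1.card : ℝ) ≤ C * X ^ (1 + ε / 2) * J2.card := by
      refine le_trans ?_ (mul_le_mul_of_nonneg_right k4 (Nat.cast_nonneg _))
      exact_mod_cast k2
    have k8 : X ^ (1 + ε) = X ^ (1 + ε / 2) * X ^ (ε / 2) := by
      rw [← Real.rpow_add (by linarith)]
      ring_nf
    have k9 : 0 ≤ C * X ^ (1 + ε / 2) := by positivity
    refine k1.trans ((mul_le_mul_of_nonneg_left
      (k7.trans (mul_le_mul_of_nonneg_left k6 k9)) K0).trans (le_of_eq ?_))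
    rw [k8]
    ring
  · have m := s2 (s3 hi)
    have m' := s2 (s3 hi')
    obtain ⟨a1, a2, a3, -, -, a6⟩ := hy i m
    obtain ⟨a1', a2', a3', -, -, a6'⟩ := hy i' m'
    obtain ⟨e, e1, e2, e3⟩ := hA i m i' m' hle
    have f1 : b i = b i' * e :=
      mul_left_cancel₀ (A0 i0) (by rw [← a1, ← mul_assoc, ← a1', e1])
    have f2 : Ideal.span {y i} = Ideal.span {y i'} * e := by
      rw [a3, a3', f1, p2 i (s3 hi) i' (s3 hi'), mul_right_comm]
    obtain ⟨z, hz⟩ := Ideal.mem_span_singleton.mp (Ideal.dvd_span_singleton.mp ⟨e, f2⟩)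
    have z0 : z ≠ 0 := by
      rintro rfl
      exact a2 (by rw [hz, mul_zero])
    have f3 : e = Ideal.span {z} := by
      refine mul_left_cancel₀ (a := Ideal.span {y i'})
        (fun h => a2' (Ideal.span_singleton_eq_bot.mp h)) ?_
      rw [← f2, Ideal.span_singleton_mul_span_singleton, ← hz]
    rw [f3, Ideal.span_singleton_pow, Ideal.span_singleton_pow,
      Ideal.span_singleton_mul_span_singleton, Ideal.dvd_span_singleton,
      Ideal.mem_span_singleton] at e2 e3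
    refine ⟨z, mat_ap hδ z0 e2 e3 fun φ => ?_⟩
    have g1 := congrFun (p3 i hi i' hi') φ
    have g2 := Nat.floor_le (a6 φ).1
    have g3 := Nat.floor_le (a6' φ).1
    have g4 := Nat.lt_floor_add_one
      (R - (Real.log ‖φ (y i : F)‖ - ((i - i0 : ℕ) : ℝ) / N * Real.log ‖φ (δ : F)‖))
    have g5 := Nat.lt_floor_add_one
      (R - (Real.log ‖φ (y i' : F)‖ - ((i' - i0 : ℕ) : ℝ) / N * Real.log ‖φ (δ : F)‖))
    rw [g1] at g2 g4
    have g6 : Real.log ‖φ (y i : F)‖ = Real.log ‖φ (y i' : F)‖ + Real.log ‖φ (z : F)‖ := by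
      rw [← Real.log_mul (mat_ne a2' φ).ne' (mat_ne z0 φ).ne', ← norm_mul, ← map_mul, hz]
      rfl
    have g7 : ((i - i0 : ℕ) : ℝ) = ((i' - i0 : ℕ) : ℝ) + ((i - i' : ℕ) : ℝ) := by
      have : i0 ≤ i' := i0le i' m'
      exact_mod_cast (by omega : i - i0 = i' - i0 + (i - i'))
    rw [g6, g7, add_div, add_mul] at g2 g4
    rw [abs_le]
    constructor <;> linarith

theorem disc2_le (F : Type) [Field F] [NumberField F] (n : ℕ) (hn : finrank ℚ F = n)
    (b : Fin n → F) (hb : ∀ i, IsIntegral ℤ (b i)) (h0 : Algebra.discr ℚ b ≠ 0) :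
    |(NumberField.discr F : ℚ)| ≤ |Algebra.discr ℚ b| := by
  classical
  have e : Free.ChooseBasisIndex ℤ (𝓞 F) ≃ Fin n :=
    Fintype.equivFinOfCardEq (by rw [← finrank_eq_card_basis (integralBasis F), hn])
  let P : Matrix (Fin n) (Fin n) ℤ := fun i j =>
    (RingOfIntegers.basis F).repr ⟨b j, hb j⟩ (e.symm i)
  have hP : b = Matrix.vecMul (integralBasis F ∘ e.symm)
      ((P.map (Int.castRingHom ℚ)).map (algebraMap ℚ F)) := by
    funext j
    have h1 := (integralBasis F).sum_repr (b j)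
    rw [← h1, ← Equiv.sum_comp e.symm]
    simp only [Matrix.vecMul, dotProduct, Matrix.map_apply, Function.comp_apply]
    refine Finset.sum_congr rfl fun i _ => ?_
    have h2 := integralBasis_repr_apply F ⟨b j, hb j⟩ (e.symm i)
    rw [Algebra.smul_def, mul_comm]
    exact congrArg (fun s => integralBasis F (e.symm i) * algebraMap ℚ F s) h2
  have h3 : Algebra.discr ℚ b = ((P.det : ℤ) : ℚ) ^ 2 * (NumberField.discr F : ℚ) := by
    rw [hP, Algebra.discr_of_matrix_vecMul, Algebra.discr_reindex, ← coe_discr,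
      ← RingHom.mapMatrix_apply, ← RingHom.map_det]
    rfl
  have h4 : P.det ≠ 0 := fun h => h0 (by rw [h3, h]; simp)
  have h5 : (1 : ℚ) ≤ ((P.det : ℤ) : ℚ) ^ 2 := by
    exact_mod_cast (one_le_sq_iff_one_le_abs P.det).2 (Int.one_le_abs h4)
  rw [h3, abs_mul, abs_sq]
  exact le_mul_of_one_le_left (abs_nonneg _) h5

theorem disc2_emb (F : Type) [Field F] [NumberField F] (n : ℕ) (hn : finrank ℚ F = n) :
    Nonempty (Fin n ≃ (F →ₐ[ℚ] ℂ)) :=
  ⟨(Fintype.equivFinOfCardEq (by rw [AlgHom.card, hn])).symm⟩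

theorem disc2_gen {L : Type} [Field L] [NumberField L] (t : L)
    (φ ψ : IntermediateField.adjoin ℚ {t} →ₐ[ℚ] ℂ)
    (h : φ (IntermediateField.AdjoinSimple.gen ℚ t) = ψ (IntermediateField.AdjoinSimple.gen ℚ t)) :
    φ = ψ :=
  IntermediateField.adjoin_algHom_ext ℚ fun x hx => by
    obtain rfl := Set.mem_singleton_iff.1 hx
    exact h

theorem disc2_root {L : Type} [Field L] [NumberField L] (x y : ℤ) (t : L)
    (h : t ^ 3 - 3 * (x : L) * t + 2 * (y : L) = 0) :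
    IntermediateField.AdjoinSimple.gen ℚ t ^ 3 - 3 * x * IntermediateField.AdjoinSimple.gen ℚ t
      + 2 * y = 0 := by
  apply (algebraMap (IntermediateField.adjoin ℚ {t}) L).injective
  simp only [map_add, map_sub, map_mul, map_pow, map_ofNat, map_intCast, map_zero,
    IntermediateField.AdjoinSimple.algebraMap_gen]
  exact h

theorem disc2_main (F : Type) [Field F] [NumberField F] (hn : finrank ℚ F = 2) (x y : ℤ) (t : F)
    (hg : ∀ φ ψ : F →ₐ[ℚ] ℂ, φ t = ψ t → φ = ψ) (ht : t ^ 3 - 3 * x * t + 2 * y = 0)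
    (hz : x ^ 3 - y ^ 2 ≠ 0) (a : ℕ) (ha : Sq x y a) :
    |(NumberField.discr F : ℝ)| ≤ DD x y a := by
  classical
  obtain ⟨a0, ⟨w, hw⟩, -⟩ := ha
  obtain ⟨e⟩ := disc2_emb F 2 hn
  have n1 : (a : ℂ) ≠ 0 := Nat.cast_ne_zero.2 (by omega)
  have rt : ∀ i, e i t ^ 3 - 3 * x * e i t + 2 * y = 0 := fun i => by
    simpa [map_ofNat] using congrArg (e i) ht
  have ne : e 0 t - e 1 t ≠ 0 := fun h =>
    absurd (e.injective (hg _ _ (sub_eq_zero.1 h))) (by decide)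
  have q01 : e 0 t ^ 2 + e 0 t * e 1 t + e 1 t ^ 2 = 3 * x :=
    mul_left_cancel₀ ne (by linear_combination rt 0 - rt 1)
  have hx : (x : ℂ) = (e 0 t ^ 2 + e 0 t * e 1 t + e 1 t ^ 2) / 3 := by
    linear_combination -q01 / 3
  have hy : (y : ℂ) = e 0 t * e 1 t * (e 0 t + e 1 t) / 2 := by
    linear_combination rt 0 / 2 - e 0 t * q01 / 2
  have tr : ((Algebra.trace ℚ F t : ℚ) : ℂ) = e 0 t + e 1 t := by
    have := trace_eq_sum_embeddings ℂ (K := ℚ) (x := t)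
    rw [← Equiv.sum_comp e, Fin.sum_univ_two] at this
    exact this
  have hwC : (x : ℂ) ^ 3 - y ^ 2 = a ^ 2 * w := by exact_mod_cast hw
  obtain ⟨θ, hθ⟩ : ∃ θ : F,
      θ = 3 * (t ^ 2 - x) * (2 * ((Algebra.trace ℚ F t : ℚ) : F) - t) / a := ⟨_, rfl⟩
  have h0 : e 0 θ = (e 0 t - e 1 t) * (2 * e 0 t + e 1 t) * (e 0 t + 2 * e 1 t) / a := by
    rw [hθ]
    simp only [map_div₀, map_mul, map_sub, map_pow, map_ofNat, map_intCast, map_natCast,
      map_ratCast, tr]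
    rw [hx]
    ring
  have h1 : e 1 θ = -e 0 θ := by
    rw [h0, hθ]
    simp only [map_div₀, map_mul, map_sub, map_pow, map_ofNat, map_intCast, map_natCast,
      map_ratCast, tr]
    rw [hx]
    ring
  have h2 : e 0 θ ^ 2 = 108 * w := by
    rw [h0, div_pow, div_eq_iff (pow_ne_zero 2 n1)]
    rw [hy, hx] at hwC
    linear_combination 108 * hwC
  have h3 : θ ^ 2 = ((108 * w : ℤ) : F) := by
    apply (e 0).toRingHom.injective
    simpa [map_ofNat] using h2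
  have i1 : IsIntegral ℤ θ := by
    refine IsIntegral.of_pow two_pos ?_
    rw [h3]
    simpa using (isIntegral_algebraMap (R := ℤ) (A := F) (x := 108 * w))
  have key : Algebra.discr ℚ ![1, θ] = 432 * (w : ℚ) := by
    apply (algebraMap ℚ ℂ).injective
    rw [Algebra.discr_eq_det_embeddingsMatrixReindex_pow_two ℚ ℂ _ e, Matrix.det_fin_two]
    simp [Algebra.embeddingsMatrixReindex]
    rw [h1]
    linear_combination 4 * h2
  have w0 : (w : ℚ) ≠ 0 := by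
    have : w ≠ 0 := fun h => hz (by rw [hw, h, mul_zero])
    exact_mod_cast this
  have h := disc2_le F 2 hn ![1, θ]
    (fun i => by
      fin_cases i
      · exact isIntegral_one
      · exact i1) (by rw [key]; positivity)
  rw [key, abs_mul, abs_of_pos (by norm_num : (0 : ℚ) < 432)] at h
  have h' : |(NumberField.discr F : ℝ)| ≤ 432 * |(w : ℝ)| := by exact_mod_cast h
  refine h'.trans (le_of_eq ?_)
  have m1 : (0 : ℝ) < a := by exact_mod_cast a0
  unfold DD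
  rw [hw]
  push_cast
  rw [abs_mul, abs_sq]
  field_simp

theorem disc2_row (hALG : ALG_s) : DISC2_s := by
  intro L _ _ x y t1 t2 t3 hC hd a ha
  exact disc2_main _ hd x y _ (disc2_gen t1)
    (disc2_root x y t1 (hALG L x y t1 t2 t3 hC.toCub0).2.2.2.2.2.2.2.1) hC.ne a ha

theorem disc3_le (F : Type) [Field F] [NumberField F] (n : ℕ) (hn : finrank ℚ F = n)
    (b : Fin n → F) (hb : ∀ i, IsIntegral ℤ (b i)) (h0 : Algebra.discr ℚ b ≠ 0) :
    |(NumberField.discr F : ℚ)| ≤ |Algebra.discr ℚ b| := by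
  classical
  have e : Free.ChooseBasisIndex ℤ (𝓞 F) ≃ Fin n :=
    Fintype.equivFinOfCardEq (by rw [← finrank_eq_card_basis (integralBasis F), hn])
  let P : Matrix (Fin n) (Fin n) ℤ := fun i j =>
    (RingOfIntegers.basis F).repr ⟨b j, hb j⟩ (e.symm i)
  have hP : b = Matrix.vecMul (integralBasis F ∘ e.symm)
      ((P.map (Int.castRingHom ℚ)).map (algebraMap ℚ F)) := by
    funext j
    have h1 := (integralBasis F).sum_repr (b j)
    rw [← h1, ← Equiv.sum_comp e.symm]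
    simp only [Matrix.vecMul, dotProduct, Matrix.map_apply, Function.comp_apply]
    refine Finset.sum_congr rfl fun i _ => ?_
    have h2 := integralBasis_repr_apply F ⟨b j, hb j⟩ (e.symm i)
    rw [Algebra.smul_def, mul_comm]
    exact congrArg (fun s => integralBasis F (e.symm i) * algebraMap ℚ F s) h2
  have h3 : Algebra.discr ℚ b = ((P.det : ℤ) : ℚ) ^ 2 * (NumberField.discr F : ℚ) := by
    rw [hP, Algebra.discr_of_matrix_vecMul, Algebra.discr_reindex, ← coe_discr,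
      ← RingHom.mapMatrix_apply, ← RingHom.map_det]
    rfl
  have h4 : P.det ≠ 0 := fun h => h0 (by rw [h3, h]; simp)
  have h5 : (1 : ℚ) ≤ ((P.det : ℤ) : ℚ) ^ 2 := by
    exact_mod_cast (one_le_sq_iff_one_le_abs P.det).2 (Int.one_le_abs h4)
  rw [h3, abs_mul, abs_sq]
  exact le_mul_of_one_le_left (abs_nonneg _) h5

theorem disc3_emb (F : Type) [Field F] [NumberField F] (n : ℕ) (hn : finrank ℚ F = n) :
    Nonempty (Fin n ≃ (F →ₐ[ℚ] ℂ)) :=
  ⟨(Fintype.equivFinOfCardEq (by rw [AlgHom.card, hn])).symm⟩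

theorem disc3_gen {L : Type} [Field L] [NumberField L] (t : L)
    (φ ψ : IntermediateField.adjoin ℚ {t} →ₐ[ℚ] ℂ)
    (h : φ (IntermediateField.AdjoinSimple.gen ℚ t) = ψ (IntermediateField.AdjoinSimple.gen ℚ t)) :
    φ = ψ :=
  IntermediateField.adjoin_algHom_ext ℚ fun x hx => by
    obtain rfl := Set.mem_singleton_iff.1 hx
    exact h

theorem disc3_root {L : Type} [Field L] [NumberField L] (x y : ℤ) (t : L)
    (h : t ^ 3 - 3 * (x : L) * t + 2 * (y : L) = 0) :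
    IntermediateField.AdjoinSimple.gen ℚ t ^ 3 - 3 * x * IntermediateField.AdjoinSimple.gen ℚ t
      + 2 * y = 0 := by
  apply (algebraMap (IntermediateField.adjoin ℚ {t}) L).injective
  simp only [map_add, map_sub, map_mul, map_pow, map_ofNat, map_intCast, map_zero,
    IntermediateField.AdjoinSimple.algebraMap_gen]
  exact h

theorem disc3_int_w {L : Type} [Field L] [CharZero L] {x y k : ℤ} {a₁ a₂ : ℕ} (p1 : 0 < a₁) (p2 : 0 < a₂) (c : IsCoprime (a₁ : ℤ) a₂)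
    (hz : (a₁ : ℤ) ^ 2 ∣ x ^ 3 - y ^ 2) (c1 : IsCoprime (a₁ : ℤ) x) (d1 : (a₂ : ℤ) ∣ x)
    (d2 : (a₂ : ℤ) ^ 2 ∣ y) (k1 : (a₁ : ℤ) ^ 2 ∣ k * x - y) (k2 : (a₂ : ℤ) ∣ k) {t : L}
    (ht : t ^ 3 - 3 * x * t + 2 * y = 0) :
    IsIntegral ℤ t ∧ IsIntegral ℤ ((t ^ 2 + k * t - 2 * x) / ((a₁ : L) * a₂)) := by
  have cub : ∀ (s : L) (b c e : ℤ), s ^ 3 + b * s ^ 2 + c * s + e = 0 → IsIntegral ℤ s := by
    intro s b c e hs
    refine ⟨Polynomial.X ^ 3 + (Polynomial.C b * Polynomial.X ^ 2 + Polynomial.C c * Polynomial.X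
      + Polynomial.C e), Polynomial.monic_X_pow_add ?_, ?_⟩
    · exact lt_of_le_of_lt Polynomial.degree_quadratic_le (by norm_num)
    · simp only [Polynomial.eval₂_add, Polynomial.eval₂_mul, Polynomial.eval₂_pow,
        Polynomial.eval₂_X, Polynomial.eval₂_C]
      simp only [eq_intCast]
      linear_combination hs
  have it : IsIntegral ℤ t := cub t 0 (-3 * x) (2 * y) (by push_cast; linear_combination ht)
  have iz : ∀ m : ℤ, IsIntegral ℤ (m : L) := fun m => by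
    simpa using (isIntegral_algebraMap (R := ℤ) (A := L) (x := m))
  have n1 : (a₁ : L) ≠ 0 := Nat.cast_ne_zero.2 p1.ne'
  have n2 : (a₂ : L) ≠ 0 := Nat.cast_ne_zero.2 p2.ne'
  have e1 : (a₁ : ℤ) ^ 2 ∣ k ^ 2 - x := by
    refine ((c1.pow (m := 2) (n := 2))).dvd_of_dvd_mul_left ?_
    rw [show x ^ 2 * (k ^ 2 - x) = (k * x - y) * (k * x + y) - (x ^ 3 - y ^ 2) by ring]
    exact dvd_sub (k1.mul_right _) hz
  have e2 : (a₁ : ℤ) ^ 2 ∣ k ^ 3 - y := by
    rw [show k ^ 3 - y = k * (k ^ 2 - x) + (k * x - y) by ring]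
    exact dvd_add (e1.mul_left _) k1
  obtain ⟨b, hb⟩ := e1
  obtain ⟨e, he⟩ := e2
  have hbL : (k : L) ^ 2 - x = a₁ ^ 2 * b := by exact_mod_cast hb
  have heL : (k : L) ^ 3 - y = a₁ ^ 2 * e := by exact_mod_cast he
  have i1 : IsIntegral ℤ ((t ^ 2 + k * t - 2 * x) / a₁) := by
    have j1 : IsIntegral ℤ ((t - k) * (t + 2 * k) / a₁) := by
      refine IsIntegral.of_pow two_pos ?_
      have : ((t - k) * (t + 2 * k) / a₁) ^ 2
          = (((-3 * b : ℤ) : L) * t + ((2 * e : ℤ) : L)) * (t + ((2 * k : ℤ) : L)) := by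
        push_cast
        field_simp
        linear_combination (t + 2 * k) * ht - 3 * t * (t + 2 * k) * hbL + 2 * (t + 2 * k) * heL
      rw [this]
      exact (((iz _).mul it).add (iz _)).mul (it.add (iz _))
    have : (t ^ 2 + k * t - 2 * x) / a₁
        = (t - k) * (t + 2 * k) / a₁ + ((2 * a₁ * b : ℤ) : L) := by
      push_cast
      field_simp
      linear_combination 2 * hbL
    rw [this]
    exact j1.add (iz _)
  obtain ⟨x1, rfl⟩ := d1
  obtain ⟨y1, rfl⟩ := d2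
  obtain ⟨k', rfl⟩ := k2
  have i2 : IsIntegral ℤ ((t ^ 2 + ((a₂ * k' : ℤ) : L) * t - 2 * ((a₂ * x1 : ℤ) : L)) / a₂) := by
    have j1 : IsIntegral ℤ (t ^ 2 / a₂) := by
      refine cub _ (-6 * x1) (9 * x1 ^ 2) (-4 * a₂ * y1 ^ 2) ?_
      push_cast at ht ⊢
      field_simp
      linear_combination (t ^ 3 - 3 * (a₂ * x1) * t - 2 * (a₂ ^ 2 * y1)) * ht
    have : (t ^ 2 + ((a₂ * k' : ℤ) : L) * t - 2 * ((a₂ * x1 : ℤ) : L)) / a₂
        = t ^ 2 / a₂ + (k' : L) * t + ((-2 * x1 : ℤ) : L) := by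
      push_cast
      field_simp
      ring
    rw [this]
    exact (j1.add ((iz _).mul it)).add (iz _)
  obtain ⟨u, v, huv⟩ := c
  have huvL : (u : L) * a₁ + v * a₂ = 1 := by exact_mod_cast huv
  refine ⟨it, ?_⟩
  obtain ⟨U, hU⟩ : ∃ U, U = t ^ 2 + ((a₂ * k' : ℤ) : L) * t - 2 * ((a₂ * x1 : ℤ) : L) := ⟨_, rfl⟩
  rw [← hU] at i1 i2 ⊢
  have : U / ((a₁ : L) * a₂) = u * (U / a₂) + v * (U / a₁) := by
    field_simp
    linear_combination -U * huvL
  rw [this]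
  exact ((iz _).mul i2).add ((iz _).mul i1)

theorem disc3_main (F : Type) [Field F] [NumberField F] (hn : finrank ℚ F = 3) (x y : ℤ) (t : F)
    (hg : ∀ φ ψ : F →ₐ[ℚ] ℂ, φ t = ψ t → φ = ψ) (ht : t ^ 3 - 3 * x * t + 2 * y = 0)
    (hz : x ^ 3 - y ^ 2 ≠ 0) (a : ℕ) (ha : Sq x y a) :
    |(NumberField.discr F : ℝ)| ≤ DD x y a := by
  classical
  obtain ⟨a0, hd, a₁, a₂, rfl, c1, d1, d2⟩ := ha
  have p1 : 0 < a₁ := Nat.pos_of_mul_pos_right a0
  have p2 : 0 < a₂ := Nat.pos_of_mul_pos_left a0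
  have c2 : IsCoprime (a₁ : ℤ) a₂ := c1.of_isCoprime_of_dvd_right d1
  obtain ⟨u, v, huv⟩ := (c1.pow_left (m := 2))
  obtain ⟨s, r, hst⟩ := (c2.pow_left (m := 2))
  obtain ⟨k, k1, k2⟩ : ∃ k : ℤ, (a₁ : ℤ) ^ 2 ∣ k * x - y ∧ (a₂ : ℤ) ∣ k :=
    ⟨r * a₂ * v * y,
      ⟨-(s * y) - r * a₂ * u * y, by linear_combination (r * a₂ * y) * huv + y * hst⟩,
      ⟨r * v * y, by ring⟩⟩
  have hz1 : (a₁ : ℤ) ^ 2 ∣ x ^ 3 - y ^ 2 :=
    (pow_dvd_pow_of_dvd (by push_cast; exact dvd_mul_right _ _) 2).trans hd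
  obtain ⟨i1, i2⟩ := disc3_int_w p1 p2 c2 hz1 c1 d1 d2 k1 k2 ht
  obtain ⟨e⟩ := disc3_emb F 3 hn
  have n1 : (a₁ : ℂ) ≠ 0 := Nat.cast_ne_zero.2 p1.ne'
  have n2 : (a₂ : ℂ) ≠ 0 := Nat.cast_ne_zero.2 p2.ne'
  have rt : ∀ i, e i t ^ 3 - 3 * x * e i t + 2 * y = 0 := fun i => by
    simpa [map_ofNat] using congrArg (e i) ht
  have ne : ∀ i j, i ≠ j → e i t - e j t ≠ 0 := fun i j hij h =>
    hij (e.injective (hg _ _ (sub_eq_zero.1 h)))
  have q01 : e 0 t ^ 2 + e 0 t * e 1 t + e 1 t ^ 2 = 3 * x :=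
    mul_left_cancel₀ (ne 0 1 (by decide)) (by linear_combination rt 0 - rt 1)
  have q02 : e 0 t ^ 2 + e 0 t * e 2 t + e 2 t ^ 2 = 3 * x :=
    mul_left_cancel₀ (ne 0 2 (by decide)) (by linear_combination rt 0 - rt 2)
  have s0 : e 2 t = -e 0 t - e 1 t :=
    mul_left_cancel₀ (ne 1 2 (by decide)) (by linear_combination q01 - q02)
  have key : Algebra.discr ℚ ![1, t, (t ^ 2 + k * t - 2 * x) / ((a₁ : F) * a₂)]
      = 108 * ((x ^ 3 - y ^ 2 : ℤ) : ℚ) / ((a₁ : ℚ) * a₂) ^ 2 := by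
    apply (algebraMap ℚ ℂ).injective
    rw [Algebra.discr_eq_det_embeddingsMatrixReindex_pow_two ℚ ℂ _ e, Matrix.det_fin_three]
    simp [Algebra.embeddingsMatrixReindex, map_ofNat]
    have hx : (x : ℂ) = (e 0 t ^ 2 + e 0 t * e 1 t + e 1 t ^ 2) / 3 := by
      linear_combination -q01 / 3
    have hy : (y : ℂ) = e 0 t * e 1 t * (e 0 t + e 1 t) / 2 := by
      linear_combination rt 0 / 2 - e 0 t * q01 / 2
    rw [s0, hy, hx]
    field_simp
    ring
  have m1 : (0 : ℚ) < a₁ := by exact_mod_cast p1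
  have m2 : (0 : ℚ) < a₂ := by exact_mod_cast p2
  have hzq : ((x ^ 3 - y ^ 2 : ℤ) : ℚ) ≠ 0 := by exact_mod_cast hz
  have h := disc3_le F 3 hn ![1, t, (t ^ 2 + k * t - 2 * x) / ((a₁ : F) * a₂)]
    (fun i => by
      fin_cases i
      · exact isIntegral_one
      · exact i1
      · exact i2) (by rw [key]; positivity)
  rw [key, abs_div, abs_mul, abs_sq, abs_of_pos (by norm_num : (0 : ℚ) < 108)] at h
  have h' : |(NumberField.discr F : ℝ)|
      ≤ 108 * |((x ^ 3 - y ^ 2 : ℤ) : ℝ)| / ((a₁ : ℝ) * a₂) ^ 2 := by exact_mod_cast h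
  refine h'.trans ?_
  unfold DD
  rw [Nat.cast_mul]
  gcongr
  norm_num

theorem disc3_row (hALG : ALG_s) : DISC3_s := by
  intro L _ _ x y t1 t2 t3 hC hd a ha
  exact disc3_main _ hd x y _ (disc3_gen t1)
    (disc3_root x y t1 (hALG L x y t1 t2 t3 hC.toCub0).2.2.2.2.2.2.2.1) hC.ne a ha

theorem famu_sel (c I : ℕ) (hc : 1 ≤ c) (K : ℝ) (P : ℕ → Prop)
    (h : ∀ J : Finset ℕ, ∃ J' ⊆ J, (J.card : ℝ) ≤ K * J'.card ∧
      ∀ i ∈ J', ∀ i' ∈ J', i' ≤ i → P (i - i')) :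
    ∃ J : Finset ℕ, (I : ℝ) ≤ K * J.card ∧ ∀ i ∈ J, c ∣ i ∧ i < c * I ∧ P i := by
  obtain ⟨J', hsub, hcard, hP⟩ := h ((range I).image fun i => c * i)
  rw [card_image_of_injective _ (mul_right_injective₀ (by omega)), card_range] at hcard
  have hm : ∀ i ∈ J', c ∣ i ∧ i < c * I := by
    intro i hi
    obtain ⟨j, hj, rfl⟩ := mem_image.1 (hsub hi)
    exact ⟨dvd_mul_right _ _, Nat.mul_lt_mul_of_pos_left (mem_range.1 hj) (by omega)⟩
  rcases J'.eq_empty_or_nonempty with rfl | hne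
  · exact ⟨∅, hcard, by simp⟩
  · refine ⟨J'.image fun i => i - J'.min' hne, ?_, ?_⟩
    · rw [card_image_of_injOn]
      · exact hcard
      · intro i hi j hj hij
        have h1 := J'.min'_le i hi
        have h2 := J'.min'_le j hj
        simp only at hij
        omega
    · intro i hi
      obtain ⟨j, hj, rfl⟩ := mem_image.1 hi
      refine ⟨Nat.dvd_sub (hm j hj).1 (hm _ (J'.min'_mem hne)).1, ?_,
        hP j hj _ (J'.min'_mem hne) (J'.min'_le j hj)⟩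
      have := (hm j hj).2
      omega

theorem famu_ap {F L : Type} [Field F] [NumberField F] [Field L] [NumberField L] (σ : F →+* L)
    {δ y : F} {N i ρ : ℕ} {r : ℝ} (h : Ap δ N i ρ r y) : Ap (σ δ) N i ρ r (σ y) := by
  obtain ⟨h0, h1, h2⟩ := h
  refine ⟨(map_ne_zero σ).2 h0, ?_, fun φ => h2 (φ.comp σ)⟩
  have := h1.map σ.toIntAlgHom
  simpa using this

theorem famu_ext {L : Type} [Field L] [NumberField L] (t : L) (a b : L ≃ₐ[ℚ] L) (h : a t = b t)
    (u : L) (hu : u ∈ IntermediateField.adjoin ℚ {t}) : a u = b u := by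
  induction hu using IntermediateField.adjoin_induction with
  | mem x hx => rw [Set.mem_singleton_iff.1 hx]; exact h
  | algebraMap x => rw [AlgEquiv.commutes, AlgEquiv.commutes]
  | add x y _ _ hx hy => rw [map_add, map_add, hx, hy]
  | inv x _ hx => rw [map_inv₀, map_inv₀, hx]
  | mul x y _ _ hx hy => rw [map_mul, map_mul, hx, hy]

theorem famu_set (hALG : ALG_s) (hDISC2 : DISC2_s) (hDISC3 : DISC3_s) {L : Type} [Field L]
    [NumberField L] {x y : ℤ} {t1 t2 t3 : L} (h : Cub x y t1 t2 t3) (a : ℕ) (ha : Sq x y a) :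
    ∃ (F : Type) (_ : Field F) (_ : NumberField F) (δ : 𝓞 F) (σ1 σ2 : F →+* L),
      finrank ℚ F = dg t1 ∧ |(NumberField.discr F : ℝ)| ≤ DD x y a ∧
      δ ∣ (((6 * (x ^ 3 - y ^ 2)).natAbs : ℕ) : 𝓞 F) ∧ σ1 δ = de x t1 ∧ σ2 δ = de x t2 ∧
      ∀ u : F, Eqv t1 t2 (σ1 u) (σ2 u) := by
  obtain ⟨⟨hi1, -, -⟩, -, -, -, -, -, -, h3, -⟩ := hALG L x y t1 t2 t3 h.toCub0
  obtain ⟨g, hg⟩ := h.conj
  have hd : |(NumberField.discr (IntermediateField.adjoin ℚ {t1}) : ℝ)| ≤ DD x y a := by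
    have h2 := h.n2
    have h3' := h.n3
    rcases (by omega : dg t1 = 2 ∨ dg t1 = 3) with e | e
    · exact hDISC2 L x y t1 t2 t3 h e a ha
    · exact hDISC3 L x y t1 t2 t3 h e a ha
  let F := IntermediateField.adjoin ℚ {t1}
  let θ : F := ⟨t1, IntermediateField.mem_adjoin_simple_self ℚ t1⟩
  have hθ : IsIntegral ℤ θ :=
    (isIntegral_algebraMap_iff (R := ℤ) (algebraMap F L).injective).1 hi1
  let θO : 𝓞 F := ⟨θ, hθ⟩
  have hinj : Function.Injective ((algebraMap F L).comp (algebraMap (𝓞 F) F)) :=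
    (algebraMap F L).injective.comp (RingOfIntegers.coe_injective)
  have hθO : ((algebraMap F L).comp (algebraMap (𝓞 F) F)) θO = t1 := rfl
  have h3O : θO ^ 3 - 3 * (x : 𝓞 F) * θO + 2 * (y : 𝓞 F) = 0 := by
    apply hinj
    rw [map_add, map_sub, map_mul, map_mul, map_mul, map_pow, hθO, map_intCast, map_intCast,
      map_ofNat, map_ofNat, map_zero]
    exact h3
  have hδ : ((algebraMap F L).comp (algebraMap (𝓞 F) F)) (θO ^ 2 - (x : 𝓞 F)) = de x t1 := by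
    rw [map_sub, map_pow, hθO, map_intCast]
    rfl
  refine ⟨F, inferInstance, inferInstance, θO ^ 2 - (x : 𝓞 F), algebraMap F L,
    (g : L →+* L).comp (algebraMap F L), rfl, hd, ?_, hδ, ?_, ?_⟩
  · have e1 : θO ^ 2 - (x : 𝓞 F) ∣ ((2 * (x ^ 3 - y ^ 2) : ℤ) : 𝓞 F) := by
      refine ⟨(x : 𝓞 F) * θO ^ 2 + (y : 𝓞 F) * θO - 2 * (x : 𝓞 F) ^ 2, ?_⟩
      push_cast
      linear_combination (-((x : 𝓞 F) * θO + (y : 𝓞 F))) * h3O
    have e2 : (2 * (x ^ 3 - y ^ 2) : ℤ) ∣ (((6 * (x ^ 3 - y ^ 2)).natAbs : ℕ) : ℤ) :=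
      Int.dvd_natAbs.2 ⟨3, by ring⟩
    have e3 := map_dvd (Int.castRingHom (𝓞 F)) e2
    rw [map_natCast] at e3
    exact e1.trans e3
  · have : g (de x t1) = de x t2 := by
      unfold de
      rw [map_sub, map_pow, hg, map_intCast]
    rw [← this, ← hδ]
    rfl
  · intro u τ hτ
    refine ⟨famu_ext t1 τ g (hτ.1.trans hg.symm) _ u.2, ?_⟩
    exact famu_ext t1 (g.trans τ) AlgEquiv.refl (by simp [hg, hτ.2]) _ u.2

theorem famu_row (hALG : ALG_s) (hUNM : UNM_s) (hDISC2 : DISC2_s) (hDISC3 : DISC3_s) : FAMU_s := by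
  intro L _ _ x y t1 t2 t3 h a ha N c I r hN hc hr hb
  obtain ⟨F, _, _, δ, σ1, σ2, hf, hd, hdvd, e1, e2, hE⟩ := famu_set hALG hDISC2 hDISC3 h a ha
  obtain ⟨-, -, -, -, -, -, -, -, -, -, -, -, -, h2, hp, -⟩ := hALG L x y t1 t2 t3 h.toCub0
  have hn0 : (6 * (x ^ 3 - y ^ 2)).natAbs ≠ 0 :=
    Int.natAbs_ne_zero.2 (mul_ne_zero (by norm_num) h.ne)
  refine famu_sel c I hc _ _ fun J => ?_
  obtain ⟨J', hs, hcard, hP⟩ := hUNM F (hf ▸ h.n3) δ _ N (Qs x y) J r hn0 hdvd subset_rfl hp hN hr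
    (by
      rw [hf]
      exact le_trans (mul_le_mul_of_nonneg_left (Real.sqrt_le_sqrt hd) (Real.exp_pos _).le) hb)
    ⟨2, h2⟩
  refine ⟨J', hs, hcard, fun i hi i' hi' hle => ?_⟩
  obtain ⟨u, hu⟩ := hP i hi i' hi' hle
  exact ⟨σ1 u, σ2 u, e1 ▸ famu_ap σ1 hu, e2 ▸ famu_ap σ2 hu, hE u⟩

theorem famm_sel (c I : ℕ) (hc : 1 ≤ c) (K : ℝ) (P : ℕ → Prop)
    (h : ∀ J : Finset ℕ, ∃ J' ⊆ J, (J.card : ℝ) ≤ K * J'.card ∧
      ∀ i ∈ J', ∀ i' ∈ J', i' ≤ i → P (i - i')) :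
    ∃ J : Finset ℕ, (I : ℝ) ≤ K * J.card ∧ ∀ i ∈ J, c ∣ i ∧ i < c * I ∧ P i := by
  obtain ⟨J', hsub, hcard, hP⟩ := h ((range I).image fun i => c * i)
  rw [card_image_of_injective _ (mul_right_injective₀ (by omega)), card_range] at hcard
  have hm : ∀ i ∈ J', c ∣ i ∧ i < c * I := by
    intro i hi
    obtain ⟨j, hj, rfl⟩ := mem_image.1 (hsub hi)
    exact ⟨dvd_mul_right _ _, Nat.mul_lt_mul_of_pos_left (mem_range.1 hj) (by omega)⟩
  rcases J'.eq_empty_or_nonempty with rfl | hne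
  · exact ⟨∅, hcard, by simp⟩
  · refine ⟨J'.image fun i => i - J'.min' hne, ?_, ?_⟩
    · rw [card_image_of_injOn]
      · exact hcard
      · intro i hi j hj hij
        have h1 := J'.min'_le i hi
        have h2 := J'.min'_le j hj
        simp only at hij
        omega
    · intro i hi
      obtain ⟨j, hj, rfl⟩ := mem_image.1 hi
      refine ⟨Nat.dvd_sub (hm j hj).1 (hm _ (J'.min'_mem hne)).1, ?_,
        hP j hj _ (J'.min'_mem hne) (J'.min'_le j hj)⟩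
      have := (hm j hj).2
      omega

theorem famm_ap {F L : Type} [Field F] [NumberField F] [Field L] [NumberField L] (σ : F →+* L)
    {δ y : F} {N i ρ : ℕ} {r : ℝ} (h : Ap δ N i ρ r y) : Ap (σ δ) N i ρ r (σ y) := by
  obtain ⟨h0, h1, h2⟩ := h
  refine ⟨(map_ne_zero σ).2 h0, ?_, fun φ => h2 (φ.comp σ)⟩
  have := h1.map σ.toIntAlgHom
  simpa using this

theorem famm_ext {L : Type} [Field L] [NumberField L] (t : L) (a b : L ≃ₐ[ℚ] L) (h : a t = b t)
    (u : L) (hu : u ∈ IntermediateField.adjoin ℚ {t}) : a u = b u := by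
  induction hu using IntermediateField.adjoin_induction with
  | mem x hx => rw [Set.mem_singleton_iff.1 hx]; exact h
  | algebraMap x => rw [AlgEquiv.commutes, AlgEquiv.commutes]
  | add x y _ _ hx hy => rw [map_add, map_add, hx, hy]
  | inv x _ hx => rw [map_inv₀, map_inv₀, hx]
  | mul x y _ _ hx hy => rw [map_mul, map_mul, hx, hy]

theorem famm_set (hALG : ALG_s) (hDISC2 : DISC2_s) (hDISC3 : DISC3_s) {L : Type} [Field L]
    [NumberField L] {x y : ℤ} {t1 t2 t3 : L} (h : Cub x y t1 t2 t3) (a : ℕ) (ha : Sq x y a) :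
    ∃ (F : Type) (_ : Field F) (_ : NumberField F) (δ : 𝓞 F) (σ1 σ2 : F →+* L),
      finrank ℚ F = dg t1 ∧ |(NumberField.discr F : ℝ)| ≤ DD x y a ∧
      δ ∣ (((6 * (x ^ 3 - y ^ 2)).natAbs : ℕ) : 𝓞 F) ∧ σ1 δ = de x t1 ∧ σ2 δ = de x t2 ∧
      ∀ u : F, Eqv t1 t2 (σ1 u) (σ2 u) := by
  obtain ⟨⟨hi1, -, -⟩, -, -, -, -, -, -, h3, -⟩ := hALG L x y t1 t2 t3 h.toCub0
  obtain ⟨g, hg⟩ := h.conj
  have hd : |(NumberField.discr (IntermediateField.adjoin ℚ {t1}) : ℝ)| ≤ DD x y a := by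
    have h2 := h.n2
    have h3' := h.n3
    rcases (by omega : dg t1 = 2 ∨ dg t1 = 3) with e | e
    · exact hDISC2 L x y t1 t2 t3 h e a ha
    · exact hDISC3 L x y t1 t2 t3 h e a ha
  let F := IntermediateField.adjoin ℚ {t1}
  let θ : F := ⟨t1, IntermediateField.mem_adjoin_simple_self ℚ t1⟩
  have hθ : IsIntegral ℤ θ :=
    (isIntegral_algebraMap_iff (R := ℤ) (algebraMap F L).injective).1 hi1
  let θO : 𝓞 F := ⟨θ, hθ⟩
  have hinj : Function.Injective ((algebraMap F L).comp (algebraMap (𝓞 F) F)) :=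
    (algebraMap F L).injective.comp (RingOfIntegers.coe_injective)
  have hθO : ((algebraMap F L).comp (algebraMap (𝓞 F) F)) θO = t1 := rfl
  have h3O : θO ^ 3 - 3 * (x : 𝓞 F) * θO + 2 * (y : 𝓞 F) = 0 := by
    apply hinj
    rw [map_add, map_sub, map_mul, map_mul, map_mul, map_pow, hθO, map_intCast, map_intCast,
      map_ofNat, map_ofNat, map_zero]
    exact h3
  have hδ : ((algebraMap F L).comp (algebraMap (𝓞 F) F)) (θO ^ 2 - (x : 𝓞 F)) = de x t1 := by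
    rw [map_sub, map_pow, hθO, map_intCast]
    rfl
  refine ⟨F, inferInstance, inferInstance, θO ^ 2 - (x : 𝓞 F), algebraMap F L,
    (g : L →+* L).comp (algebraMap F L), rfl, hd, ?_, hδ, ?_, ?_⟩
  · have e1 : θO ^ 2 - (x : 𝓞 F) ∣ ((2 * (x ^ 3 - y ^ 2) : ℤ) : 𝓞 F) := by
      refine ⟨(x : 𝓞 F) * θO ^ 2 + (y : 𝓞 F) * θO - 2 * (x : 𝓞 F) ^ 2, ?_⟩
      push_cast
      linear_combination (-((x : 𝓞 F) * θO + (y : 𝓞 F))) * h3O
    have e2 : (2 * (x ^ 3 - y ^ 2) : ℤ) ∣ (((6 * (x ^ 3 - y ^ 2)).natAbs : ℕ) : ℤ) :=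
      Int.dvd_natAbs.2 ⟨3, by ring⟩
    have e3 := map_dvd (Int.castRingHom (𝓞 F)) e2
    rw [map_natCast] at e3
    exact e1.trans e3
  · have : g (de x t1) = de x t2 := by
      unfold de
      rw [map_sub, map_pow, hg, map_intCast]
    rw [← this, ← hδ]
    rfl
  · intro u τ hτ
    refine ⟨famm_ext t1 τ g (hτ.1.trans hg.symm) _ u.2, ?_⟩
    exact famm_ext t1 (g.trans τ) AlgEquiv.refl (by simp [hg, hτ.2]) _ u.2

theorem famm_ap2 {F L : Type} [Field F] [NumberField F] [Field L] [NumberField L] (σ : F →+* L)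
    {δ y : F} {N i ρ : ℕ} {r : ℝ} (h : Ap2 δ N i ρ r y) : Ap2 (σ δ) N i ρ r (σ y) := by
  refine ⟨famm_ap σ h.1, ?_⟩
  have := famm_ap σ h.2
  rwa [map_inv₀, map_inv₀] at this

theorem famm_row (hALG : ALG_s) (hMAT : MAT_s) (hDISC2 : DISC2_s) (hDISC3 : DISC3_s) : FAMM_s := by
  intro ε hε
  obtain ⟨C, hC, hM⟩ := hMAT ε hε
  refine ⟨C, hC, ?_⟩
  intro L _ _ x y t1 t2 t3 h a ha N c I hN hc
  obtain ⟨F, _, _, δ, σ1, σ2, hf, hd, hdvd, e1, e2, hE⟩ := famm_set hALG hDISC2 hDISC3 h a ha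
  obtain ⟨-, -, -, -, -, -, -, -, -, -, -, -, -, h2, hp, -⟩ := hALG L x y t1 t2 t3 h.toCub0
  have hn0 : (6 * (x ^ 3 - y ^ 2)).natAbs ≠ 0 :=
    Int.natAbs_ne_zero.2 (mul_ne_zero (by norm_num) h.ne)
  refine famm_sel c I hc _ _ fun J => ?_
  obtain ⟨J', hs, hcard, hP⟩ := hM F (hf ▸ h.n3) δ _ N (Qs x y) J _ hn0 hdvd subset_rfl hp hN
    ⟨2, h2⟩ (mul_le_mul_of_nonneg_left (Real.sqrt_le_sqrt hd) (Real.exp_pos _).le)
  refine ⟨J', hs, hcard, fun i hi i' hi' hle => ?_⟩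
  obtain ⟨u, hu⟩ := hP i hi i' hi' hle
  exact ⟨σ1 u, σ2 u, e1 ▸ famm_ap2 σ1 hu, e2 ▸ famm_ap2 σ2 hu, hE u⟩

theorem adm_one {q u R : ℝ} {m : ℤ} {N k : ℕ} (hq : 2 ≤ q) (hu : u = q ^ m) (hk : 12 * k < N)
    (hR : (q ^ (6 * k))⁻¹ ≤ R) (h : u ^ N * R ^ 2 ≤ 1) : u ≤ 1 := by
  by_contra hlt
  have hq1 : (1 : ℝ) < q := by linarith
  have hq0 : (0 : ℝ) < q := by linarith
  have hm : 1 ≤ m := by
    by_contra hm
    apply hlt
    rw [hu]
    exact zpow_le_one_of_nonpos₀ hq1.le (by omega)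
  have hqu : q ≤ u := by
    rw [hu]
    calc q = q ^ (1 : ℤ) := (zpow_one q).symm
      _ ≤ q ^ m := zpow_le_zpow_right₀ hq1.le hm
  have h1 : q ^ N ≤ u ^ N := pow_le_pow_left₀ hq0.le hqu N
  have h2 : ((q ^ (6 * k))⁻¹) ^ 2 ≤ R ^ 2 := pow_le_pow_left₀ (by positivity) hR 2
  have h3 : q ^ N * ((q ^ (6 * k))⁻¹) ^ 2 ≤ 1 :=
    le_trans (mul_le_mul h1 h2 (by positivity) (le_trans (by positivity) h1)) h
  have h4 : ((q ^ (6 * k))⁻¹) ^ 2 = (q ^ (12 * k))⁻¹ := by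
    rw [inv_pow, ← pow_mul]
    congr 2
    omega
  rw [h4, ← div_eq_mul_inv, div_le_one (by positivity)] at h3
  exact absurd (pow_lt_pow_right₀ hq1 hk) (not_lt.2 h3)

theorem adm_fin {L : Type} [Field L] [NumberField L] (hVAL : VAL_s) (w : FinitePlace L)
    {δ1 δ2 y1 y2 : L} {N i ρ : ℕ} {r : ℝ} (h1 : Ap δ1 N i ρ r y1) (h2 : Ap δ2⁻¹ N i ρ r y2⁻¹)
    (hδ : δ1 ≠ 0) (he : w δ1 = w δ2) : w (y1 / y2) ^ N * w (ρ : L) ^ 2 ≤ 1 := by
  obtain ⟨-, -, hint, -⟩ := hVAL L w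
  have a1 := hint _ h1.2.1
  have a2 := hint _ h2.2.1
  rw [map_div₀, map_mul, map_pow, map_pow] at a1 a2
  rw [map_inv₀, map_inv₀, ← he] at a2
  have hD : 0 < w δ1 := FinitePlace.pos_iff.2 hδ
  have b1 : 0 ≤ w (ρ : L) * (w y2)⁻¹ ^ N / (w δ1)⁻¹ ^ i := by positivity
  have := mul_le_one₀ a1 b1 a2
  rw [map_div₀]
  refine le_of_eq_of_le ?_ this
  rw [div_pow, inv_pow, inv_pow]
  have : w δ1 ^ i ≠ 0 := by positivity
  field_simp

theorem adm_arch {Y1 Y2 A1 A2 τ : ℝ} (hY2 : 0 < Y2) (hA1 : 0 < A1) (hA2 : 0 < A2)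
    (h0 : 0 ≤ τ) (h1 : τ ≤ 1) (b1 : Y1 ≤ Real.exp 1 * A1 ^ τ)
    (b2 : Y2⁻¹ ≤ Real.exp 1 * A2⁻¹ ^ τ) (hs : A1 / A2 ≤ 2) : Y1 / Y2 ≤ Real.exp 3 := by
  have c1 : (A1 / A2) ^ τ ≤ 2 :=
    calc (A1 / A2) ^ τ ≤ (2 : ℝ) ^ τ := Real.rpow_le_rpow (by positivity) hs h0
      _ ≤ (2 : ℝ) ^ (1 : ℝ) := Real.rpow_le_rpow_of_exponent_le (by norm_num) h1
      _ = 2 := Real.rpow_one 2
  have c2 : (2 : ℝ) ≤ Real.exp 1 := by
    have := Real.add_one_le_exp (1 : ℝ)
    linarith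
  have c3 : Real.exp 3 = Real.exp 1 * Real.exp 1 * Real.exp 1 := by
    rw [← Real.exp_add, ← Real.exp_add]
    norm_num
  calc Y1 / Y2 = Y1 * Y2⁻¹ := div_eq_mul_inv _ _
    _ ≤ (Real.exp 1 * A1 ^ τ) * (Real.exp 1 * A2⁻¹ ^ τ) :=
      mul_le_mul b1 b2 (by positivity) (by positivity)
    _ = Real.exp 1 * Real.exp 1 * (A1 / A2) ^ τ := by
      rw [div_eq_mul_inv, Real.mul_rpow hA1.le (by positivity)]
      ring
    _ ≤ Real.exp 1 * Real.exp 1 * Real.exp 1 :=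
      mul_le_mul_of_nonneg_left (c1.trans c2) (by positivity)
    _ = Real.exp 3 := c3.symm

theorem adm_row (hVAL : VAL_s) (hRHO : RHO_s) (hALG : ALG_s) : ADM_s := by
  intro L _ _ x y t1 t2 t3 a h hA
  obtain ⟨N, i, y1, y2, hN, hi, h1, h2, hE, rfl⟩ := hA
  obtain ⟨-, -, -, ⟨hd1, hd2⟩, -, -, -, -, -, -, -, -, -, -, hp, -⟩ :=
    hALG L x y t1 t2 t3 h.toCub0
  have hy1 : y1 ≠ 0 := h1.1.1
  have hy2 : y2 ≠ 0 := h2.1.1
  refine ⟨div_ne_zero hy1 hy2, fun w hw => ?_, fun φ hφ => ?_, fun τ hτ => ?_⟩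
  · obtain ⟨hq, hz, hint, hex, hpr⟩ := hVAL L w
    obtain ⟨hρ1, -, hρ3⟩ := hRHO (Qs x y) N hp hN
    have he : w (de x t1) = w (de x t2) := by
      unfold ps at hw
      rw [map_div₀, map_neg_eq_map, div_eq_one_iff_eq (FinitePlace.pos_iff.2 hd2).ne'] at hw
      exact hw
    have hR : ∃ k : ℕ, 12 * k < N ∧ (nq w ^ (6 * k))⁻¹ ≤ w ((rho (Qs x y) N : ℕ) : L) := by
      by_cases hlt : w ((rho (Qs x y) N : ℕ) : L) < 1
      · obtain ⟨p, hpp, -, hwp⟩ := hex ((rho (Qs x y) N : ℕ) : ℤ) (by simpa using hlt)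
          (by exact_mod_cast (by omega : rho (Qs x y) N ≠ 0))
        obtain ⟨k, n, hkn, hn, hk⟩ := hρ3 p hpp
        obtain ⟨g1, -, g3, g4⟩ := hpr p hpp hwp
        refine ⟨k, by omega, ?_⟩
        have hn1 : 1 ≤ w (n : L) := by
          by_contra hc
          apply hn
          have := g4 (n : ℤ) (by simpa using not_le.1 hc)
          exact_mod_cast this
        have hp0 : (0 : ℝ) < p := by exact_mod_cast hpp.pos
        have hp1 : (1 : ℝ) ≤ p := by exact_mod_cast hpp.one_le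
        have g5 : (nq w ^ 6)⁻¹ ≤ w (p : L) := by
          refine le_trans (inv_anti₀ (by positivity) ?_) g3
          exact le_trans (pow_le_pow_right₀ hp1 h.d6) (pow_le_pow_left₀ hp0.le g1 6)
        rw [hkn, Nat.cast_mul, Nat.cast_pow, map_mul, map_pow, pow_mul, ← inv_pow]
        have hq0 : (0 : ℝ) < nq w := by linarith
        have g6 : (nq w ^ 6)⁻¹ ^ k ≤ w (p : L) ^ k := pow_le_pow_left₀ (by positivity) g5 k
        exact le_trans g6 (le_mul_of_one_le_right (by positivity) hn1)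
      · exact ⟨0, by omega, by simpa using not_lt.1 hlt⟩
    obtain ⟨k, hk, hR⟩ := hR
    obtain ⟨m, hm⟩ := hz _ (div_ne_zero hy1 hy2)
    obtain ⟨m', hm'⟩ := hz _ (div_ne_zero hy2 hy1)
    have u1 := adm_one hq hm hk hR (adm_fin hVAL w h1.1 h2.2 hd1 he)
    have u2 := adm_one hq hm' hk hR (adm_fin hVAL w h2.1 h1.2 hd2 he.symm)
    have p1 : 0 < w y1 := FinitePlace.pos_iff.2 hy1
    have p2 : 0 < w y2 := FinitePlace.pos_iff.2 hy2
    rw [map_div₀] at u1 u2 ⊢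
    rw [div_le_one p2] at u1
    rw [div_le_one p1] at u2
    rw [div_eq_one_iff_eq p2.ne']
    exact le_antisymm u1 u2
  · have A1 : 0 < ‖φ (de x t1)‖ := norm_pos_iff.2 ((map_ne_zero φ).2 hd1)
    have A2 : 0 < ‖φ (de x t2)‖ := norm_pos_iff.2 ((map_ne_zero φ).2 hd2)
    have Y1 : 0 < ‖φ y1‖ := norm_pos_iff.2 ((map_ne_zero φ).2 hy1)
    have Y2 : 0 < ‖φ y2‖ := norm_pos_iff.2 ((map_ne_zero φ).2 hy2)
    have hψ : ‖φ (ps x t1 t2)‖ = ‖φ (de x t1)‖ / ‖φ (de x t2)‖ := by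
      unfold ps
      rw [map_div₀, map_neg, norm_div, norm_neg]
    rw [map_sub, map_one] at hφ
    have hb := abs_norm_sub_norm_le (φ (ps x t1 t2)) 1
    rw [norm_one, hψ, abs_le] at hb
    have s1 : ‖φ (de x t1)‖ / ‖φ (de x t2)‖ ≤ 2 := by linarith [hb.2]
    have s2 : ‖φ (de x t2)‖ / ‖φ (de x t1)‖ ≤ 2 := by
      have : 1 / 2 ≤ ‖φ (de x t1)‖ / ‖φ (de x t2)‖ := by linarith [hb.1]
      rw [le_div_iff₀ A2] at this
      rw [div_le_iff₀ A1]
      linarith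
    have hN0 : (0 : ℝ) < N := by exact_mod_cast hN
    have τ0 : 0 ≤ (i : ℝ) / N := by positivity
    have τ1 : (i : ℝ) / N ≤ 1 := by
      rw [div_le_one hN0]
      exact_mod_cast hi
    have b11 := h1.1.2.2 φ
    have b12 := h1.2.2.2 φ
    have b21 := h2.1.2.2 φ
    have b22 := h2.2.2.2 φ
    rw [map_inv₀, map_inv₀, norm_inv, norm_inv] at b12 b22
    have r1 := adm_arch Y2 A1 A2 τ0 τ1 b11 b22 s1
    have r2 := adm_arch Y1 A2 A1 τ0 τ1 b21 b12 s2
    rw [map_div₀, norm_div]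
    refine ⟨?_, r1⟩
    rw [Real.exp_neg, ← inv_div]
    exact inv_anti₀ (by positivity) r2
  · obtain ⟨e1, e2⟩ := hE τ hτ
    rw [map_div₀, e1, e2, inv_div]

end Pool.Agent.MP_2a5a28_nt.H15Z
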