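import Pool.Agent.MP_2a5a28_nt.H15Z.Defs

set_option autoImplicit false

namespace Pool.Agent.MP_2a5a28_nt.H15Z

open Finset NumberField Module
open H63 (Sx St Dis nm)

theorem alg_root {L : Type} [Field L] (X Y t1 t2 t3 u : L) (s1 : t1 + t2 + t3 = 0)
    (s2 : t1 * t2 + t1 * t3 + t2 * t3 = -3 * X) (s3 : t1 * t2 * t3 = -2 * Y)
    (h : u ^ 3 - 3 * X * u + 2 * Y = 0) : u = t1 ∨ u = t2 ∨ u = t3 := by
  have h1 : (u - t1) * (u - t2) * (u - t3) = 0 := by
    linear_combination h - u ^ 2 * s1 + u * s2 - s3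
  rcases mul_eq_zero.mp h1 with h2 | h2
  · rcases mul_eq_zero.mp h2 with h3 | h3
    · exact Or.inl (sub_eq_zero.mp h3)
    · exact Or.inr (Or.inl (sub_eq_zero.mp h3))
  · exact Or.inr (Or.inr (sub_eq_zero.mp h2))

theorem alg_int {L : Type} [Field L] (x y : ℤ) (u : L)
    (h : u ^ 3 - 3 * (x : L) * u + 2 * (y : L) = 0) : IsIntegral ℤ u := by
  refine ⟨Polynomial.X ^ 3 + (Polynomial.C (-3 * x) * Polynomial.X + Polynomial.C (2 * y)), ?_, ?_⟩
  · apply Polynomial.monic_X_pow_add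
    refine lt_of_le_of_lt (Polynomial.degree_linear_le) ?_
    exact_mod_cast (by norm_num : (1 : ℕ) < 3)
  · rw [Polynomial.eval₂_add, Polynomial.eval₂_add, Polynomial.eval₂_mul, Polynomial.eval₂_X_pow,
      Polynomial.eval₂_C, Polynomial.eval₂_C, Polynomial.eval₂_X, eq_intCast, eq_intCast]
    push_cast
    linear_combination h

theorem alg_row (hVAL : VAL_s) : ALG_s := by
  intro L _ _ x y t1 t2 t3 hC
  have s1 := hC.s1
  have s2 := hC.s2
  have s3 := hC.s3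
  have hz := hC.ne
  have c1 : t1 ^ 3 - 3 * (x : L) * t1 + 2 * (y : L) = 0 := by
    linear_combination t1 ^ 2 * s1 - t1 * s2 + s3
  have c2 : t2 ^ 3 - 3 * (x : L) * t2 + 2 * (y : L) = 0 := by
    linear_combination t2 ^ 2 * s1 - t2 * s2 + s3
  have c3 : t3 ^ 3 - 3 * (x : L) * t3 + 2 * (y : L) = 0 := by
    linear_combination t3 ^ 2 * s1 - t3 * s2 + s3
  have i1 := alg_int x y t1 c1
  have i2 := alg_int x y t2 c2
  have i3 := alg_int x y t3 c3
  have e3 : t3 = -t1 - t2 := by linear_combination s1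
  have ex : 3 * (x : L) = t1 ^ 2 + t1 * t2 + t2 ^ 2 := by
    rw [e3] at s2
    linear_combination s2
  have ey : 2 * (y : L) = t1 * t2 * (t1 + t2) := by
    rw [e3] at s3
    linear_combination s3
  have hD : ((t1 - t2) * (t1 - t3) * (t2 - t3)) ^ 2 = 108 * ((x ^ 3 - y ^ 2 : ℤ) : L) := by
    have h1 : 108 * ((x ^ 3 - y ^ 2 : ℤ) : L) = 4 * (3 * (x : L)) ^ 3 - 27 * (2 * (y : L)) ^ 2 := by
      push_cast; ring
    rw [h1, ex, ey, e3]
    ring
  have hD0 : (t1 - t2) * (t1 - t3) * (t2 - t3) ≠ 0 := by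
    intro h
    rw [h] at hD
    have h1 : ((x ^ 3 - y ^ 2 : ℤ) : L) ≠ 0 := Int.cast_ne_zero.mpr hz
    exact mul_ne_zero (by norm_num : (108 : L) ≠ 0) h1 (by rw [← hD]; ring)
  have d12 : t1 - t2 ≠ 0 := left_ne_zero_of_mul (left_ne_zero_of_mul hD0)
  have d13 : t1 - t3 ≠ 0 := right_ne_zero_of_mul (left_ne_zero_of_mul hD0)
  have d23 : t2 - t3 ≠ 0 := right_ne_zero_of_mul hD0
  have n12 : t1 ≠ t2 := sub_ne_zero.mp d12
  have n13 : t1 ≠ t3 := sub_ne_zero.mp d13
  have n23 : t2 ≠ t3 := sub_ne_zero.mp d23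
  have f1 : de x t1 = (t1 - t2) * (t1 - t3) / 3 := by
    unfold de
    rw [e3]
    linear_combination (-1 / 3 : L) * ex
  have f2 : de x t2 = -((t1 - t2) * (t2 - t3)) / 3 := by
    unfold de
    rw [e3]
    linear_combination (-1 / 3 : L) * ex
  have hps : ps x t1 t2 = (t1 - t3) / (t2 - t3) := by
    unfold ps
    rw [f1, f2]
    field_simp
  have hps1 : ps x t1 t2 - 1 = (t1 - t2) / (t2 - t3) := by
    rw [hps]
    field_simp
    ring
  have hroot : ∀ (g : L ≃ₐ[ℚ] L) (u : L), u ^ 3 - 3 * (x : L) * u + 2 * (y : L) = 0 →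
      g u = t1 ∨ g u = t2 ∨ g u = t3 := by
    intro g u hu
    refine alg_root (x : L) (y : L) t1 t2 t3 (g u) s1 s2 s3 ?_
    have := congrArg g hu
    simpa [map_ofNat] using this
  have hz6 : (6 * (x ^ 3 - y ^ 2)).natAbs ≠ 0 :=
    Int.natAbs_ne_zero.mpr (mul_ne_zero (by norm_num) hz)
  have hQ : ∀ q ∈ Qs x y, q.Prime := fun q hq => Nat.prime_of_mem_primeFactors hq
  have h2Q : 2 ∈ Qs x y := by
    refine Nat.mem_primeFactors.mpr ⟨Nat.prime_two, ?_, hz6⟩
    apply Int.natCast_dvd.mp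
    exact Dvd.dvd.mul_right (by norm_num) _
  have hR : 2 ≤ Rad x y := by
    have h1 : 2 ≤ ∏ q ∈ Qs x y, q :=
      Finset.single_le_prod' (f := fun q : ℕ => q) (fun q hq => (hQ q hq).one_le) h2Q
    have h2 : ((2 : ℕ) : ℝ) ≤ ((∏ q ∈ Qs x y, q : ℕ) : ℝ) := Nat.cast_le.mpr h1
    rw [Nat.cast_prod] at h2
    exact h2
  refine ⟨⟨i1, i2, i3⟩, ⟨n12, n13, n23⟩, hD, ⟨?_, ?_⟩, hps, hps1, ⟨?_, ?_⟩, c1, ?_, ?_, ?_, ?_, ?_,
    h2Q, hQ, hR, ?_⟩
  · rw [f1]
    exact div_ne_zero (mul_ne_zero d12 d13) (by norm_num)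
  · rw [f2]
    exact div_ne_zero (neg_ne_zero.mpr (mul_ne_zero d12 d23)) (by norm_num)
  · rw [hps]
    exact div_ne_zero d13 d23
  · rw [← sub_ne_zero, hps1]
    exact div_ne_zero d12 d23
  · intro g hg
    have k1 : g t1 ≠ t3 := fun h => n13 (g.injective (h.trans hg.symm))
    have k2 : g t2 ≠ t3 := fun h => n23 (g.injective (h.trans hg.symm))
    have k3 : g t1 ≠ g t2 := fun h => n12 (g.injective h)
    rcases hroot g t1 c1 with a | a | a
    · rcases hroot g t2 c2 with b | b | b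
      · exact absurd (a.trans b.symm) k3
      · exact Or.inl (hC.gen g a b)
      · exact absurd b k2
    · rcases hroot g t2 c2 with b | b | b
      · exact Or.inr ⟨a, b⟩
      · exact absurd (a.trans b.symm) k3
      · exact absurd b k2
    · exact absurd a k1
  · intro g hg
    rw [e3, map_sub, map_neg, hg.1, hg.2]
    ring
  · intro g
    exact ⟨hroot g t1 c1, hroot g t2 c2, hroot g t3 c3⟩
  · intro w p hp h5 hwp hxy h12
    obtain ⟨-, -, hint, -, hpr⟩ := hVAL L w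
    obtain ⟨-, -, -, hdv⟩ := hpr p hp hwp
    have hadd : ∀ s t : L, w s < 1 → w t < 1 → w (s + t) < 1 := fun s t h1 h2 =>
      lt_of_le_of_lt (FinitePlace.add_le w s t) (max_lt h1 h2)
    have hmul : ∀ s t : L, IsIntegral ℤ s → w t < 1 → w (s * t) < 1 := fun s t h1 h2 => by
      rw [map_mul]
      exact mul_lt_one_of_nonneg_of_lt_one_right (hint s h1) (apply_nonneg _ _) h2
    have hnot : ¬(w (t1 - t3) < 1) := by
      intro h13
      have hx : w ((9 * x : ℤ) : L) < 1 := by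
        have e : ((9 * x : ℤ) : L) = (t1 - t3) * (t1 - t2) + (t2 - t3) * (t1 - t2) +
            ((t2 - t3) * (t1 - t3) + (t3 - t2) * (t1 - t2) + (t3 - t2) * (t1 - t2)) +
            0 * (t1 - t2) := by
          push_cast
          rw [e3]
          linear_combination 3 * ex
        rw [e]
        exact hadd _ _ (hadd _ _ (hadd _ _ (hmul _ _ (i1.sub i3) h12) (hmul _ _ (i2.sub i3) h12))
          (hadd _ _ (hadd _ _ (hmul _ _ (i2.sub i3) h13) (hmul _ _ (i3.sub i2) h12))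
            (hmul _ _ (i3.sub i2) h12))) (hmul _ _ isIntegral_zero h12)
      have hy : w ((6 * y : ℤ) : L) < 1 := by
        have e : ((6 * y : ℤ) : L) = (-(t2 * t3)) * (t1 - t2) + (-(t2 * t3)) * (t1 - t3) := by
          push_cast
          rw [e3]
          linear_combination 3 * ey
        rw [e]
        exact hadd _ _ (hmul _ _ (i2.mul i3).neg h12) (hmul _ _ (i2.mul i3).neg h13)
      have hp' : Prime (p : ℤ) := Nat.prime_iff_prime_int.mp hp
      have hs : ∀ n : ℕ, 0 < n → n < 5 → ¬(p : ℤ) ∣ (n : ℤ) := fun n h0 h1 h2 => by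
        have := Nat.le_of_dvd h0 (Int.natCast_dvd_natCast.mp h2)
        omega
      have h3 : ¬(p : ℤ) ∣ 3 := hs 3 (by norm_num) (by norm_num)
      have h2 : ¬(p : ℤ) ∣ 2 := hs 2 (by norm_num) (by norm_num)
      apply hxy
      constructor
      · have h := hdv _ hx
        rw [show (9 : ℤ) * x = 3 * (3 * x) by ring] at h
        exact (hp'.dvd_or_dvd ((hp'.dvd_or_dvd h).resolve_left h3)).resolve_left h3
      · have h := hdv _ hy
        rw [show (6 : ℤ) * y = 2 * (3 * y) by ring] at h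
        exact (hp'.dvd_or_dvd ((hp'.dvd_or_dvd h).resolve_left h2)).resolve_left h3
    refine ⟨le_antisymm (hint _ (i1.sub i3)) (not_lt.mp hnot),
      le_antisymm (hint _ (i2.sub i3)) (not_lt.mp fun h23 => hnot ?_)⟩
    have := hadd _ _ h12 h23
    rwa [sub_add_sub_cancel] at this
  · intro w hw
    obtain ⟨-, -, hint, hex, -⟩ := hVAL L w
    have p23 : 0 < w (t2 - t3) := FinitePlace.pos_iff.mpr d23
    have h12 : w (t1 - t2) < 1 := by
      rw [hps1, map_div₀, div_lt_one p23] at hw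
      exact lt_of_lt_of_le hw (hint _ (i2.sub i3))
    refine ⟨?_, h12, ?_⟩
    · apply le_antisymm
      · have := FinitePlace.add_le w (ps x t1 t2 - 1) 1
        rw [sub_add_cancel, map_one] at this
        exact this.trans (max_le hw.le le_rfl)
      · by_contra hc
        have := FinitePlace.add_le w (ps x t1 t2) (-(ps x t1 t2 - 1))
        rw [map_neg_eq_map, show ps x t1 t2 + -(ps x t1 t2 - 1) = 1 by ring, map_one] at this
        exact absurd this (not_le.mpr (max_lt (not_le.mp hc) hw))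
    · have h1 : w ((108 * (x ^ 3 - y ^ 2) : ℤ) : L) < 1 := by
        rw [Int.cast_mul, Int.cast_ofNat, ← hD, map_pow, map_mul, map_mul]
        have a1 := hint _ (i1.sub i3)
        have a2 := hint _ (i2.sub i3)
        have a3 : w (t1 - t2) * w (t1 - t3) * w (t2 - t3) < 1 :=
          mul_lt_one_of_nonneg_of_lt_one_left (mul_nonneg (apply_nonneg _ _) (apply_nonneg _ _))
            (mul_lt_one_of_nonneg_of_lt_one_left (apply_nonneg _ _) h12 a1) a2
        exact pow_lt_one₀ (by positivity) a3 (by norm_num)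
      obtain ⟨p, hp, hpd, hwp⟩ := hex _ h1 (mul_ne_zero (by norm_num) hz)
      refine ⟨p, Nat.mem_primeFactors.mpr ⟨hp, ?_, hz6⟩, hwp⟩
      apply Int.natCast_dvd.mp
      have hp' : Prime (p : ℤ) := Nat.prime_iff_prime_int.mp hp
      apply hp'.dvd_of_dvd_pow (n := 3)
      refine hpd.trans ⟨2 * (x ^ 3 - y ^ 2) ^ 2, by ring⟩
  · unfold NN
    refine le_mul_of_one_le_right (by linarith) ?_
    refine Finset.one_le_prod ?_
    intro q hq
    exact_mod_cast (Nat.prime_of_mem_primeFactors hq).one_le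

theorem htl_arch (a b : ℂ) (x y M : ℝ) (ha : ‖a‖ ≤ M) (hb : ‖b‖ ≤ M)
    (hx : 9 * (x : ℂ) = a ^ 2 - a * b + b ^ 2)
    (hy : 54 * (y : ℂ) = (a + b) * (2 * a - b) * (2 * b - a)) :
    max (|x| ^ 3) (y ^ 2) ≤ M ^ 6 := by
  have hM : 0 ≤ M := (norm_nonneg _).trans ha
  have h1 : 9 * |x| ≤ 3 * M ^ 2 := by
    have e : ‖9 * (x : ℂ)‖ = 9 * |x| := by simp
    rw [← e, hx]
    calc ‖a ^ 2 - a * b + b ^ 2‖ ≤ ‖a ^ 2‖ + ‖a * b‖ + ‖b ^ 2‖ :=
          (norm_add_le _ _).trans (by gcongr; exact norm_sub_le _ _)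
      _ = ‖a‖ ^ 2 + ‖a‖ * ‖b‖ + ‖b‖ ^ 2 := by rw [norm_pow, norm_pow, norm_mul]
      _ ≤ M ^ 2 + M * M + M ^ 2 := by gcongr
      _ = 3 * M ^ 2 := by ring
  have h2 : 54 * |y| ≤ 18 * M ^ 3 := by
    have e : ‖54 * (y : ℂ)‖ = 54 * |y| := by simp
    rw [← e, hy, norm_mul, norm_mul]
    have k1 : ‖a + b‖ ≤ 2 * M := (norm_add_le _ _).trans (by linarith)
    have k2 : ‖2 * a - b‖ ≤ 3 * M := (norm_sub_le _ _).trans (by
      rw [norm_mul, Complex.norm_ofNat]; linarith)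
    have k3 : ‖2 * b - a‖ ≤ 3 * M := (norm_sub_le _ _).trans (by
      rw [norm_mul, Complex.norm_ofNat]; linarith)
    calc ‖a + b‖ * ‖2 * a - b‖ * ‖2 * b - a‖ ≤ (2 * M) * (3 * M) * (3 * M) := by gcongr
      _ = 18 * M ^ 3 := by ring
  have h3 : |x| ≤ M ^ 2 := by nlinarith [sq_nonneg M]
  have h4 : |y| ≤ M ^ 3 := by nlinarith [pow_nonneg hM 3]
  refine max_le ?_ ?_
  · calc |x| ^ 3 ≤ (M ^ 2) ^ 3 := by gcongr
      _ = M ^ 6 := by ring
  · calc y ^ 2 = |y| ^ 2 := (sq_abs y).symm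
      _ ≤ (M ^ 3) ^ 2 := by gcongr
      _ = M ^ 6 := by ring

theorem htl_fin {L : Type} [Field L] [NumberField L] (w : FinitePlace L) (a b X Y c u v : L) (m : ℝ)
    (ha : w a ≤ m) (hb : w b ≤ m) (hm : m ≤ 1) (hu : w u ≤ 1) (hv : w v ≤ 1)
    (h2 : w 2 ≤ 1) (hx : X = a ^ 2 - a * b + b ^ 2)
    (hy : Y = (a + b) * (2 * a - b) * (2 * b - a)) (hc : c = u * X + v * Y) : w c ≤ m ^ 2 := by
  have hm0 : 0 ≤ m := (apply_nonneg w a).trans ha
  have hadd : ∀ s t : L, ∀ r : ℝ, w s ≤ r → w t ≤ r → w (s + t) ≤ r := fun s t r h1 h2 =>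
    (FinitePlace.add_le w s t).trans (max_le h1 h2)
  have hsub : ∀ s t : L, ∀ r : ℝ, w s ≤ r → w t ≤ r → w (s - t) ≤ r := fun s t r h1 h2 => by
    rw [sub_eq_add_neg]
    exact hadd _ _ _ h1 (by rwa [map_neg_eq_map])
  have hmul : ∀ s t : L, ∀ r : ℝ, w s ≤ 1 → w t ≤ r → w (s * t) ≤ r := fun s t r h1 h2 => by
    rw [map_mul]
    calc w s * w t ≤ 1 * r := mul_le_mul h1 h2 (apply_nonneg _ _) zero_le_one
      _ = r := one_mul r
  have hsq : ∀ s t : L, w s ≤ m → w t ≤ m → w (s * t) ≤ m ^ 2 := fun s t h1 h2 => by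
    rw [map_mul, sq]
    exact mul_le_mul h1 h2 (apply_nonneg _ _) hm0
  rw [hc]
  refine hadd _ _ _ (hmul _ _ _ hu ?_) (hmul _ _ _ hv ?_)
  · rw [hx, sq, sq]
    exact hadd _ _ _ (hsub _ _ _ (hsq _ _ ha ha) (hsq _ _ ha hb)) (hsq _ _ hb hb)
  · rw [hy, mul_assoc]
    exact hmul _ _ _ ((hadd _ _ _ ha hb).trans hm)
      (hsq _ _ (hsub _ _ _ (hmul _ _ _ h2 ha) hb) (hsub _ _ _ (hmul _ _ _ h2 hb) ha))

theorem htl_row (hPF : PF_s) (hVAL : VAL_s) (hALG : ALG_s) : HTL_s := by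
  classical
  intro L _ _ x y t1 t2 t3 hC
  obtain ⟨⟨i1, i2, i3⟩, ⟨-, n13, n23⟩, -, -, hps, -, ⟨hψ, -⟩, -⟩ := hALG L x y t1 t2 t3 hC.toCub0
  obtain ⟨-, hsum, har, hex, -, hht⟩ := hPF L
  have hz := hC.ne
  have hg : Int.gcd x y ≠ 0 := by
    intro h
    obtain ⟨hx, hy⟩ := Int.gcd_eq_zero_iff.mp h
    apply hz
    rw [hx, hy]; norm_num
  set g := Int.gcd x y with hgd
  set a := t1 - t3 with had
  set b := t2 - t3 with hbd
  have ha0 : a ≠ 0 := sub_ne_zero.mpr n13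
  have hb0 : b ≠ 0 := sub_ne_zero.mpr n23
  have hc0 : ((54 * g : ℕ) : L) ≠ 0 := Nat.cast_ne_zero.mpr (mul_ne_zero (by norm_num) hg)
  have hx9 : 9 * (x : L) = a ^ 2 - a * b + b ^ 2 := by
    rw [had, hbd]
    linear_combination 3 * hC.s2 - (t1 + t2 + t3) * hC.s1
  have hy54 : 54 * (y : L) = (a + b) * (2 * a - b) * (2 * b - a) := by
    have e3 : t3 = -t1 - t2 := by linear_combination hC.s1
    have s3 := hC.s3
    rw [had, hbd]
    rw [e3] at s3 ⊢
    linear_combination 27 * s3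
  obtain ⟨V, hV, -, hU⟩ := hex {ps x t1 t2, b, ((54 * g : ℕ) : L)} ∅ (by
    intro s hs
    simp only [Finset.mem_insert, Finset.mem_singleton] at hs
    rcases hs with rfl | rfl | rfl
    · exact hψ
    · exact hb0
    · exact hc0)
  have U1 := hU (ps x t1 t2) (by simp)
  have U2 := hU b (by simp)
  have U3 := hU ((54 * g : ℕ) : L) (by simp)
  set Λ := Real.log (max (|(x : ℝ)| ^ 3) ((y : ℝ) ^ 2)) with hΛ
  set c := Real.log ((54 * g : ℕ) : ℝ) with hcd
  have hmax : 0 < max (|(x : ℝ)| ^ 3) ((y : ℝ) ^ 2) := by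
    by_cases hx : x = 0
    · have hy : y ≠ 0 := by
        intro hy
        apply hz
        rw [hx, hy]; norm_num
      have : (y : ℝ) ≠ 0 := Int.cast_ne_zero.mpr hy
      exact lt_max_of_lt_right (by positivity)
    · have : (x : ℝ) ≠ 0 := Int.cast_ne_zero.mpr hx
      exact lt_max_of_lt_left (by positivity)
  have hloc : ∀ v : Pl L, ar v * (Λ / 6 - c / 2) + lg v ((54 * g : ℕ) : L) / 2 - lg v b ≤
      max (lg v (ps x t1 t2)) 0 := by
    intro v
    have pa : 0 < av v a := (av v).pos ha0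
    have pb : 0 < av v b := (av v).pos hb0
    have e1 : lg v (ps x t1 t2) = lg v a - lg v b := by
      rw [hps]
      unfold lg
      rw [map_div₀, Real.log_div pa.ne' pb.ne']
    have pm : 0 < max (av v a) (av v b) := lt_max_of_lt_left pa
    have e2 : Real.log (max (av v a) (av v b)) - lg v b ≤ max (lg v (ps x t1 t2)) 0 := by
      rw [e1]
      rcases le_total (av v a) (av v b) with h | h
      · rw [max_eq_right h]
        exact le_max_of_le_right (by unfold lg; linarith)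
      · rw [max_eq_left h]
        exact le_max_of_le_left (by unfold lg; linarith)
    have e3 : ar v * (Λ / 6 - c / 2) + lg v ((54 * g : ℕ) : L) / 2 ≤
        Real.log (max (av v a) (av v b)) := by
      rcases v with φ | w
      · have k1 : lg (Sum.inl φ : Pl L) ((54 * g : ℕ) : L) = c := by
          show Real.log ‖φ ((54 * g : ℕ) : L)‖ = c
          rw [map_natCast, Complex.norm_natCast]
        have k2 : max (|(x : ℝ)| ^ 3) ((y : ℝ) ^ 2) ≤
            (max (av (Sum.inl φ : Pl L) a) (av (Sum.inl φ : Pl L) b)) ^ 6 := by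
          refine htl_arch (φ a) (φ b) x y _ (le_max_left _ _) (le_max_right _ _) ?_ ?_
          · have := congrArg φ hx9
            simpa [map_ofNat] using this
          · have := congrArg φ hy54
            simpa [map_ofNat] using this
        have k3 := Real.log_le_log hmax k2
        rw [Real.log_pow] at k3
        rw [k1]
        have k4 : ar (Sum.inl φ : Pl L) = 1 := rfl
        rw [k4]
        push_cast at k3
        linarith
      · obtain ⟨-, -, hint, -⟩ := hVAL L w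
        have k4 : ar (Sum.inr w : Pl L) = 0 := rfl
        have k1 : w ((54 * g : ℕ) : L) ≤ (max (w a) (w b)) ^ 2 := by
          refine htl_fin w a b (9 * (x : L)) (54 * (y : L)) _ ((6 * Int.gcdA x y : ℤ) : L)
            ((Int.gcdB x y : ℤ) : L) _ (le_max_left _ _) (le_max_right _ _)
            (max_le (hint _ (i1.sub i3)) (hint _ (i2.sub i3))) (hint _ (isIntegral_intCast _))
            (hint _ (isIntegral_intCast _)) ?_ hx9 hy54 ?_
          · simpa using hint _ (isIntegral_natCast (R := ℤ) (B := L) 2)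
          · have h1 : ((g : ℤ) : L) = ((x * Int.gcdA x y + y * Int.gcdB x y : ℤ) : L) := by
              rw [hgd, Int.gcd_eq_gcd_ab]
            push_cast at h1 ⊢
            linear_combination 54 * h1
        have k2 := Real.log_le_log (FinitePlace.pos_iff.mpr hc0) k1
        rw [Real.log_pow] at k2
        rw [k4]
        show 0 * (Λ / 6 - c / 2) + Real.log (w ((54 * g : ℕ) : L)) / 2 ≤ Real.log (max (w a) (w b))
        push_cast at k2 ⊢
        linarith
    linarith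
  have htot : (finrank ℚ L : ℝ) * (Λ / 6 - c / 2) ≤ ht (ps x t1 t2) := by
    rw [hht V _ U1]
    refine le_trans (le_of_eq ?_) (Finset.sum_le_sum fun v _ => hloc v)
    rw [Finset.sum_sub_distrib, Finset.sum_add_distrib, ← Finset.sum_mul, ← Finset.sum_div,
      har V hV, hsum V hV _ U2, hsum V hV _ U3]
    ring
  have hht0 : 0 ≤ ht (ps x t1 t2) := by
    rw [hht V _ U1]
    exact Finset.sum_nonneg fun v _ => le_max_right _ _
  have hd : (1 : ℝ) ≤ finrank ℚ L := by exact_mod_cast (Module.finrank_pos (R := ℚ) (M := L))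
  have hg1 : (1 : ℝ) ≤ g := by exact_mod_cast Nat.one_le_iff_ne_zero.mpr hg
  have hlg : 0 ≤ Real.log g := Real.log_nonneg hg1
  have hc : c ≤ 6 + Real.log g := by
    rw [hcd, Nat.cast_mul, Real.log_mul (by norm_num) (by linarith)]
    have h1 : Real.log ((54 : ℕ) : ℝ) ≤ Real.log (2 ^ 6) := Real.log_le_log (by norm_num) (by norm_num)
    rw [Real.log_pow] at h1
    have h2 := Real.log_two_lt_d9
    push_cast at h1 ⊢
    linarith
  have hfin : Λ / 6 - c / 2 ≤ ht (ps x t1 t2) := by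
    rcases le_total (Λ / 6 - c / 2) 0 with h | h
    · linarith
    · nlinarith
  linarith

theorem gcd_pow_dvd (p : ℕ) (hp : p.Prime) (x : ℤ) (a k n : ℕ) (hk : k * n < a + n)
    (h : (p : ℤ) ^ a ∣ x ^ n) : (p : ℤ) ^ k ∣ x := by
  rcases eq_or_ne x 0 with rfl | hx
  · exact dvd_zero _
  have hx' : x.natAbs ≠ 0 := Int.natAbs_ne_zero.mpr hx
  have h1 : p ^ a ∣ x.natAbs ^ n := by
    have := Int.natAbs_dvd_natAbs.mpr h
    simpa [Int.natAbs_pow] using this
  have h2 : a ≤ (x.natAbs ^ n).factorization p :=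
    (hp.pow_dvd_iff_le_factorization (pow_ne_zero _ hx')).mp h1
  rw [Nat.factorization_pow] at h2
  simp only [Finsupp.smul_apply, smul_eq_mul] at h2
  have h3 : k ≤ x.natAbs.factorization p := by
    by_contra hc
    have h4 : x.natAbs.factorization p + 1 ≤ k := by omega
    have h5 : (x.natAbs.factorization p + 1) * n ≤ k * n := Nat.mul_le_mul_right _ h4
    nlinarith
  have h4 : p ^ k ∣ x.natAbs := (hp.pow_dvd_iff_le_factorization hx').mpr h3
  have := Int.natCast_dvd.mpr h4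
  simpa using this

theorem gcd_row : GCD_s := by
  intro x y hP hz
  have hg : Int.gcd x y ≠ 0 := by
    intro h
    obtain ⟨hx, hy⟩ := Int.gcd_eq_zero_iff.mp h
    apply hz
    rw [hx, hy]; norm_num
  refine ⟨⟨Nat.one_le_iff_ne_zero.mpr hg, ?_⟩, ?_⟩
  · set g := Int.gcd x y with hgd
    have hgx : (g : ℤ) ∣ x := Int.gcd_dvd_left x y
    have hgy : (g : ℤ) ∣ y := Int.gcd_dvd_right x y
    have hz6 : (6 * (x ^ 3 - y ^ 2)).natAbs ≠ 0 :=
      Int.natAbs_ne_zero.mpr (mul_ne_zero (by norm_num) hz)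
    have hsub : g.primeFactors ⊆ Qs x y := by
      intro q hq
      have hq1 := Nat.prime_of_mem_primeFactors hq
      have hq2 : (q : ℤ) ∣ (g : ℤ) := Int.natCast_dvd_natCast.mpr (Nat.dvd_of_mem_primeFactors hq)
      refine Nat.mem_primeFactors.mpr ⟨hq1, ?_, hz6⟩
      apply Int.natCast_dvd.mp
      exact Dvd.dvd.mul_left (dvd_sub (dvd_pow (hq2.trans hgx) (by norm_num))
        (dvd_pow (hq2.trans hgy) (by norm_num))) _
    have hfac : ∀ q ∈ g.primeFactors, g.factorization q ≤ 2 := by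
      intro q hq
      have hq1 := Nat.prime_of_mem_primeFactors hq
      by_contra hc
      have h3 : q ^ 3 ∣ g := (hq1.pow_dvd_iff_le_factorization hg).mpr (by omega)
      have h4 : (q : ℤ) ^ 3 ∣ (g : ℤ) := by exact_mod_cast h3
      exact hP q hq1 ⟨(pow_dvd_pow _ (by norm_num)).trans (h4.trans hgx), h4.trans hgy⟩
    have hle : g ≤ (∏ q ∈ Qs x y, q) ^ 2 := by
      calc g = ∏ q ∈ g.primeFactors, q ^ g.factorization q := by
            conv_lhs => rw [← Nat.prod_factorization_pow_eq_self hg]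
            rfl
        _ ≤ ∏ q ∈ g.primeFactors, q ^ 2 := by
            apply Finset.prod_le_prod'
            intro q hq
            exact Nat.pow_le_pow_right (Nat.prime_of_mem_primeFactors hq).pos (hfac q hq)
        _ ≤ ∏ q ∈ Qs x y, q ^ 2 := by
            apply Finset.prod_le_prod_of_subset_of_one_le' hsub
            intro q hq _
            exact Nat.one_le_pow _ _ (Nat.prime_of_mem_primeFactors hq).pos
        _ = (∏ q ∈ Qs x y, q) ^ 2 := Finset.prod_pow _ _ _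
    have hle' : (g : ℝ) ≤ Rad x y ^ 2 := by
      have h1 : (g : ℝ) ≤ (((∏ q ∈ Qs x y, q) ^ 2 : ℕ) : ℝ) := Nat.cast_le.mpr hle
      rw [Nat.cast_pow, Nat.cast_prod] at h1
      exact h1
    have hgpos : (0 : ℝ) < g := by exact_mod_cast Nat.pos_of_ne_zero hg
    calc Real.log g ≤ Real.log (Rad x y ^ 2) := Real.log_le_log hgpos hle'
      _ = 2 * Real.log (Rad x y) := by rw [Real.log_pow]; norm_num
  · intro p hp hx hy
    by_cases h3 : (p : ℤ) ^ 3 ∣ x ^ 3 - y ^ 2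
    · right
      have hx3 : (p : ℤ) ^ 3 ∣ x ^ 3 := pow_dvd_pow_of_dvd hx 3
      have hy2 : (p : ℤ) ^ 3 ∣ y ^ 2 := by
        have := dvd_sub hx3 h3
        rwa [sub_sub_cancel] at this
      have hy' : (p : ℤ) ^ 2 ∣ y := gcd_pow_dvd p hp y 3 2 2 (by norm_num) hy2
      refine ⟨hy', fun h5 => ?_⟩
      have h4 : (p : ℤ) ^ 4 ∣ x ^ 3 - y ^ 2 := (pow_dvd_pow _ (by norm_num)).trans h5
      have hy4 : (p : ℤ) ^ 4 ∣ y ^ 2 := by
        have := pow_dvd_pow_of_dvd hy' 2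
        rwa [← pow_mul] at this
      have hx4 : (p : ℤ) ^ 4 ∣ x ^ 3 := by
        have := dvd_add h4 hy4
        rwa [sub_add_cancel] at this
      have hx2 : (p : ℤ) ^ 2 ∣ x := gcd_pow_dvd p hp x 4 2 3 (by norm_num) hx4
      have hx5 : (p : ℤ) ^ 5 ∣ x ^ 3 := by
        have := pow_dvd_pow_of_dvd hx2 3
        rw [← pow_mul] at this
        exact (pow_dvd_pow _ (by norm_num)).trans this
      have hy5 : (p : ℤ) ^ 5 ∣ y ^ 2 := by
        have := dvd_sub hx5 h5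
        rwa [sub_sub_cancel] at this
      exact hP p hp ⟨hx2, gcd_pow_dvd p hp y 5 3 2 (by norm_num) hy5⟩
    · exact Or.inl h3

theorem exc_row (hVAL : VAL_s) (hALG : ALG_s) (hGCD : GCD_s) : EXC_s := by
  intro L _ _ x y t1 t2 t3 hC p w hp h5 hwp hx hy
  obtain ⟨⟨i1, i2, i3⟩, ⟨n12, n13, n23⟩, hD, -, -, hps, -⟩ := hALG L x y t1 t2 t3 hC.toCub0
  obtain ⟨-, -, hint, -, hpr⟩ := hVAL L w
  obtain ⟨-, -, hlow, hdv⟩ := hpr p hp hwp
  have hz := hC.ne
  have hn5 : ¬(p : ℤ) ^ 5 ∣ x ^ 3 - y ^ 2 := by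
    rcases (hGCD x y hC.prim hz).2 p hp hx hy with h | h
    · exact fun h5 => h ((pow_dvd_pow _ (by norm_num)).trans h5)
    · exact h.2
  have hone : ∀ n : ℤ, ¬(p : ℤ) ∣ n → w (n : L) = 1 := by
    intro n hn
    have h1 : w (n : L) ≤ 1 := hint _ (isIntegral_intCast n)
    by_contra hc
    exact hn (hdv n (lt_of_le_of_ne h1 hc))
  obtain ⟨k, n, hn, hkn⟩ : ∃ (k : ℕ) (n : ℤ), ¬(p : ℤ) ∣ n ∧ x ^ 3 - y ^ 2 = (p : ℤ) ^ k * n := by
    obtain ⟨k, m, hm, hkm⟩ := Nat.exists_eq_pow_mul_and_not_dvd (Int.natAbs_ne_zero.mpr hz) p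
      hp.ne_one
    rcases Int.natAbs_eq (x ^ 3 - y ^ 2) with h | h
    · refine ⟨k, m, fun hc => hm (Int.natCast_dvd_natCast.mp hc), ?_⟩
      rw [h, hkm]; push_cast; ring
    · refine ⟨k, -m, fun hc => hm (Int.natCast_dvd_natCast.mp (dvd_neg.mp hc)), ?_⟩
      rw [h, hkm]; push_cast; ring
  have hk : k ≤ 4 := by
    by_contra hc
    apply hn5
    rw [hkn]
    exact Dvd.dvd.mul_right (pow_dvd_pow _ (by omega)) _
  have h108 : w (108 : L) = 1 := by
    have : ¬(p : ℤ) ∣ 108 := by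
      intro hc
      have h1 : p ∣ 2 ^ 2 * 3 ^ 3 := by
        have : (p : ℤ) ∣ ((2 ^ 2 * 3 ^ 3 : ℕ) : ℤ) := by simpa using hc
        exact Int.natCast_dvd_natCast.mp this
      rcases (Nat.Prime.dvd_mul hp).mp h1 with h | h
      · have := Nat.le_of_dvd (by norm_num) (hp.dvd_of_dvd_pow h); omega
      · have := Nat.le_of_dvd (by norm_num) (hp.dvd_of_dvd_pow h); omega
    simpa using hone 108 this
  have hp1 : (1 : ℝ) ≤ p := by exact_mod_cast hp.one_le
  have hp0 : (0 : ℝ) < p := by linarith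
  have hwp0 : ((p : ℝ) ^ 6)⁻¹ ≤ w (p : L) := by
    refine le_trans ?_ hlow
    exact inv_anti₀ (by positivity) (pow_le_pow_right₀ hp1 hC.d6)
  have hwz : ((p : ℝ) ^ 12)⁻¹ ^ 2 ≤ w ((x ^ 3 - y ^ 2 : ℤ) : L) := by
    rw [hkn, Int.cast_mul, map_mul, hone n hn, mul_one, Int.cast_pow, map_pow, Int.cast_natCast]
    calc ((p : ℝ) ^ 12)⁻¹ ^ 2 = (((p : ℝ) ^ 6)⁻¹) ^ 4 := by field_simp
      _ ≤ w (p : L) ^ 4 := pow_le_pow_left₀ (by positivity) hwp0 4
      _ ≤ w (p : L) ^ k := pow_le_pow_of_le_one (apply_nonneg _ _) hwp.le hk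
  have hD' : (w (t1 - t2) * w (t1 - t3) * w (t2 - t3)) ^ 2 = w ((x ^ 3 - y ^ 2 : ℤ) : L) := by
    have := congrArg w hD
    rwa [map_pow, map_mul, map_mul, map_mul, h108, one_mul] at this
  have h13 : w (t1 - t3) ≤ 1 := hint _ (i1.sub i3)
  have h23 : w (t2 - t3) ≤ 1 := hint _ (i2.sub i3)
  have p12 : 0 < w (t1 - t2) := FinitePlace.pos_iff.mpr (sub_ne_zero.mpr n12)
  have p13 : 0 < w (t1 - t3) := FinitePlace.pos_iff.mpr (sub_ne_zero.mpr n13)
  have p23 : 0 < w (t2 - t3) := FinitePlace.pos_iff.mpr (sub_ne_zero.mpr n23)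
  have h1 : ((p : ℝ) ^ 12)⁻¹ ≤ w (t1 - t2) * w (t1 - t3) * w (t2 - t3) := by
    rw [← hD'] at hwz
    exact (pow_le_pow_iff_left₀ (by positivity) (by positivity) (by norm_num)).mp hwz
  have h2 : w (t1 - t2) * w (t1 - t3) * w (t2 - t3) ≤ w (t1 - t2) / w (t2 - t3) := by
    calc w (t1 - t2) * w (t1 - t3) * w (t2 - t3) ≤ w (t1 - t2) * 1 * 1 := by gcongr
      _ = w (t1 - t2) / 1 := by ring
      _ ≤ w (t1 - t2) / w (t2 - t3) := by gcongr
  have h3 : lg (Sum.inr w) (ps x t1 t2 - 1) = Real.log (w (t1 - t2) / w (t2 - t3)) := by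
    rw [hps, ← map_div₀]; rfl
  have h4 : Real.log (((p : ℝ) ^ 12)⁻¹) ≤ Real.log (w (t1 - t2) / w (t2 - t3)) :=
    Real.log_le_log (by positivity) (h1.trans h2)
  rw [Real.log_inv, Real.log_pow] at h4
  rw [h3]
  push_cast at h4
  linarith

theorem br_row (hVAL : VAL_s) (hALG : ALG_s) (hROOT : ROOT_s) : BR_s := by
  intro L _ _ x y t1 t2 t3 hC p w hp h5 hwp hxy hψ hT
  obtain ⟨⟨-, -, i3⟩, -, -, -, -, -, -, -, hfix, -, hperm, hloc, hnear, -⟩ :=
    hALG L x y t1 t2 t3 hC.toCub0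
  obtain ⟨hq2, -, hint, -, -⟩ := hVAL L w
  obtain ⟨-, h12, -⟩ := hnear w hψ
  obtain ⟨h13, h23⟩ := hloc w p hp h5 hwp hxy h12
  obtain ⟨g, hg, hg1⟩ : ∃ g : L ≃ₐ[ℚ] L, (∀ x : L, w x ≤ 1 → w (g x - x) < 1) ∧ g ≠ 1 := by
    by_contra hcon
    apply hT
    intro g hg
    by_contra h1
    exact hcon ⟨g, hg, h1⟩
  have h3 : g t3 = t3 := by
    have h := hg t3 (hint t3 i3)
    rcases (hperm g).2.2 with h1 | h1 | h1
    · rw [h1, h13] at h; exact absurd h (lt_irrefl _)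
    · rw [h1, h23] at h; exact absurd h (lt_irrefl _)
    · exact h1
  have hsw : Sw t1 t2 g := (hfix g h3).resolve_left hg1
  have key : ∀ a : L, Adw t1 t2 w a → w (a ^ 2 - 1) < 1 := by
    intro a ha
    have ha0 : a ≠ 0 := by
      intro h0
      have h := ha.1
      rw [h0, map_zero] at h
      exact zero_ne_one h
    have h := hg a ha.1.le
    rw [ha.2 g hsw] at h
    have e : a ^ 2 - 1 = -(a * (a⁻¹ - a)) := by field_simp; ring
    rw [e, map_neg_eq_map, map_mul, ha.1, one_mul]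
    exact h
  obtain ⟨col, hc1, hc2⟩ := hROOT L w 2 (by norm_num)
  refine ⟨col, fun a ha => ?_, fun a a' ha ha' hcc v hv => ?_⟩
  · have h := hc1 a ha.1 (key a ha)
    have h' : col a + 1 ≤ 2 := h
    exact_mod_cast h'
  · rw [mem_singleton] at hv
    subst hv
    have h := hc2 a a' ha.1 (key a ha) ha'.1 (key a' ha') hcc
    rw [Real.exp_neg, Real.exp_log (by linarith)]
    exact h

theorem be_row (hVAL : VAL_s) (hALG : ALG_s) (hINER : INER_s) : BE_s := by
  intro L _ _ x y t1 t2 t3 hC p w T hp h5 hwp hxy hT hψ hTri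
  obtain ⟨-, -, hdisc, -, -, hps, -, -, -, -, -, hloc, hnear, -⟩ :=
    hALG L x y t1 t2 t3 hC.toCub0
  obtain ⟨hq2, -, hint, -, hpr⟩ := hVAL L w
  have hq1 : 1 < nq w := by linarith
  have hlt : w (ps x t1 t2 - 1) < 1 := by
    rw [hψ]
    exact inv_lt_one_of_one_lt₀ (one_lt_pow₀ hq1 (by omega))
  obtain ⟨-, h12, -⟩ := hnear w hlt
  obtain ⟨h13, h23⟩ := hloc w p hp h5 hwp hxy h12
  have hdiv := (hpr p hp hwp).2.2.2
  have hunit : ∀ n : ℤ, ¬(p : ℤ) ∣ n → w (n : L) = 1 := by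
    intro n hn
    have h1 : w (n : L) ≤ 1 := hint _ (by
      have h := isIntegral_algebraMap (R := ℤ) (A := L) (x := n)
      rwa [eq_intCast] at h)
    rcases h1.lt_or_eq with h | h
    · exact absurd (hdiv n h) hn
    · exact h
  have hwp' : w (p : L) = (nq w)⁻¹ := hINER L hC.gal w p hp hwp hTri
  have h12' : w (t1 - t2) = (nq w ^ T)⁻¹ := by
    rw [hps, map_div₀, h23, div_one] at hψ
    exact hψ
  have h108 : w (108 : L) = 1 := by
    have h := hunit 108 (by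
      intro h
      have h' : p ∣ 2 ^ 2 * 3 ^ 3 := by exact_mod_cast h
      rcases (Nat.Prime.dvd_mul hp).1 h' with h2 | h2
      · have := Nat.le_of_dvd (by norm_num) (hp.dvd_of_dvd_pow h2); omega
      · have := Nat.le_of_dvd (by norm_num) (hp.dvd_of_dvd_pow h2); omega)
    exact_mod_cast h
  have hz : w ((x ^ 3 - y ^ 2 : ℤ) : L) = ((nq w)⁻¹) ^ (2 * T) := by
    have h := congrArg w hdisc
    rw [map_pow, map_mul, map_mul, map_mul, h108, h13, h23, h12'] at h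
    rw [mul_one, mul_one, one_mul] at h
    rw [← h, inv_pow, inv_pow, ← pow_mul, mul_comm]
  obtain ⟨k, n, hn, hzn⟩ : ∃ (k : ℕ) (n : ℤ), ¬(p : ℤ) ∣ n ∧ x ^ 3 - y ^ 2 = (p : ℤ) ^ k * n :=
    WfDvdMonoid.max_power_factor hC.ne (Nat.prime_iff_prime_int.1 hp).irreducible
  have hk : k = 2 * T := by
    rw [hzn] at hz
    push_cast at hz
    rw [map_mul, map_pow, hwp', hunit n hn, mul_one] at hz
    exact pow_right_injective₀ (inv_pos.2 (by linarith)) (inv_lt_one_of_one_lt₀ hq1).ne hz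
  exact ⟨n, by rw [← hk]; exact hzn, hn⟩

theorem bu_col (hROOT : ROOT_s) {L : Type} [Field L] [NumberField L] (t1 t2 : L)
    (w : FinitePlace L) (hq : 0 < nq w) (p k : ℕ) (hk : 1 ≤ k) (hkp : k ≤ p + 1)
    (key : ∀ a : L, Adw t1 t2 w a → w (a ^ k - 1) < 1) (H : Finset (Pl L))
    (hH : ∀ v ∈ H, ∀ a a' : L, Adw t1 t2 w a → Adw t1 t2 w a' →
      av v (a / a' - 1) = w (a / a' - 1)) :
    Col (p + 1) (Adw t1 t2 w) H (fun _ => Real.log (nq w)) := by
  obtain ⟨col, hc1, hc2⟩ := hROOT L w k hk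
  refine ⟨col, fun a ha => ?_, fun a a' ha ha' hcc v hv => ?_⟩
  · have h := hc1 a ha.1 (key a ha)
    have h' : col a + 1 ≤ p + 1 := by omega
    exact_mod_cast h'
  · have h := hc2 a a' ha.1 (key a ha) ha'.1 (key a' ha') hcc
    rw [hH v hv a a' ha ha', Real.exp_neg, Real.exp_log hq]
    exact h

theorem bu_ne {L : Type} [Field L] [NumberField L] (w : FinitePlace L) (a : L) (h : w a = 1) :
    a ≠ 0 := by
  intro h0
  rw [h0, map_zero] at h
  exact zero_ne_one h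

theorem bu_fix {L : Type} [Field L] [NumberField L] (w : FinitePlace L) (t1 t2 t3 : L)
    (g : L ≃ₐ[ℚ] L) (hg : ∀ x : L, w (g x) = w x) (h12 : w (t1 - t2) < 1)
    (h13 : w (t1 - t3) = 1) (h23 : w (t2 - t3) = 1) (hne : t1 ≠ t2)
    (p1 : g t1 = t1 ∨ g t1 = t2 ∨ g t1 = t3) (p2 : g t2 = t1 ∨ g t2 = t2 ∨ g t2 = t3)
    (p3 : g t3 = t1 ∨ g t3 = t2 ∨ g t3 = t3) : g t3 = t3 := by
  have a13 : w (g t1 - g t3) = 1 := by rw [← map_sub, hg, h13]
  have a23 : w (g t2 - g t3) = 1 := by rw [← map_sub, hg, h23]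
  have h21 : w (t2 - t1) < 1 := by rw [← neg_sub, map_neg_eq_map]; exact h12
  have h0 : ∀ z : L, w (z - z) ≠ 1 := by
    intro z
    rw [sub_self, map_zero]
    exact zero_ne_one
  have hinj : g t1 ≠ g t2 := fun h => hne (g.injective h)
  rcases p3 with h3 | h3 | h3
  · exfalso
    rw [h3] at a13 a23
    rcases p1 with h1 | h1 | h1
    · rw [h1] at a13; exact h0 _ a13
    · rw [h1] at a13; exact h21.ne a13
    · rcases p2 with h2 | h2 | h2
      · rw [h2] at a23; exact h0 _ a23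
      · rw [h2] at a23; exact h21.ne a23
      · exact hinj (h1.trans h2.symm)
  · exfalso
    rw [h3] at a13 a23
    rcases p1 with h1 | h1 | h1
    · rw [h1] at a13; exact h12.ne a13
    · rw [h1] at a13; exact h0 _ a13
    · rcases p2 with h2 | h2 | h2
      · rw [h2] at a23; exact h12.ne a23
      · rw [h2] at a23; exact h0 _ a23
      · exact hinj (h1.trans h2.symm)
  · exact h3

theorem bu_row (hVAL : VAL_s) (hALG : ALG_s) (hGAL : GAL_s) (hFROB : FROB_s) (hRES : RES_s) (hROOT : ROOT_s) : BU_s := by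
  intro L _ _ x y t1 t2 t3 hC p w hp h5 hwp hxy hψ hTri
  obtain ⟨-, ⟨n12, -, -⟩, -, -, -, hps, -, -, hfix, hsw3, hperm, hloc, hnear, -⟩ :=
    hALG L x y t1 t2 t3 hC.toCub0
  obtain ⟨hq2, -, -, -, hpr⟩ := hVAL L w
  have hq0 : 0 < nq w := by linarith
  obtain ⟨-, h12, -⟩ := hnear w hψ
  obtain ⟨h13, h23⟩ := hloc w p hp h5 hwp hxy h12
  obtain ⟨g, hg, hgp⟩ := hFROB L hC.gal w p hp hwp
  have h3 : g t3 = t3 :=
    bu_fix w t1 t2 t3 g hg h12 h13 h23 n12 (hperm g).1 (hperm g).2.1 (hperm g).2.2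
  have hp0 : (0 : ℝ) < p := by exact_mod_cast hp.pos
  have hlp : 0 ≤ Real.log p := Real.log_natCast_nonneg p
  have hle : Real.log p ≤ Real.log (nq w) := Real.log_le_log hp0 (hpr p hp hwp).1
  have hdg : (0 : ℝ) ≤ (dg t1 : ℝ) := Nat.cast_nonneg _
  -- a swap that fixes the place forces residue degree at least two
  have hsq : ∀ τ : L ≃ₐ[ℚ] L, Sw t1 t2 τ → (∀ z : L, w (τ z) = w z) →
      2 * Real.log p ≤ Real.log (nq w) := by
    intro τ hτ hw
    rcases hRES L w p τ hp hwp hw with h | h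
    · exfalso
      have h1 := hτ.1
      rw [hTri τ h] at h1
      exact n12 h1
    · have h2 := Real.log_le_log (by positivity) h
      rw [Real.log_pow] at h2
      exact_mod_cast h2
  have hd2 : (∃ τ, Sw t1 t2 τ) → (finrank ℚ L : ℝ) ≤ 2 * dg t1 := by
    intro h
    rcases hC.dich with h1 | h1
    · exact_mod_cast h1.2
    · exact absurd h h1.1
  have single : ∀ k : ℕ, 1 ≤ k → k ≤ p + 1 → (∀ a : L, Adw t1 t2 w a → w (a ^ k - 1) < 1) →
      finrank ℚ L * Real.log p ≤ dg t1 * Real.log (nq w) → ∃ H : Finset (Pl L),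
      Sum.inr w ∈ H ∧ H.card ≤ 2 ∧
      finrank ℚ L * Real.log p ≤ dg t1 * (H.card * Real.log (nq w)) ∧
      (∀ v ∈ H, ar v = 0 ∧ av v (ps x t1 t2 - 1) = w (ps x t1 t2 - 1)) ∧
      Col (p + 1) (Adw t1 t2 w) H (fun _ => Real.log (nq w)) := by
    intro k hk hkp key hdeg
    refine ⟨{Sum.inr w}, mem_singleton_self _, by simp, ?_, ?_, ?_⟩
    · rw [card_singleton, Nat.cast_one, one_mul]; exact hdeg
    · intro v hv
      rw [mem_singleton] at hv
      subst hv
      exact ⟨rfl, rfl⟩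
    · refine bu_col hROOT t1 t2 w hq0 p k hk hkp key _ ?_
      intro v hv a a' _ _
      rw [mem_singleton] at hv
      subst hv
      rfl
  have hdeg2 : ∀ τ : L ≃ₐ[ℚ] L, Sw t1 t2 τ → (∀ z : L, w (τ z) = w z) →
      finrank ℚ L * Real.log p ≤ dg t1 * Real.log (nq w) := by
    intro τ hτ hw
    have h1 := mul_le_mul_of_nonneg_right (hd2 ⟨τ, hτ⟩) hlp
    have h2 := mul_le_mul_of_nonneg_left (hsq τ hτ hw) hdg
    linarith
  rcases hfix g h3 with hg1 | hsw
  · have key : ∀ a : L, Adw t1 t2 w a → w (a ^ (p - 1) - 1) < 1 := by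
      intro a ha
      have h := hgp a ha.1.le
      rw [hg1, AlgEquiv.one_apply] at h
      have e : a - a ^ p = -(a * (a ^ (p - 1) - 1)) := by
        obtain ⟨k, rfl⟩ : ∃ k, p = k + 1 := ⟨p - 1, by omega⟩
        rw [Nat.add_sub_cancel]; ring
      rw [e, map_neg_eq_map, map_mul, ha.1, one_mul] at h
      exact h
    by_cases hex : ∃ τ, Sw t1 t2 τ
    · obtain ⟨τ, hτ⟩ := hex
      obtain ⟨⟨w', -, hw'⟩, -, -⟩ := hGAL L τ w
      by_cases hww : w' = w
      · subst hww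
        exact single (p - 1) (by omega) (by omega) key (hdeg2 τ hτ hw')
      · classical
        have hne : (Sum.inr w : Pl L) ≠ Sum.inr w' := fun h => hww (Sum.inr.inj h).symm
        have hcard : ({Sum.inr w, Sum.inr w'} : Finset (Pl L)).card = 2 := card_pair hne
        refine ⟨{Sum.inr w, Sum.inr w'}, mem_insert_self _ _, hcard.le, ?_, ?_, ?_⟩
        · rw [hcard]
          have h1 := mul_le_mul_of_nonneg_right (hd2 ⟨τ, hτ⟩) hlp
          have h2 := mul_le_mul_of_nonneg_left hle hdg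
          push_cast
          linarith
        · intro v hv
          rw [mem_insert, mem_singleton] at hv
          rcases hv with rfl | rfl
          · exact ⟨rfl, rfl⟩
          · refine ⟨rfl, ?_⟩
            have b12 := hw' (t1 - t2)
            have b13 := hw' (t1 - t3)
            rw [map_sub, hτ.1, hτ.2, ← neg_sub, map_neg_eq_map] at b12
            rw [map_sub, hτ.1, hsw3 τ hτ, h13] at b13
            show w' (ps x t1 t2 - 1) = w (ps x t1 t2 - 1)
            rw [hps, map_div₀, map_div₀, b12, b13, h23]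
        · refine bu_col hROOT t1 t2 w hq0 p (p - 1) (by omega) (by omega) key _ ?_
          intro v hv a a' ha ha'
          rw [mem_insert, mem_singleton] at hv
          rcases hv with rfl | rfl
          · rfl
          · have a0 := bu_ne w a ha.1
            have a0' := bu_ne w a' ha'.1
            have b1 := hw' (a' / a - 1)
            rw [map_sub, map_div₀, map_one, ha.2 τ hτ, ha'.2 τ hτ] at b1
            have e1 : a'⁻¹ / a⁻¹ - 1 = a / a' - 1 := by field_simp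
            have e2 : a' / a - 1 = -(a' / a * (a / a' - 1)) := by field_simp; ring
            rw [e1, e2, map_neg_eq_map, map_mul, map_div₀, ha.1, ha'.1, div_one, one_mul] at b1
            exact b1
    · refine single (p - 1) (by omega) (by omega) key ?_
      have hd : (finrank ℚ L : ℝ) ≤ dg t1 := by
        rcases hC.dich with h1 | h1
        · exact absurd h1.1 hex
        · exact_mod_cast h1.2
      have h1 := mul_le_mul_of_nonneg_right hd hlp
      have h2 := mul_le_mul_of_nonneg_left hle hdg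
      linarith
  · refine single (p + 1) (by omega) le_rfl ?_ (hdeg2 g hsw hg)
    intro a ha
    have a0 := bu_ne w a ha.1
    have h := hgp a ha.1.le
    rw [ha.2 g hsw] at h
    have e : a ^ (p + 1) - 1 = -(a * (a⁻¹ - a ^ p)) := by field_simp; ring
    rw [e, map_neg_eq_map, map_mul, ha.1, one_mul]
    exact h

def sqf_NS (x y : ℤ) : ℕ :=
  (∏ p ∈ (x ^ 3 - y ^ 2).natAbs.primeFactors, p) * ∏ p ∈ (Int.gcd x y).primeFactors, p

theorem sqf_gcd_ne {x y : ℤ} (h : x ^ 3 ≠ y ^ 2) : Int.gcd x y ≠ 0 := fun h0 => by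
  obtain ⟨rfl, rfl⟩ := Int.gcd_eq_zero_iff.1 h0
  simp at h

theorem sqf_NS_pos (x y : ℤ) : 0 < sqf_NS x y :=
  Nat.mul_pos (Finset.prod_pos fun _ hp => (Nat.prime_of_mem_primeFactors hp).pos)
    (Finset.prod_pos fun _ hp => (Nat.prime_of_mem_primeFactors hp).pos)

theorem sqf_add_val {x y : ℤ} (hP : Prim x y) {q : ℕ} (hq : q.Prime) (hx : (q : ℤ) ∣ x) :
    ¬(q : ℤ) ^ 5 ∣ x ^ 3 - y ^ 2 ∧ ((q : ℤ) ^ 3 ∣ x ^ 3 - y ^ 2 → (q : ℤ) ^ 2 ∣ y) := by
  have hq' : Prime (q : ℤ) := Nat.prime_iff_prime_int.1 hq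
  have q0 : (q : ℤ) ≠ 0 := hq'.ne_zero
  obtain ⟨x1, rfl⟩ := hx
  have A : (q : ℤ) ^ 3 ∣ (q * x1) ^ 3 - y ^ 2 → (q : ℤ) ^ 2 ∣ y := by
    intro h
    have h1 : (q : ℤ) ^ 3 ∣ y ^ 2 := by
      have := dvd_sub (show (q : ℤ) ^ 3 ∣ (q * x1) ^ 3 from ⟨x1 ^ 3, by ring⟩) h
      rwa [sub_sub_cancel] at this
    obtain ⟨y1, rfl⟩ := hq'.dvd_of_dvd_pow ((dvd_pow_self _ (by norm_num)).trans h1)
    rw [show ((q : ℤ) * y1) ^ 2 = q ^ 2 * y1 ^ 2 by ring, pow_succ,
      mul_dvd_mul_iff_left (pow_ne_zero 2 q0)] at h1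
    obtain ⟨y2, rfl⟩ := hq'.dvd_of_dvd_pow h1
    exact ⟨y2, by ring⟩
  refine ⟨fun h => ?_, A⟩
  obtain ⟨y2, rfl⟩ := A ((pow_dvd_pow _ (by norm_num)).trans h)
  rw [show ((q : ℤ) * x1) ^ 3 - (q ^ 2 * y2) ^ 2 = q ^ 3 * (x1 ^ 3 - q * y2 ^ 2) by ring,
    show (q : ℤ) ^ 5 = q ^ 3 * q ^ 2 by ring, mul_dvd_mul_iff_left (pow_ne_zero 3 q0)] at h
  have h1 : (q : ℤ) ∣ x1 ^ 3 := by
    have := dvd_add ((dvd_pow_self _ two_ne_zero).trans h) (dvd_mul_right (q : ℤ) (y2 ^ 2))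
    rwa [sub_add_cancel] at this
  obtain ⟨x2, rfl⟩ := hq'.dvd_of_dvd_pow h1
  rw [show ((q : ℤ) * x2) ^ 3 - q * y2 ^ 2 = q * (q * (q * x2 ^ 3) - y2 ^ 2) by ring, pow_two,
    mul_dvd_mul_iff_left q0] at h
  have h2 : (q : ℤ) ∣ y2 ^ 2 := by
    have := dvd_sub (dvd_mul_right (q : ℤ) (q * x2 ^ 3)) h
    rwa [sub_sub_cancel] at this
  obtain ⟨y3, rfl⟩ := hq'.dvd_of_dvd_pow h2
  exact hP q hq ⟨⟨x2, by ring⟩, ⟨y3, by ring⟩⟩

theorem sqf_pf_gcd {x y : ℤ} (h : x ^ 3 ≠ y ^ 2) : (Int.gcd x y).primeFactors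
    = (x ^ 3 - y ^ 2).natAbs.primeFactors.filter fun p : ℕ => (p : ℤ) ∣ x := by
  ext p
  simp only [Nat.mem_primeFactors, Finset.mem_filter, ← Int.natCast_dvd]
  constructor
  · rintro ⟨hp, hd, -⟩
    have h1 : (p : ℤ) ∣ (Int.gcd x y : ℕ) := Int.natCast_dvd_natCast.2 hd
    have hx := h1.trans (Int.gcd_dvd_left x y)
    have hy := h1.trans (Int.gcd_dvd_right x y)
    exact ⟨⟨hp, dvd_sub (hx.trans (dvd_pow_self _ (by norm_num)))
      (hy.trans (dvd_pow_self _ (by norm_num))), Int.natAbs_ne_zero.2 (sub_ne_zero.2 h)⟩, hx⟩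
  · rintro ⟨⟨hp, hd, -⟩, hx⟩
    have h1 : (p : ℤ) ∣ y ^ 2 := by
      have := dvd_sub (hx.trans (dvd_pow_self x (three_ne_zero))) hd
      rwa [sub_sub_cancel] at this
    exact ⟨hp, Int.dvd_gcd hx ((Nat.prime_iff_prime_int.1 hp).dvd_of_dvd_pow h1), sqf_gcd_ne h⟩

theorem sqf_NS_eq {x y : ℤ} (h : x ^ 3 ≠ y ^ 2) : sqf_NS x y
    = ∏ p ∈ (x ^ 3 - y ^ 2).natAbs.primeFactors, p ^ (1 + if (p : ℤ) ∣ x then 1 else 0) := by
  rw [sqf_NS, sqf_pf_gcd h, Finset.prod_filter, ← Finset.prod_mul_distrib]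
  refine Finset.prod_congr rfl fun p _ => ?_
  split_ifs <;> ring

theorem sqf_exists_a {x y : ℤ} (h : x ^ 3 ≠ y ^ 2) (hP : Prim x y) :
    ∃ (a₁ a₂ : ℕ) (k w : ℤ), 0 < a₁ ∧ 0 < a₂ ∧ IsCoprime (a₁ : ℤ) a₂ ∧
      x ^ 3 - y ^ 2 = ((a₁ : ℤ) * a₂) ^ 2 * w ∧ IsCoprime (a₁ : ℤ) x ∧ (a₂ : ℤ) ∣ x ∧
      (a₂ : ℤ) ^ 2 ∣ y ∧ (a₁ : ℤ) ^ 2 ∣ k * x - y ∧ (a₂ : ℤ) ∣ k ∧ w.natAbs ∣ sqf_NS x y ∧
      ∀ p : ℕ, p.Prime → ¬(p : ℤ) ∣ x → (p : ℤ) ∣ x ^ 3 - y ^ 2 →
        Even ((x ^ 3 - y ^ 2).natAbs.factorization p) →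
          ¬(p : ℤ) ∣ w ∧ p * w.natAbs ∣ sqf_NS x y := by
  classical
  have n0 : (x ^ 3 - y ^ 2).natAbs ≠ 0 := Int.natAbs_ne_zero.2 (sub_ne_zero.2 h)
  have hNS := sqf_NS_eq h
  obtain ⟨n, hn⟩ : ∃ n, n = (x ^ 3 - y ^ 2).natAbs := ⟨_, rfl⟩
  rw [← hn] at n0 hNS ⊢
  have pr : ∀ p ∈ n.primeFactors, p.Prime := fun _ hp => Nat.prime_of_mem_primeFactors hp
  have val : ∀ p : ℕ, p.Prime → ∀ j : ℕ, j ≤ n.factorization p ↔ (p : ℤ) ^ j ∣ x ^ 3 - y ^ 2 := by
    intro p hp j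
    rw [← hp.pow_dvd_iff_le_factorization n0, hn, ← Int.natCast_dvd]
    push_cast
    rfl
  let f : ℕ → ℕ := fun p =>
    if (p : ℤ) ∣ x then (if (p : ℤ) ^ 2 ∣ y then 1 else 0) else n.factorization p / 2
  have hf : ∀ p : ℕ, p.Prime → 2 * f p ≤ n.factorization p ∧
      n.factorization p - 2 * f p ≤ 1 + if (p : ℤ) ∣ x then 1 else 0 := by
    intro p hp
    simp only [f]
    split_ifs with h1 h2
    · have a1 : 2 ≤ n.factorization p := (val p hp 2).2
        (dvd_sub ((pow_dvd_pow_of_dvd h1 2).trans (pow_dvd_pow x (by norm_num)))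
          (h2.trans (dvd_pow_self _ two_ne_zero)))
      have a2 : ¬5 ≤ n.factorization p := fun a => (sqf_add_val hP hp h1).1 ((val p hp 5).1 a)
      omega
    · have a2 : ¬3 ≤ n.factorization p := fun a => h2 ((sqf_add_val hP hp h1).2 ((val p hp 3).1 a))
      omega
    · omega
  let S₁ := n.primeFactors.filter fun p : ℕ => ¬(p : ℤ) ∣ x
  let S₂ := n.primeFactors.filter fun p : ℕ => (p : ℤ) ∣ x
  let a₁ := ∏ p ∈ S₁, p ^ f p
  let a₂ := ∏ p ∈ S₂, p ^ f p
  let W := ∏ p ∈ n.primeFactors, p ^ (n.factorization p - 2 * f p)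
  have ea : a₁ * a₂ = ∏ p ∈ n.primeFactors, p ^ f p := by
    rw [mul_comm]; exact Finset.prod_filter_mul_prod_filter_not _ _ _
  have en : n = (a₁ * a₂) ^ 2 * W := by
    rw [ea, ← Finset.prod_pow, ← Finset.prod_mul_distrib]
    conv_lhs => rw [← Nat.prod_factorization_pow_eq_self n0]
    rw [Finsupp.prod, Nat.support_factorization]
    refine Finset.prod_congr rfl fun p hp => ?_
    rw [← pow_mul, ← pow_add]
    congr 1
    have := (hf p (pr p hp)).1
    omega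
  have c1 : IsCoprime (a₁ : ℤ) x := by
    simp only [a₁]
    push_cast
    refine IsCoprime.prod_left fun p hp => IsCoprime.pow_left ?_
    obtain ⟨m1, m2⟩ := Finset.mem_filter.1 hp
    exact (Nat.prime_iff_prime_int.1 (pr p m1)).irreducible.coprime_iff_not_dvd.2 m2
  have cop : ∀ (g : ℕ → ℕ), (S₂ : Set ℕ).Pairwise
      (Function.onFun IsCoprime fun p : ℕ => (p : ℤ) ^ g p) := by
    intro g p hp q hq hne
    refine IsCoprime.pow (Nat.isCoprime_iff_coprime.2 ?_)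
    exact (Nat.coprime_primes (pr p (Finset.mem_filter.1 hp).1)
      (pr q (Finset.mem_filter.1 hq).1)).2 hne
  have d1 : (a₂ : ℤ) ∣ x := by
    simp only [a₂]
    push_cast
    refine Finset.prod_dvd_of_coprime (cop f) fun p hp => ?_
    have h1 := (Finset.mem_filter.1 hp).2
    simp only [f, if_pos h1]
    split_ifs <;> simp [h1]
  have d2 : (a₂ : ℤ) ^ 2 ∣ y := by
    simp only [a₂]
    push_cast
    rw [← Finset.prod_pow]
    simp only [← pow_mul]
    refine Finset.prod_dvd_of_coprime (cop fun p => f p * 2) fun p hp => ?_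
    have h1 := (Finset.mem_filter.1 hp).2
    simp only [f, if_pos h1]
    split_ifs with h2 <;> simp [h2]
  have c2 : IsCoprime (a₁ : ℤ) a₂ := c1.of_isCoprime_of_dvd_right d1
  obtain ⟨u, v, huv⟩ := (c1.pow_left (m := 2))
  obtain ⟨s, t, hst⟩ := (c2.pow_left (m := 2))
  have hs : (x ^ 3 - y ^ 2).sign.natAbs = 1 := Int.natAbs_sign_of_ne_zero (sub_ne_zero.2 h)
  have hw : ((x ^ 3 - y ^ 2).sign * (W : ℤ)).natAbs = W := by
    rw [Int.natAbs_mul, hs, one_mul, Int.natAbs_natCast]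
  refine ⟨a₁, a₂, t * a₂ * v * y, (x ^ 3 - y ^ 2).sign * W,
    Finset.prod_pos fun p hp => pow_pos (pr p (Finset.mem_filter.1 hp).1).pos _,
    Finset.prod_pos fun p hp => pow_pos (pr p (Finset.mem_filter.1 hp).1).pos _, c2, ?_, c1, d1, d2,
    ⟨-(s * y) - t * a₂ * u * y, by linear_combination (t * a₂ * y) * huv + y * hst⟩,
    ⟨t * v * y, by ring⟩, ?_, fun p hp h1 h2 h3 => ?_⟩
  · have e1 := Int.sign_mul_natAbs (x ^ 3 - y ^ 2)
    rw [← hn, en] at e1
    push_cast at e1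
    linear_combination -e1
  · rw [hw, hNS]
    exact Finset.prod_dvd_prod_of_dvd _ _ fun p hp => pow_dvd_pow _ (hf p (pr p hp)).2
  · have pm : p ∈ n.primeFactors := Nat.mem_primeFactors.2 ⟨hp, hn ▸ Int.natCast_dvd.1 h2, n0⟩
    have z0 : n.factorization p - 2 * f p = 0 := by
      simp only [f, if_neg h1]
      obtain ⟨j, hj⟩ := h3
      omega
    rw [Int.natCast_dvd, hw]
    constructor
    · intro hd
      obtain ⟨q, hq, hd⟩ := (Prime.dvd_finsetProd_iff hp.prime _).1 hd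
      by_cases e : q = p
      · rw [e, z0, pow_zero] at hd
        exact hp.one_lt.ne' (Nat.dvd_one.1 hd)
      · exact e ((Nat.prime_dvd_prime_iff_eq hp (pr q hq)).1 (hp.dvd_of_dvd_pow hd)).symm
    · rw [hNS, ← Finset.mul_prod_erase _ _ pm]
      simp only [W]
      rw [← Finset.mul_prod_erase _ _ pm, z0, pow_zero, one_mul]
      exact mul_dvd_mul (dvd_pow_self _ (by omega)) (Finset.prod_dvd_prod_of_dvd _ _
        fun q hq => pow_dvd_pow _ (hf q (pr q (Finset.mem_of_mem_erase hq))).2)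

theorem sqf_le (x y : ℤ) (h : x ^ 3 - y ^ 2 ≠ 0) : (sqf_NS x y : ℝ) ≤ NN x y := by
  unfold sqf_NS NN Rad Qs
  push_cast
  refine mul_le_mul_of_nonneg_right ?_ (Finset.prod_nonneg fun _ _ => Nat.cast_nonneg _)
  refine Finset.prod_le_prod_of_subset_of_one_le (Nat.primeFactors_mono
    (Int.natAbs_dvd_natAbs.2 (dvd_mul_left _ _))
    (Int.natAbs_ne_zero.2 (mul_ne_zero (by norm_num) h))) (fun _ _ => Nat.cast_nonneg _) ?_
  intro p hp _
  exact_mod_cast (Nat.prime_of_mem_primeFactors hp).one_le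

theorem sqf_row (hGCD : GCD_s) : SQF_s := by
  intro x y hP h
  obtain ⟨a₁, a₂, k, w, p1, p2, -, ez, c1, d1, d2, -, -, hw, hp⟩ :=
    sqf_exists_a (sub_ne_zero.1 h) hP
  have w0 : w ≠ 0 := fun h0 => h (by rw [ez, h0, mul_zero])
  have hD : DD x y (a₁ * a₂) = 432 * (w.natAbs : ℝ) := by
    have q1 : (0 : ℝ) < a₁ := by exact_mod_cast p1
    have q2 : (0 : ℝ) < a₂ := by exact_mod_cast p2
    unfold DD
    rw [ez, Nat.cast_natAbs]
    push_cast
    rw [abs_mul, abs_of_nonneg (sq_nonneg _)]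
    field_simp
  have hN := sqf_le x y h
  refine ⟨a₁ * a₂, ⟨Nat.mul_pos p1 p2, ⟨w, by push_cast; exact ez⟩, a₁, a₂, rfl, c1, d1, d2⟩,
    ?_, ?_, fun p T n pp hT hn e hpn => ?_⟩
  · have : (1 : ℝ) ≤ w.natAbs := by exact_mod_cast Int.natAbs_pos.2 w0
    rw [hD]; linarith
  · have : (w.natAbs : ℝ) ≤ sqf_NS x y := by exact_mod_cast Nat.le_of_dvd (sqf_NS_pos x y) hw
    rw [hD]; linarith
  · have pz : (p : ℤ) ∣ x ^ 3 - y ^ 2 := by
      rw [e]; exact (dvd_pow_self _ (by omega)).mul_right _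
    have px : ¬(p : ℤ) ∣ x := fun hx => hn ⟨hx, by
      have := dvd_sub (hx.trans (dvd_pow_self x three_ne_zero)) pz
      rw [sub_sub_cancel] at this
      exact (Nat.prime_iff_prime_int.1 pp).dvd_of_dvd_pow this⟩
    have n0 : n.natAbs ≠ 0 := fun h0 => hpn (by rw [Int.natAbs_eq_zero.1 h0]; exact dvd_zero _)
    have ev : Even ((x ^ 3 - y ^ 2).natAbs.factorization p) := by
      rw [e, Int.natAbs_mul, Int.natAbs_pow, Int.natAbs_natCast,
        Nat.factorization_mul (pow_ne_zero _ pp.ne_zero) n0, Finsupp.add_apply,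
        Nat.factorization_eq_zero_of_not_dvd (fun hd => hpn (Int.natCast_dvd.2 hd)),
        pp.factorization_pow, Finsupp.single_eq_same]
      exact ⟨T, by ring⟩
    obtain ⟨u1, u2⟩ := hp p pp px pz ev
    refine ⟨?_, w, by push_cast; exact ez, u1⟩
    have : ((p * w.natAbs : ℕ) : ℝ) ≤ sqf_NS x y := by
      exact_mod_cast Nat.le_of_dvd (sqf_NS_pos x y) u2
    rw [Nat.cast_mul] at this
    rw [hD]; linarith

theorem str_root {L : Type} [Field L] [NumberField L] (x y : ℤ) (t1 t2 t3 : L)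
    (s1 : t1 + t2 + t3 = 0) (s2 : t1 * t2 + t1 * t3 + t2 * t3 = -3 * (x : L))
    (s3 : t1 * t2 * t3 = -2 * (y : L)) (u : L) :
    u ^ 3 - 3 * (x : L) * u + 2 * (y : L) = 0 ↔ u = t1 ∨ u = t2 ∨ u = t3 := by
  have e : u ^ 3 - 3 * (x : L) * u + 2 * (y : L) = (u - t1) * ((u - t2) * (u - t3)) := by
    linear_combination u ^ 2 * s1 - u * s2 + s3
  rw [e, mul_eq_zero, mul_eq_zero, sub_eq_zero, sub_eq_zero, sub_eq_zero]

theorem str_int {L : Type} [Field L] [NumberField L] [IsGalois ℚ L] (x y : ℤ) (u : L)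
    (h : u ^ 3 - 3 * (x : L) * u + 2 * (y : L) = 0) (hf : ∀ g : L ≃ₐ[ℚ] L, g u = u) :
    ∃ n : ℤ, (n : L) = u := by
  obtain ⟨q, hq⟩ := IntermediateField.mem_bot.1 ((IsGalois.mem_bot_iff_fixed u).2 hf)
  have hq' : q ^ 3 - 3 * (x : ℚ) * q + 2 * (y : ℚ) = 0 := by
    apply (algebraMap ℚ L).injective
    simp only [map_add, map_sub, map_mul, map_pow, map_intCast, map_ofNat, map_zero, hq]
    exact h
  have hi : IsIntegral ℤ q := by
    refine ⟨Polynomial.X ^ 3 - Polynomial.C (3 * x) * Polynomial.X + Polynomial.C (2 * y),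
      by monicity!, ?_⟩
    rw [Polynomial.eval₂_add, Polynomial.eval₂_sub, Polynomial.eval₂_mul,
      Polynomial.eval₂_pow, Polynomial.eval₂_X, Polynomial.eval₂_C, Polynomial.eval₂_C]
    simpa using hq'
  obtain ⟨n, hn⟩ := IsIntegrallyClosed.isIntegral_iff.1 hi
  refine ⟨n, ?_⟩
  rw [← hq, ← hn]; simp

theorem str_lab {L : Type} [Field L] [NumberField L] (hG : IsGalois ℚ L) (x y : ℤ) (hp : Prim x y)
    (hz : x ^ 3 - y ^ 2 ≠ 0) (t1 t2 t3 : L)
    (s1 : t1 + t2 + t3 = 0) (s2 : t1 * t2 + t1 * t3 + t2 * t3 = -3 * (x : L))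
    (s3 : t1 * t2 * t3 = -2 * (y : L))
    (hgen : ∀ g : L ≃ₐ[ℚ] L, g t1 = t1 → g t2 = t2 → g t3 = t3 → g = 1)
    (g : L ≃ₐ[ℚ] L) (hg : g t1 ≠ t1) : ∃ u1 u2 u3 : L, Cub0 x y u1 u2 u3 := by
  have h1 : t1 ^ 3 - 3 * (x : L) * t1 + 2 * (y : L) = 0 :=
    (str_root x y t1 t2 t3 s1 s2 s3 t1).2 (Or.inl rfl)
  have h2 : (g t1) ^ 3 - 3 * (x : L) * (g t1) + 2 * (y : L) = 0 := by
    have := congrArg g h1
    simpa only [map_add, map_sub, map_mul, map_pow, map_intCast, map_ofNat, map_zero] using this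
  have hs : ∀ k : L ≃ₐ[ℚ] L, k t1 + k t2 + k t3 = 0 := fun k => by
    rw [← map_add, ← map_add, s1, map_zero]
  rcases (str_root x y t1 t2 t3 s1 s2 s3 _).1 h2 with h | h | h
  · exact absurd h hg
  · refine ⟨t1, t2, t3, hp, hz, hG, s1, s2, s3, fun k a b => hgen k a b ?_, g, h⟩
    linear_combination hs k - s1 - a - b
  · refine ⟨t1, t3, t2, hp, hz, hG, by linear_combination s1, by linear_combination s2,
      by linear_combination s3, fun k a b => hgen k a ?_ b, g, h⟩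
    linear_combination hs k - s1 - a - b

theorem str_gen (L : Type) [Field L] [NumberField L] (x y : ℤ) (hp : Prim x y)
    (hz : x ^ 3 - y ^ 2 ≠ 0) (f : Polynomial ℚ)
    (hf : f = Polynomial.X ^ 3 - Polynomial.C (3 * (x : ℚ)) * Polynomial.X +
      Polynomial.C (2 * (y : ℚ))) (hS : Polynomial.IsSplittingField ℚ L f) :
    (∃ t1 t2 t3 : ℤ, t1 + t2 + t3 = 0 ∧ t1 * t2 + t1 * t3 + t2 * t3 = -3 * x ∧
      t1 * t2 * t3 = -2 * y) ∨ ∃ t1 t2 t3 : L, Cub0 x y t1 t2 t3 := by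
  have hN : Normal ℚ L := Normal.of_isSplittingField f
  have hG : IsGalois ℚ L := {}
  have hm : f.Monic := by rw [hf]; monicity!
  have hd : f.natDegree = 3 := by rw [hf]; compute_degree!
  have hsp : (f.map (algebraMap ℚ L)).Splits := Polynomial.IsSplittingField.splits L f
  have hm' : (f.map (algebraMap ℚ L)).Monic := hm.map _
  have hc := hsp.natDegree_eq_card_roots
  rw [hm.natDegree_map, hd] at hc
  obtain ⟨t1, t2, t3, hr⟩ := Multiset.card_eq_three.1 hc.symm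
  have hprod := hsp.eq_prod_roots_of_monic hm'
  rw [hr] at hprod
  have ev : ∀ u : L, u ^ 3 - 3 * (x : L) * u + 2 * (y : L) = (u - t1) * ((u - t2) * (u - t3)) := by
    intro u
    have := congrArg (Polynomial.eval u) hprod
    rw [hf] at this
    simpa using this
  have e0 := ev 0
  have e1 := ev 1
  have e2 := ev (-1)
  have s3 : t1 * t2 * t3 = -2 * (y : L) := by linear_combination e0
  have s1 : t1 + t2 + t3 = 0 := by linear_combination (1 / 2) * e1 + (1 / 2) * e2 - e0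
  have s2 : t1 * t2 + t1 * t3 + t2 * t3 = -3 * (x : L) := by
    linear_combination (-1 / 2) * e1 + (1 / 2) * e2
  have hgen : ∀ g : L ≃ₐ[ℚ] L, g t1 = t1 → g t2 = t2 → g t3 = t3 → g = 1 := by
    intro g a b c
    have h : (g : L →ₐ[ℚ] L) = AlgHom.id ℚ L := by
      refine AlgHom.ext_of_adjoin_eq_top (Polynomial.IsSplittingField.adjoin_rootSet L f) ?_
      intro u hu
      have hu2 := (Polynomial.mem_rootSet.1 hu).2
      rw [hf] at hu2
      have hu3 : u ^ 3 - 3 * (x : L) * u + 2 * (y : L) = 0 := by simpa using hu2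
      rcases (str_root x y t1 t2 t3 s1 s2 s3 u).1 hu3 with h | h | h <;> rw [h] <;> simpa
    ext u
    exact congrArg (fun k : L →ₐ[ℚ] L => k u) h
  by_cases a1 : ∀ g : L ≃ₐ[ℚ] L, g t1 = t1
  · by_cases a2 : ∀ g : L ≃ₐ[ℚ] L, g t2 = t2
    · left
      obtain ⟨n1, h1⟩ := str_int x y t1 ((str_root x y t1 t2 t3 s1 s2 s3 t1).2 (Or.inl rfl)) a1
      obtain ⟨n2, h2⟩ := str_int x y t2
        ((str_root x y t1 t2 t3 s1 s2 s3 t2).2 (Or.inr (Or.inl rfl))) a2
      have h3 : ((-n1 - n2 : ℤ) : L) = t3 := by push_cast; linear_combination -s1 - h1 - h2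
      rw [← h1, ← h2, ← h3] at s2 s3
      exact ⟨n1, n2, -n1 - n2, by ring, by exact_mod_cast s2, by exact_mod_cast s3⟩
    · right
      obtain ⟨g, hg⟩ := not_forall.1 a2
      exact str_lab hG x y hp hz t2 t1 t3 (by linear_combination s1) (by linear_combination s2)
        (by linear_combination s3) (fun k a b c => hgen k b a c) g hg
  · right
    obtain ⟨g, hg⟩ := not_forall.1 a1
    exact str_lab hG x y hp hz t1 t2 t3 s1 s2 s3 hgen g hg

theorem str_row : STR_s := by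
  intro x y hp hz
  obtain ⟨f, hf⟩ : ∃ f : Polynomial ℚ, f = Polynomial.X ^ 3 -
      Polynomial.C (3 * (x : ℚ)) * Polynomial.X + Polynomial.C (2 * (y : ℚ)) := ⟨_, rfl⟩
  have hNF : NumberField f.SplittingField :=
    { to_charZero := inferInstance
      to_finiteDimensional := @Polynomial.IsSplittingField.finiteDimensional ℚ f.SplittingField _ _ _ f
        (Polynomial.IsSplittingField.splittingField f) }
  rcases str_gen f.SplittingField x y hp hz f hf
    (Polynomial.IsSplittingField.splittingField f) with h | h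
  · exact Or.inl h
  · exact Or.inr ⟨f.SplittingField, inferInstance, hNF, h⟩

theorem deg_card {L : Type} [Field L] [NumberField L] (hG : IsGalois ℚ L) (t1 t2 : L)
    (gen : ∀ g : L ≃ₐ[ℚ] L, g t1 = t1 → g t2 = t2 → g = 1) (S : Finset L)
    (hS : ∀ g : L ≃ₐ[ℚ] L, g t1 = t1 → g t2 ∈ S) : finrank ℚ L ≤ S.card * dg t1 := by
  classical
  have hm := Module.finrank_mul_finrank ℚ (IntermediateField.adjoin ℚ {t1}) L
  have hc := IsGalois.card_aut_eq_finrank (IntermediateField.adjoin ℚ {t1}) L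
  have hfix : ∀ g : L ≃ₐ[IntermediateField.adjoin ℚ {t1}] L, (g.restrictScalars ℚ) t1 = t1 := by
    intro g
    exact g.commutes ⟨t1, IntermediateField.mem_adjoin_simple_self ℚ t1⟩
  have hle : Nat.card (L ≃ₐ[IntermediateField.adjoin ℚ {t1}] L) ≤ Nat.card S := by
    refine Nat.card_le_card_of_injective
      (fun g => (⟨(g.restrictScalars ℚ) t2, hS _ (hfix g)⟩ : S)) ?_
    intro g g' h
    have h2 : (g.restrictScalars ℚ) t2 = (g'.restrictScalars ℚ) t2 := congrArg Subtype.val h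
    have h3 := gen ((g'.restrictScalars ℚ)⁻¹ * g.restrictScalars ℚ)
      (by
        rw [AlgEquiv.mul_apply, hfix g]
        exact (AlgEquiv.symm_apply_eq _).2 (hfix g').symm)
      (by
        rw [AlgEquiv.mul_apply, h2]
        exact AlgEquiv.symm_apply_apply _ _)
    have h4 : g'.restrictScalars ℚ = g.restrictScalars ℚ := inv_mul_eq_one.1 h3
    ext u
    exact (DFunLike.congr_fun h4 u).symm
  rw [hc, Nat.card_eq_fintype_card, Fintype.card_coe] at hle
  unfold dg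
  rw [← hm, mul_comm]
  exact Nat.mul_le_mul_right _ hle

theorem deg_row (hALG : ALG_s) : DEG_s := by
  classical
  intro L _ _ x y t1 t2 t3 h
  obtain ⟨⟨hi1, -, -⟩, ⟨h12, h13, h23⟩, -, -, -, -, -, hroot, -, -, hperm, -⟩ :=
    hALG L x y t1 t2 t3 h
  have hiq : IsIntegral ℚ t1 := Algebra.IsIntegral.isIntegral t1
  have h3 : ∀ g : L ≃ₐ[ℚ] L, g t3 = -g t1 - g t2 := by
    intro g
    have h0 := congrArg g h.s1
    rw [map_add, map_add, map_zero] at h0
    linear_combination h0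
  have n3 : dg t1 ≤ 3 := by
    unfold dg
    rw [IntermediateField.adjoin.finrank hiq]
    have hm : (Polynomial.X ^ 3 - Polynomial.C (3 * (x : ℚ)) * Polynomial.X +
        Polynomial.C (2 * (y : ℚ)) : Polynomial ℚ).Monic := by
      monicity!
    have hd : (Polynomial.X ^ 3 - Polynomial.C (3 * (x : ℚ)) * Polynomial.X +
        Polynomial.C (2 * (y : ℚ)) : Polynomial ℚ).natDegree ≤ 3 := by
      compute_degree
    refine le_trans (Polynomial.natDegree_le_natDegree (minpoly.min ℚ t1 hm ?_)) hd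
    simp only [map_add, map_sub, map_mul, map_pow, Polynomial.aeval_X, Polynomial.aeval_C,
      map_intCast, map_ofNat]
    exact hroot
  have n2 : 2 ≤ dg t1 := by
    have hp : 0 < dg t1 := Module.finrank_pos
    have hn : dg t1 ≠ 1 := by
      intro h1
      have hb := IntermediateField.finrank_adjoin_simple_eq_one_iff.1 h1
      obtain ⟨q, hq⟩ := IntermediateField.mem_bot.1 hb
      obtain ⟨g, hg⟩ := h.conj
      apply h12
      rw [← hg, ← hq]
      exact (g.commutes q).symm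
    omega
  have hst : ∀ g : L ≃ₐ[ℚ] L, g t1 = t1 → g t2 = t2 ∨ g t2 = t3 := by
    intro g hg
    rcases (hperm g).2.1 with h' | h'
    · exact absurd (g.injective (hg.trans h'.symm)) h12
    · exact h'
  have hd2 : finrank ℚ L ≤ 2 * dg t1 := by
    refine le_trans (deg_card h.gal t1 t2 h.gen {t2, t3} ?_) (Nat.mul_le_mul_right _ card_le_two)
    intro g hg
    rcases hst g hg with h' | h' <;> simp [h']
  refine ⟨h, by omega, n2, n3, ?_⟩
  by_cases hs : ∃ τ, Sw t1 t2 τ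
  · exact Or.inl ⟨hs, hd2⟩
  · refine Or.inr ⟨hs, ?_⟩
    have h1 := deg_card h.gal t1 t2 h.gen {t2} ?_
    · simpa using h1
    intro g hg
    rcases hst g hg with h' | h'
    · simp [h']
    · exfalso
      apply hs
      obtain ⟨g0, hg0⟩ := h.conj
      rcases (hperm g0).2.1 with h'' | h'' | h''
      · exact ⟨g0, hg0, h''⟩
      · exact absurd (g0.injective (hg0.trans h''.symm)) h12
      · refine ⟨g0 * g, ?_, ?_⟩
        · rw [AlgEquiv.mul_apply, hg, hg0]
        · rw [AlgEquiv.mul_apply, h', h3, hg0, h'']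
          linear_combination -h.s1

theorem rat_one (S : Finset ℕ) (hS : ∀ q ∈ S, q.Prime) : (1 : ℝ) ≤ ∏ q ∈ S, (q : ℝ) := by
  have h : 1 ≤ ∏ q ∈ S, q := Nat.succ_le_of_lt (Finset.prod_pos fun q hq => (hS q hq).pos)
  rw [← Nat.cast_prod]
  exact_mod_cast h

theorem rat_sort (A B : ℤ) (hA : A ≠ 0) (hB : B ≠ 0) (hC : A + B ≠ 0) (hco : IsCoprime A B) :
    ∃ a b c : ℕ, 0 < a ∧ 0 < b ∧ a + b = c ∧ Nat.Coprime a b ∧
      a * b * c = (A * B * (A + B)).natAbs ∧ |A| ≤ c ∧ |B| ≤ c ∧ |A + B| ≤ c := by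
  have c1 : Nat.Coprime A.natAbs B.natAbs := Int.isCoprime_iff_gcd_eq_one.1 hco
  have c2 : Nat.Coprime A.natAbs (A + B).natAbs := by
    refine Int.isCoprime_iff_gcd_eq_one.1 ?_
    have := hco.add_mul_left_right 1
    rwa [mul_one, add_comm] at this
  have c3 : Nat.Coprime B.natAbs (A + B).natAbs := by
    refine Int.isCoprime_iff_gcd_eq_one.1 ?_
    have := hco.symm.add_mul_left_right 1
    rwa [mul_one] at this
  have e : (A * B * (A + B)).natAbs = A.natAbs * B.natAbs * (A + B).natAbs := by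
    rw [Int.natAbs_mul, Int.natAbs_mul]
  rw [e, Int.abs_eq_natAbs, Int.abs_eq_natAbs, Int.abs_eq_natAbs]
  have h : A.natAbs + B.natAbs = (A + B).natAbs ∨ A.natAbs + (A + B).natAbs = B.natAbs ∨
      B.natAbs + (A + B).natAbs = A.natAbs := by omega
  rcases h with h | h | h
  · exact ⟨_, _, _, by omega, by omega, h, c1, rfl, by omega, by omega, by omega⟩
  · exact ⟨_, _, _, by omega, by omega, h, c2, by ring, by omega, by omega, by omega⟩
  · exact ⟨_, _, _, by omega, by omega, h, c3, by ring, by omega, by omega, by omega⟩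

theorem rat_size (x y t1 t2 t3 M : ℝ) (s2 : t1 * t2 + t1 * t3 + t2 * t3 = -3 * x)
    (s3 : t1 * t2 * t3 = -2 * y) (h1 : |t1| ≤ M) (h2 : |t2| ≤ M) (h3 : |t3| ≤ M) :
    max (|x| ^ 3) (y ^ 2) ≤ M ^ 6 := by
  have hM : 0 ≤ M := (abs_nonneg _).trans h1
  have p : ∀ a b : ℝ, |a| ≤ M → |b| ≤ M → |a * b| ≤ M ^ 2 := fun a b ha hb => by
    rw [abs_mul, sq]; exact mul_le_mul ha hb (abs_nonneg _) hM
  have hx : |x| ≤ M ^ 2 := by
    have a1 := abs_le.1 (p t1 t2 h1 h2)
    have a2 := abs_le.1 (p t1 t3 h1 h3)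
    have a3 := abs_le.1 (p t2 t3 h2 h3)
    exact abs_le.2 ⟨by linarith [a1.2, a2.2, a3.2], by linarith [a1.1, a2.1, a3.1]⟩
  have hy : |y| ≤ M ^ 3 := by
    have a : |t1 * t2 * t3| ≤ M ^ 2 * M := by
      rw [abs_mul]; exact mul_le_mul (p t1 t2 h1 h2) h3 (abs_nonneg _) (by positivity)
    rw [s3, abs_mul, show M ^ 2 * M = M ^ 3 by ring] at a
    have : |(-2 : ℝ)| = 2 := by norm_num
    rw [this] at a
    linarith [abs_nonneg y]
  refine max_le ?_ ?_
  · calc |x| ^ 3 ≤ (M ^ 2) ^ 3 := pow_le_pow_left₀ (abs_nonneg _) hx 3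
      _ = M ^ 6 := by ring
  · calc y ^ 2 = |y| ^ 2 := (sq_abs y).symm
      _ ≤ (M ^ 3) ^ 2 := pow_le_pow_left₀ (abs_nonneg _) hy 2
      _ = M ^ 6 := by ring

theorem rat_row (hGCD : GCD_s) : RAT_s := by
  intro ε hε
  obtain ⟨C, hC⟩ := H63.rational ε hε
  refine ⟨6 * (54 + 2 / ε + max C 0), by positivity, ?_⟩
  intro x y t1 t2 t3 hp hz s1 s2 s3
  obtain ⟨⟨hg1, hg2⟩, -⟩ := hGCD x y hp hz
  have e3 : t3 = -t1 - t2 := by linarith
  have hd : ((t1 - t2) * (t2 - t3) * ((t1 - t2) + (t2 - t3))) ^ 2 = 108 * (x ^ 3 - y ^ 2) := by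
    have a : 108 * (x ^ 3 - y ^ 2) = -4 * (-3 * x) ^ 3 - 27 * (-2 * y) ^ 2 := by ring
    rw [a, ← s2, ← s3, e3]; ring
  have hne : (t1 - t2) * (t2 - t3) * ((t1 - t2) + (t2 - t3)) ≠ 0 := by
    intro h; rw [h] at hd; apply hz; linarith
  have hu : t1 - t2 ≠ 0 := left_ne_zero_of_mul (left_ne_zero_of_mul hne)
  have hpos : 0 < Int.gcd (t1 - t2) (t2 - t3) := Int.gcd_pos_of_ne_zero_left _ hu
  obtain ⟨A, B, hco, hA, hB⟩ := Int.exists_gcd_one hpos
  generalize Int.gcd (t1 - t2) (t2 - t3) = g at hpos hA hB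
  have hABC : (A * B * (A + B)) * (g : ℤ) ^ 3 =
      (t1 - t2) * (t2 - t3) * ((t1 - t2) + (t2 - t3)) := by
    rw [hA, hB]; ring
  have hne' : A * B * (A + B) ≠ 0 := by
    intro h; rw [h, zero_mul] at hABC; exact hne hABC.symm
  obtain ⟨a, b, c, ha, hb, hs, hcop, hm, hAc, hBc, hCc⟩ := rat_sort A B
    (left_ne_zero_of_mul (left_ne_zero_of_mul hne')) (right_ne_zero_of_mul (left_ne_zero_of_mul hne'))
    (right_ne_zero_of_mul hne') (Int.isCoprime_iff_gcd_eq_one.2 hco)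
  have hR1 : (1 : ℝ) ≤ Rad x y := rat_one _ fun q hq => Nat.prime_of_mem_primeFactors hq
  have hsub : (a * b * c).primeFactors ⊆ Qs x y := by
    intro q hq
    have hq1 := Nat.prime_of_mem_primeFactors hq
    have hq2 := Nat.dvd_of_mem_primeFactors hq
    rw [hm] at hq2
    have hq3 : (q : ℤ) ∣ A * B * (A + B) := Int.natCast_dvd.2 hq2
    have hq4 : (q : ℤ) ∣ (6 * (x ^ 3 - y ^ 2)) ^ 3 := by
      have a1 : (6 * (x ^ 3 - y ^ 2)) ^ 3 = 108 * (x ^ 3 - y ^ 2) * (2 * (x ^ 3 - y ^ 2) ^ 2) := by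
        ring
      rw [a1, ← hd, ← hABC]
      exact Dvd.dvd.mul_right (dvd_pow (Dvd.dvd.mul_right hq3 _) (by norm_num)) _
    have hq5 := (Nat.prime_iff_prime_int.1 hq1).dvd_of_dvd_pow hq4
    exact Nat.mem_primeFactors.2 ⟨hq1, Int.natCast_dvd.1 hq5,
      Int.natAbs_ne_zero.2 (mul_ne_zero (by norm_num) hz)⟩
  have hrad : ((∏ p ∈ (a * b * c).primeFactors, p : ℕ) : ℝ) ≤ Rad x y := by
    have h : ∏ p ∈ (a * b * c).primeFactors, p ≤ ∏ p ∈ Qs x y, p :=
      Finset.prod_le_prod_of_subset_of_one_le' hsub fun q hq _ =>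
        (Nat.prime_of_mem_primeFactors hq).one_le
    unfold Rad
    rw [← Nat.cast_prod]
    exact_mod_cast h
  have hc : Real.log c ≤ max C 0 * Rad x y ^ ε := by
    refine (hC a b c ha hb hs hcop).trans ?_
    exact mul_le_mul (le_max_left _ _) (Real.rpow_le_rpow (Nat.cast_nonneg _) hrad hε.le)
      (by positivity) (le_max_right _ _)
  have d1 : 3 * t1 = (2 * A + B) * g := by linear_combination s1 + 2 * hA + hB
  have d2 : 3 * t2 = (B - A) * g := by linear_combination s1 - hA + hB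
  have d3 : 3 * t3 = (-A - 2 * B) * g := by linear_combination s1 - hA - 2 * hB
  have hgx : (g : ℤ) ∣ x * 54 := by
    refine ⟨-2 * g * ((2 * A + B) * (B - A) + (2 * A + B) * (-A - 2 * B) + (B - A) * (-A - 2 * B)), ?_⟩
    have : x * 54 = -2 * ((3 * t1) * (3 * t2) + (3 * t1) * (3 * t3) + (3 * t2) * (3 * t3)) := by
      linear_combination 18 * s2
    rw [this, d1, d2, d3]; ring
  have hgy : (g : ℤ) ∣ y * 54 := by
    refine ⟨-g ^ 2 * ((2 * A + B) * (B - A) * (-A - 2 * B)), ?_⟩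
    have : y * 54 = -((3 * t1) * (3 * t2) * (3 * t3)) := by linear_combination 27 * s3
    rw [this, d1, d2, d3]; ring
  have hgg : g ≤ Int.gcd x y * 54 := by
    have h := Int.dvd_gcd hgx hgy
    rw [Int.gcd_mul_right] at h
    exact Nat.le_of_dvd (by positivity) h
  have hg0 : (0 : ℤ) ≤ g := Int.natCast_nonneg g
  have bd : ∀ t u : ℤ, 3 * t = u * g → |u| ≤ 2 * c → |(t : ℝ)| ≤ (g : ℝ) * c := by
    intro t u h hu'
    have a1 : 3 * |t| = |u| * g := by
      have := congrArg abs h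
      rwa [abs_mul, abs_mul, abs_of_nonneg hg0, abs_of_nonneg (by norm_num : (0 : ℤ) ≤ 3)] at this
    have a2 : |u| * g ≤ 2 * c * g := mul_le_mul_of_nonneg_right hu' hg0
    have a3 : |t| ≤ (g : ℤ) * c := by nlinarith [abs_nonneg t]
    exact_mod_cast a3
  have k1 := abs_le.1 hAc
  have k2 := abs_le.1 hBc
  have k3 := abs_le.1 hCc
  have hsz := rat_size x y t1 t2 t3 ((g : ℝ) * c) (by exact_mod_cast s2) (by exact_mod_cast s3)
    (bd t1 _ d1 (abs_le.2 ⟨by omega, by omega⟩)) (bd t2 _ d2 (abs_le.2 ⟨by omega, by omega⟩))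
    (bd t3 _ d3 (abs_le.2 ⟨by omega, by omega⟩))
  have hg' : (0 : ℝ) < g := by exact_mod_cast hpos
  have hc' : (0 : ℝ) < c := by exact_mod_cast (by omega : 0 < c)
  have hG : (0 : ℝ) < (Int.gcd x y : ℕ) := by exact_mod_cast hg1
  have hmax : (0 : ℝ) < max (|(x : ℝ)| ^ 3) ((y : ℝ) ^ 2) := by
    by_contra h
    have h' := not_lt.1 h
    have a1 : |(x : ℝ)| ^ 3 ≤ 0 := (le_max_left _ _).trans h'
    have a2 : (y : ℝ) ^ 2 ≤ 0 := (le_max_right _ _).trans h'
    have b1 : (x : ℝ) = 0 := abs_eq_zero.1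
      (pow_eq_zero_iff (by norm_num) |>.1 (le_antisymm a1 (by positivity)))
    have b2 : (y : ℝ) = 0 := pow_eq_zero_iff (by norm_num) |>.1 (le_antisymm a2 (by positivity))
    have b1' : x = 0 := by exact_mod_cast b1
    have b2' : y = 0 := by exact_mod_cast b2
    exact hz (by rw [b1', b2']; norm_num)
  have l1 := Real.log_le_log hmax hsz
  rw [Real.log_pow, Real.log_mul hg'.ne' hc'.ne'] at l1
  have l2 : Real.log g ≤ Real.log (Int.gcd x y : ℕ) + Real.log 54 := by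
    rw [← Real.log_mul hG.ne' (by norm_num)]
    exact Real.log_le_log hg' (by exact_mod_cast hgg)
  have l3 : Real.log 54 ≤ 54 := (Real.log_le_sub_one_of_pos (by norm_num)).trans (by norm_num)
  have l4 : Real.log (Rad x y) ≤ Rad x y ^ ε / ε := Real.log_le_rpow_div (by linarith) hε
  have l5 : (1 : ℝ) ≤ Rad x y ^ ε := Real.one_le_rpow hR1 hε.le
  have l6 : 6 * (54 + 2 / ε + max C 0) * Rad x y ^ ε =
      6 * (54 * Rad x y ^ ε + 2 * (Rad x y ^ ε / ε) + max C 0 * Rad x y ^ ε) := by ring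
  rw [l6]
  push_cast at l1
  linarith

end Pool.Agent.MP_2a5a28_nt.H15Z
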