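import Pool.Agent.MP_2a5a28_nt.H15Z.Defs

set_option autoImplicit false

namespace Pool.Agent.MP_2a5a28_nt.H15Z

open Finset NumberField Module
open H63 (Sx St Dis nm)

theorem gm_core {L : Type} [Field L] [NumberField L] {ψ : L} {H : Finset (Pl L)} {g : Pl L → ℝ}
    {N c I : ℕ} {κ C K : ℝ} {A : L → Prop} (hC : 0 ≤ C) (hK : 0 ≤ K)
    (hP : ∀ P : Finset (ℕ × L), (∀ p ∈ P, c ∣ p.1 ∧ p.1 < c * I ∧ p.2 ≠ 0 ∧
        cost ψ p.2 ((p.1 : ℝ) / N) ≤ κ) → (∀ p ∈ P, ∀ q ∈ P, p.1 = q.1 → p = q) →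
      (∀ p ∈ P, ∀ q ∈ P, ∀ v ∈ H, av v (p.2 / q.2 - 1) ≤ Real.exp (-g v)) → (P.card : ℝ) ≤ C)
    (hc : Col K A H g) (J : Finset ℕ)
    (hJ : ∀ i ∈ J, c ∣ i ∧ i < c * I ∧ ∃ a : L, a ≠ 0 ∧ cost ψ a ((i : ℝ) / N) ≤ κ ∧ A a) :
    (J.card : ℝ) ≤ K * C := by
  classical
  obtain ⟨col, c1, c2⟩ := hc
  have h : ∀ i : ℕ, ∃ a : L, i ∈ J → a ≠ 0 ∧ cost ψ a ((i : ℝ) / N) ≤ κ ∧ A a := fun i => by
    by_cases hi : i ∈ J
    · obtain ⟨a, ha⟩ := (hJ i hi).2.2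
      exact ⟨a, fun _ => ha⟩
    · exact ⟨0, fun h => absurd h hi⟩
  choose a ha using h
  have hm : Set.MapsTo (fun i => col (a i)) (J : Set ℕ) (range ⌊K⌋₊ : Set ℕ) := fun i hi => by
    have := c1 _ (ha i hi).2.2
    rw [mem_coe, mem_range]
    exact Nat.le_floor (by exact_mod_cast this)
  rw [card_eq_sum_card_fiberwise hm, Nat.cast_sum]
  refine (sum_le_card_nsmul _ _ C fun b _ => ?_).trans ?_
  · have hi : Function.Injective fun i : ℕ => (i, a i) := fun i j e => congrArg Prod.fst e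
    rw [← card_image_of_injective _ hi]
    refine hP _ (fun p hp => ?_) (fun p hp q hq e => ?_) fun p hp q hq v hv => ?_
    · obtain ⟨i, h1, rfl⟩ := mem_image.1 hp
      have h2 := (mem_filter.1 h1).1
      exact ⟨(hJ i h2).1, (hJ i h2).2.1, (ha i h2).1, (ha i h2).2.1⟩
    · obtain ⟨i, -, rfl⟩ := mem_image.1 hp
      obtain ⟨j, -, rfl⟩ := mem_image.1 hq
      obtain rfl : i = j := e
      rfl
    · obtain ⟨i, h1, rfl⟩ := mem_image.1 hp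
      obtain ⟨j, h2, rfl⟩ := mem_image.1 hq
      rw [mem_filter] at h1 h2
      exact c2 _ _ (ha i h1.1).2.2 (ha j h2.1).2.2 (h1.2.trans h2.2.symm) v hv
  · rw [card_range, nsmul_eq_mul]
    exact mul_le_mul_of_nonneg_right (Nat.floor_le hK) hC

theorem gm_dd {x y : ℤ} {a : ℕ} (hz : x ^ 3 - y ^ 2 ≠ 0) (ha : Sq x y a) : 1 ≤ DD x y a := by
  have h1 := Int.le_of_dvd (abs_pos.2 hz) ((dvd_abs _ _).2 ha.2.1)
  have h2 : (a : ℝ) ^ 2 ≤ |((x ^ 3 - y ^ 2 : ℤ) : ℝ)| := by exact_mod_cast h1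
  have h3 : (1 : ℝ) ≤ a := by exact_mod_cast ha.1
  unfold DD
  rw [le_div_iff₀ (by positivity)]
  nlinarith [abs_nonneg ((x ^ 3 - y ^ 2 : ℤ) : ℝ)]

theorem gm_row (hKILL : KILL_s) (hCOST : COST_s) (hRHO : RHO_s) (hFAMM : FAMM_s) (hFEW : FEW_s) (hALG : ALG_s) : GM_s := by
  intro δ ε hδ hε
  obtain ⟨C1, c1, h1⟩ := hKILL (1 / 16) δ (by norm_num) le_rfl hδ
  obtain ⟨C2, c2, h2⟩ := hFAMM (2 * ε) (by linarith)
  obtain ⟨C3, c3, h3⟩ := hFEW ε (2 * (1 + 2 * ε)) hε (by linarith)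
  have c4 : 1 ≤ C1 * C2 * C3 := one_le_mul_of_one_le_of_one_le (one_le_mul_of_one_le_of_one_le c1 c2) c3
  have c5 : C1 ≤ C1 * (C1 * C2 * C3) := le_mul_of_one_le_right (by linarith) c4
  refine ⟨C1 * (C1 * C2 * C3) + 48, by linarith, ?_⟩
  intro L _ _ x y t1 t2 t3 hC a ha H g T K hv hg hK hcol
  obtain ⟨-, -, -, ⟨d1, d2⟩, -, -, ⟨p0, p1⟩, -, -, -, -, -, -, -, hQ, hR, -⟩ :=
    hALG L x y t1 t2 t3 hC.toCub0
  have hD := gm_dd hC.ne ha
  have hQ0 : (0 : ℝ) ≤ (Qs x y).card := Nat.cast_nonneg _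
  have e1 : 1 ≤ DD x y a ^ (1 / 2 + ε) := Real.one_le_rpow hD (by linarith)
  have e2 : 1 ≤ Rad x y ^ ε := Real.one_le_rpow (by linarith) hε.le
  have e3 : 1 ≤ K * DD x y a ^ (1 / 2 + ε) * Rad x y ^ ε :=
    one_le_mul_of_one_le_of_one_le (one_le_mul_of_one_le_of_one_le hK e1) e2
  rw [mul_assoc, mul_assoc, ← mul_assoc K]
  by_cases hT : C1 ≤ T
  swap
  · nlinarith
  obtain ⟨N, c, I, n1, n2, n3, n4, n5, hP⟩ := h1 L hC.d6 _ H g T p0 p1 hv (by linarith) hT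
  obtain ⟨J, j1, j2⟩ := h2 L x y t1 t2 t3 hC a ha N c I n1 n2
  obtain ⟨r1, r2, -⟩ := hRHO (Qs x y) N hQ n1
  have hJ := gm_core (by linarith) (by linarith) hP hcol J fun i hi => by
    obtain ⟨i1, i2, y1, y2, a1, a2, a3⟩ := j2 i hi
    refine ⟨i1, i2, y1 / y2, div_ne_zero a1.1.1 a2.1.1, ?_, N, i, y1, y2, n1, by omega, a1, a2, a3,
      rfl⟩
    refine (hCOST L _ _ y1 y2 N i _ _ d1 d2 n1 r1 (Real.one_le_exp zero_le_one) a1.1 a2.1).trans ?_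
    rw [Real.log_exp]
    have b1 : (finrank ℚ L : ℝ) ≤ 6 := by exact_mod_cast hC.d6
    have b2 : 0 ≤ Real.log (rho (Qs x y) N) / N :=
      div_nonneg (Real.log_nonneg (by exact_mod_cast r1)) (Nat.cast_nonneg _)
    nlinarith
  obtain ⟨f1, f2⟩ := h3 (Qs x y) hQ
  have e4 : (Real.exp (2 * (Qs x y).card) * √(DD x y a)) ^ (1 + 2 * ε) =
      Real.exp (2 * (1 + 2 * ε) * (Qs x y).card) * DD x y a ^ (1 / 2 + ε) := by
    rw [Real.mul_rpow (Real.exp_pos _).le (Real.sqrt_nonneg _), ← Real.exp_mul, Real.sqrt_eq_rpow,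
      ← Real.rpow_mul (by linarith)]
    congr 2 <;> ring
  rw [e4] at j1
  have e5 : (I : ℝ) ≤ C2 * DD x y a ^ (1 / 2 + ε) * (C3 * Rad x y ^ ε) * (K * C1) := by
    refine j1.trans (le_of_eq_of_le (b := C2 * DD x y a ^ (1 / 2 + ε) *
      (Real.exp (2 * (1 + 2 * ε) * (Qs x y).card) * Kc (Qs x y)) * J.card) (by ring) ?_)
    have b1 : 0 ≤ C2 * DD x y a ^ (1 / 2 + ε) := mul_nonneg (by linarith) (by linarith)
    exact mul_le_mul (mul_le_mul_of_nonneg_left f1 b1) hJ (Nat.cast_nonneg _)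
      (mul_nonneg b1 (mul_nonneg (by linarith) (by linarith)))
  have e6 := n5.trans (mul_le_mul_of_nonneg_left e5 (by linarith))
  nlinarith

theorem gb_core {L : Type} [Field L] [NumberField L] {ψ : L} {H : Finset (Pl L)} {g : Pl L → ℝ}
    {N c I : ℕ} {κ C K : ℝ} {A : L → Prop} (hC : 0 ≤ C) (hK : 0 ≤ K)
    (hP : ∀ P : Finset (ℕ × L), (∀ p ∈ P, c ∣ p.1 ∧ p.1 < c * I ∧ p.2 ≠ 0 ∧
        cost ψ p.2 ((p.1 : ℝ) / N) ≤ κ) → (∀ p ∈ P, ∀ q ∈ P, p.1 = q.1 → p = q) →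
      (∀ p ∈ P, ∀ q ∈ P, ∀ v ∈ H, av v (p.2 / q.2 - 1) ≤ Real.exp (-g v)) → (P.card : ℝ) ≤ C)
    (hc : Col K A H g) (J : Finset ℕ)
    (hJ : ∀ i ∈ J, c ∣ i ∧ i < c * I ∧ ∃ a : L, a ≠ 0 ∧ cost ψ a ((i : ℝ) / N) ≤ κ ∧ A a) :
    (J.card : ℝ) ≤ K * C := by
  classical
  obtain ⟨col, c1, c2⟩ := hc
  have h : ∀ i : ℕ, ∃ a : L, i ∈ J → a ≠ 0 ∧ cost ψ a ((i : ℝ) / N) ≤ κ ∧ A a := fun i => by
    by_cases hi : i ∈ J
    · obtain ⟨a, ha⟩ := (hJ i hi).2.2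
      exact ⟨a, fun _ => ha⟩
    · exact ⟨0, fun h => absurd h hi⟩
  choose a ha using h
  have hm : Set.MapsTo (fun i => col (a i)) (J : Set ℕ) (range ⌊K⌋₊ : Set ℕ) := fun i hi => by
    have := c1 _ (ha i hi).2.2
    rw [mem_coe, mem_range]
    exact Nat.le_floor (by exact_mod_cast this)
  rw [card_eq_sum_card_fiberwise hm, Nat.cast_sum]
  refine (sum_le_card_nsmul _ _ C fun b _ => ?_).trans ?_
  · have hi : Function.Injective fun i : ℕ => (i, a i) := fun i j e => congrArg Prod.fst e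
    rw [← card_image_of_injective _ hi]
    refine hP _ (fun p hp => ?_) (fun p hp q hq e => ?_) fun p hp q hq v hv => ?_
    · obtain ⟨i, h1, rfl⟩ := mem_image.1 hp
      have h2 := (mem_filter.1 h1).1
      exact ⟨(hJ i h2).1, (hJ i h2).2.1, (ha i h2).1, (ha i h2).2.1⟩
    · obtain ⟨i, -, rfl⟩ := mem_image.1 hp
      obtain ⟨j, -, rfl⟩ := mem_image.1 hq
      obtain rfl : i = j := e
      rfl
    · obtain ⟨i, h1, rfl⟩ := mem_image.1 hp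
      obtain ⟨j, h2, rfl⟩ := mem_image.1 hq
      rw [mem_filter] at h1 h2
      exact c2 _ _ (ha i h1.1).2.2 (ha j h2.1).2.2 (h1.2.trans h2.2.symm) v hv
  · rw [card_range, nsmul_eq_mul]
    exact mul_le_mul_of_nonneg_right (Nat.floor_le hK) hC

theorem gb_dd {x y : ℤ} {a : ℕ} (hz : x ^ 3 - y ^ 2 ≠ 0) (ha : Sq x y a) : 1 ≤ DD x y a := by
  have h1 := Int.le_of_dvd (abs_pos.2 hz) ((dvd_abs _ _).2 ha.2.1)
  have h2 : (a : ℝ) ^ 2 ≤ |((x ^ 3 - y ^ 2 : ℤ) : ℝ)| := by exact_mod_cast h1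
  have h3 : (1 : ℝ) ≤ a := by exact_mod_cast ha.1
  unfold DD
  rw [le_div_iff₀ (by positivity)]
  nlinarith [abs_nonneg ((x ^ 3 - y ^ 2 : ℤ) : ℝ)]

theorem gb_row (hKILL : KILL_s) (hCOST : COST_s) (hRHO : RHO_s) (hFAMU : FAMU_s) (hFEW : FEW_s) (hALG : ALG_s) (hUNIT : UNIT_s) (hVAL : VAL_s) : GB_s := by
  intro δ σ ε hδ hσ hσ' hε
  obtain ⟨C1, c1, h1⟩ := hKILL σ δ hσ hσ' hδ
  obtain ⟨C3, c3, h3⟩ := hFEW ε 0 hε le_rfl
  have c4 : 1 ≤ C1 * C3 := one_le_mul_of_one_le_of_one_le c1 c3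
  have c5 : C1 ≤ C1 * (C1 * C3) := le_mul_of_one_le_right (by linarith) c4
  refine ⟨2 * (C1 * (C1 * C3)), by linarith, ?_⟩
  intro L _ _ x y t1 t2 t3 hC a ha p w H T hU hp hl
  obtain ⟨-, -, -, ⟨d1, d2⟩, -, -, ⟨p0, p1⟩, -, -, -, -, -, -, -, hQ, hR, -⟩ :=
    hALG L x y t1 t2 t3 hC.toCub0
  have hD := gb_dd hC.ne ha
  have hQ0 : (0 : ℝ) ≤ (Qs x y).card := Nat.cast_nonneg _
  have hp1 : (1 : ℝ) ≤ p := by exact_mod_cast hU.pr.pos
  have e2 : 1 ≤ Rad x y ^ ε := Real.one_le_rpow (by linarith) hε.le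
  have e3 : 1 ≤ p * Rad x y ^ ε := one_le_mul_of_one_le_of_one_le hp1 e2
  rw [mul_assoc]
  by_cases hT : C1 ≤ T
  swap
  · nlinarith
  have v1 : Real.log p ≤ Real.log (nq w) :=
    Real.log_le_log (by linarith) ((hVAL L w).2.2.2.2 p hU.pr hU.ab).1
  have v2 : (1 : ℝ) ≤ H.card := by exact_mod_cast card_pos.2 ⟨_, hU.mem⟩
  have v3 : (H.card : ℝ) ≤ 2 := by exact_mod_cast hU.two
  have v4 : ∑ _v ∈ H, Real.log (nq w) = H.card * Real.log (nq w) := by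
    rw [sum_const, nsmul_eq_mul]
  obtain ⟨N, c, I, n1, n2, n3, n4, n5, hP⟩ := h1 L hC.d6 _ H _ T p0 p1 hU.hv
    (by rw [v4]; nlinarith) hT
  have g0 : dg t1 ≠ 0 := by have := hC.n2; omega
  have g1 : (2 : ℝ) ≤ dg t1 := by exact_mod_cast hC.n2
  have g2 : (dg t1 : ℝ) ≤ 3 := by exact_mod_cast hC.n3
  obtain ⟨X, hX⟩ : ∃ X : ℝ, X = Real.exp (Qs x y).card * √(DD x y a) := ⟨_, rfl⟩
  have x1 : 1 ≤ X := hX ▸ one_le_mul_of_one_le_of_one_le (Real.one_le_exp hQ0) (Real.one_le_sqrt.2 hD)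
  have x2 : Real.log X = (Qs x y).card + Real.log (DD x y a) / 2 := by
    rw [hX, Real.log_mul (Real.exp_pos _).ne' (Real.sqrt_pos.2 (by linarith)).ne', Real.log_exp,
      Real.log_sqrt (by linarith)]
  obtain ⟨r, r0, hr⟩ : ∃ r : ℝ, 1 ≤ r ∧ r ^ dg t1 = X := ⟨X ^ ((dg t1 : ℝ)⁻¹),
    Real.one_le_rpow x1 (by positivity), Real.rpow_inv_natCast_pow (by linarith) g0⟩
  have x3 : dg t1 * Real.log r = (Qs x y).card + Real.log (DD x y a) / 2 := by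
    rw [← x2, ← hr, Real.log_pow]
  obtain ⟨J, j1, j2⟩ := hFAMU L x y t1 t2 t3 hC a ha N c I r n1 n2 (by linarith)
    (by rw [hr, hX])
  obtain ⟨r1, r2, -⟩ := hRHO (Qs x y) N hQ n1
  have hJ := gb_core (by linarith) (by linarith) hP hU.col J fun i hi => by
    obtain ⟨i1, i2, y1, y2, a1, a2, a3⟩ := j2 i hi
    have b0 : y1 / y2 ≠ 0 := div_ne_zero a1.1 a2.1
    have b3 : cost (ps x t1 t2) (y1 / y2) ((i : ℝ) / N) ≤
        (1 / 2 - 6 * σ) * (H.card * Real.log (nq w)) := by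
      refine (hCOST L _ _ y1 y2 N i _ _ d1 d2 n1 r1 r0 a1 a2).trans ?_
      have b1 : (0 : ℝ) ≤ finrank ℚ L := Nat.cast_nonneg _
      have b2 : dg t1 * (Real.log r + Real.log (rho (Qs x y) N) / N) ≤
          (1 / 2 - 6 * σ) * Real.log p := by
        nlinarith [mul_le_mul_of_nonneg_left r2 (by linarith : (0 : ℝ) ≤ dg t1)]
      refine le_of_mul_le_mul_left (a := (dg t1 : ℝ)) ?_ (by linarith)
      nlinarith [mul_le_mul_of_nonneg_left b2 b1,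
        mul_le_mul_of_nonneg_left hU.deg (by linarith : 0 ≤ 1 / 2 - 6 * σ)]
    refine ⟨i1, i2, y1 / y2, b0, by rw [v4]; exact b3, hUNIT L w _ _ _ p0 b0 hU.un (b3.trans_lt ?_),
      fun τ hτ => ?_⟩
    · have b4 : 0 < Real.log (nq w) := by linarith
      nlinarith [mul_le_mul_of_nonneg_right v3 b4.le, mul_pos hσ b4]
    · rw [map_div₀, (a3 τ hτ).1, (a3 τ hτ).2, inv_div]
  obtain ⟨f1, f2⟩ := h3 (Qs x y) hQ
  rw [zero_mul, Real.exp_zero, one_mul] at f1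
  have e5 : (I : ℝ) ≤ C3 * Rad x y ^ ε * (2 * p * C1) :=
    j1.trans (mul_le_mul f1 (hJ.trans (mul_le_mul_of_nonneg_right (by linarith) (by linarith)))
      (Nat.cast_nonneg _) (mul_nonneg (by linarith) (by linarith)))
  exact (n5.trans (mul_le_mul_of_nonneg_left e5 (by linarith))).trans_eq (by ring)

theorem gc_core {L : Type} [Field L] [NumberField L] {ψ : L} {H : Finset (Pl L)} {g : Pl L → ℝ}
    {N c I : ℕ} {κ C K : ℝ} {A : L → Prop} (hC : 0 ≤ C) (hK : 0 ≤ K)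
    (hP : ∀ P : Finset (ℕ × L), (∀ p ∈ P, c ∣ p.1 ∧ p.1 < c * I ∧ p.2 ≠ 0 ∧
        cost ψ p.2 ((p.1 : ℝ) / N) ≤ κ) → (∀ p ∈ P, ∀ q ∈ P, p.1 = q.1 → p = q) →
      (∀ p ∈ P, ∀ q ∈ P, ∀ v ∈ H, av v (p.2 / q.2 - 1) ≤ Real.exp (-g v)) → (P.card : ℝ) ≤ C)
    (hc : Col K A H g) {ι : Type} (S : Finset ι) (n : ι → ℕ) (a : ι → L)
    (hS : ∀ s ∈ S, c ∣ n s ∧ n s < c * I ∧ a s ≠ 0 ∧ cost ψ (a s) ((n s : ℝ) / N) ≤ κ ∧ A (a s))
    (hi : ∀ s ∈ S, ∀ s' ∈ S, n s = n s' →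
      (∀ v ∈ H, av v (a s / a s' - 1) ≤ Real.exp (-g v)) → s = s') :
    (S.card : ℝ) ≤ K * C := by
  classical
  obtain ⟨col, c1, c2⟩ := hc
  have hm : Set.MapsTo (fun s => col (a s)) (S : Set ι) (range ⌊K⌋₊ : Set ℕ) := fun s hs => by
    have := c1 _ (hS s hs).2.2.2.2
    rw [mem_coe, mem_range]
    exact Nat.le_floor (by exact_mod_cast this)
  rw [card_eq_sum_card_fiberwise hm, Nat.cast_sum]
  refine (sum_le_card_nsmul _ _ C fun b _ => ?_).trans ?_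
  · have hcl : ∀ s ∈ S.filter fun s => col (a s) = b, ∀ s' ∈ S.filter fun s => col (a s) = b,
        ∀ v ∈ H, av v (a s / a s' - 1) ≤ Real.exp (-g v) := fun s h1 s' h2 => by
      rw [mem_filter] at h1 h2
      exact c2 _ _ (hS s h1.1).2.2.2.2 (hS s' h2.1).2.2.2.2 (h1.2.trans h2.2.symm)
    have hn : ∀ s ∈ S.filter fun s => col (a s) = b, ∀ s' ∈ S.filter fun s => col (a s) = b,
        n s = n s' → s = s' := fun s h1 s' h2 e =>
      hi s (mem_filter.1 h1).1 s' (mem_filter.1 h2).1 e (hcl s h1 s' h2)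
    rw [← card_image_of_injOn (f := fun s => (n s, a s))
      fun s h1 s' h2 e => hn s h1 s' h2 (congrArg Prod.fst e)]
    refine hP _ (fun p hp => ?_) (fun p hp q hq e => ?_) fun p hp q hq v hv => ?_
    · obtain ⟨s, h1, rfl⟩ := mem_image.1 hp
      have h2 := hS s (mem_filter.1 h1).1
      exact ⟨h2.1, h2.2.1, h2.2.2.1, h2.2.2.2.1⟩
    · obtain ⟨s, h1, rfl⟩ := mem_image.1 hp
      obtain ⟨s', h2, rfl⟩ := mem_image.1 hq
      rw [hn s h1 s' h2 e]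
    · obtain ⟨s, h1, rfl⟩ := mem_image.1 hp
      obtain ⟨s', h2, rfl⟩ := mem_image.1 hq
      exact hcl s h1 s' h2 v hv
  · rw [card_range, nsmul_eq_mul]
    exact mul_le_mul_of_nonneg_right (Nat.floor_le hK) hC

theorem gc_dd {x y : ℤ} {a : ℕ} (hz : x ^ 3 - y ^ 2 ≠ 0) (ha : Sq x y a) : 1 ≤ DD x y a := by
  have h1 := Int.le_of_dvd (abs_pos.2 hz) ((dvd_abs _ _).2 ha.2.1)
  have h2 : (a : ℝ) ^ 2 ≤ |((x ^ 3 - y ^ 2 : ℤ) : ℝ)| := by exact_mod_cast h1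
  have h3 : (1 : ℝ) ≤ a := by exact_mod_cast ha.1
  unfold DD
  rw [le_div_iff₀ (by positivity)]
  nlinarith [abs_nonneg ((x ^ 3 - y ^ 2 : ℤ) : ℝ)]

theorem gc_ap {L : Type} [Field L] [NumberField L] {δ y u : L} {N i ρ : ℕ} {r s : ℝ}
    (h : Ap δ N i ρ r y) (hu : u ≠ 0) (hi : IsIntegral ℤ u) (hs : ∀ φ : L →+* ℂ, ‖φ u‖ ≤ s) :
    Ap δ N i ρ (r * s) (y * u) := by
  refine ⟨mul_ne_zero h.1 hu, ?_, fun φ => ?_⟩
  · have e : (ρ : L) * (y * u) ^ N / δ ^ i = (ρ : L) * y ^ N / δ ^ i * u ^ N := by ring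
    rw [e]
    exact h.2.1.mul (hi.pow _)
  · rw [map_mul, norm_mul, mul_right_comm]
    exact mul_le_mul (h.2.2 φ) (hs φ) (norm_nonneg _) ((norm_nonneg _).trans (h.2.2 φ))

/-- the anchors -/
theorem gc_anc (hANC : ANC_s) (P0 D : ℝ) (m : ℤ) (hD : 1 ≤ D) (h8 : 8 * D ≤ P0) :
    ∃ U : Finset (ℕ × ℕ), P0 ^ 2 ≤ 64 * D * U.card ∧
      (∀ u ∈ U, (u.1 : ℝ) ≤ P0 ∧ (u.2 : ℝ) * D ≤ P0 ∧ (u.1 : ℤ) ^ 2 ≠ m * (u.2 : ℤ) ^ 2) ∧
      ∀ u ∈ U, ∀ u' ∈ U, u.1 * u'.2 = u'.1 * u.2 → u = u' := by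
  classical
  have hD0 : 0 < D := by linarith
  obtain ⟨U, h1, h2, h3⟩ := hANC ⌊P0⌋₊ ⌊P0 / D⌋₊
  have r1 : (⌊P0⌋₊ : ℝ) ≤ P0 := Nat.floor_le (by linarith)
  have r2 : P0 < ⌊P0⌋₊ + 1 := Nat.lt_floor_add_one _
  have b0 : 8 ≤ P0 / D := by rwa [le_div_iff₀ hD0]
  have b1 : (⌊P0 / D⌋₊ : ℝ) ≤ P0 / D := Nat.floor_le (by linarith)
  have b2 : P0 / D < ⌊P0 / D⌋₊ + 1 := Nat.lt_floor_add_one _
  have hone : (U.filter fun u => (u.1 : ℤ) ^ 2 = m * (u.2 : ℤ) ^ 2).card ≤ 1 := by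
    refine card_le_one.2 fun u hu u' hu' => ?_
    rw [mem_filter] at hu hu'
    refine h3 u hu.1 u' hu'.1 ?_
    have e : ((u.1 * u'.2 : ℕ) : ℤ) ^ 2 = ((u'.1 * u.2 : ℕ) : ℤ) ^ 2 := by
      push_cast
      rw [mul_pow, mul_pow, hu.2, hu'.2]
      ring
    exact_mod_cast (pow_left_inj₀ (Int.natCast_nonneg _) (Int.natCast_nonneg _) two_ne_zero).1 e
  have hsum := card_filter_add_card_filter_not (s := U)
    fun u => (u.1 : ℤ) ^ 2 = m * (u.2 : ℤ) ^ 2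
  refine ⟨U.filter fun u => ¬(u.1 : ℤ) ^ 2 = m * (u.2 : ℤ) ^ 2, ?_, fun u hu => ?_,
    fun u hu u' hu' => h3 u (mem_filter.1 hu).1 u' (mem_filter.1 hu').1⟩
  · have h4 : ⌊P0⌋₊ * ⌊P0 / D⌋₊ ≤
        4 * ((U.filter fun u => ¬(u.1 : ℤ) ^ 2 = m * (u.2 : ℤ) ^ 2).card + 1) := by omega
    have h5 : (⌊P0⌋₊ : ℝ) * ⌊P0 / D⌋₊ ≤
        4 * (((U.filter fun u => ¬(u.1 : ℤ) ^ 2 = m * (u.2 : ℤ) ^ 2).card : ℝ) + 1) := by
      exact_mod_cast h4
    have h6 : P0 / 2 * (P0 / D / 2) ≤ (⌊P0⌋₊ : ℝ) * ⌊P0 / D⌋₊ :=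
      mul_le_mul (by linarith) (by linarith) (by linarith) (Nat.cast_nonneg _)
    have h7 : 8 * 8 ≤ P0 * (P0 / D) := mul_le_mul (by linarith) b0 (by norm_num) (by linarith)
    have h9 : P0 ^ 2 = D * (P0 * (P0 / D)) := by field_simp
    rw [h9, mul_comm 64 D, mul_assoc]
    exact mul_le_mul_of_nonneg_left (by linarith) hD0.le
  · obtain ⟨hu1, hu2⟩ := mem_filter.1 hu
    obtain ⟨-, a1, -, a2⟩ := h2 u hu1
    have a3 : (u.1 : ℝ) ≤ ⌊P0⌋₊ := by exact_mod_cast a1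
    have a4 : (u.2 : ℝ) ≤ ⌊P0 / D⌋₊ := by exact_mod_cast a2
    exact ⟨a3.trans r1, (le_div_iff₀ hD0).1 (a4.trans b1), hu2⟩

/-- two anchors that are congruent at `w` -/
theorem gc_cong (hVAL : VAL_s) {L : Type} [Field L] [NumberField L] (w : FinitePlace L) {p : ℕ}
    (hp : p.Prime) (hw : w (p : L) < 1) {W : L} {b : ℤ} (hW : W ^ 2 = 108 * (b : L))
    (hWi : IsIntegral ℤ W) (hb : ¬(p : ℤ) ∣ b) (h4 : 432 < p) (q : L) (hq : q ≠ 0)
    (α β α' β' : ℕ) (h1 : (α : L) - β * W ≠ 0) (h2 : (α' : L) + β' * W ≠ 0)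
    (h : w (q * ((α + β * W) / (α - β * W)) / (q * ((α' + β' * W) / (α' - β' * W))) - 1) < 1) :
    (p : ℤ) ∣ (β : ℤ) * α' - α * β' := by
  obtain ⟨-, -, v3, -, v5⟩ := hVAL L w
  have hn : ∀ n : ℕ, IsIntegral ℤ (n : L) := fun n => by
    simpa using isIntegral_algebraMap (R := ℤ) (A := L) (x := (n : ℤ))
  have e : 2 * W * ((β : L) * α' - α * β') =
      (q * ((α + β * W) / (α - β * W)) / (q * ((α' + β' * W) / (α' - β' * W))) - 1) *
        (((α : L) - β * W) * (α' + β' * W)) := by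
    rw [mul_div_mul_left _ _ hq, div_div_div_eq, sub_mul, div_mul_cancel₀ _ (mul_ne_zero h1 h2)]
    ring
  have h5 : w (2 * W * ((β : L) * α' - α * β')) < 1 := by
    rw [e, map_mul]
    exact mul_lt_one_of_nonneg_of_lt_one_left (apply_nonneg _ _) h
      (v3 _ (((hn α).sub ((hn β).mul hWi)).mul ((hn α').add ((hn β').mul hWi))))
  have h6 : w ((432 * b * ((β : ℤ) * α' - α * β') ^ 2 : ℤ) : L) < 1 := by
    have e2 : ((432 * b * ((β : ℤ) * α' - α * β') ^ 2 : ℤ) : L) =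
        (2 * W * ((β : L) * α' - α * β')) ^ 2 := by
      push_cast
      rw [mul_pow, mul_pow, hW]
      ring
    rw [e2, map_pow]
    exact pow_lt_one₀ (apply_nonneg _ _) h5 two_ne_zero
  have h7 := (v5 p hp hw).2.2.2 _ h6
  have hpz : Prime (p : ℤ) := Nat.prime_iff_prime_int.1 hp
  rcases hpz.dvd_or_dvd h7 with h8 | h8
  · rcases hpz.dvd_or_dvd h8 with h9 | h9
    · have := Int.le_of_dvd (by norm_num) h9
      omega
    · exact absurd h9 hb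
  · exact hpz.dvd_of_dvd_pow h8

theorem gc_row (hKILL : KILL_s) (hCOST : COST_s) (hRHO : RHO_s) (hFAMM : FAMM_s) (hFEW : FEW_s) (hALG : ALG_s) (hUNIT : UNIT_s) (hVAL : VAL_s) (hANC : ANC_s) : GC_s := by
  intro δ σ ε hδ hσ hσ1 hε
  obtain ⟨C1, c1, h1⟩ := hKILL σ δ hσ (by linarith) hδ
  obtain ⟨C2, c2, h2⟩ := hFAMM (2 * ε) (by linarith)
  obtain ⟨C3, c3, h3⟩ := hFEW ε (2 * (1 + 2 * ε)) hε (by linarith)
  have c4 : 1 ≤ C1 * C2 * C3 :=
    one_le_mul_of_one_le_of_one_le (one_le_mul_of_one_le_of_one_le c1 c2) c3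
  have c5 : C1 ≤ C1 * (C1 * C2 * C3) := le_mul_of_one_le_right (by linarith) c4
  refine ⟨128 * (C1 * (C1 * C2 * C3)), by linarith, ?_⟩
  intro L _ _ x y t1 t2 t3 hC a ha b hb p w H T hU hpb hg hDp
  obtain ⟨-, -, hV, ⟨d1, d2⟩, -, -, ⟨p0, p1⟩, -, -, hsw, -, -, -, -, hQ, hR, -⟩ :=
    hALG L x y t1 t2 t3 hC.toCub0
  have hD := gc_dd hC.ne ha
  have hQ0 : (0 : ℝ) ≤ (Qs x y).card := Nat.cast_nonneg _
  have hp1 : (1 : ℝ) ≤ p := by exact_mod_cast hU.pr.one_le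
  have hp0 : (0 : ℝ) < p := by linarith
  have hl0 : 0 ≤ Real.log p := Real.log_nonneg hp1
  have hl1 : σ * Real.log p ≤ 1 / 100 * Real.log p := mul_le_mul_of_nonneg_right hσ1 hl0
  have hp4 : 432 < p := by
    have := Real.log_le_sub_one_of_pos hp0
    have h : (432 : ℝ) < p := by linarith
    exact_mod_cast h
  have e0 : 1 ≤ (p : ℝ) ^ (2 / 3 + 6 * σ) := Real.one_le_rpow hp1 (by linarith)
  have e1 : 1 ≤ DD x y a ^ (1 + ε) := Real.one_le_rpow hD (by linarith)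
  have e2 : 1 ≤ Rad x y ^ ε := Real.one_le_rpow (by linarith) hε.le
  have e3 : 1 ≤ (p : ℝ) ^ (2 / 3 + 6 * σ) * DD x y a ^ (1 + ε) * Rad x y ^ ε :=
    one_le_mul_of_one_le_of_one_le (one_le_mul_of_one_le_of_one_le e0 e1) e2
  rw [mul_assoc, mul_assoc, ← mul_assoc ((p : ℝ) ^ (2 / 3 + 6 * σ))]
  by_cases hT : C1 ≤ T
  swap
  · nlinarith
  have hnq : 2 ≤ nq w := (hVAL L w).1
  have hlq : 0 < Real.log (nq w) := Real.log_pos (by linarith)
  obtain ⟨G, hG⟩ : ∃ G : ℝ, G = H.card * Real.log (nq w) := ⟨_, rfl⟩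
  have hGs : ∑ _v ∈ H, Real.log (nq w) = G := by rw [sum_const, nsmul_eq_mul, hG]
  have hG0 : 0 ≤ G := by rw [hG]; positivity
  have hG2 : G ≤ 2 * Real.log (nq w) := by
    rw [hG]
    exact mul_le_mul_of_nonneg_right (by exact_mod_cast hU.two) hlq.le
  have hd1 : (1 : ℝ) ≤ finrank ℚ L := by exact_mod_cast (Module.finrank_pos : 0 < finrank ℚ L)
  have hG3 : finrank ℚ L * Real.log p ≤ 3 * G := by
    rw [hG]
    exact hU.deg.trans (mul_le_mul_of_nonneg_right (by exact_mod_cast hC.n3) (hG ▸ hG0))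
  have hG4 : Real.log p ≤ 3 * G := (le_mul_of_one_le_left hl0 hd1).trans hG3
  obtain ⟨N, c, I, n1, n2, n3, n4, n5, hP⟩ := h1 L hC.d6 _ H _ T p0 p1 hU.hv
    (by rw [hGs]; linarith) hT
  rw [hGs] at hP
  obtain ⟨J, j1, j2⟩ := h2 L x y t1 t2 t3 hC a ha N c I n1 n2
  obtain ⟨r1, r2, -⟩ := hRHO (Qs x y) N hQ n1
  have ha0 : (a : L) ≠ 0 := by exact_mod_cast Nat.one_le_iff_ne_zero.1 ha.1
  have har : (0 : ℝ) < a := by exact_mod_cast ha.1
  obtain ⟨W, hWd⟩ : ∃ W : L, W = (t1 - t2) * (t1 - t3) * (t2 - t3) / a := ⟨_, rfl⟩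
  have hW : W ^ 2 = 108 * (b : L) := by
    rw [hWd, div_pow, hV, hb]
    push_cast
    field_simp
  have hWi : IsIntegral ℤ W := by
    refine IsIntegral.of_pow two_pos ?_
    rw [hW]
    simpa using isIntegral_algebraMap (R := ℤ) (A := L) (x := 108 * b)
  have hWτ : ∀ τ : L ≃ₐ[ℚ] L, Sw t1 t2 τ → τ W = -W := fun τ hτ => by
    rw [hWd]
    simp only [map_div₀, map_mul, map_sub, map_natCast, hτ.1, hτ.2, hsw τ hτ]
    ring
  obtain ⟨D, hDd⟩ : ∃ D : ℝ, D = √(DD x y a) := ⟨_, rfl⟩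
  have hD1 : 1 ≤ D := by rw [hDd]; exact Real.one_le_sqrt.2 hD
  have hWφ : ∀ φ : L →+* ℂ, ‖φ W‖ ≤ D := fun φ => by
    rw [hDd]
    refine Real.le_sqrt_of_sq_le ?_
    have e : DD x y a = 432 * |(b : ℝ)| := by
      unfold DD
      rw [hb]
      push_cast
      rw [abs_mul, abs_of_pos (pow_pos har 2)]
      field_simp
    rw [← norm_pow, ← map_pow, hW, map_mul, map_intCast, norm_mul, Complex.norm_intCast, e,
      map_ofNat, Complex.norm_ofNat]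
    linarith [abs_nonneg (b : ℝ)]
  obtain ⟨P0, hP0⟩ : ∃ P0 : ℝ, P0 = Real.exp ((1 / 6 - 3 * σ) * Real.log p) := ⟨_, rfl⟩
  have hP00 : 0 < P0 := by rw [hP0]; exact Real.exp_pos _
  have h8 : 8 * D ≤ P0 := by
    have b1 : D = Real.exp (Real.log (DD x y a) / 2) := by
      rw [hDd, Real.exp_half, Real.exp_log (by linarith)]
    have b2 : 8 ≤ Real.exp (σ * Real.log p) := by
      have := Real.add_one_le_exp (σ * Real.log p)
      linarith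
    have b3 : P0 = Real.exp (σ * Real.log p) * Real.exp ((1 / 6 - 4 * σ) * Real.log p) := by
      rw [hP0, ← Real.exp_add]
      congr 1
      ring
    rw [b1, b3]
    exact mul_le_mul b2 (Real.exp_le_exp.2 hDp) (Real.exp_pos _).le (Real.exp_pos _).le
  have hPp : P0 ^ 2 * (p : ℝ) ^ (2 / 3 + 6 * σ) = p := by
    rw [hP0, Real.rpow_def_of_pos hp0, ← Real.exp_nat_mul, ← Real.exp_add]
    refine Eq.trans ?_ (Real.exp_log hp0)
    congr 1
    push_cast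
    ring
  have hPlt : P0 ^ 2 < p := by
    have b1 : 1 < (p : ℝ) ^ (2 / 3 + 6 * σ) :=
      Real.one_lt_rpow (by exact_mod_cast hU.pr.one_lt) (by linarith)
    rw [← hPp]
    exact lt_mul_of_one_lt_right (pow_pos hP00 2) b1
  obtain ⟨U, u1, u2, u3⟩ := gc_anc hANC P0 D (108 * b) hD1 h8
  have hn : ∀ n : ℕ, IsIntegral ℤ (n : L) := fun n => by
    simpa using isIntegral_algebraMap (R := ℤ) (A := L) (x := (n : ℤ))
  have hne : ∀ u ∈ U, (u.1 : L) + u.2 * W ≠ 0 ∧ (u.1 : L) - u.2 * W ≠ 0 := fun u hu => by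
    rw [← mul_ne_zero_iff]
    intro h
    apply (u2 u hu).2.2
    have e : (((u.1 : ℤ) ^ 2 : ℤ) : L) = ((108 * b * (u.2 : ℤ) ^ 2 : ℤ) : L) := by
      push_cast
      rw [← hW]
      linear_combination h
    exact_mod_cast e
  have hsz : ∀ u ∈ U, ∀ φ : L →+* ℂ, ‖φ ((u.1 : L) + u.2 * W)‖ ≤ 2 * P0 ∧
      ‖φ ((u.1 : L) - u.2 * W)‖ ≤ 2 * P0 := fun u hu φ => by
    have b1 : ‖φ (u.1 : L)‖ + ‖φ (u.2 * W)‖ ≤ 2 * P0 := by
      rw [map_mul, norm_mul, map_natCast, map_natCast, Complex.norm_natCast, Complex.norm_natCast]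
      have := mul_le_mul_of_nonneg_left (hWφ φ) (Nat.cast_nonneg (α := ℝ) u.2)
      linarith [(u2 u hu).1, (u2 u hu).2.1]
    rw [map_add, map_sub]
    exact ⟨(norm_add_le _ _).trans b1, (norm_sub_le _ _).trans b1⟩
  have hex : ∀ i : ℕ, ∃ y1 y2 : L, i ∈ J →
      Ap2 (de x t1) N i (rho (Qs x y) N) (Real.exp 1) y1 ∧
      Ap2 (de x t2) N i (rho (Qs x y) N) (Real.exp 1) y2 ∧ Eqv t1 t2 y1 y2 := fun i => by
    by_cases hi : i ∈ J
    · obtain ⟨y1, y2, h⟩ := (j2 i hi).2.2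
      exact ⟨y1, y2, fun _ => h⟩
    · exact ⟨0, 0, fun h => absurd h hi⟩
  choose y1 y2 hy using hex
  have hr1 : 1 ≤ Real.exp 1 * (2 * P0) :=
    one_le_mul_of_one_le_of_one_le (Real.one_le_exp zero_le_one) (by linarith)
  have hlr : Real.log (Real.exp 1 * (2 * P0)) ≤ 2 + (1 / 6 - 3 * σ) * Real.log p := by
    rw [Real.log_mul (Real.exp_pos _).ne' (by positivity), Real.log_mul two_ne_zero hP00.ne',
      Real.log_exp, hP0, Real.log_exp]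
    have := Real.log_le_sub_one_of_pos (two_pos (α := ℝ))
    linarith
  have hJ := gc_core (by linarith) (by linarith) hP hU.col (J ×ˢ U) (fun s => s.1)
    (fun s => y1 s.1 / y2 s.1 * ((s.2.1 + s.2.2 * W) / (s.2.1 - s.2.2 * W)))
    (fun s hs => by
      obtain ⟨hi, hu⟩ := mem_product.1 hs
      obtain ⟨a1, a2, a3⟩ := hy s.1 hi
      have b1 := gc_ap a1.1 (hne _ hu).1 ((hn _).add ((hn _).mul hWi)) fun φ => (hsz _ hu φ).1
      have b2 := gc_ap a2.1 (hne _ hu).2 ((hn _).sub ((hn _).mul hWi)) fun φ => (hsz _ hu φ).2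
      have b3 := hCOST L _ _ _ _ N s.1 _ _ d1 d2 n1 r1 hr1 b1 b2
      have b4 : cost (ps x t1 t2) (y1 s.1 / y2 s.1 * ((s.2.1 + s.2.2 * W) / (s.2.1 - s.2.2 * W)))
          ((s.1 : ℝ) / N) ≤ (1 / 2 - 6 * σ) * G := by
        rw [div_mul_div_comm]
        refine b3.trans ((mul_le_mul_of_nonneg_left
          (show _ ≤ (1 / 6 - 2 * σ) * Real.log p by linarith) (by linarith)).trans ?_)
        have := mul_le_mul_of_nonneg_left hG3 (show 0 ≤ 1 / 6 - 2 * σ by linarith)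
        linarith
      have b5 : y1 s.1 / y2 s.1 * (((s.2.1 : L) + s.2.2 * W) / (s.2.1 - s.2.2 * W)) ≠ 0 :=
        mul_ne_zero (div_ne_zero a1.1.1 a2.1.1) (div_ne_zero (hne _ hu).1 (hne _ hu).2)
      refine ⟨(j2 _ hi).1, (j2 _ hi).2.1, b5, b4, hUNIT L w _ _ _ p0 b5 hU.un (b4.trans_lt ?_),
        fun τ hτ => ?_⟩
      · have := mul_le_mul_of_nonneg_left hG2 (show 0 ≤ 1 / 2 - 6 * σ by linarith)
        have := mul_pos hσ hlq
        linarith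
      · simp only [map_mul, map_div₀, map_add, map_sub, map_natCast, hWτ τ hτ, (a3 τ hτ).1,
          (a3 τ hτ).2, mul_inv, inv_div, mul_neg, sub_neg_eq_add, ← sub_eq_add_neg])
    (fun s hs s' hs' e h => by
      obtain ⟨hi, hu⟩ := mem_product.1 hs
      obtain ⟨-, hu'⟩ := mem_product.1 hs'
      obtain ⟨a1, a2, -⟩ := hy s.1 hi
      have b1 := h _ hU.mem
      rw [← e] at b1
      have b2 := gc_cong hVAL w hU.pr hU.ab hW hWi hpb hp4 _ (div_ne_zero a1.1.1 a2.1.1)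
        s.2.1 s.2.2 s'.2.1 s'.2.2 (hne _ hu).2 (hne _ hu').1
        (lt_of_le_of_lt b1 (Real.exp_lt_one_iff.2 (by linarith)))
      have k : ∀ u ∈ U, ∀ u' ∈ U, u.2 * u'.1 < p := fun u hu u' hu' => by
        have k1 : (u.2 : ℝ) ≤ P0 :=
          (le_mul_of_one_le_right (Nat.cast_nonneg _) hD1).trans (u2 u hu).2.1
        have k2 : (u.2 : ℝ) * u'.1 ≤ P0 * P0 :=
          mul_le_mul k1 (u2 u' hu').1 (Nat.cast_nonneg _) hP00.le
        have k3 : (u.2 : ℝ) * u'.1 < p := by nlinarith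
        exact_mod_cast k3
      have k1 := k _ hu _ hu'
      have k2 := k _ hu' _ hu
      have b3 : (s.2.2 : ℤ) * s'.2.1 - s.2.1 * s'.2.2 = 0 := by
        refine Int.eq_zero_of_abs_lt_dvd b2 (abs_lt.2 ⟨?_, ?_⟩)
        · zify at k1 k2
          nlinarith [Int.natCast_nonneg (s.2.2 * s'.2.1), Int.natCast_mul s.2.2 s'.2.1]
        · zify at k1 k2
          nlinarith [Int.natCast_nonneg (s.2.1 * s'.2.2), Int.natCast_mul s.2.1 s'.2.2]
      refine Prod.ext e (u3 _ hu _ hu' ?_)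
      zify
      linarith)
  rw [card_product, Nat.cast_mul] at hJ
  have hJ0 : (0 : ℝ) ≤ J.card := Nat.cast_nonneg _
  have hJ2 : (J.card : ℝ) ≤ 128 * C1 * D * (p : ℝ) ^ (2 / 3 + 6 * σ) := by
    refine le_of_mul_le_mul_right ?_ (pow_pos hP00 2)
    calc (J.card : ℝ) * P0 ^ 2 ≤ J.card * (64 * D * U.card) := mul_le_mul_of_nonneg_left u1 hJ0
      _ = 64 * D * (J.card * U.card) := by ring
      _ ≤ 64 * D * (2 * p * C1) := mul_le_mul_of_nonneg_left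
          (hJ.trans (mul_le_mul_of_nonneg_right (by linarith) (by linarith))) (by linarith)
      _ = 128 * C1 * D * (P0 ^ 2 * (p : ℝ) ^ (2 / 3 + 6 * σ)) := by rw [hPp]; ring
      _ = _ := by ring
  obtain ⟨f1, f2⟩ := h3 (Qs x y) hQ
  have e4 : (Real.exp (2 * (Qs x y).card) * √(DD x y a)) ^ (1 + 2 * ε) =
      Real.exp (2 * (1 + 2 * ε) * (Qs x y).card) * DD x y a ^ (1 / 2 + ε) := by
    rw [Real.mul_rpow (Real.exp_pos _).le (Real.sqrt_nonneg _), ← Real.exp_mul, Real.sqrt_eq_rpow,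
      ← Real.rpow_mul (by linarith)]
    congr 2 <;> ring
  rw [e4] at j1
  have e7 : DD x y a ^ (1 / 2 + ε) * D = DD x y a ^ (1 + ε) := by
    rw [hDd, Real.sqrt_eq_rpow, ← Real.rpow_add (by linarith)]
    congr 1
    ring
  have e8 : 0 ≤ DD x y a ^ (1 / 2 + ε) := Real.rpow_nonneg (by linarith) _
  have e5 : (I : ℝ) ≤ C2 * DD x y a ^ (1 / 2 + ε) * (C3 * Rad x y ^ ε) *
      (128 * C1 * D * (p : ℝ) ^ (2 / 3 + 6 * σ)) := by
    refine j1.trans (le_of_eq_of_le (b := C2 * DD x y a ^ (1 / 2 + ε) *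
      (Real.exp (2 * (1 + 2 * ε) * (Qs x y).card) * Kc (Qs x y)) * J.card) (by ring) ?_)
    have b1 : 0 ≤ C2 * DD x y a ^ (1 / 2 + ε) := mul_nonneg (by linarith) e8
    exact mul_le_mul (mul_le_mul_of_nonneg_left f1 b1) hJ2 hJ0
      (mul_nonneg b1 (mul_nonneg (by linarith) (by linarith)))
  refine (n5.trans (mul_le_mul_of_nonneg_left e5 (by linarith))).trans (le_of_eq ?_)
  rw [← e7]
  ring

theorem ca_row (hGM : GM_s) (hCOLA : COLA_s) (hADM : ADM_s) (hSQF : SQF_s) (hFEW : FEW_s) (hALG : ALG_s) : CA_s := by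
  intro δ ε hδ hε
  obtain ⟨C1, c1, h1⟩ := hGM (δ / 2) (1 / 12) (by linarith) (by norm_num)
  obtain ⟨C3, c3, h3⟩ := hFEW (1 / 12) 3 (by norm_num) (by norm_num)
  refine ⟨864 * C1 * C3 * Real.exp (3 * C1 + 23) / δ, by positivity, ?_⟩
  intro L _ _ x y t1 t2 t3 hC φ hW
  obtain ⟨-, -, -, -, -, -, ⟨p0, p1⟩, -, -, -, -, -, -, -, hQ, hR, hN⟩ :=
    hALG L x y t1 t2 t3 hC.toCub0
  obtain ⟨a, ha, d1, d2, -⟩ := hSQF x y hC.prim hC.ne
  have hQ0 : (0 : ℝ) ≤ (Qs x y).card := Nat.cast_nonneg _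
  obtain ⟨G, hG⟩ : ∃ G : ℝ, G = C1 + (Qs x y).card + 1 := ⟨_, rfl⟩
  have g1 : 1 ≤ G := by linarith
  obtain ⟨W, hW'⟩ : ∃ W : ℝ, W = -lg (Sum.inl φ) (ps x t1 t2 - 1) := ⟨_, rfl⟩
  rw [← hW'] at hW
  obtain ⟨T, hT⟩ : ∃ T : ℕ, T = ⌊W / G⌋₊ := ⟨_, rfl⟩
  have t1' : W < (T + 1) * G := by
    rw [← div_lt_iff₀ (by linarith), hT]
    exact Nat.lt_floor_add_one _
  have k1 : 1 ≤ Real.exp (2 * G + 20) := Real.one_le_exp (by linarith)
  have e1 : 1 ≤ DD x y a ^ (1 / 2 + 1 / 12 : ℝ) := Real.one_le_rpow (by linarith) (by norm_num)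
  have e2 : 1 ≤ Rad x y ^ (1 / 12 : ℝ) := Real.one_le_rpow (by linarith) (by norm_num)
  have key : (T : ℝ) + 1 ≤ 2 * (C1 * Real.exp (2 * G + 20) * DD x y a ^ (1 / 2 + 1 / 12 : ℝ) *
      Rad x y ^ (1 / 12 : ℝ)) := by
    have e3 := one_le_mul_of_one_le_of_one_le
      (one_le_mul_of_one_le_of_one_le (one_le_mul_of_one_le_of_one_le c1 k1) e1) e2
    rcases Nat.eq_zero_or_pos T with T0 | T0
    · rw [T0, Nat.cast_zero]
      linarith
    have T1 : (1 : ℝ) ≤ T := by exact_mod_cast T0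
    have t2' : T * G ≤ W := by
      rw [← le_div_iff₀ (by linarith), hT]
      exact Nat.floor_le (zero_le_one.trans (Nat.floor_pos.1 (hT ▸ T0)))
    have nr : av (Sum.inl φ) (ps x t1 t2 - 1) ≤ Real.exp (-(T * G)) := by
      have b1 : 0 < av (Sum.inl φ : Pl L) (ps x t1 t2 - 1) := AbsoluteValue.pos _ (sub_ne_zero.2 p1)
      rw [← Real.log_le_iff_le_exp b1]
      unfold lg at hW'
      linarith
    have nr' : ‖φ (ps x t1 t2 - 1)‖ ≤ 1 / 2 := by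
      refine le_trans nr ((Real.exp_le_exp.2 (show -(T * G) ≤ -1 by nlinarith)).trans ?_)
      rw [Real.exp_neg, ← one_div]
      exact one_div_le_one_div_of_le (by norm_num) (by linarith [Real.add_one_le_exp 1])
    obtain ⟨col, b1, b2⟩ := hCOLA G (by linarith)
    have := h1 L x y t1 t2 t3 hC a ha {Sum.inl φ} (fun _ => G) T _
      ⟨fun v hv => by rw [mem_singleton.1 hv]; exact ⟨by linarith, g1⟩,
        fun v hv => by rw [mem_singleton.1 hv]; exact nr, by rw [sum_singleton]; nlinarith⟩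
      (by rw [sum_singleton]; linarith) k1
      ⟨fun u => col (φ u), fun u hu => b1 _ ((hADM L x y t1 t2 t3 u hC hu).2.2.1 φ nr').2,
        fun u u' hu hu' e v hv => by
          have b3 := (hADM L x y t1 t2 t3 u hC hu).2.2.1 φ nr'
          have b4 := (hADM L x y t1 t2 t3 u' hC hu').2.2.1 φ nr'
          have b5 := b2 _ _ b3.2 b4.2 b4.1 e
          rw [← map_div₀, ← map_one φ, ← map_sub] at b5
          rw [mem_singleton.1 hv]
          exact b5⟩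
    linarith
  obtain ⟨n, hn⟩ : ∃ n : ℝ, n = NN x y ^ (1 / 12 : ℝ) := ⟨_, rfl⟩
  have N0 : 0 ≤ NN x y := by linarith
  have n1 : Rad x y ^ (1 / 12 : ℝ) ≤ n := hn ▸ Real.rpow_le_rpow (by linarith) hN (by norm_num)
  have n0 : 0 ≤ n := by linarith
  have n2 : DD x y a ^ (1 / 2 + 1 / 12 : ℝ) ≤ 432 * n ^ 7 := by
    refine (Real.rpow_le_rpow (by linarith) d2 (by norm_num)).trans ?_
    rw [Real.mul_rpow (by norm_num) N0, hn, ← Real.rpow_mul_natCast N0]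
    refine mul_le_mul (Real.rpow_le_self_of_one_le (by norm_num) (by norm_num)) (le_of_eq ?_)
      (Real.rpow_nonneg N0 _) (by norm_num)
    congr 1
    norm_num
  have n3 : n ^ 9 ≤ NN x y ^ (3 / 4 + ε) := by
    rw [hn, ← Real.rpow_mul_natCast N0]
    exact Real.rpow_le_rpow_of_exponent_le (by linarith) (by push_cast; linarith)
  obtain ⟨f1, f2⟩ := h3 (Qs x y) hQ
  have f3 : Real.exp (3 * (Qs x y).card) ≤ C3 * n :=
    ((le_mul_of_one_le_right (Real.exp_pos _).le f2).trans f1).trans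
      (mul_le_mul_of_nonneg_left n1 (by linarith))
  have f4 : Real.exp (2 * G + 20) * G ≤ Real.exp (3 * C1 + 23) * (C3 * n) := by
    refine (mul_le_mul_of_nonneg_left (by linarith [Real.add_one_le_exp G] : G ≤ Real.exp G)
      (Real.exp_pos _).le).trans (le_trans (le_of_eq ?_)
        (mul_le_mul_of_nonneg_left f3 (Real.exp_pos _).le))
    rw [← Real.exp_add, ← Real.exp_add, hG]
    congr 1
    ring
  have f5 : DD x y a ^ (1 / 2 + 1 / 12 : ℝ) * Rad x y ^ (1 / 12 : ℝ) ≤ 432 * n ^ 7 * n :=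
    mul_le_mul n2 n1 (by linarith) (by positivity)
  have f6 := mul_le_mul f4 f5 (mul_nonneg (by linarith) (by linarith))
    (mul_nonneg (Real.exp_pos _).le (mul_nonneg (by linarith) n0))
  have f7 : δ * ht (ps x t1 t2) ≤ 864 * C1 * C3 * Real.exp (3 * C1 + 23) * n ^ 9 := by
    have b1 := mul_le_mul_of_nonneg_right key (by linarith : 0 ≤ G)
    have b2 := mul_le_mul_of_nonneg_left f6 (by linarith : 0 ≤ 2 * C1)
    calc δ * ht (ps x t1 t2) ≤ _ := (hW.trans t1'.le).trans b1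
      _ = _ := by ring
      _ ≤ _ := b2
      _ = _ := by ring
  unfold Bd
  rw [div_mul_eq_mul_div, le_div_iff₀ hδ, mul_comm]
  exact f7.trans (mul_le_mul_of_nonneg_left n3 (by positivity))

theorem cs_val {L : Type} [Field L] [NumberField L] (hVAL : VAL_s) (w : FinitePlace L) (u : L)
    (hu : u ≠ 0) (h1 : w u < 1) : ∃ T : ℕ, w u = Real.exp (-(T * Real.log (nq w))) := by
  obtain ⟨hn2, hpow, -⟩ := hVAL L w
  obtain ⟨k, hk⟩ := hpow u hu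
  have hk0 : k < 0 := by
    by_contra hcon
    have := one_le_zpow₀ (show 1 ≤ nq w by linarith) (not_lt.mp hcon)
    linarith
  obtain ⟨T, hT⟩ : ∃ T : ℕ, k = -(T : ℤ) := ⟨k.natAbs, by omega⟩
  refine ⟨T, ?_⟩
  rw [hk, hT, zpow_neg, zpow_natCast, Real.exp_neg, ← Real.log_pow,
    Real.exp_log (pow_pos (by linarith) _)]

theorem cs_sum {L : Type} [Field L] [NumberField L] (hVAL2 : VAL2_s) (hd : finrank ℚ L ≤ 6)
    (hn : ∀ w : FinitePlace L, 0 ≤ Real.log (nq w)) (Q : Finset ℕ) (hQ : ∀ q ∈ Q, q.Prime)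
    (S : Finset (FinitePlace L)) (hS : ∀ w ∈ S, ∃ q ∈ Q, w (q : L) < 1) :
    ∑ w ∈ S, Real.log (nq w) ≤ 6 * Real.log (∏ q ∈ Q, (q : ℝ)) := by
  classical
  choose! f hf1 hf2 using hS
  rw [← Finset.sum_fiberwise_of_maps_to hf1,
    Real.log_prod (fun q hq => by exact_mod_cast (hQ q hq).ne_zero), Finset.mul_sum]
  refine Finset.sum_le_sum fun q hq => ?_
  have h1 := (hVAL2 L q (hQ q hq) (S.filter fun w => f w = q) (fun w hw => by
    obtain ⟨h2, h3⟩ := Finset.mem_filter.mp hw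
    rw [← h3]
    exact hf2 w h2)).1
  have h2 : (finrank ℚ L : ℝ) ≤ 6 := by exact_mod_cast hd
  exact h1.trans (mul_le_mul_of_nonneg_right h2 (Real.log_natCast_nonneg q))

theorem cs_num (δ ε Cm Cf c0 q R N D K T h : ℝ) (hδ : 0 < δ) (hε : 0 < ε) (hCm : 1 ≤ Cm)
    (hCf : 1 ≤ Cf) (hc0 : 0 ≤ c0) (hq : 0 ≤ q) (hR : 2 ≤ R) (hN : R ≤ N) (hD0 : 0 ≤ D)
    (hD : D ≤ 432 * N) (hF : Real.exp ((1 + 6 * c0) * q) ≤ Cf * R ^ (1 / 100 : ℝ))
    (hK : K ≤ Real.exp (Cm + q + 1 / 100 * Real.log R + 6 * (c0 + c0 * q + 1 / 100 * Real.log R)))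
    (hT : T ≤ Cm * K * D ^ (1 / 2 + 1 / 100 : ℝ) * R ^ (1 / 100 : ℝ))
    (hh : δ * h ≤ (T + 1) * (Cm + q + 1 / 100 * Real.log R + 6 * Real.log R)) :
    h ≤ (Cm * Real.exp (Cm + 6 * c0) * Cf * 432 + 1) * (Cm + Cf + 700) / δ * N ^ (3 / 4 + ε) := by
  have hR0 : 0 < R := by linarith
  have hN1 : 1 ≤ N := by linarith
  have hN0 : 0 < N := by linarith
  obtain ⟨u, hu⟩ : ∃ u, u = N ^ (1 / 100 : ℝ) := ⟨_, rfl⟩
  have hu1 : 1 ≤ u := hu ▸ Real.one_le_rpow hN1 (by norm_num)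
  have hRu : R ^ (1 / 100 : ℝ) ≤ u := hu ▸ Real.rpow_le_rpow hR0.le hN (by norm_num)
  have hup : ∀ k : ℕ, u ^ k = N ^ ((k : ℝ) / 100) := fun k => by
    rw [hu, ← Real.rpow_natCast, ← Real.rpow_mul hN0.le]
    congr 1
    ring
  have hlR : Real.log R ≤ 100 * u := by
    have := Real.log_le_rpow_div hR0.le (show (0 : ℝ) < 1 / 100 by norm_num)
    linarith
  have hlR0 : 0 ≤ Real.log R := Real.log_nonneg (by linarith)
  have hF' : Real.exp ((1 + 6 * c0) * q) ≤ Cf * u :=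
    hF.trans (mul_le_mul_of_nonneg_left hRu (by linarith))
  have hq1 : q ≤ Cf * u := by
    have h1 := Real.add_one_le_exp ((1 + 6 * c0) * q)
    nlinarith [mul_nonneg hc0 hq]
  have h7 : Real.exp (7 / 100 * Real.log R) ≤ u ^ 7 := by
    rw [hup, mul_comm, ← Real.rpow_def_of_pos hR0]
    exact_mod_cast Real.rpow_le_rpow hR0.le hN (show (0 : ℝ) ≤ 7 / 100 by norm_num)
  have hK' : K ≤ Real.exp (Cm + 6 * c0) * (Cf * u) * u ^ 7 := by
    refine hK.trans ?_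
    have : Cm + q + 1 / 100 * Real.log R + 6 * (c0 + c0 * q + 1 / 100 * Real.log R) =
      (Cm + 6 * c0) + (1 + 6 * c0) * q + 7 / 100 * Real.log R := by ring
    rw [this, Real.exp_add, Real.exp_add]
    gcongr
  have hD' : D ^ (1 / 2 + 1 / 100 : ℝ) ≤ 432 * u ^ 51 := by
    refine (Real.rpow_le_rpow hD0 hD (by norm_num)).trans ?_
    rw [Real.mul_rpow (by norm_num) hN0.le, hup]
    have h1 : (432 : ℝ) ^ (1 / 2 + 1 / 100 : ℝ) ≤ 432 ^ (1 : ℝ) :=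
      Real.rpow_le_rpow_of_exponent_le (by norm_num) (by norm_num)
    rw [Real.rpow_one] at h1
    have h2 : (1 / 2 + 1 / 100 : ℝ) = ((51 : ℕ) : ℝ) / 100 := by norm_num
    rw [← h2]
    exact mul_le_mul_of_nonneg_right h1 (by positivity)
  have hT' : T ≤ Cm * Real.exp (Cm + 6 * c0) * Cf * 432 * u ^ 60 := by
    refine hT.trans ?_
    calc Cm * K * D ^ (1 / 2 + 1 / 100 : ℝ) * R ^ (1 / 100 : ℝ)
        ≤ Cm * (Real.exp (Cm + 6 * c0) * (Cf * u) * u ^ 7) * (432 * u ^ 51) * u := by gcongr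
      _ = _ := by ring
  have h60 : 1 ≤ u ^ 60 := one_le_pow₀ hu1
  have hT1 : T + 1 ≤ (Cm * Real.exp (Cm + 6 * c0) * Cf * 432 + 1) * u ^ 60 := by linarith
  have hE : Cm + q + 1 / 100 * Real.log R + 6 * Real.log R ≤ (Cm + Cf + 700) * u := by
    nlinarith
  have h61 : u ^ 60 * u ≤ N ^ (3 / 4 + ε) := by
    rw [← pow_succ, hup]
    exact Real.rpow_le_rpow_of_exponent_le hN1 (by norm_num; linarith)
  have h8 : δ * h ≤ (Cm * Real.exp (Cm + 6 * c0) * Cf * 432 + 1) * (Cm + Cf + 700) *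
      N ^ (3 / 4 + ε) := by
    refine hh.trans ?_
    calc (T + 1) * (Cm + q + 1 / 100 * Real.log R + 6 * Real.log R)
        ≤ ((Cm * Real.exp (Cm + 6 * c0) * Cf * 432 + 1) * u ^ 60) * ((Cm + Cf + 700) * u) :=
          mul_le_mul hT1 hE (by positivity) (by positivity)
      _ = (Cm * Real.exp (Cm + 6 * c0) * Cf * 432 + 1) * (Cm + Cf + 700) * (u ^ 60 * u) := by ring
      _ ≤ _ := mul_le_mul_of_nonneg_left h61 (by positivity)
  rw [div_mul_eq_mul_div, le_div_iff₀ hδ]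
  linarith

theorem cs_row (hGM : GM_s) (hCOLN : COLN_s) (hADM : ADM_s) (hSQF : SQF_s) (hFEW : FEW_s) (hALG : ALG_s) (hSEL : SEL_s) (hVAL : VAL_s) (hVAL2 : VAL2_s) : CS_s := by
  classical
  intro δ ε hδ hε
  refine ⟨1 / 100, by norm_num, fun c0 hc0 => ?_⟩
  obtain ⟨Cm, hCm, hM⟩ := hGM (δ / 1202) (1 / 100) (by positivity) (by norm_num)
  obtain ⟨Cf, hCf, hF⟩ := hFEW (1 / 100) (1 + 6 * c0) (by norm_num) (by positivity)
  refine ⟨(Cm * Real.exp (Cm + 6 * c0) * Cf * 432 + 1) * (Cm + Cf + 700) / δ, by positivity, ?_⟩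
  intro L _ _ x y t1 t2 t3 hc S hS hht
  obtain ⟨-, -, -, -, -, -, ⟨hp0, hp1⟩, -, -, -, -, -, hq, -, hQp, hR2, hRN⟩ :=
    hALG L x y t1 t2 t3 hc.toCub0
  obtain ⟨a, hSq, hD1, hD2, -⟩ := hSQF x y hc.prim hc.ne
  have hQ0 : (0 : ℝ) ≤ (Qs x y).card := Nat.cast_nonneg _
  have hlR : 0 ≤ Real.log (Rad x y) := Real.log_nonneg (by linarith)
  have hln : ∀ w : FinitePlace L, 0 < Real.log (nq w) := fun w =>
    Real.log_pos (by linarith [(hVAL L w).1])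
  have hd : (finrank ℚ L : ℝ) ≤ 6 := by exact_mod_cast hc.d6
  have hF1 : Real.exp ((1 + 6 * c0) * (Qs x y).card) ≤ Cf * Rad x y ^ (1 / 100 : ℝ) := by
    obtain ⟨h1, h2⟩ := hF (Qs x y) hQp
    exact (le_mul_of_one_le_right (Real.exp_pos _).le h2).trans h1
  choose! v hv using fun w (hw : w ∈ S) => cs_val hVAL w _ (sub_ne_zero.mpr hp1) (hS w hw).1
  have hW : ∑ w ∈ S, -lg (Sum.inr w) (ps x t1 t2 - 1) = ∑ w ∈ S, v w * Real.log (nq w) := by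
    refine Finset.sum_congr rfl fun w hw => ?_
    change -Real.log (w (ps x t1 t2 - 1)) = _
    rw [hv w hw, Real.log_exp, neg_neg]
  rw [hW] at hht
  have hsum : ∑ w ∈ S, Real.log (nq w) ≤ 6 * Real.log (Rad x y) :=
    cs_sum hVAL2 hc.d6 (fun w => (hln w).le) _ hQp S fun w hw => by
      obtain ⟨q, h1, h2, -⟩ := (hS w hw).2
      exact ⟨q, h1, h2⟩
  obtain ⟨G, hG⟩ : ∃ G, G = Cm + (Qs x y).card + 1 / 100 * Real.log (Rad x y) := ⟨_, rfl⟩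
  obtain ⟨W, hWd⟩ : ∃ W, W = ∑ w ∈ S, v w * Real.log (nq w) := ⟨_, rfl⟩
  have hW0 : 0 ≤ W := hWd ▸ Finset.sum_nonneg fun w _ => mul_nonneg (Nat.cast_nonneg _) (hln w).le
  have hG1 : 1 ≤ G := by linarith
  have hE0 : 0 < G + 6 * Real.log (Rad x y) := by linarith
  obtain ⟨T, hT⟩ : ∃ T : ℕ, T = ⌊W / (G + 6 * Real.log (Rad x y))⌋₊ := ⟨_, rfl⟩
  have hT1 : T * (G + 6 * Real.log (Rad x y)) ≤ W := by
    rw [← le_div_iff₀ hE0, hT]
    exact Nat.floor_le (by positivity)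
  have hT2 : W ≤ (T + 1) * (G + 6 * Real.log (Rad x y)) := by
    rw [← div_le_iff₀ hE0, hT]
    exact (Nat.lt_floor_add_one _).le
  rw [← hWd] at hht
  have fin : ∀ K : ℝ, K ≤ Real.exp (G + 6 * (c0 + c0 * (Qs x y).card +
      1 / 100 * Real.log (Rad x y))) →
      (T : ℝ) ≤ Cm * K * DD x y a ^ (1 / 2 + 1 / 100 : ℝ) * Rad x y ^ (1 / 100 : ℝ) →
      Bd ε ((Cm * Real.exp (Cm + 6 * c0) * Cf * 432 + 1) * (Cm + Cf + 700) / δ) x y t1 t2 :=
    fun K h1 h2 => cs_num δ ε Cm Cf c0 _ _ _ _ K T _ hδ hε hCm hCf hc0 hQ0 hR2 hRN (by linarith)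
      hD2 hF1 (hG ▸ h1) h2 (hG ▸ hht.trans hT2)
  rcases Nat.eq_zero_or_pos T with hT0 | hT0
  · exact fin 0 (Real.exp_pos _).le (by rw [hT0]; simp)
  have hTr : (1 : ℝ) ≤ T := by exact_mod_cast hT0
  obtain ⟨j, hj1, hj2, hj3⟩ := hSEL _ S (fun w => Real.log (nq w)) v T G
    (6 * (c0 + c0 * (Qs x y).card + 1 / 100 * Real.log (Rad x y))) hT0 (by linarith)
    (fun w hw => by
      obtain ⟨q, h1, h2, h3⟩ := (hS w hw).2
      have h4 := ((hVAL L w).2.2.2.2 q (hQp q h1) h2).2.1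
      have h5 := Real.log_le_log (by linarith [(hVAL L w).1]) h4
      rw [Real.log_pow] at h5
      have h6 := mul_le_mul_of_nonneg_right hd (Real.log_natCast_nonneg q)
      exact ⟨hln w, by linarith⟩)
    (by
      rw [← hWd]
      refine le_trans (mul_le_mul_of_nonneg_left ?_ (by linarith)) hT1
      linarith)
  obtain ⟨S', hS'⟩ : ∃ S', S' = S.filter fun w => j w ≠ 0 := ⟨_, rfl⟩
  have hm : ∀ w ∈ S', w ∈ S ∧ j w ≠ 0 := fun w hw => Finset.mem_filter.mp (hS' ▸ hw)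
  have hs' : ∑ w ∈ S', j w * Real.log (nq w) = ∑ w ∈ S, j w * Real.log (nq w) := by
    rw [hS']
    refine Finset.sum_filter_of_ne fun w _ h => ?_
    intro h0
    exact h (by rw [h0]; simp)
  obtain ⟨g, hg⟩ : ∃ g : Pl L → ℝ, ∀ w, g (Sum.inr w) = j w * Real.log (nq w) :=
    ⟨Sum.elim (fun _ => 0) fun w => j w * Real.log (nq w), fun _ => rfl⟩
  have hsg : ∑ u ∈ S'.map Function.Embedding.inr, g u = ∑ w ∈ S, j w * Real.log (nq w) := by
    rw [Finset.sum_map, ← hs']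
    exact Finset.sum_congr rfl fun w _ => hg w
  have hmem : ∀ u ∈ S'.map (Function.Embedding.inr : _ ↪ Pl L), ∃ w ∈ S', u = Sum.inr w :=
    fun u hu => by
      obtain ⟨w, h1, h2⟩ := Finset.mem_map.mp hu
      exact ⟨w, h1, h2.symm⟩
  have hHv : Hv (δ / 1202) (ps x t1 t2) (S'.map Function.Embedding.inr) g T := by
    refine ⟨fun u hu => ?_, fun u hu => ?_, ?_⟩
    · obtain ⟨w, h1, rfl⟩ := hmem u hu
      have h2 : (0 : ℝ) < j w := by exact_mod_cast Nat.pos_of_ne_zero (hm w h1).2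
      have h3 : 0 < g (Sum.inr w) := hg w ▸ mul_pos h2 (hln w)
      exact ⟨h3, h3.le⟩
    · obtain ⟨w, h1, rfl⟩ := hmem u hu
      change w (ps x t1 t2 - 1) ≤ _
      rw [hv w (hm w h1).1, hg]
      have h2 : (T : ℝ) * j w ≤ v w := by exact_mod_cast hj1 w (hm w h1).1
      have h3 := mul_le_mul_of_nonneg_right h2 (hln w).le
      exact Real.exp_le_exp.mpr (by linarith)
    · rw [hsg]
      have h1 : G + 6 * Real.log (Rad x y) ≤ 601 * G := by linarith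
      have h2 : ((T : ℝ) + 1) * (G + 6 * Real.log (Rad x y)) ≤ (2 * T) * (601 * G) :=
        mul_le_mul (by linarith) h1 hE0.le (by linarith)
      have h3 := mul_le_mul_of_nonneg_left hj2 (show (0 : ℝ) ≤ T by linarith)
      linarith
  have hK : ∏ w ∈ S', nq w ^ j w = Real.exp (∑ w ∈ S, j w * Real.log (nq w)) := by
    rw [← hs', Real.exp_sum]
    refine Finset.prod_congr rfl fun w _ => ?_
    rw [← Real.log_pow, Real.exp_log (pow_pos (by linarith [(hVAL L w).1]) _)]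
  obtain ⟨col, hc1, hc2⟩ := hCOLN L S' j
  have hu1 : ∀ b, Adm x y t1 t2 b → ∀ w ∈ S', w b = 1 := fun b hb w hw =>
    (hADM L x y t1 t2 t3 b hc hb).2.1 w (hq w (hS w (hm w hw).1).1).1
  have hCol : Col (∏ w ∈ S', nq w ^ j w) (Adm x y t1 t2) (S'.map Function.Embedding.inr) g := by
    refine ⟨col, fun b _ => hc1 b, fun b b' hb hb' hbb u hu => ?_⟩
    obtain ⟨w, h1, rfl⟩ := hmem u hu
    rw [hg, Real.exp_neg, ← Real.log_pow, Real.exp_log (pow_pos (by linarith [(hVAL L w).1]) _)]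
    exact hc2 b b' (hu1 b hb) (hu1 b' hb') hbb w h1
  refine fin _ ?_ (hM L x y t1 t2 t3 hc a hSq _ g T _ hHv (by rw [hsg]; linarith) ?_ hCol)
  · rw [hK]
    exact Real.exp_le_exp.mpr hj3
  · rw [hK]
    exact Real.one_le_exp (by linarith)

theorem cp_fin (δ σ ε C0 h X p N : ℝ) (hδ : 0 < δ) (hσ : 0 < σ) (h8 : 8 * σ ≤ ε)
    (h6 : 6 * σ ≤ 1 / 4) (hN : 1 ≤ N) (hp1 : 1 ≤ p) (hpN : p ≤ N) (hC : 0 ≤ C0)
    (hh : δ * h ≤ X * Real.log p) (hX : X ≤ C0 * (432 * N) ^ (3 / 4 + 6 * σ) * N ^ σ) :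
    h ≤ C0 * 432 / (σ * δ) * N ^ (3 / 4 + ε) := by
  have hN0 : 0 < N := by linarith
  have l0 : 0 ≤ Real.log p := Real.log_nonneg hp1
  have l1 : Real.log p ≤ N ^ σ / σ :=
    (Real.log_le_log (by linarith) hpN).trans (Real.log_le_rpow_div hN0.le hσ)
  have l2 : (432 * N) ^ (3 / 4 + 6 * σ) ≤ 432 * N ^ (3 / 4 + 6 * σ) := by
    rw [Real.mul_rpow (by norm_num) hN0.le]
    refine mul_le_mul_of_nonneg_right ?_ (by positivity)
    calc (432 : ℝ) ^ (3 / 4 + 6 * σ) ≤ 432 ^ (1 : ℝ) :=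
          Real.rpow_le_rpow_of_exponent_le (by norm_num) (by linarith)
      _ = 432 := Real.rpow_one _
  have l3 : N ^ (3 / 4 + 6 * σ) * N ^ σ * N ^ σ ≤ N ^ (3 / 4 + ε) := by
    rw [← Real.rpow_add hN0, ← Real.rpow_add hN0]
    exact Real.rpow_le_rpow_of_exponent_le hN (by linarith)
  have l4 : X ≤ C0 * (432 * N ^ (3 / 4 + 6 * σ)) * N ^ σ :=
    hX.trans (mul_le_mul_of_nonneg_right (mul_le_mul_of_nonneg_left l2 hC) (by positivity))
  have l5 : X * Real.log p ≤ C0 * (432 * N ^ (3 / 4 + 6 * σ)) * N ^ σ * (N ^ σ / σ) :=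
    (mul_le_mul_of_nonneg_right l4 l0).trans (mul_le_mul_of_nonneg_left l1 (by positivity))
  have l6 : C0 * (432 * N ^ (3 / 4 + 6 * σ)) * N ^ σ * (N ^ σ / σ) =
      C0 * 432 / σ * (N ^ (3 / 4 + 6 * σ) * N ^ σ * N ^ σ) := by
    field_simp
  have l7 : δ * h ≤ C0 * 432 / σ * N ^ (3 / 4 + ε) := by
    refine hh.trans (l5.trans ?_)
    rw [l6]
    exact mul_le_mul_of_nonneg_left l3 (by positivity)
  have l8 : C0 * 432 / (σ * δ) * N ^ (3 / 4 + ε) = C0 * 432 / σ * N ^ (3 / 4 + ε) / δ := by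
    field_simp
  rw [l8, le_div_iff₀ hδ]
  linarith

theorem cp_pow (p D M a b c : ℝ) (hp : 0 < p) (hD : 0 < D) (hM : D * p ≤ M) (hc : 0 ≤ c)
    (h : a * Real.log p + b * Real.log D ≤ c * (Real.log p + Real.log D)) :
    p ^ a * D ^ b ≤ M ^ c := by
  have hM0 : 0 < M := lt_of_lt_of_le (mul_pos hD hp) hM
  have h1 : Real.log p + Real.log D ≤ Real.log M := by
    rw [← Real.log_mul hp.ne' hD.ne']
    exact Real.log_le_log (mul_pos hp hD) (by linarith [mul_comm p D])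
  rw [Real.rpow_def_of_pos hp, Real.rpow_def_of_pos hD, Real.rpow_def_of_pos hM0, ← Real.exp_add]
  refine Real.exp_le_exp.mpr ?_
  nlinarith

theorem cp_col {L : Type} [Field L] [NumberField L] {K : ℝ} {A B : L → Prop} {H : Finset (Pl L)}
    {g : Pl L → ℝ} (h : ∀ a, A a → B a) (hc : Col K B H g) : Col K A H g := by
  obtain ⟨col, h1, h2⟩ := hc
  exact ⟨col, fun a ha => h1 a (h a ha), fun a a' ha ha' => h2 a a' (h a ha) (h a' ha')⟩

theorem cp_le_rad (x y : ℤ) (hQ : ∀ q ∈ Qs x y, q.Prime) (p : ℕ) (hp : p ∈ Qs x y) :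
    (p : ℝ) ≤ Rad x y := by
  unfold Rad
  have h1 : p ≤ ∏ q ∈ Qs x y, q :=
    Nat.le_of_dvd (Finset.prod_pos fun q hq => (hQ q hq).pos) (Finset.dvd_prod_of_mem _ hp)
  have h2 : ((∏ q ∈ Qs x y, q : ℕ) : ℝ) = ∏ q ∈ Qs x y, (q : ℝ) := by push_cast; rfl
  rw [← h2]
  exact_mod_cast h1

theorem cp_n0 (σ Cm Cb Cc q l : ℝ) (hσ : 0 < σ) (hCm : 1 ≤ Cm) (hCb : 1 ≤ Cb) (hCc : 1 ≤ Cc)
    (hq : 0 ≤ q) (h : 4 + Cm + Cb + Cc / σ + (4 + Cm + Cb + Cc / σ) * q ≤ l) :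
    Cm + q ≤ l ∧ Cb ≤ l ∧ Cc + q ≤ σ * l := by
  have hcs : 0 < Cc / σ := by positivity
  have h0 : 0 ≤ Cc / σ * q := by positivity
  refine ⟨by nlinarith, by nlinarith, ?_⟩
  have h1 : Cc / σ + Cc / σ * q ≤ l := by nlinarith
  have h2 := mul_le_mul_of_nonneg_left h1 hσ.le
  have h3 : σ * (Cc / σ + Cc / σ * q) = Cc + Cc * q := by field_simp
  nlinarith

theorem cp_na (σ q a b : ℝ) (hσ : 0 < σ) (ha : 4 ≤ a) (hb : 0 ≤ b) (hq : q ≤ σ * a)
    (h : (1 / 2 - 6 * σ) * a < 2 * q + b / 2) :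
    1 * a + (1 / 2 + σ) * b ≤ (3 / 4 + 6 * σ) * (a + b) := by
  nlinarith [mul_nonneg hσ.le hb, mul_nonneg hσ.le (show 0 ≤ a by linarith)]

theorem cp_nb (σ a b : ℝ) (hσ : 0 < σ) (h1 : σ ≤ 1 / 200) (ha : 4 ≤ a)
    (h : (1 / 6 - 4 * σ) * a < b / 2) : 1 * a + 0 * b ≤ (3 / 4 + 6 * σ) * (a + b) := by
  have h2 : 0 ≤ b := by nlinarith
  nlinarith [mul_nonneg hσ.le h2, mul_nonneg hσ.le (show 0 ≤ a by linarith)]

theorem cp_nc (σ a b : ℝ) (hσ : 0 < σ) (ha : 4 ≤ a) (hb : 0 ≤ b)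
    (h : b / 2 ≤ (1 / 6 - 4 * σ) * a) :
    (2 / 3 + 6 * σ) * a + (1 + σ) * b ≤ (3 / 4 + 6 * σ) * (a + b) := by
  nlinarith [mul_nonneg hσ.le hb, mul_nonneg hσ.le (show 0 ≤ a by linarith)]

theorem cp_row (hGM : GM_s) (hGB : GB_s) (hGC : GC_s) (hBR : BR_s) (hBE : BE_s) (hBU : BU_s) (hEXC : EXC_s) (hADM : ADM_s) (hSQF : SQF_s) (hALG : ALG_s) (hVAL : VAL_s) : CP_s := by
  classical
  intro δ ε hδ hε
  obtain ⟨σ, hσ, hσ1, hσ2⟩ : ∃ σ : ℝ, 0 < σ ∧ σ ≤ 1 / 200 ∧ 8 * σ ≤ ε :=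
    ⟨min (1 / 200) (ε / 8), by positivity, min_le_left _ _, by
      have := min_le_right (1 / 200 : ℝ) (ε / 8); linarith⟩
  obtain ⟨Cm, hCm, hM⟩ := hGM δ σ hδ hσ
  obtain ⟨Cb, hCb, hB⟩ := hGB δ σ σ hδ hσ (by linarith) hσ
  obtain ⟨Cc, hCc, hC⟩ := hGC δ σ σ hδ hσ (by linarith) hσ
  refine ⟨4 + Cm + Cb + Cc / σ, by positivity, (12 + 12 * Cm + 6 * Cb + 6 * Cc) * 432 / (σ * δ),
    by positivity, ?_⟩
  intro L _ _ x y t1 t2 t3 hc p w hpQ hwp hlp hw1 hht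
  obtain ⟨-, -, -, -, -, -, ⟨hp0, hp1⟩, -, -, -, -, -, hq, -, hQp, hR2, hRN⟩ :=
    hALG L x y t1 t2 t3 hc.toCub0
  have hpp : p.Prime := hQp p hpQ
  have hpR : (p : ℝ) ≤ Rad x y := cp_le_rad x y hQp p hpQ
  have hp1' : (1 : ℝ) ≤ p := by exact_mod_cast hpp.one_le
  have hp0' : (0 : ℝ) < p := by linarith
  have hN1 : 1 ≤ NN x y := by linarith
  have hQ0 : (0 : ℝ) ≤ (Qs x y).card := Nat.cast_nonneg _
  have hcs : 0 < Cc / σ := by positivity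
  have hcQ : 0 ≤ (4 + Cm + Cb + Cc / σ) * (Qs x y).card := by positivity
  have hl4 : 4 ≤ Real.log p := by linarith
  have hp5 : 5 ≤ p := by
    have h1 := Real.log_le_sub_one_of_pos hp0'
    have h2 : (5 : ℝ) ≤ p := by linarith
    exact_mod_cast h2
  obtain ⟨hlm, hlb, hlc⟩ := cp_n0 σ Cm Cb Cc _ _ hσ hCm hCb hCc hQ0 hlp
  have hY1 : 1 ≤ (432 * NN x y) ^ (3 / 4 + 6 * σ) := Real.one_le_rpow (by linarith) (by linarith)
  have hZ1 : 1 ≤ NN x y ^ σ := Real.one_le_rpow hN1 hσ.le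
  have hRZ : Rad x y ^ σ ≤ NN x y ^ σ := Real.rpow_le_rpow (by linarith) hRN hσ.le
  have hR0 : 0 ≤ Rad x y ^ σ := Real.rpow_nonneg (by linarith) _
  have fin : ∀ X : ℝ, δ * ht (ps x t1 t2) ≤ X * Real.log p →
      X ≤ (12 + 12 * Cm + 6 * Cb + 6 * Cc) * (432 * NN x y) ^ (3 / 4 + 6 * σ) * NN x y ^ σ →
      Bd ε ((12 + 12 * Cm + 6 * Cb + 6 * Cc) * 432 / (σ * δ)) x y t1 t2 := fun X h1 h2 =>
    cp_fin δ σ ε _ _ X p _ hδ hσ hσ2 (by linarith) hN1 hp1' (by linarith) (by positivity) h1 h2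
  have hYZ : 1 ≤ (432 * NN x y) ^ (3 / 4 + 6 * σ) * NN x y ^ σ := by nlinarith
  by_cases hg : (p : ℤ) ∣ x ∧ (p : ℤ) ∣ y
  · refine fin 12 (hht.trans (hEXC L x y t1 t2 t3 hc p w hpp hp5 hwp hg.1 hg.2)) ?_
    rw [mul_assoc]
    nlinarith
  obtain ⟨hn2, hpow, -, -, hpr⟩ := hVAL L w
  obtain ⟨hpn, hnp, -, -⟩ := hpr p hpp hwp
  have hn0 : 0 < nq w := by linarith
  have hln : 0 < Real.log (nq w) := Real.log_pos (by linarith)
  obtain ⟨k, hk⟩ := hpow (ps x t1 t2 - 1) (sub_ne_zero.mpr hp1)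
  have hk0 : k < 0 := by
    by_contra hcon
    have := one_le_zpow₀ (show 1 ≤ nq w by linarith) (not_lt.mp hcon)
    linarith
  obtain ⟨T, hT⟩ : ∃ T : ℕ, k = -(T : ℤ) := ⟨k.natAbs, by omega⟩
  have hT1 : 1 ≤ T := by omega
  have hwT : w (ps x t1 t2 - 1) = (nq w ^ T)⁻¹ := by rw [hk, hT, zpow_neg, zpow_natCast]
  have hwE : w (ps x t1 t2 - 1) = Real.exp (-(T * Real.log (nq w))) := by
    rw [hwT, Real.exp_neg, ← Real.log_pow, Real.exp_log (by positivity)]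
  have hW : -lg (Sum.inr w) (ps x t1 t2 - 1) = T * Real.log (nq w) := by
    change -Real.log (w (ps x t1 t2 - 1)) = _
    rw [hwE, Real.log_exp, neg_neg]
  have hlpn : Real.log p ≤ Real.log (nq w) := Real.log_le_log hp0' hpn
  have hl6 : Real.log (nq w) ≤ 6 * Real.log p := by
    have h1 := Real.log_le_log hn0 hnp
    rw [Real.log_pow] at h1
    have h2 : (finrank ℚ L : ℝ) ≤ 6 := by exact_mod_cast hc.d6
    nlinarith
  have hT0 : (0 : ℝ) ≤ T := Nat.cast_nonneg _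
  have hmain : δ * ht (ps x t1 t2) ≤ 6 * T * Real.log p := by
    rw [hW] at hht
    nlinarith
  have hwψ : w (ps x t1 t2) = 1 := (hq w hw1).1
  have hAdw : ∀ a, Adm x y t1 t2 a → Adw t1 t2 w a := fun a ha =>
    ⟨(hADM L x y t1 t2 t3 a hc ha).2.1 w hwψ, (hADM L x y t1 t2 t3 a hc ha).2.2.2⟩
  obtain ⟨a, hSq, hD1, hD2, hD3⟩ := hSQF x y hc.prim hc.ne
  have hD0 : 0 < DD x y a := by linarith
  have hLd : 0 ≤ Real.log (DD x y a) := Real.log_nonneg (by linarith)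
  have hHv : ∀ H : Finset (Pl L), Sum.inr w ∈ H →
      (∀ v ∈ H, ar v = 0 ∧ av v (ps x t1 t2 - 1) = w (ps x t1 t2 - 1)) →
      Hv δ (ps x t1 t2) H (fun _ => Real.log (nq w)) T ∧
        Real.log p ≤ ∑ _v ∈ H, Real.log (nq w) := by
    intro H hm hv
    have h1 : Real.log (nq w) ≤ ∑ _v ∈ H, Real.log (nq w) :=
      Finset.single_le_sum (f := fun _ => Real.log (nq w)) (fun _ _ => hln.le) hm
    refine ⟨⟨fun v hv' => ⟨hln, by rw [(hv v hv').1]; exact hln.le⟩,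
      fun v hv' => by rw [(hv v hv').2, hwE], ?_⟩, hlpn.trans h1⟩
    rw [hW] at hht
    exact hht.trans (mul_le_mul_of_nonneg_left h1 hT0)
  have key : ∀ c : ℝ, 0 ≤ c → 6 * c ≤ 12 + 12 * Cm + 6 * Cb + 6 * Cc → ∀ U : ℝ, 0 ≤ U →
      U ≤ (432 * NN x y) ^ (3 / 4 + 6 * σ) → (T : ℝ) ≤ c * U * Rad x y ^ σ →
      Bd ε ((12 + 12 * Cm + 6 * Cb + 6 * Cc) * 432 / (σ * δ)) x y t1 t2 := by
    intro c hc0 hc1 U hU0 hU hTU
    refine fin (6 * T) hmain ?_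
    have h1 : U * Rad x y ^ σ ≤ (432 * NN x y) ^ (3 / 4 + 6 * σ) * NN x y ^ σ :=
      mul_le_mul hU hRZ hR0 (by linarith)
    have h2 : c * (U * Rad x y ^ σ) ≤ c * ((432 * NN x y) ^ (3 / 4 + 6 * σ) * NN x y ^ σ) :=
      mul_le_mul_of_nonneg_left h1 hc0
    have h3 := mul_le_mul_of_nonneg_right hc1
      (show 0 ≤ (432 * NN x y) ^ (3 / 4 + 6 * σ) * NN x y ^ σ by linarith)
    rw [mul_assoc] at hTU ⊢
    nlinarith
  by_cases htri : Tri w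
  swap
  · have hcol := cp_col hAdw (hBR L x y t1 t2 t3 hc p w hpp hp5 hwp hg hw1 htri)
    obtain ⟨h1, h2⟩ := hHv {Sum.inr w} (Finset.mem_singleton_self _) (fun v hv => by
      rw [Finset.mem_singleton.mp hv]; exact ⟨rfl, rfl⟩)
    have h3 := hM L x y t1 t2 t3 hc a hSq _ _ T 2 h1 (hlm.trans h2) (by norm_num) hcol
    refine key (Cm * 2) (by positivity) (by linarith) _ (Real.rpow_nonneg hD0.le _) ?_ h3
    exact (Real.rpow_le_rpow hD0.le hD2 (by linarith)).trans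
      (Real.rpow_le_rpow_of_exponent_le (by linarith) (by linarith))
  obtain ⟨n, hn1, hn2'⟩ := hBE L x y t1 t2 t3 hc p w T hpp hp5 hwp hg hT1 hwT htri
  obtain ⟨hDp, b, hb1, hb2⟩ := hD3 p T n hpp hT1 hg hn1 hn2'
  obtain ⟨H, hm, h2c, hdeg, hv, hcol⟩ := hBU L x y t1 t2 t3 hc p w hpp hp5 hwp hg hw1 htri
  obtain ⟨h1, h2⟩ := hHv H hm hv
  have hU : Unr δ x y t1 t2 p w H T := ⟨hpp, hwp, hwψ, hm, h2c, hdeg, h1, hcol⟩
  have hc34 : 0 ≤ 3 / 4 + 6 * σ := by linarith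
  by_cases hrc : Real.log (DD x y a) / 2 ≤ (1 / 6 - 4 * σ) * Real.log p
  · have h3 := hC L x y t1 t2 t3 hc a hSq b hb1 p w H T hU hb2 hlc hrc
    rw [mul_assoc Cc] at h3
    refine key Cc (by linarith) (by linarith) _ (by positivity) ?_ h3
    exact cp_pow _ _ _ _ _ _ hp0' hD0 hDp hc34 (cp_nc _ _ _ hσ hl4 hLd hrc)
  push Not at hrc
  by_cases hrb : 2 * (Qs x y).card + Real.log (DD x y a) / 2 ≤ (1 / 2 - 6 * σ) * Real.log p
  · have h3 := hB L x y t1 t2 t3 hc a hSq p w H T hU hlb hrb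
    refine key Cb (by linarith) (by linarith) _ hp0'.le ?_ h3
    have h4 := cp_pow p (DD x y a) _ 1 0 _ hp0' hD0 hDp hc34 (cp_nb _ _ _ hσ hσ1 hl4 hrc)
    rwa [Real.rpow_one, Real.rpow_zero, mul_one] at h4
  push Not at hrb
  have h3 := hM L x y t1 t2 t3 hc a hSq _ _ T (p + 1) h1 (hlm.trans h2) (by linarith)
    (cp_col hAdw hcol)
  have h4 := cp_pow p (DD x y a) _ 1 (1 / 2 + σ) _ hp0' hD0 hDp hc34
    (cp_na _ _ _ _ hσ hl4 hLd (by linarith) hrb)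
  rw [Real.rpow_one] at h4
  refine key (Cm * 2) (by positivity) (by linarith) _ (by positivity) h4 (h3.trans ?_)
  refine mul_le_mul_of_nonneg_right ?_ hR0
  have h5 : 0 ≤ DD x y a ^ (1 / 2 + σ) := Real.rpow_nonneg hD0.le _
  have h6 : Cm * (p + 1) ≤ Cm * 2 * p := by nlinarith
  nlinarith

theorem main_few (η : ℝ) (hη : 0 < η) (Q B : Finset ℕ) (hQ : ∀ q ∈ Q, q.Prime) (hB : B ⊆ Q)
    (h2 : 2 ≤ ∏ q ∈ Q, (q : ℝ))
    (hb : ∀ q ∈ B, η * Real.log (∏ q ∈ Q, (q : ℝ)) ≤ Real.log q) : η * B.card ≤ 1 := by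
  have hl : 0 < Real.log (∏ q ∈ Q, (q : ℝ)) := Real.log_pos (by linarith)
  have h1 : Real.log (∏ q ∈ Q, (q : ℝ)) = ∑ q ∈ Q, Real.log q :=
    Real.log_prod (fun q hq => by exact_mod_cast (hQ q hq).ne_zero)
  have h3 : ∑ q ∈ B, Real.log q ≤ ∑ q ∈ Q, Real.log q :=
    Finset.sum_le_sum_of_subset_of_nonneg hB (fun q _ _ => Real.log_natCast_nonneg q)
  have h4 : (B.card : ℝ) * (η * Real.log (∏ q ∈ Q, (q : ℝ))) ≤ ∑ q ∈ B, Real.log q := by
    have := Finset.card_nsmul_le_sum B (fun q => Real.log q) _ hb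
    simpa [nsmul_eq_mul] using this
  have h5 : (η * B.card) * Real.log (∏ q ∈ Q, (q : ℝ)) ≤ 1 * Real.log (∏ q ∈ Q, (q : ℝ)) := by
    nlinarith
  exact le_of_mul_le_mul_right h5 hl

theorem main_bd {L : Type} [Field L] [NumberField L] {ε C C' : ℝ} {x y : ℤ} {t1 t2 : L}
    (hN : 0 ≤ NN x y) (h : C ≤ C') (hb : Bd ε C x y t1 t2) : Bd ε C' x y t1 t2 := by
  unfold Bd at *
  exact hb.trans (mul_le_mul_of_nonneg_right h (Real.rpow_nonneg hN _))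

theorem main_row (hCA : CA_s) (hCS : CS_s) (hCP : CP_s) (hHT1 : HT1_s) (hALG : ALG_s) (hVAL : VAL_s) (hVAL2 : VAL2_s) (hPF : PF_s) : MAIN_s := by
  classical
  intro ε hε
  obtain ⟨Ca, hCa, hA⟩ := hCA (1 / 36) ε (by norm_num) hε
  obtain ⟨η, hη, hS0⟩ := hCS (1 / 6) ε (by norm_num) hε
  obtain ⟨c0, hc0, Cp, hCp, hP⟩ := hCP (η / 36) ε (by positivity) hε
  obtain ⟨Cs, hCs, hS⟩ := hS0 c0 hc0
  refine ⟨12 + Ca + Cs + Cp, by positivity, ?_⟩
  intro L _ _ x y t1 t2 t3 hc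
  obtain ⟨-, -, -, -, -, -, ⟨hp0, hp1⟩, -, -, -, -, -, hq, -, hQp, hR2, hRN⟩ :=
    hALG L x y t1 t2 t3 hc.toCub0
  have hN1 : 1 ≤ NN x y := by linarith
  have hN0 : 0 ≤ NN x y := by linarith
  have hd : (finrank ℚ L : ℝ) ≤ 6 := by exact_mod_cast hc.d6
  by_cases h12 : ht (ps x t1 t2) ≤ 12
  · have h1 : 1 ≤ NN x y ^ (3 / 4 + ε) := Real.one_le_rpow hN1 (by positivity)
    unfold Bd
    nlinarith
  push Not at h12
  obtain ⟨-, H, hH1, hH2⟩ := hHT1 L _ hp0 hp1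
  rw [Finset.sum_sum_eq_sum_toLeft_add_sum_toRight] at hH2
  by_cases ha : ∃ φ : L →+* ℂ, 1 / 36 * ht (ps x t1 t2) ≤ -lg (Sum.inl φ) (ps x t1 t2 - 1)
  · obtain ⟨φ, hφ⟩ := ha
    exact main_bd hN0 (by linarith) (hA L x y t1 t2 t3 hc φ hφ)
  push Not at ha
  have hL : ∑ φ ∈ H.toLeft, -lg (Sum.inl φ) (ps x t1 t2 - 1) ≤ ht (ps x t1 t2) / 6 := by
    have h1 := Finset.sum_le_card_nsmul H.toLeft (fun φ => -lg (Sum.inl φ) (ps x t1 t2 - 1))
      (1 / 36 * ht (ps x t1 t2)) (fun φ _ => (ha φ).le)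
    have h2 : (H.toLeft.card : ℝ) ≤ 6 := by
      have h3 : H.toLeft.card ≤ Fintype.card (L →+* ℂ) := Finset.card_le_univ _
      rw [NumberField.Embeddings.card L ℂ] at h3
      have : (H.toLeft.card : ℝ) ≤ finrank ℚ L := by exact_mod_cast h3
      linarith
    rw [nsmul_eq_mul] at h1
    nlinarith
  set sm : FinitePlace L → Prop := fun w => ∃ q ∈ Qs x y, w (q : L) < 1 ∧
      Real.log q ≤ c0 + c0 * (Qs x y).card + η * Real.log (Rad x y) with hsm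
  have hw1 : ∀ w ∈ H.toRight, w (ps x t1 t2 - 1) < 1 := fun w hw =>
    hH1 _ (Finset.mem_toRight.mp hw)
  rw [← Finset.sum_filter_add_sum_filter_not H.toRight sm] at hH2
  by_cases hs : 1 / 6 * ht (ps x t1 t2) ≤
      ∑ w ∈ H.toRight.filter sm, -lg (Sum.inr w) (ps x t1 t2 - 1)
  · refine main_bd hN0 (by linarith) (hS L x y t1 t2 t3 hc _ ?_ hs)
    intro w hw
    exact ⟨hw1 w (Finset.mem_filter.mp hw).1, (Finset.mem_filter.mp hw).2⟩
  push Not at hs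
  set Bg := H.toRight.filter (fun w => ¬sm w) with hBg
  have hbig : 1 / 6 * ht (ps x t1 t2) ≤ ∑ w ∈ Bg, -lg (Sum.inr w) (ps x t1 t2 - 1) := by
    linarith
  set B := (Qs x y).filter (fun q : ℕ =>
    c0 + c0 * (Qs x y).card + η * Real.log (Rad x y) ≤ Real.log q) with hB
  have hcov : ∀ w ∈ Bg, ∃ q ∈ B, w (q : L) < 1 := by
    intro w hw
    obtain ⟨hw2, hw3⟩ := Finset.mem_filter.mp hw
    obtain ⟨-, -, q, hq1, hq2⟩ := hq w (hw1 w hw2)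
    refine ⟨q, Finset.mem_filter.mpr ⟨hq1, ?_⟩, hq2⟩
    by_contra hcon
    exact hw3 ⟨q, hq1, hq2, (not_le.mp hcon).le⟩
  have hc00 : 0 ≤ c0 * (Qs x y).card := by positivity
  have hBc : η * B.card ≤ 1 := by
    refine main_few η hη (Qs x y) B hQp (Finset.filter_subset _ _) hR2 ?_
    intro q hq'
    have := (Finset.mem_filter.mp hq').2
    change η * Real.log (Rad x y) ≤ _
    linarith
  have hGc : Bg.card ≤ B.card * 6 := by
    have h1 : Bg ⊆ B.biUnion (fun q => Bg.filter (fun w => w (q : L) < 1)) := by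
      intro w hw
      obtain ⟨q, hq1, hq2⟩ := hcov w hw
      exact Finset.mem_biUnion.mpr ⟨q, hq1, Finset.mem_filter.mpr ⟨hw, hq2⟩⟩
    refine (Finset.card_le_card h1).trans (Finset.card_biUnion_le_card_mul _ _ _ ?_)
    intro q hq'
    exact (hVAL2 L q (hQp q (Finset.mem_filter.mp hq').1) _
      (fun w hw => (Finset.mem_filter.mp hw).2)).2.trans hc.d6
  have hex : ∃ w ∈ Bg, η / 36 * ht (ps x t1 t2) ≤ -lg (Sum.inr w) (ps x t1 t2 - 1) := by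
    by_contra hcon
    push Not at hcon
    have hne : Bg.Nonempty := by
      by_contra he
      rw [Finset.not_nonempty_iff_eq_empty] at he
      rw [he, Finset.sum_empty] at hbig
      linarith
    have h1 := Finset.sum_lt_sum_of_nonempty hne hcon
    rw [Finset.sum_const, nsmul_eq_mul] at h1
    have h2 : (Bg.card : ℝ) ≤ B.card * 6 := by exact_mod_cast hGc
    have h3 : η * Bg.card ≤ 6 := by nlinarith
    nlinarith
  obtain ⟨w, hw, hw2⟩ := hex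
  obtain ⟨q, hq1, hq2⟩ := hcov w hw
  obtain ⟨hq3, hq4⟩ := Finset.mem_filter.mp hq1
  have hlr : 0 ≤ η * Real.log (Rad x y) := mul_nonneg hη.le (Real.log_nonneg (by linarith))
  exact main_bd hN0 (by linarith)
    (hP L x y t1 t2 t3 hc q w hq3 hq2 (by linarith) (hw1 w (Finset.mem_filter.mp hw).1) hw2)

theorem top_one (S : Finset ℕ) (hS : ∀ q ∈ S, q.Prime) : (1 : ℝ) ≤ ∏ q ∈ S, (q : ℝ) := by
  have h : 1 ≤ ∏ q ∈ S, q := Nat.succ_le_of_lt (Finset.prod_pos fun q hq => (hS q hq).pos)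
  rw [← Nat.cast_prod]
  exact_mod_cast h

theorem top_rad (x y : ℤ) (hz : x ^ 3 - y ^ 2 ≠ 0) :
    Rad x y ≤ 6 * ∏ p ∈ (x ^ 3 - y ^ 2).natAbs.primeFactors, (p : ℝ) := by
  have hn : (x ^ 3 - y ^ 2).natAbs ≠ 0 := Int.natAbs_ne_zero.2 hz
  have e : Qs x y = Nat.primeFactors 6 ∪ (x ^ 3 - y ^ 2).natAbs.primeFactors := by
    unfold Qs
    rw [Int.natAbs_mul, ← Nat.primeFactors_mul (by norm_num) hn]; rfl
  have e6 : Nat.primeFactors 6 = {2, 3} := by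
    rw [show (6 : ℕ) = 2 * 3 from rfl, Nat.primeFactors_mul (by norm_num) (by norm_num),
      Nat.prime_two.primeFactors, Nat.prime_three.primeFactors]; rfl
  have hu := Finset.prod_union_inter (s₁ := Nat.primeFactors 6)
    (s₂ := (x ^ 3 - y ^ 2).natAbs.primeFactors) (f := fun q : ℕ => (q : ℝ))
  have h1 := top_one (Nat.primeFactors 6 ∩ (x ^ 3 - y ^ 2).natAbs.primeFactors)
    (fun q hq => Nat.prime_of_mem_primeFactors (Finset.mem_inter.1 hq).1)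
  have h6 : ∏ q ∈ Nat.primeFactors 6, (q : ℝ) = 6 := by
    rw [e6, Finset.prod_pair (by norm_num)]; norm_num
  have h0 : (0 : ℝ) ≤ ∏ q ∈ Nat.primeFactors 6 ∪ (x ^ 3 - y ^ 2).natAbs.primeFactors, (q : ℝ) :=
    Finset.prod_nonneg fun q _ => Nat.cast_nonneg q
  unfold Rad
  rw [e, ← h6, ← hu]
  exact le_mul_of_one_le_right h0 h1

theorem top_row (hMAIN : MAIN_s) (hSTR : STR_s) (hDEG : DEG_s) (hRAT : RAT_s) (hHTL : HTL_s) (hGCD : GCD_s) (hALG : ALG_s) : TOP_s := by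
  intro ε hε
  have hε' : (0 : ℝ) < 3 / 4 + ε := by linarith
  obtain ⟨C1, hC1, h1⟩ := hMAIN ε hε
  obtain ⟨C2, hC2, h2⟩ := hRAT (3 / 4 + ε) hε'
  refine ⟨(6 * C1 + 41 + C2) * (6 : ℝ) ^ (3 / 4 + ε), fun x y hne hp => ?_⟩
  have hz : x ^ 3 - y ^ 2 ≠ 0 := sub_ne_zero.2 hne
  have hp' : Prim x y := hp
  have hR1 : (1 : ℝ) ≤ Rad x y := top_one _ fun q hq => Nat.prime_of_mem_primeFactors hq
  have hG1 : (1 : ℝ) ≤ ∏ q ∈ (Int.gcd x y).primeFactors, (q : ℝ) :=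
    top_one _ fun q hq => Nat.prime_of_mem_primeFactors hq
  have hZ1 : (1 : ℝ) ≤ ∏ q ∈ (x ^ 3 - y ^ 2).natAbs.primeFactors, (q : ℝ) :=
    top_one _ fun q hq => Nat.prime_of_mem_primeFactors hq
  have hRN : Rad x y ≤ NN x y := le_mul_of_one_le_right (by linarith) hG1
  have hN1 : (1 : ℝ) ≤ NN x y := hR1.trans hRN
  have hN6 : NN x y ≤ 6 * ((∏ p ∈ (x ^ 3 - y ^ 2).natAbs.primeFactors, (p : ℝ)) *
      ∏ p ∈ (Int.gcd x y).primeFactors, (p : ℝ)) := by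
    rw [← mul_assoc]
    exact mul_le_mul_of_nonneg_right (top_rad x y hz) (by linarith)
  have hpow : NN x y ^ (3 / 4 + ε) ≤ (6 : ℝ) ^ (3 / 4 + ε) *
      ((∏ p ∈ (x ^ 3 - y ^ 2).natAbs.primeFactors, (p : ℝ)) *
      ∏ p ∈ (Int.gcd x y).primeFactors, (p : ℝ)) ^ (3 / 4 + ε) := by
    rw [← Real.mul_rpow (by norm_num) (by positivity)]
    exact Real.rpow_le_rpow (by linarith) hN6 hε'.le
  have hP1 : (1 : ℝ) ≤ NN x y ^ (3 / 4 + ε) := Real.one_le_rpow hN1 hε'.le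
  have key : Real.log (max (|(x : ℝ)| ^ 3) ((y : ℝ) ^ 2)) ≤
      (6 * C1 + 41 + C2) * NN x y ^ (3 / 4 + ε) := by
    rcases hSTR x y hp' hz with ⟨t1, t2, t3, s1, s2, s3⟩ | ⟨L, _, _, t1, t2, t3, hc⟩
    · have h := h2 x y t1 t2 t3 hp' hz s1 s2 s3
      have h3 : Rad x y ^ (3 / 4 + ε) ≤ NN x y ^ (3 / 4 + ε) :=
        Real.rpow_le_rpow (by linarith) hRN hε'.le
      have h4 := mul_le_mul_of_nonneg_left h3 hC2
      nlinarith
    · have hc' := hDEG L x y t1 t2 t3 hc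
      have h := hHTL L x y t1 t2 t3 hc'
      have h3 : ht (ps x t1 t2) ≤ C1 * NN x y ^ (3 / 4 + ε) := h1 L x y t1 t2 t3 hc'
      have h4 := (hGCD x y hp' hz).1.2
      have h5 : Real.log (Rad x y) ≤ Rad x y ^ (3 / 4 : ℝ) / (3 / 4) :=
        Real.log_le_rpow_div (by linarith) (by norm_num)
      have h6 : Rad x y ^ (3 / 4 : ℝ) ≤ NN x y ^ (3 / 4 + ε) :=
        (Real.rpow_le_rpow (by linarith) hRN (by norm_num)).trans
          (Real.rpow_le_rpow_of_exponent_le hN1 (by linarith))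
      have h7 : 0 ≤ C2 * NN x y ^ (3 / 4 + ε) := by positivity
      nlinarith
  refine key.trans ?_
  rw [mul_assoc]
  exact mul_le_mul_of_nonneg_left hpow (by positivity)

theorem red_rad {a b : ℕ} (h : a ∣ b) (hb : b ≠ 0) :
    ∏ p ∈ a.primeFactors, (p : ℝ) ≤ ∏ p ∈ b.primeFactors, (p : ℝ) := by
    rw [← Nat.cast_prod, ← Nat.cast_prod, Nat.cast_le]
    exact prod_le_prod_of_subset_of_one_le' (Nat.primeFactors_mono h hb)
      fun p hp _ => (Nat.prime_of_mem_primeFactors hp).one_le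

theorem red_row (hTOP : TOP_s) : ∀ ε : ℝ, 0 < ε → ∃ C : ℝ, ∀ x y : ℤ, x ^ 3 ≠ y ^ 2 →
    Real.log (max (|(x : ℝ)| ^ 3) ((y : ℝ) ^ 2)) ≤ Real.log (Int.gcd (x ^ 3) (y ^ 2)) +
      C * ((∏ p ∈ (x ^ 3 - y ^ 2).natAbs.primeFactors, (p : ℝ)) *
        ∏ p ∈ (Int.gcd x y).primeFactors, (p : ℝ)) ^ (3 / 4 + ε) := by
  intro ε hε
  obtain ⟨C, hC⟩ := hTOP ε hε
  refine ⟨max C 0, fun x y => ?_⟩
  induction hn : x.natAbs + y.natAbs using Nat.strong_induction_on generalizing x y with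
  | _ n ih =>
    intro hxy
    have hne : ¬(x = 0 ∧ y = 0) := fun h => hxy (by rw [h.1, h.2]; norm_num)
    by_cases hp : ∀ q : ℕ, q.Prime → ¬((q : ℤ) ^ 2 ∣ x ∧ (q : ℤ) ^ 3 ∣ y)
    · refine (hC x y hxy hp).trans (le_add_of_nonneg_of_le (Real.log_natCast_nonneg _) ?_)
      exact mul_le_mul_of_nonneg_right (le_max_left _ _) (by positivity)
    · push Not at hp
      obtain ⟨q, hq, ⟨x', rfl⟩, ⟨y', rfl⟩⟩ := hp
      have hq0 : (0 : ℝ) < q := by exact_mod_cast hq.pos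
      have hq0' : (q : ℤ) ≠ 0 := by exact_mod_cast hq.ne_zero
      have hz : ((q : ℤ) ^ 2 * x') ^ 3 - ((q : ℤ) ^ 3 * y') ^ 2 = q ^ 6 * (x' ^ 3 - y' ^ 2) := by
        ring
      have hxy' : x' ^ 3 ≠ y' ^ 2 := fun e => hxy (by rw [← sub_eq_zero, hz, e, sub_self, mul_zero])
      have hne' : ¬(x' = 0 ∧ y' = 0) := fun h => hxy' (by rw [h.1, h.2]; norm_num)
      have hlt : x'.natAbs + y'.natAbs < n := by
        rw [← hn, Int.natAbs_mul, Int.natAbs_mul, Int.natAbs_pow, Int.natAbs_pow, Int.natAbs_natCast]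
        have h2 : 2 ≤ q ^ 2 := hq.two_le.trans (Nat.le_self_pow (by norm_num) q)
        have h3 : 2 ≤ q ^ 3 := hq.two_le.trans (Nat.le_self_pow (by norm_num) q)
        have h4 := Nat.mul_le_mul_right x'.natAbs h2
        have h5 := Nat.mul_le_mul_right y'.natAbs h3
        omega
      have h1 := ih _ hlt x' y' rfl hxy'
      have hm : max (|(((q : ℤ) ^ 2 * x' : ℤ) : ℝ)| ^ 3) ((((q : ℤ) ^ 3 * y' : ℤ) : ℝ) ^ 2) =
          (q : ℝ) ^ 6 * max (|(x' : ℝ)| ^ 3) ((y' : ℝ) ^ 2) := by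
        rw [mul_max_of_nonneg _ _ (by positivity)]
        push_cast
        rw [abs_mul, abs_of_nonneg (by positivity : (0 : ℝ) ≤ (q : ℝ) ^ 2)]
        ring_nf
      have hg : Int.gcd (((q : ℤ) ^ 2 * x') ^ 3) (((q : ℤ) ^ 3 * y') ^ 2) =
          q ^ 6 * Int.gcd (x' ^ 3) (y' ^ 2) := by
        rw [show ((q : ℤ) ^ 2 * x') ^ 3 = q ^ 6 * x' ^ 3 by ring,
          show ((q : ℤ) ^ 3 * y') ^ 2 = q ^ 6 * y' ^ 2 by ring, Int.gcd_mul_left, Int.natAbs_pow,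
          Int.natAbs_natCast]
      have hm0 : 0 < max (|(x' : ℝ)| ^ 3) ((y' : ℝ) ^ 2) := by
        rcases not_and_or.1 hne' with h | h
        · have : (x' : ℝ) ≠ 0 := by exact_mod_cast h
          exact lt_max_of_lt_left (by positivity)
        · have : (y' : ℝ) ≠ 0 := by exact_mod_cast h
          exact lt_max_of_lt_right (by positivity)
      have hg0 : (Int.gcd (x' ^ 3) (y' ^ 2) : ℝ) ≠ 0 := by
        have : Int.gcd (x' ^ 3) (y' ^ 2) ≠ 0 := fun e => hne' (by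
          have := Int.gcd_eq_zero_iff.1 e
          exact ⟨pow_eq_zero_iff (by norm_num) |>.1 this.1, pow_eq_zero_iff (by norm_num) |>.1 this.2⟩)
        exact_mod_cast this
      have r1 := red_rad (a := (x' ^ 3 - y' ^ 2).natAbs)
        (b := (((q : ℤ) ^ 2 * x') ^ 3 - ((q : ℤ) ^ 3 * y') ^ 2).natAbs)
        (Int.natAbs_dvd_natAbs.2 (hz ▸ dvd_mul_left _ _)) (Int.natAbs_ne_zero.2 (sub_ne_zero.2 hxy))
      have r2 := red_rad (a := Int.gcd x' y') (b := Int.gcd ((q : ℤ) ^ 2 * x') ((q : ℤ) ^ 3 * y'))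
        (Int.dvd_gcd ((Int.gcd_dvd_left _ _).mul_left _) ((Int.gcd_dvd_right _ _).mul_left _))
        (fun e => hne (Int.gcd_eq_zero_iff.1 e))
      rw [hm, hg, Nat.cast_mul, Nat.cast_pow, Real.log_mul (by positivity) hm0.ne',
        Real.log_mul (by positivity) hg0, add_assoc]
      refine add_le_add le_rfl (h1.trans (add_le_add le_rfl ?_))
      refine mul_le_mul_of_nonneg_left (Real.rpow_le_rpow (by positivity) ?_ (by positivity))
        (le_max_right _ _)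
      exact mul_le_mul r1 r2 (by positivity) (by positivity)

end Pool.Agent.MP_2a5a28_nt.H15Z
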