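import Pool.Agent.MP_2a5a28_nt.H15Z.R1
import Pool.Agent.MP_2a5a28_nt.H15Z.R2
import Pool.Agent.MP_2a5a28_nt.H15Z.R3
import Pool.Agent.MP_2a5a28_nt.H15Z.R4
import Pool.Agent.MP_2a5a28_nt.H15Z.R5

set_option autoImplicit false

namespace Pool.Agent.MP_2a5a28_nt.H15Z

theorem top : TOP_s := by
  have hCNT : CNT_s := cnt_row 
  have hSIEG : SIEG_s := sieg_row 
  have hZEDN : ZEDN_s := zedn_row 
  have hPF : PF_s := pf_row 
  have hVAL : VAL_s := val_row 
  have hHT : HT_s := ht_row hPF hVAL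
  have hHT1 : HT1_s := ht1_row hPF
  have hSUM : SUM_s := sum_row 
  have hLOCA : LOCA_s := loca_row 
  have hLOCN : LOCN_s := locn_row 
  have hLIOU : LIOU_s := liou_row hPF hSUM hLOCA hLOCN
  have hCORE : CORE_s := core_row hCNT hSIEG hZEDN hHT hHT1 hLIOU hPF
  have hKILL : KILL_s := kill_row hCORE
  have hCOST : COST_s := cost_row hPF hVAL
  have hRHO : RHO_s := rho_row 
  have hALG : ALG_s := alg_row hVAL
  have hIDL : IDL_s := idl_row hRHO
  have hMINK : MINK_s := mink_row 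
  have hICNT : ICNT_s := icnt_row 
  have hMAT : MAT_s := mat_row hRHO hIDL hMINK hICNT
  have hDISC2 : DISC2_s := disc2_row hALG
  have hDISC3 : DISC3_s := disc3_row hALG
  have hFAMM : FAMM_s := famm_row hALG hMAT hDISC2 hDISC3
  have hFEW : FEW_s := few_row 
  have hGM : GM_s := gm_row hKILL hCOST hRHO hFAMM hFEW hALG
  have hCOLA : COLA_s := cola_row 
  have hADM : ADM_s := adm_row hVAL hRHO hALG
  have hGCD : GCD_s := gcd_row 
  have hSQF : SQF_s := sqf_row hGCD
  have hCA : CA_s := ca_row hGM hCOLA hADM hSQF hFEW hALG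
  have hGAL : GAL_s := gal_row hVAL
  have hCOLN : COLN_s := coln_row hVAL hGAL
  have hSEL : SEL_s := sel_row 
  have hVAL2 : VAL2_s := val2_row 
  have hCS : CS_s := cs_row hGM hCOLN hADM hSQF hFEW hALG hSEL hVAL hVAL2
  have hUNM : UNM_s := unm_row hRHO hIDL hMINK
  have hFAMU : FAMU_s := famu_row hALG hUNM hDISC2 hDISC3
  have hUNIT : UNIT_s := unit_row hPF hVAL
  have hGB : GB_s := gb_row hKILL hCOST hRHO hFAMU hFEW hALG hUNIT hVAL
  have hANC : ANC_s := anc_row 
  have hGC : GC_s := gc_row hKILL hCOST hRHO hFAMM hFEW hALG hUNIT hVAL hANC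
  have hROOT : ROOT_s := root_row hVAL hGAL
  have hBR : BR_s := br_row hVAL hALG hROOT
  have hINER : INER_s := iner_row hVAL hGAL
  have hBE : BE_s := be_row hVAL hALG hINER
  have hFROB : FROB_s := frob_row hVAL hGAL
  have hRES : RES_s := res_row hVAL hGAL
  have hBU : BU_s := bu_row hVAL hALG hGAL hFROB hRES hROOT
  have hEXC : EXC_s := exc_row hVAL hALG hGCD
  have hCP : CP_s := cp_row hGM hGB hGC hBR hBE hBU hEXC hADM hSQF hALG hVAL
  have hMAIN : MAIN_s := main_row hCA hCS hCP hHT1 hALG hVAL hVAL2 hPF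
  have hSTR : STR_s := str_row 
  have hDEG : DEG_s := deg_row hALG
  have hRAT : RAT_s := rat_row hGCD
  have hHTL : HTL_s := htl_row hPF hVAL hALG
  have hTOP : TOP_s := top_row hMAIN hSTR hDEG hRAT hHTL hGCD hALG
  exact hTOP

end Pool.Agent.MP_2a5a28_nt.H15Z
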